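import Mathlib

/-!
A subspace of the continuous functions on a compact space without positive elements is annihilated
by a probability measure.
-/

open MeasureTheory Set CompactlySupported
open scoped Topology

set_option autoImplicit false

noncomputable section

namespace Pool.Agent.Helper62.KP

variable {Z : Type*} [TopologicalSpace Z] [CompactSpace Z] [T2Space Z]
  [MeasurableSpace Z] [BorelSpace Z]

/-- the separation -/
theorem exists_functional (V : Submodule ℝ C(Z, ℝ)) (hV : ∀ f ∈ V, ∃ z, f z ≤ 0) :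
    ∃ Λ : C(Z, ℝ) →ₗ[ℝ] ℝ, (∀ f : C(Z, ℝ), (∀ z, 0 ≤ f z) → 0 ≤ Λ f) ∧ Λ 1 = 1 ∧
      ∀ f ∈ V, Λ f = 0 := by
  obtain ⟨s, hs⟩ : ∃ s : Set C(Z, ℝ), s = {f | ∀ z, f z < 0} := ⟨_, rfl⟩
  have hopen : IsOpen s := by
    have h1 := ContinuousMap.isOpen_setOf_mapsTo (X := Z) (Y := ℝ) (K := univ)
      isCompact_univ (isOpen_Iio (a := (0 : ℝ)))
    convert h1 using 1
    rw [hs]
    ext f
    simp [MapsTo]
  have hconv : Convex ℝ s := by
    intro f hf g hg a b ha hb hab
    rw [hs] at hf hg ⊢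
    intro z
    have h1 : f z < 0 := hf z
    have h2 : g z < 0 := hg z
    change a * f z + b * g z < 0
    rcases ha.eq_or_lt with h | h
    · have hb1 : b = 1 := by linarith
      rw [← h, hb1]; linarith
    · nlinarith [mul_nonneg hb (neg_nonneg.2 h2.le), mul_pos h (neg_pos.2 h1)]
  have hdisj : Disjoint s (V : Set C(Z, ℝ)) := by
    rw [Set.disjoint_left]
    intro f hf hfV
    rw [hs] at hf
    obtain ⟨z, hz⟩ := hV (-f) (V.neg_mem hfV)
    have h1 : f z < 0 := hf z
    have h2 : -(f z) ≤ 0 := hz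
    linarith
  obtain ⟨Λ, u, h1, h2⟩ := geometric_hahn_banach_open hconv hopen V.convex hdisj
  have hu : u ≤ 0 := by
    have := h2 0 V.zero_mem
    rwa [map_zero] at this
  have hV0 : ∀ f ∈ V, Λ f = 0 := by
    intro f hf
    by_contra hne
    have h3 : ∀ t : ℝ, u ≤ t * Λ f := by
      intro t
      have := h2 (t • f) (V.smul_mem t hf)
      rwa [map_smul] at this
    have h4 := h3 ((u - 1) / Λ f)
    rw [div_mul_cancel₀ _ hne] at h4
    linarith
  have h10 : 0 < Λ 1 := by
    have h3 : (-1 : C(Z, ℝ)) ∈ s := by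
      rw [hs]
      intro z
      simp
    have h4 := h1 _ h3
    rw [map_neg] at h4
    linarith
  refine ⟨(Λ 1)⁻¹ • (Λ : C(Z, ℝ) →ₗ[ℝ] ℝ), ?_, ?_, ?_⟩
  · intro f hf
    have h3 : ∀ ε : ℝ, 0 < ε → -(ε * Λ 1) < Λ f := by
      intro ε hε
      have h4 : -f - ε • (1 : C(Z, ℝ)) ∈ s := by
        rw [hs]
        intro z
        have := hf z
        change -(f z) - ε * 1 < 0
        linarith
      have h5 := h1 _ h4
      rw [map_sub, map_neg, map_smul, smul_eq_mul] at h5
      linarith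
    have h4 : 0 ≤ Λ f := by
      by_contra hneg
      push Not at hneg
      have h5 := h3 (-(Λ f) / Λ 1) (by apply div_pos _ h10; linarith)
      rw [div_mul_cancel₀ _ h10.ne'] at h5
      linarith
    exact mul_nonneg (inv_nonneg.2 h10.le) h4
  · exact inv_mul_cancel₀ h10.ne'
  · intro f hf
    change (Λ 1)⁻¹ * Λ f = 0
    rw [hV0 f hf, mul_zero]

theorem exists_measure (V : Submodule ℝ C(Z, ℝ)) (hV : ∀ f ∈ V, ∃ z, f z ≤ 0) :
    ∃ μ : Measure Z, IsProbabilityMeasure μ ∧ ∀ f ∈ V, ∫ z, f z ∂μ = 0 := by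
  obtain ⟨Λ, hpos, hone, hann⟩ := exists_functional V hV
  let T : C_c(Z, ℝ) →ₗ[ℝ] ℝ :=
    { toFun := fun f => Λ f.toContinuousMap
      map_add' := fun f g => Λ.map_add f.toContinuousMap g.toContinuousMap
      map_smul' := fun c f => Λ.map_smul c f.toContinuousMap }
  let P : C_c(Z, ℝ) →ₚ[ℝ] ℝ := PositiveLinearMap.mk₀ T (fun f hf => hpos f.toContinuousMap hf)
  have key : ∀ f : C(Z, ℝ), ∫ z, f z ∂(RealRMK.rieszMeasure P) = Λ f := by
    intro f
    have h1 := RealRMK.integral_rieszMeasure P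
      (⟨f, HasCompactSupport.of_compactSpace f⟩ : C_c(Z, ℝ))
    exact h1
  haveI hfin : IsFiniteMeasure (RealRMK.rieszMeasure P) := inferInstance
  refine ⟨RealRMK.rieszMeasure P, ?_, ?_⟩
  · have h1 := key 1
    rw [hone] at h1
    simp only [ContinuousMap.one_apply, integral_const, smul_eq_mul, mul_one] at h1
    refine ⟨?_⟩
    have h2 : (RealRMK.rieszMeasure P).real univ = 1 := h1
    rw [Measure.real, ENNReal.toReal_eq_one_iff] at h2
    exact h2
  · intro f hf
    rw [key f, hann f hf]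

end Pool.Agent.Helper62.KP
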