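import Pool.Agent.Helper62.KP.Prs
import Pool.Agent.Helper62.KP.Dual

/-!
The compact space of flat pairs; duality.
-/

open Bundle Manifold ContDiff ContinuousLinearMap Filter VectorField MeasureTheory
open scoped Topology

set_option autoImplicit false
set_option synthInstance.maxHeartbeats 400000
set_option maxHeartbeats 4000000
set_option linter.unusedSectionVars false

noncomputable section

namespace Pool.Agent.Helper62.KP

open Pool.Agent.H821R2 Pool.Agent.H821R3 Pool.Agent.H893R5.HO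

variable {E : Type*} [NormedAddCommGroup E] [NormedSpace ℝ E] [FiniteDimensional ℝ E]
  {M : Type*} [TopologicalSpace M] [ChartedSpace E M] [IsManifold 𝓘(ℝ, E) ∞ M]
  [T2Space M] [CompactSpace M]
  (g : ContMDiffRiemannianMetric 𝓘(ℝ, E) ∞ E (fun x : M => TangentSpace 𝓘(ℝ, E) x))
  {cov : CovariantDerivative 𝓘(ℝ, E) E (TangentSpace 𝓘(ℝ, E) : M → Type _)}

/-- the orthonormal pairs -/
def OP : Set (Prs 𝓘(ℝ, E) M) := {z | OrthoPair g z.1 z.2.1 z.2.2}

/-- the flat orthonormal pairs -/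
def FP (R : CurvField 𝓘(ℝ, E) M) : Set (Prs 𝓘(ℝ, E) M) :=
  {z | OrthoPair g z.1 z.2.1 z.2.2 ∧ sec g R z.1 z.2.1 z.2.2 = 0}

variable {g}

theorem PF_mem {N : ℕ} (D : FrameData 𝓘(ℝ, E) M (Fin N)) {z : Prs 𝓘(ℝ, E) M} (hz : z ∈ OP g) :
    PF D z ∈ PL g D := ⟨z.2.1, z.2.2, hz, rfl, rfl⟩

theorem OP_eq {N : ℕ} (D : FrameData 𝓘(ℝ, E) M (Fin N)) : OP g = PE D '' PL g D := by
  ext z
  constructor
  · intro hz
    exact ⟨PF D z, PF_mem D hz, PE_PF D z⟩
  · rintro ⟨⟨x, a, b⟩, ⟨u, v, huv, ha, hb⟩, rfl⟩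
    have ez : (x, a, b) = (x, Fv D x u, Fv D x v) := Prod.ext rfl (Prod.ext ha hb)
    rw [ez]
    change OrthoPair g x (Ev D x (Fv D x u)) (Ev D x (Fv D x v))
    rw [Ev_Fv, Ev_Fv]
    exact huv

theorem isCompact_OP : IsCompact (OP g) := by
  obtain ⟨N, D, -⟩ := exists_frame 𝓘(ℝ, E) M
  rw [OP_eq D]
  exact (isCompact_PL g D).image (cont_PE D)

theorem cont_sec' (h : IsLeviCivita g cov) {R : CurvField 𝓘(ℝ, E) M} (hR : IsRiemannTensor cov R) :
    Continuous (fun z : Prs 𝓘(ℝ, E) M => sec g R z.1 z.2.1 z.2.2) := by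
  obtain ⟨N, D, -⟩ := exists_frame 𝓘(ℝ, E) M
  obtain ⟨k, hkc, hk⟩ := exists_cont_sec D h hR
  have e : (fun z : Prs 𝓘(ℝ, E) M => sec g R z.1 z.2.1 z.2.2) = k ∘ PF D := by
    ext z
    exact (hk z.1 z.2.1 z.2.2).symm
  rw [e]
  exact hkc.comp (cont_PF D)

theorem isCompact_FP (h : IsLeviCivita g cov) {R : CurvField 𝓘(ℝ, E) M}
    (hR : IsRiemannTensor cov R) : IsCompact (FP g R) := by
  have e : FP g R = OP g ∩ (fun z : Prs 𝓘(ℝ, E) M => sec g R z.1 z.2.1 z.2.2) ⁻¹' {0} := rfl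
  rw [e]
  exact isCompact_OP.inter_right (isClosed_singleton.preimage (cont_sec' h hR))

theorem isClosed_FP (h : IsLeviCivita g cov) {R : CurvField 𝓘(ℝ, E) M}
    (hR : IsRiemannTensor cov R) : IsClosed (FP g R) := by
  have := t2_prs (I := 𝓘(ℝ, E)) (M := M)
  exact (isCompact_FP h hR).isClosed

theorem cont_foot : Continuous (fun z : Prs 𝓘(ℝ, E) M => z.1) := by
  obtain ⟨N, D, -⟩ := exists_frame 𝓘(ℝ, E) M
  exact continuous_fst.comp (cont_PF D)

theorem cont_d {f : M → ℝ} (hf : Sm 𝓘(ℝ, E) f) :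
    Continuous (fun z : Prs 𝓘(ℝ, E) M => mvfderiv 𝓘(ℝ, E) f z.1 z.2.1) ∧
    Continuous (fun z : Prs 𝓘(ℝ, E) M => mvfderiv 𝓘(ℝ, E) f z.1 z.2.2) := by
  have hd := (cont_diag (I := 𝓘(ℝ, E)) (M := M)).continuous
  have h := cont_der (I := 𝓘(ℝ, E)) hf
  exact ⟨h.comp (continuous_fst.comp hd), h.comp (continuous_snd.comp hd)⟩

/-- the trace of the Hessian on the plane -/
def TH (cov : CovariantDerivative 𝓘(ℝ, E) E (TangentSpace 𝓘(ℝ, E) : M → Type _)) (f : M → ℝ)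
    (z : Prs 𝓘(ℝ, E) M) : ℝ := hes cov f z.1 z.2.1 + hes cov f z.1 z.2.2

/-- the square of the differential on the plane -/
def DQ (f : M → ℝ) (z : Prs 𝓘(ℝ, E) M) : ℝ :=
  mvfderiv 𝓘(ℝ, E) f z.1 z.2.1 ^ 2 + mvfderiv 𝓘(ℝ, E) f z.1 z.2.2 ^ 2

theorem cont_TH (h : IsLeviCivita g cov) {f : M → ℝ} (hf : Sm 𝓘(ℝ, E) f) :
    Continuous (TH cov f) := by
  obtain ⟨N, D, -⟩ := exists_frame 𝓘(ℝ, E) M
  obtain ⟨m, hmc, hm⟩ := exists_cont_hes D h hf
  have e : TH cov f = fun z => m ((PF D z).1, (PF D z).2.1) + m ((PF D z).1, (PF D z).2.2) := by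
    ext z
    unfold TH PF
    rw [hm, hm]
  rw [e]
  have c := cont_PF D
  exact (hmc.comp ((continuous_fst.comp c).prodMk (continuous_fst.comp (continuous_snd.comp c)))).add
    (hmc.comp ((continuous_fst.comp c).prodMk (continuous_snd.comp (continuous_snd.comp c))))

theorem cont_DQ {f : M → ℝ} (hf : Sm 𝓘(ℝ, E) f) : Continuous (DQ (E := E) f) :=
  ((cont_d hf).1.pow 2).add ((cont_d hf).2.pow 2)

/-- the first variation as a function of the pair -/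
def LP (h : Π x : M, TangentSpace 𝓘(ℝ, E) x →L[ℝ] TangentSpace 𝓘(ℝ, E) x →L[ℝ] ℝ)
    (cov : CovariantDerivative 𝓘(ℝ, E) E (TangentSpace 𝓘(ℝ, E) : M → Type _))
    (z : Prs 𝓘(ℝ, E) M) : ℝ := LV h cov z.1 z.2.1 z.2.2

theorem contOn_LP [Nontrivial E]
    {h : Π x : M, TangentSpace 𝓘(ℝ, E) x →L[ℝ] TangentSpace 𝓘(ℝ, E) x →L[ℝ] ℝ}
    (hh : SymTensor h) (hc : IsLeviCivita g cov) {R : CurvField 𝓘(ℝ, E) M}
    (hR : IsRiemannTensor cov R) : ContinuousOn (LP h cov) (OP g) := by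
  obtain ⟨N, D, -⟩ := exists_frame 𝓘(ℝ, E) M
  have e : LP h cov = ell D h cov ∘ PF D := by
    ext z
    exact (ell_eq D z.1 z.2.1 z.2.2).symm
  rw [e]
  exact (continuousOn_ell D hh hc hR).comp (cont_PF D).continuousOn fun z hz => PF_mem D hz

section lin

variable {b b' h : Π x : M, TangentSpace 𝓘(ℝ, E) x →L[ℝ] TangentSpace 𝓘(ℝ, E) x →L[ℝ] ℝ} {s : ℝ}

theorem LP_lin (hc : IsLeviCivita g cov) (hb : SymTensor b) (hh : SymTensor h)
    (hbb : ∀ x (v w : TangentSpace 𝓘(ℝ, E) x), b' x v w = b x v w + s * h x v w)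
    (z : Prs 𝓘(ℝ, E) M) : LP b' cov z = LP b cov z + s * LP h cov z :=
  LF_lin hc hb.smooth hh.smooth hbb (xt_smooth _ _) (xt_smooth _ _) _

theorem symTensor_zero : SymTensor (fun x : M =>
    (0 : TangentSpace 𝓘(ℝ, E) x →L[ℝ] TangentSpace 𝓘(ℝ, E) x →L[ℝ] ℝ)) where
  smooth := Bundle.contMDiff_zeroSection ℝ
    (fun x : M => TangentSpace 𝓘(ℝ, E) x →L[ℝ] TangentSpace 𝓘(ℝ, E) x →L[ℝ] Bundle.Trivial M ℝ x)
  symm x v w := rfl

theorem SymTensor.lin (hb : SymTensor b) (hh : SymTensor h) (s : ℝ) :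
    SymTensor (fun x => b x + s • h x) where
  smooth := ContMDiff.add_section hb.smooth (ContMDiff.const_smul_section hh.smooth)
  symm x v w := by
    rw [add_apply, add_apply, add_apply, add_apply, smul_apply, smul_apply, smul_apply,
      smul_apply, hb.symm x v w, hh.symm x v w]

end lin

/-- **Duality.** -/
theorem exists_mu [Nontrivial E] (hc : IsLeviCivita g cov) {R : CurvField 𝓘(ℝ, E) M}
    (hR : IsRiemannTensor cov R)
    (hno : ∀ h : Π x : M, TangentSpace 𝓘(ℝ, E) x →L[ℝ] TangentSpace 𝓘(ℝ, E) x →L[ℝ] ℝ,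
      SymTensor h → ∃ z ∈ FP g R, LP h cov z ≤ 0) :
    ∃ μ : Measure (Prs 𝓘(ℝ, E) M), IsProbabilityMeasure μ ∧ μ (FP g R)ᶜ = 0 ∧
      ∀ h : Π x : M, TangentSpace 𝓘(ℝ, E) x →L[ℝ] TangentSpace 𝓘(ℝ, E) x →L[ℝ] ℝ,
        SymTensor h → Integrable (LP h cov) μ ∧ ∫ z, LP h cov z ∂μ = 0 := by
  have hT2 := t2_prs (I := 𝓘(ℝ, E)) (M := M)
  have hcomp := isCompact_FP hc hR
  have hCS : CompactSpace (FP g R) := isCompact_iff_compactSpace.1 hcomp
  have hcont : ∀ h : Π x : M, TangentSpace 𝓘(ℝ, E) x →L[ℝ] TangentSpace 𝓘(ℝ, E) x →L[ℝ] ℝ,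
      SymTensor h → Continuous (fun z : FP g R => LP h cov z) := fun h hh =>
    ((contOn_LP hh hc hR).mono fun z hz => hz.1).domRestrict
  have hz0 : LP (fun x : M =>
      (0 : TangentSpace 𝓘(ℝ, E) x →L[ℝ] TangentSpace 𝓘(ℝ, E) x →L[ℝ] ℝ)) cov =
      fun _ => (0 : ℝ) := by
    ext z
    have := LP_lin (s := 1) hc (symTensor_zero (M := M)) (symTensor_zero (M := M))
      (b' := fun x : M => (0 : TangentSpace 𝓘(ℝ, E) x →L[ℝ] TangentSpace 𝓘(ℝ, E) x →L[ℝ] ℝ))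
      (fun x v w => by simp) z
    linarith
  let V : Submodule ℝ C(FP g R, ℝ) :=
    { carrier := {f | ∃ h : Π x : M, TangentSpace 𝓘(ℝ, E) x →L[ℝ]
        TangentSpace 𝓘(ℝ, E) x →L[ℝ] ℝ, SymTensor h ∧ ∀ z : FP g R, f z = LP h cov z}
      zero_mem' := ⟨_, symTensor_zero, fun z => by rw [hz0]; rfl⟩
      add_mem' := by
        rintro f f' ⟨h, hh, hf⟩ ⟨h', hh', hf'⟩
        refine ⟨_, hh.lin hh' 1, fun z => ?_⟩
        rw [LP_lin hc hh hh' (fun x v w => by rfl) z.1]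
        change f z + f' z = _
        rw [hf, hf']
        ring
      smul_mem' := by
        rintro c f ⟨h, hh, hf⟩
        refine ⟨_, symTensor_zero.lin hh c, fun z => ?_⟩
        rw [LP_lin hc symTensor_zero hh (fun x v w => by rfl) z.1, hz0]
        change c * f z = _
        rw [hf]
        ring }
  obtain ⟨μ, hμ, hann⟩ := exists_measure V (by
    rintro f ⟨h, hh, hf⟩
    obtain ⟨z, hz, hle⟩ := hno h hh
    exact ⟨⟨z, hz⟩, by rw [hf]; exact hle⟩)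
  have hemb : MeasurableEmbedding (Subtype.val : FP g R → Prs 𝓘(ℝ, E) M) :=
    MeasurableEmbedding.subtype_coe hcomp.isClosed.measurableSet
  refine ⟨μ.map Subtype.val, Measure.isProbabilityMeasure_map hemb.measurable.aemeasurable, ?_, ?_⟩
  · rw [Measure.map_apply hemb.measurable hcomp.isClosed.measurableSet.compl]
    have : (Subtype.val ⁻¹' (FP g R)ᶜ : Set (FP g R)) = ∅ := by
      ext z
      simp
    rw [this, measure_empty]
  · intro h hh
    constructor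
    · rw [hemb.integrable_map_iff]
      exact (hcont h hh).integrable_of_hasCompactSupport (HasCompactSupport.of_compactSpace _)
    · rw [hemb.integral_map]
      exact hann ⟨_, hcont h hh⟩ ⟨h, hh, fun z => rfl⟩

end Pool.Agent.Helper62.KP
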