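import Pool.Agent.Helper62.KP.Alt1

/-!
Properties of the annihilating measures.
-/

open Bundle Manifold ContDiff ContinuousLinearMap Filter VectorField MeasureTheory
open scoped Topology

set_option autoImplicit false
set_option synthInstance.maxHeartbeats 400000
set_option maxHeartbeats 4000000
set_option linter.unusedSectionVars false

noncomputable section

namespace Pool.Agent.Helper62.KP

open Pool.Agent.H821R2 Pool.Agent.H821R3 Pool.Agent.H893R5.HO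

variable {E : Type*} [NormedAddCommGroup E] [NormedSpace ℝ E] [FiniteDimensional ℝ E]
  {M : Type*} [TopologicalSpace M] [ChartedSpace E M] [IsManifold 𝓘(ℝ, E) ∞ M]
  [T2Space M] [CompactSpace M]
  {g : ContMDiffRiemannianMetric 𝓘(ℝ, E) ∞ E (fun x : M => TangentSpace 𝓘(ℝ, E) x)}
  {cov : CovariantDerivative 𝓘(ℝ, E) E (TangentSpace 𝓘(ℝ, E) : M → Type _)}
  {R : CurvField 𝓘(ℝ, E) M}

/-- conformal directions -/
theorem LP_cg (h : IsLeviCivita g cov) (hR : IsRiemannTensor cov R) {φ : M → ℝ}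
    (hφ : Sm 𝓘(ℝ, E) φ) {z : Prs 𝓘(ℝ, E) M} (hz : z ∈ FP g R) :
    LP (cg g φ) cov z = - (1 / 2) * TH cov φ z := by
  obtain ⟨⟨h1, h2, h3⟩, h0⟩ := hz
  unfold LP LV
  have e := LF_cg h hR hφ (xt_smooth (I := 𝓘(ℝ, E)) z.1 z.2.1) (xt_smooth z.1 z.2.2) z.1
    (by rw [xt_self]; exact h1) (by rw [xt_self]; exact h2) (by rw [xt_self, xt_self]; exact h3)
  rw [e]
  unfold TH hes
  have h0' : g.inner z.1 (R z.1 z.2.1 z.2.2 z.2.2) z.2.1 = 0 := h0
  simp only [der_apply, xt_self]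
  rw [h0']
  change z.1 |> φ |> (· * (0 : ℝ)) |> (· - (1 / 2) * ((mvfderiv 𝓘(ℝ, E)
    (fun y => mvfderiv 𝓘(ℝ, E) φ y (xt z.1 z.2.1 y)) z.1 z.2.1 - _) +
    (mvfderiv 𝓘(ℝ, E) (fun y => mvfderiv 𝓘(ℝ, E) φ y (xt z.1 z.2.2 y)) z.1 z.2.2 - _))) |>
    (· = _)
  ring

/-- Killing directions -/
theorem LP_kill [Nontrivial E] (h : IsLeviCivita g cov) (hR : IsRiemannTensor cov R)
    (hnn : ∀ (x : M) (u v : TangentSpace 𝓘(ℝ, E) x), LinearIndependent ℝ ![u, v] →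
      0 ≤ sectionalCurvature g R x u v)
    {X : Π x : M, TangentSpace 𝓘(ℝ, E) x} (hX : IsKilling g cov X)
    {z : Prs 𝓘(ℝ, E) M} (hz : z ∈ FP g R) :
    LP (sq g X) cov z = - 3 * g.inner z.1 (cov X z.1 z.2.1) z.2.2 ^ 2 := by
  obtain ⟨-, h0⟩ := hz
  unfold LP LV
  have e := LF_kill h hR hnn hX (xt_smooth (I := 𝓘(ℝ, E)) z.1 z.2.1) (xt_smooth z.1 z.2.2) z.1
    (by rw [xt_self, xt_self]; exact h0)
  rw [e, xt_self, xt_self]

section meas

variable {μ : Measure (Prs 𝓘(ℝ, E) M)}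

theorem ae_FP (hs : μ (FP g R)ᶜ = 0) : ∀ᵐ z ∂μ, z ∈ FP g R := hs

theorem int_TH (h : IsLeviCivita g cov) (hR : IsRiemannTensor cov R) (hs : μ (FP g R)ᶜ = 0)
    (hann : ∀ h : Π x : M, TangentSpace 𝓘(ℝ, E) x →L[ℝ] TangentSpace 𝓘(ℝ, E) x →L[ℝ] ℝ,
        SymTensor h → Integrable (LP h cov) μ ∧ ∫ z, LP h cov z ∂μ = 0) {φ : M → ℝ}
    (hφ : Sm 𝓘(ℝ, E) φ) : Integrable (TH cov φ) μ ∧ ∫ z, TH cov φ z ∂μ = 0 := by
  obtain ⟨h1, h2⟩ := hann (cg g φ) (cg_sym hφ)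
  have e : LP (cg g φ) cov =ᵐ[μ] fun z => - (1 / 2) * TH cov φ z := by
    filter_upwards [ae_FP hs] with z hz
    exact LP_cg h hR hφ hz
  rw [integral_congr_ae e, integral_const_mul] at h2
  have h3 : Integrable (fun z => - (1 / 2) * TH cov φ z) μ := h1.congr e
  constructor
  · have h4 := h3.const_mul (-2)
    refine h4.congr ?_
    filter_upwards with z
    ring
  · linarith

/-- **Killing fields.** -/
theorem ae_kill [Nontrivial E] (h : IsLeviCivita g cov) (hR : IsRiemannTensor cov R)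
    (hnn : ∀ (x : M) (u v : TangentSpace 𝓘(ℝ, E) x), LinearIndependent ℝ ![u, v] →
      0 ≤ sectionalCurvature g R x u v) (hs : μ (FP g R)ᶜ = 0)
    (hann : ∀ h : Π x : M, TangentSpace 𝓘(ℝ, E) x →L[ℝ] TangentSpace 𝓘(ℝ, E) x →L[ℝ] ℝ,
        SymTensor h → Integrable (LP h cov) μ ∧ ∫ z, LP h cov z ∂μ = 0)
    {X : Π x : M, TangentSpace 𝓘(ℝ, E) x} (hX : IsKilling g cov X) :
    ∀ᵐ z ∂μ, g.inner z.1 (cov X z.1 z.2.1) z.2.2 = 0 := by
  obtain ⟨h1, h2⟩ := hann (sq g X) (sq_sym hX.smooth)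
  have e : LP (sq g X) cov =ᵐ[μ] fun z => - 3 * g.inner z.1 (cov X z.1 z.2.1) z.2.2 ^ 2 := by
    filter_upwards [ae_FP hs] with z hz
    exact LP_kill h hR hnn hX hz
  rw [integral_congr_ae e, integral_const_mul] at h2
  have h3 : Integrable (fun z : Prs 𝓘(ℝ, E) M =>
      g.inner z.1 (cov X z.1 z.2.1) z.2.2 ^ 2) μ := by
    have h4 := (h1.congr e).const_mul (-(1 / 3))
    refine h4.congr ?_
    filter_upwards with z
    ring
  have h5 : ∫ z : Prs 𝓘(ℝ, E) M, g.inner z.1 (cov X z.1 z.2.1) z.2.2 ^ 2 ∂μ = 0 := by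
    linarith
  rw [integral_eq_zero_iff_of_nonneg (fun z => sq_nonneg _) h3] at h5
  filter_upwards [h5] with z hz
  exact pow_eq_zero_iff (two_ne_zero) |>.1 hz

end meas

end Pool.Agent.Helper62.KP
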