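import Pool.Agent.Helper62.KP.Var2

/-!
Sets of zero two-dimensional Hausdorff measure; nonnegativity of the curvature by density.
-/

open Bundle Manifold ContDiff ContinuousLinearMap Filter VectorField
open scoped Topology NNReal

set_option autoImplicit false
set_option synthInstance.maxHeartbeats 400000
set_option maxHeartbeats 4000000
set_option linter.unusedSectionVars false

noncomputable section

namespace Pool.Agent.Helper62.KP

open Pool.Agent.H821R2 Pool.Agent.H821R3 Pool.Agent.H893R5.HO

/-- An open set of zero two-dimensional measure in dimension at least two is empty. -/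
theorem open_null_empty {n : ℕ} (hn : 2 ≤ n) {U : Set (EuclideanSpace ℝ (Fin n))} (hU : IsOpen U)
    (h0 : MeasureTheory.Measure.hausdorffMeasure 2 U = 0) : U = ∅ := by
  have h1 : MeasureTheory.Measure.hausdorffMeasure (n : ℝ) U = 0 := by
    rcases eq_or_lt_of_le hn with h | h
    · subst h; exact_mod_cast h0
    · have h2 : (2 : ℝ) < n := by exact_mod_cast h
      rcases MeasureTheory.Measure.hausdorffMeasure_zero_or_top h2 U with h3 | h3
      · exact h3
      · rw [h0] at h3
        exact absurd h3 (by simp)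
  have h2 : (Module.finrank ℝ (EuclideanSpace ℝ (Fin n)) : ℝ) = n := by
    rw [finrank_euclideanSpace_fin]
  rw [← h2] at h1
  exact (hU.measure_eq_zero_iff _).1 h1

section

variable {E : Type*} [NormedAddCommGroup E] [NormedSpace ℝ E] [FiniteDimensional ℝ E]
  {M : Type*} [TopologicalSpace M] [ChartedSpace E M] [IsManifold 𝓘(ℝ, E) ∞ M]
  [T2Space M] [CompactSpace M] [Nontrivial E]
  {g : ContMDiffRiemannianMetric 𝓘(ℝ, E) ∞ E (fun x : M => TangentSpace 𝓘(ℝ, E) x)}
  {cov : CovariantDerivative 𝓘(ℝ, E) E (TangentSpace 𝓘(ℝ, E) : M → Type _)}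

/-- a negatively curved plane has negatively curved neighbours -/
theorem neg_nhds (h : IsLeviCivita g cov) {R : CurvField 𝓘(ℝ, E) M} (hR : IsRiemannTensor cov R)
    {x : M} {u v : TangentSpace 𝓘(ℝ, E) x} (huv : LinearIndependent ℝ ![u, v])
    (hneg : g.inner x (R x u v v) u < 0) :
    ∀ᶠ y in 𝓝 x, ∃ u' v' : TangentSpace 𝓘(ℝ, E) y, LinearIndependent ℝ ![u', v'] ∧
      g.inner y (R y u' v' v') u' < 0 := by
  have hX := xt_smooth (I := 𝓘(ℝ, E)) x u
  have hY := xt_smooth (I := 𝓘(ℝ, E)) x v
  have c1 : Continuous (fun y : M => g.inner y (R y (xt x u y) (xt x v y) (xt x v y))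
      (xt x u y)) := by
    have e1 : (fun y : M => g.inner y (R y (xt x u y) (xt x v y) (xt x v y))
      (xt x u y)) = gi g (curv cov (xt x u) (xt x v) (xt x v)) (xt x u) := by
      ext y
      rw [hR hX hY hY y]
      rfl
    rw [e1]
    refine (gi_smooth ?_ hX).continuous
    have t1 := nabla_smooth h hX (nabla_smooth h hY hY)
    have t2 := nabla_smooth h hY (nabla_smooth h hX hY)
    have t3 := nabla_smooth h (smooth_bracket hX hY) hY
    exact (t1.sub_section t2).sub_section t3
  have c2 : Continuous (fun y : M => gi g (xt x u) (xt x u) y * gi g (xt x v) (xt x v) y -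
      gi g (xt x u) (xt x v) y ^ 2) :=
    ((gi_smooth hX hX).continuous.mul (gi_smooth hY hY).continuous).sub
      ((gi_smooth hX hY).continuous.pow 2)
  have hpos : 0 < gi g (xt x u) (xt x u) x * gi g (xt x v) (xt x v) x -
      gi g (xt x u) (xt x v) x ^ 2 := by
    unfold gi
    rw [xt_self, xt_self]
    have hu : u ≠ 0 := by simpa using huv.ne_zero 0
    have huu := g.pos x u hu
    have hw0 : v - (g.inner x u v / g.inner x u u) • u ≠ 0 := by
      intro hh
      rw [sub_eq_zero] at hh
      rw [LinearIndependent.pair_iff] at huv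
      have := huv (g.inner x u v / g.inner x u u) (-1) (by rw [← hh]; simp)
      norm_num at this
    have hww := g.pos x _ hw0
    have e : g.inner x (v - (g.inner x u v / g.inner x u u) • u)
        (v - (g.inner x u v / g.inner x u u) • u) =
        (g.inner x u u * g.inner x v v - g.inner x u v ^ 2) / g.inner x u u := by
      rw [in_sub_left]
      simp only [map_sub, map_smul, smul_apply, smul_eq_mul]
      rw [g.symm x v u]
      field_simp
      ring
    rw [e] at hww
    exact (div_pos_iff_of_pos_right huu).1 hww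
  have ev1 : ∀ᶠ y in 𝓝 x, g.inner y (R y (xt x u y) (xt x v y) (xt x v y)) (xt x u y) < 0 := by
    refine c1.continuousAt.eventually_lt continuousAt_const ?_
    rw [xt_self, xt_self]
    exact hneg
  have ev2 : ∀ᶠ y in 𝓝 x, 0 < gi g (xt x u) (xt x u) y * gi g (xt x v) (xt x v) y -
      gi g (xt x u) (xt x v) y ^ 2 :=
    continuousAt_const.eventually_lt c2.continuousAt hpos
  filter_upwards [ev1, ev2] with y h1 h2
  refine ⟨xt x u y, xt x v y, ?_, h1⟩
  rw [LinearIndependent.pair_iff]
  intro s t hst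
  unfold gi at h2
  obtain ⟨a, ha⟩ : ∃ a, a = g.inner y (xt x u y) (xt x u y) := ⟨_, rfl⟩
  obtain ⟨b, hb⟩ : ∃ b, b = g.inner y (xt x u y) (xt x v y) := ⟨_, rfl⟩
  obtain ⟨c, hc⟩ : ∃ c, c = g.inner y (xt x v y) (xt x v y) := ⟨_, rfl⟩
  have e1 : s * a + t * b = 0 := by
    have : g.inner y (xt x u y) (s • xt x u y + t • xt x v y) = 0 := by rw [hst, map_zero]
    rw [map_add, map_smul, map_smul, ← ha, ← hb] at this
    exact this
  have e2 : s * b + t * c = 0 := by
    have : g.inner y (xt x v y) (s • xt x u y + t • xt x v y) = 0 := by rw [hst, map_zero]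
    rw [map_add, map_smul, map_smul, g.symm y (xt x v y) (xt x u y), ← hb, ← hc] at this
    exact this
  rw [← ha, ← hb, ← hc] at h2
  have e3 : s * (a * c - b ^ 2) = 0 := by linear_combination c * e1 - b * e2
  have e4 : t * (a * c - b ^ 2) = 0 := by linear_combination a * e2 - b * e1
  exact ⟨(mul_eq_zero.1 e3).resolve_right h2.ne', (mul_eq_zero.1 e4).resolve_right h2.ne'⟩

end

section

open MeasureTheory

variable {n : ℕ} {M : Type*} [TopologicalSpace M] [ChartedSpace (EuclideanSpace ℝ (Fin n)) M]
  [IsManifold (𝓡 n) ∞ M]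

/-- the set has empty interior -/
theorem null_interior (hn : 2 ≤ n) {S O : Set M}
    (hS : ∀ p : M, μH[2] (chartAt (EuclideanSpace ℝ (Fin n)) p ''
      (S ∩ (chartAt (EuclideanSpace ℝ (Fin n)) p).source)) = 0) (hO : IsOpen O) (hOS : O ⊆ S) :
    O = ∅ := by
  by_contra hne
  obtain ⟨x, hx⟩ := Set.nonempty_iff_ne_empty.2 hne
  have h1 : IsOpen (chartAt (EuclideanSpace ℝ (Fin n)) x ''
      (O ∩ (chartAt (EuclideanSpace ℝ (Fin n)) x).source)) := by
    rw [Set.inter_comm]
    exact (chartAt (EuclideanSpace ℝ (Fin n)) x).isOpen_image_source_inter hO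
  have h2 : μH[2] (chartAt (EuclideanSpace ℝ (Fin n)) x ''
      (O ∩ (chartAt (EuclideanSpace ℝ (Fin n)) x).source)) = 0 :=
    measure_mono_null (Set.image_mono (Set.inter_subset_inter_left _ hOS)) (hS x)
  have h3 := open_null_empty hn h1 h2
  have h4 : chartAt (EuclideanSpace ℝ (Fin n)) x x ∈ chartAt (EuclideanSpace ℝ (Fin n)) x ''
      (O ∩ (chartAt (EuclideanSpace ℝ (Fin n)) x).source) :=
    ⟨x, ⟨hx, mem_chart_source _ x⟩, rfl⟩
  rw [h3] at h4
  exact h4

end

end Pool.Agent.Helper62.KP
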