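import Pool.Agent.Helper62.KP.Alt2
import Pool.Agent.Helper62.KP.Dense

/-!
Annihilating measures vanish over sets of zero two-dimensional Hausdorff measure.
-/

open Bundle Manifold ContDiff ContinuousLinearMap Filter VectorField MeasureTheory
open scoped Topology

set_option autoImplicit false
set_option synthInstance.maxHeartbeats 400000
set_option maxHeartbeats 4000000
set_option linter.unusedSectionVars false

noncomputable section

namespace Pool.Agent.Helper62.KP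

open Pool.Agent.H821R2 Pool.Agent.H821R3 Pool.Agent.H893R5.HO

variable {E : Type*} [NormedAddCommGroup E] [NormedSpace ℝ E] [FiniteDimensional ℝ E]
  {M : Type*} [TopologicalSpace M] [ChartedSpace E M] [IsManifold 𝓘(ℝ, E) ∞ M]
  [T2Space M] [CompactSpace M]
  {g : ContMDiffRiemannianMetric 𝓘(ℝ, E) ∞ E (fun x : M => TangentSpace 𝓘(ℝ, E) x)}
  {cov : CovariantDerivative 𝓘(ℝ, E) E (TangentSpace 𝓘(ℝ, E) : M → Type _)}
  {R : CurvField 𝓘(ℝ, E) M} {N : ℕ} (D : FrameData 𝓘(ℝ, E) M (Fin N))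

/-- quantitative version of `exists_fun` -/
theorem exists_fun2 (h : IsLeviCivita g cov) (hinj : ∀ x y : M, (∀ i, D.f i x = D.f i y) → x = y) :
    ∃ c : ℝ, 0 < c ∧ ∀ S : Set M, IsClosed S → μH[2] (Fm D '' S) = 0 → ∀ δ : ℝ, 0 < δ →
      ∃ w : M → ℝ, Sm 𝓘(ℝ, E) w ∧
        (∀ x ∈ S, ∀ (u v : TangentSpace 𝓘(ℝ, E) x), OrthoPair g x u v →
          c ≤ hes cov w x u + hes cov w x v) ∧
        (∀ (x : M) (u v : TangentSpace 𝓘(ℝ, E) x), OrthoPair g x u v →
          -δ ≤ hes cov w x u + hes cov w x v) := by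
  classical
  obtain ⟨C, c, hC, hc, hpot⟩ := exists_pot D h hinj
  refine ⟨c / 2, by positivity, ?_⟩
  intro S hS hnull δ hδ
  have hT : IsCompact (Fm D '' S) := hS.isCompact.image (continuous_Fm D)
  obtain ⟨J, cc, r, hJ, hcov, hsum⟩ := exists_finite_cover hT hnull
    (show 0 < min (c / (2 * (C + 1))) (δ / (C + 1)) by positivity)
  have hsum1 := hsum.trans (min_le_left _ _)
  have hsum2 := hsum.trans (min_le_right _ _)
  have hex : ∀ k : ℕ, ∃ w : M → ℝ, Sm 𝓘(ℝ, E) w ∧ (k ∈ J →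
      (∀ (x : M) (u v : TangentSpace 𝓘(ℝ, E) x), OrthoPair g x u v →
        -C ≤ hes cov w x u + hes cov w x v) ∧
      (∀ x : M, ‖Fm D x - cc k‖ ≤ r k → ∀ (u v : TangentSpace 𝓘(ℝ, E) x), OrthoPair g x u v →
        c / r k ^ 2 - C ≤ hes cov w x u + hes cov w x v)) := by
    intro k
    by_cases hk : k ∈ J
    · obtain ⟨⟨p, hp, hpk⟩, hr⟩ := hJ k hk
      obtain ⟨w, hw, h1, h2⟩ := hpot p (r k) hr
      refine ⟨w, hw, fun _ => ⟨h1, ?_⟩⟩
      rw [← hpk]
      exact h2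
    · exact ⟨fun _ => 0, Sm.const 0, fun h' => absurd h' hk⟩
  choose w hw hwk using hex
  have hs : ∀ k, Sm 𝓘(ℝ, E) (fun y => r k ^ 2 * w k y) := fun k => Sm.cmul _ (hw k)
  have e : ∀ (x : M) (u v : TangentSpace 𝓘(ℝ, E) x),
      hes cov (fun y => ∑ k ∈ J, r k ^ 2 * w k y) x u +
      hes cov (fun y => ∑ k ∈ J, r k ^ 2 * w k y) x v =
      ∑ k ∈ J, r k ^ 2 * (hes cov (w k) x u + hes cov (w k) x v) := by
    intro x u v
    rw [hes_sum J hs, hes_sum J hs, ← Finset.sum_add_distrib]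
    refine Finset.sum_congr rfl fun k _ => ?_
    rw [hes_cmul _ (hw k), hes_cmul _ (hw k)]
    ring
  refine ⟨fun y => ∑ k ∈ J, r k ^ 2 * w k y, sm_sum J hs, ?_, ?_⟩
  · intro x hx u v huv
    rw [e]
    obtain ⟨k, hk, hxk⟩ := Set.mem_iUnion₂.1 (hcov ⟨x, hx, rfl⟩)
    have hr : 0 < r k := (hJ k hk).2
    have h1 : c / r k ^ 2 - C ≤ hes cov (w k) x u + hes cov (w k) x v := by
      refine (hwk k hk).2 x ?_ u v huv
      rw [← dist_eq_norm]
      exact (Metric.mem_ball.1 hxk).le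
    rw [← Finset.add_sum_erase J _ hk]
    have h2 : c - C * r k ^ 2 ≤ r k ^ 2 * (hes cov (w k) x u + hes cov (w k) x v) := by
      have := mul_le_mul_of_nonneg_left h1 (sq_nonneg (r k))
      have e3 : r k ^ 2 * (c / r k ^ 2 - C) = c - C * r k ^ 2 := by
        field_simp
      linarith
    have h3 : -(C * ∑ j ∈ J.erase k, r j ^ 2) ≤
        ∑ j ∈ J.erase k, r j ^ 2 * (hes cov (w j) x u + hes cov (w j) x v) := by
      rw [Finset.mul_sum, ← Finset.sum_neg_distrib]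
      refine Finset.sum_le_sum fun j hj => ?_
      have h4 := (hwk j (Finset.mem_of_mem_erase hj)).1 x u v huv
      have := mul_le_mul_of_nonneg_left h4 (sq_nonneg (r j))
      linarith
    have h5 : r k ^ 2 + ∑ j ∈ J.erase k, r j ^ 2 = ∑ j ∈ J, r j ^ 2 :=
      Finset.add_sum_erase J (fun j => r j ^ 2) hk
    have h6 : C * ∑ j ∈ J, r j ^ 2 ≤ c / 2 := by
      have h7 : C * ∑ j ∈ J, r j ^ 2 ≤ C * (c / (2 * (C + 1))) :=
        mul_le_mul_of_nonneg_left hsum1 hC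
      have h8 : C * (c / (2 * (C + 1))) ≤ c / 2 := by
        rw [mul_div_assoc', div_le_div_iff₀ (by positivity) (by positivity)]
        nlinarith
      linarith
    have h9 : C * ∑ j ∈ J, r j ^ 2 = C * r k ^ 2 + C * ∑ j ∈ J.erase k, r j ^ 2 := by
      rw [← h5]; ring
    linarith
  · intro x u v huv
    rw [e]
    have h3 : -(C * ∑ j ∈ J, r j ^ 2) ≤
        ∑ j ∈ J, r j ^ 2 * (hes cov (w j) x u + hes cov (w j) x v) := by
      rw [Finset.mul_sum, ← Finset.sum_neg_distrib]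
      refine Finset.sum_le_sum fun j hj => ?_
      have h4 := (hwk j hj).1 x u v huv
      have := mul_le_mul_of_nonneg_left h4 (sq_nonneg (r j))
      linarith
    have h7 : C * ∑ j ∈ J, r j ^ 2 ≤ C * (δ / (C + 1)) :=
      mul_le_mul_of_nonneg_left hsum2 hC
    have h8 : C * (δ / (C + 1)) ≤ δ := by
      rw [mul_div_assoc', div_le_iff₀ (by positivity)]
      nlinarith
    linarith

variable {μ : Measure (Prs 𝓘(ℝ, E) M)} [IsFiniteMeasure μ]

/-- closed null sets -/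
theorem null_closed (h : IsLeviCivita g cov) (hs : μ (FP g R)ᶜ = 0)
    (hinj : ∀ x y : M, (∀ i, D.f i x = D.f i y) → x = y)
    (hT : ∀ φ : M → ℝ, Sm 𝓘(ℝ, E) φ → Integrable (TH cov φ) μ ∧ ∫ z, TH cov φ z ∂μ = 0)
    {S : Set M} (hS : IsClosed S) (hnull : μH[2] (Fm D '' S) = 0) :
    μ ((fun z : Prs 𝓘(ℝ, E) M => z.1) ⁻¹' S) = 0 := by
  obtain ⟨c, hc, hex⟩ := exists_fun2 (g := g) D h hinj
  have hmeas : MeasurableSet ((fun z : Prs 𝓘(ℝ, E) M => z.1) ⁻¹' S) :=
    (hS.preimage cont_foot).measurableSet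
  have key : ∀ δ : ℝ, 0 < δ → c * μ.real ((fun z : Prs 𝓘(ℝ, E) M => z.1) ⁻¹' S) ≤
      δ * μ.real Set.univ := by
    intro δ hδ
    obtain ⟨w, hw, h1, h2⟩ := hex S hS hnull δ hδ
    obtain ⟨hint, hzero⟩ := hT w hw
    have i1 : Integrable (((fun z : Prs 𝓘(ℝ, E) M => z.1) ⁻¹' S).indicator fun _ => c) μ :=
      (integrable_const c).indicator hmeas
    have i2 : Integrable (fun _ : Prs 𝓘(ℝ, E) M => δ) μ := integrable_const δ
    have i3 : Integrable (fun z => ((fun z : Prs 𝓘(ℝ, E) M => z.1) ⁻¹' S).indicator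
      (fun _ => c) z - δ) μ := i1.sub i2
    have hle : (fun z => ((fun z : Prs 𝓘(ℝ, E) M => z.1) ⁻¹' S).indicator (fun _ => c) z - δ)
        ≤ᵐ[μ] TH cov w := by
      filter_upwards [ae_FP hs] with z hz
      by_cases hzS : z ∈ (fun z : Prs 𝓘(ℝ, E) M => z.1) ⁻¹' S
      · rw [Set.indicator_of_mem hzS]
        have := h1 z.1 hzS z.2.1 z.2.2 hz.1
        unfold TH
        linarith
      · rw [Set.indicator_of_notMem hzS]
        have := h2 z.1 z.2.1 z.2.2 hz.1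
        unfold TH
        linarith
    have h3 := integral_mono_ae i3 hint hle
    rw [hzero, integral_sub i1 i2, integral_indicator_const _ hmeas, integral_const] at h3
    simp only [smul_eq_mul] at h3
    linarith
  have hr : μ.real ((fun z : Prs 𝓘(ℝ, E) M => z.1) ⁻¹' S) ≤ 0 := by
    by_contra hpos
    push Not at hpos
    have h0 : 0 ≤ μ.real (Set.univ : Set (Prs 𝓘(ℝ, E) M)) := measureReal_nonneg
    have h1 := key (c * μ.real ((fun z : Prs 𝓘(ℝ, E) M => z.1) ⁻¹' S) /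
      (2 * (μ.real (Set.univ : Set (Prs 𝓘(ℝ, E) M)) + 1))) (by positivity)
    have h2 : c * μ.real ((fun z : Prs 𝓘(ℝ, E) M => z.1) ⁻¹' S) /
      (2 * (μ.real (Set.univ : Set (Prs 𝓘(ℝ, E) M)) + 1)) *
        μ.real (Set.univ : Set (Prs 𝓘(ℝ, E) M)) <
        c * μ.real ((fun z : Prs 𝓘(ℝ, E) M => z.1) ⁻¹' S) := by
      rw [div_mul_eq_mul_div, div_lt_iff₀ (by positivity)]
      have : 0 < c * μ.real ((fun z : Prs 𝓘(ℝ, E) M => z.1) ⁻¹' S) := by positivity
      nlinarith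
    linarith
  have hr0 : μ.real ((fun z : Prs 𝓘(ℝ, E) M => z.1) ⁻¹' S) = 0 := le_antisymm hr measureReal_nonneg
  rwa [measureReal_eq_zero_iff] at hr0

/-- all null sets -/
theorem null_all (h : IsLeviCivita g cov) (hs : μ (FP g R)ᶜ = 0)
    (hinj : ∀ x y : M, (∀ i, D.f i x = D.f i y) → x = y)
    (hT : ∀ φ : M → ℝ, Sm 𝓘(ℝ, E) φ → Integrable (TH cov φ) μ ∧ ∫ z, TH cov φ z ∂μ = 0)
    {S : Set M} (hnull : μH[2] (Fm D '' S) = 0) :
    μ ((fun z : Prs 𝓘(ℝ, E) M => z.1) ⁻¹' S) = 0 := by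
  obtain ⟨G, hG⟩ : ∃ G, G = toMeasurable μH[2] (Fm D '' S) := ⟨_, rfl⟩
  have hGm : MeasurableSet G := by rw [hG]; exact measurableSet_toMeasurable _ _
  have hG0 : μH[2] G = 0 := by rw [hG, measure_toMeasurable]; exact hnull
  have hSG : Fm D '' S ⊆ G := by rw [hG]; exact subset_toMeasurable _ _
  have hcont : Continuous (fun z : Prs 𝓘(ℝ, E) M => Fm D z.1) := (continuous_Fm D).comp cont_foot
  have hν : (μ.map (fun z : Prs 𝓘(ℝ, E) M => Fm D z.1)) G = 0 := by
    have hfin : IsFiniteMeasure (μ.map (fun z : Prs 𝓘(ℝ, E) M => Fm D z.1)) := inferInstance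
    rw [hGm.measure_eq_iSup_isClosed_of_ne_top (measure_ne_top _ _)]
    simp only [ENNReal.iSup_eq_zero]
    intro K hKG hK
    rw [Measure.map_apply hcont.measurable hK.measurableSet]
    have hc2 : IsClosed ((Fm D) ⁻¹' K) := hK.preimage (continuous_Fm D)
    have hsub : Fm D '' ((Fm D) ⁻¹' K) ⊆ G := (Set.image_preimage_subset _ _).trans hKG
    exact null_closed (g := g) (R := R) D h hs hinj hT hc2 (measure_mono_null hsub hG0)
  rw [Measure.map_apply hcont.measurable hGm] at hν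
  refine measure_mono_null ?_ hν
  intro z hz
  exact hSG ⟨z.1, hz, rfl⟩

end Pool.Agent.Helper62.KP
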