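import Pool.Agent.Helper62.KP.Alt3

/-!
Tangency of the annihilating measures to the level sets of functions.
-/

open Bundle Manifold ContDiff ContinuousLinearMap Filter VectorField MeasureTheory
open scoped Topology

set_option autoImplicit false
set_option synthInstance.maxHeartbeats 400000
set_option maxHeartbeats 4000000
set_option linter.unusedSectionVars false

noncomputable section

namespace Pool.Agent.Helper62.KP

open Pool.Agent.H821R2 Pool.Agent.H821R3 Pool.Agent.H893R5.HO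

/-- the profile -/
def ch0 (e t : ℝ) : ℝ := e ^ 2 / 2 * Real.log (e ^ 2 + t ^ 2)

def ch1 (e t : ℝ) : ℝ := e ^ 2 * t / (e ^ 2 + t ^ 2)

def ch2 (e t : ℝ) : ℝ := e ^ 2 * (e ^ 2 - t ^ 2) / (e ^ 2 + t ^ 2) ^ 2

theorem ch0_deriv {e : ℝ} (he : 0 < e) (t : ℝ) : HasDerivAt (ch0 e) (ch1 e t) t := by
  have h0 : HasDerivAt (fun t : ℝ => e ^ 2 + t ^ 2) (2 * t) t := by
    simpa using (hasDerivAt_pow 2 t).const_add (e ^ 2)
  have hp : 0 < e ^ 2 + t ^ 2 := by positivity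
  have h1 := (h0.log hp.ne').const_mul (e ^ 2 / 2)
  have e1 : ch1 e t = e ^ 2 / 2 * (2 * t / (e ^ 2 + t ^ 2)) := by
    unfold ch1
    field_simp
  rw [e1]
  exact h1

theorem ch1_deriv {e : ℝ} (he : 0 < e) (t : ℝ) : HasDerivAt (ch1 e) (ch2 e t) t := by
  have h0 : HasDerivAt (fun t : ℝ => e ^ 2 + t ^ 2) (2 * t) t := by
    simpa using (hasDerivAt_pow 2 t).const_add (e ^ 2)
  have hp : 0 < e ^ 2 + t ^ 2 := by positivity
  have h1 : HasDerivAt (fun t : ℝ => e ^ 2 * t) (e ^ 2) t := by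
    simpa using (hasDerivAt_id t).const_mul (e ^ 2)
  have h2 := h1.div h0 hp.ne'
  have e1 : ch2 e t = (e ^ 2 * (e ^ 2 + t ^ 2) - e ^ 2 * t * (2 * t)) / (e ^ 2 + t ^ 2) ^ 2 := by
    unfold ch2
    congr 1
    ring
  rw [e1]
  exact h2

theorem ch0_smooth {e : ℝ} (he : 0 < e) : ContDiff ℝ ∞ (ch0 e) := by
  unfold ch0
  refine contDiff_const.mul (ContDiff.log (by fun_prop) fun t => ?_)
  positivity

theorem ch1_le {e : ℝ} (he : 0 < e) (t : ℝ) : |ch1 e t| ≤ e := by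
  unfold ch1
  have hp : 0 < e ^ 2 + t ^ 2 := by positivity
  rw [abs_div, abs_of_pos hp, div_le_iff₀ hp, abs_mul, abs_of_pos (by positivity : (0 : ℝ) < e ^ 2)]
  have h1 : e * |t| ≤ e ^ 2 + t ^ 2 := by
    nlinarith [sq_nonneg (e - |t|), sq_abs t, abs_nonneg t, sq_nonneg (e + |t|)]
  nlinarith

theorem ch2_le {e : ℝ} (he : 0 < e) (t : ℝ) : |ch2 e t| ≤ 1 := by
  unfold ch2
  have hp : 0 < (e ^ 2 + t ^ 2) ^ 2 := by positivity
  rw [abs_div, abs_of_pos hp, div_le_one hp, abs_le]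
  constructor <;> nlinarith [sq_nonneg (e * t), sq_nonneg (t ^ 2), sq_nonneg (e ^ 2)]

theorem ch2_zero {e : ℝ} (he : 0 < e) : ch2 e 0 = 1 := by
  unfold ch2
  field_simp
  ring

theorem ch2_le' {e t : ℝ} (he : 0 < e) (ht : t ≠ 0) : |ch2 e t| ≤ e ^ 2 / t ^ 2 := by
  unfold ch2
  have hp : 0 < (e ^ 2 + t ^ 2) ^ 2 := by positivity
  have ht2 : 0 < t ^ 2 := by positivity
  rw [abs_div, abs_of_pos hp, div_le_div_iff₀ hp ht2, abs_mul,
    abs_of_pos (by positivity : (0 : ℝ) < e ^ 2), mul_assoc]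
  refine mul_le_mul_of_nonneg_left ?_ (sq_nonneg e)
  have h1 : |e ^ 2 - t ^ 2| ≤ e ^ 2 + t ^ 2 := by
    rw [abs_le]; constructor <;> nlinarith [sq_nonneg e]
  calc |e ^ 2 - t ^ 2| * t ^ 2 ≤ (e ^ 2 + t ^ 2) * (e ^ 2 + t ^ 2) :=
        mul_le_mul h1 (by nlinarith [sq_nonneg e]) (sq_nonneg t) (by positivity)
    _ = _ := by ring

variable {E : Type*} [NormedAddCommGroup E] [NormedSpace ℝ E] [FiniteDimensional ℝ E]
  {M : Type*} [TopologicalSpace M] [ChartedSpace E M] [IsManifold 𝓘(ℝ, E) ∞ M]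
  [T2Space M] [CompactSpace M]
  {g : ContMDiffRiemannianMetric 𝓘(ℝ, E) ∞ E (fun x : M => TangentSpace 𝓘(ℝ, E) x)}
  {cov : CovariantDerivative 𝓘(ℝ, E) E (TangentSpace 𝓘(ℝ, E) : M → Type _)}
  {R : CurvField 𝓘(ℝ, E) M} {μ : Measure (Prs 𝓘(ℝ, E) M)} [IsFiniteMeasure μ]

theorem int_cont (h : IsLeviCivita g cov) (hR : IsRiemannTensor cov R) (hs : μ (FP g R)ᶜ = 0)
    {f : Prs 𝓘(ℝ, E) M → ℝ} (hf : Continuous f) : Integrable f μ := by
  obtain ⟨C, hC⟩ := (isCompact_FP h hR).exists_bound_of_continuousOn hf.continuousOn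
  refine Integrable.of_bound hf.measurable.aestronglyMeasurable C ?_
  filter_upwards [ae_FP hs] with z hz
  exact hC z hz

/-- the chain rule for the trace of the Hessian -/
theorem TH_comp {χ χ' : ℝ → ℝ} {χ'' : ℝ} {y : M → ℝ} (hy : Sm 𝓘(ℝ, E) y) (z : Prs 𝓘(ℝ, E) M)
    (h1 : ∀ x, HasDerivAt χ (χ' (y x)) (y x)) (h2 : HasDerivAt χ' χ'' (y z.1)) :
    TH cov (fun x => χ (y x)) z = χ' (y z.1) * TH cov y z + χ'' * DQ y z := by
  unfold TH DQ
  rw [hes_comp hy z.1 h1 h2, hes_comp hy z.1 h1 h2]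
  ring

/-- **Tangency.** -/
theorem ae_tangent (h : IsLeviCivita g cov) (hR : IsRiemannTensor cov R) (hs : μ (FP g R)ᶜ = 0)
    (hT : ∀ φ : M → ℝ, Sm 𝓘(ℝ, E) φ → Integrable (TH cov φ) μ ∧ ∫ z, TH cov φ z ∂μ = 0)
    {y : M → ℝ} (hy : Sm 𝓘(ℝ, E) y) :
    ∀ᵐ z ∂μ, y z.1 = 0 → mvfderiv 𝓘(ℝ, E) y z.1 z.2.1 = 0 ∧ mvfderiv 𝓘(ℝ, E) y z.1 z.2.2 = 0 := by
  obtain ⟨F, hF⟩ : ∃ F : ℕ → Prs 𝓘(ℝ, E) M → ℝ, F = fun (n : ℕ) z =>
    ch1 (1 / ((n : ℝ) + 1)) (y z.1) * TH cov y z +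
      ch2 (1 / ((n : ℝ) + 1)) (y z.1) * DQ y z := ⟨_, rfl⟩
  have hpos : ∀ n : ℕ, 0 < 1 / ((n : ℝ) + 1) := fun n => by positivity
  have hle1 : ∀ n : ℕ, 1 / ((n : ℝ) + 1) ≤ 1 := fun n => by
    rw [div_le_one (by positivity)]
    have : (0 : ℝ) ≤ n := n.cast_nonneg
    linarith
  have hFeq : ∀ n, F n = TH cov (fun x => ch0 (1 / ((n : ℝ) + 1)) (y x)) := by
    intro n
    ext z
    rw [hF, TH_comp hy z (fun x => ch0_deriv (hpos n) (y x)) (ch1_deriv (hpos n) (y z.1))]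
  have hsm : ∀ n : ℕ, Sm 𝓘(ℝ, E) (fun x => ch0 (1 / ((n : ℝ) + 1)) (y x)) := fun n =>
    (ch0_smooth (hpos n)).contMDiff.comp hy
  have hFint : ∀ n, ∫ z, F n z ∂μ = 0 := fun n => by rw [hFeq]; exact (hT _ (hsm n)).2
  have hFm : ∀ n, AEStronglyMeasurable (F n) μ := fun n => by
    rw [hFeq]; exact (hT _ (hsm n)).1.aestronglyMeasurable
  have hcT := cont_TH h hy
  have hcD := cont_DQ (E := E) hy
  have hbint : Integrable (fun z => |TH cov y z| + |DQ y z|) μ :=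
    int_cont h hR hs (hcT.abs.add hcD.abs)
  obtain ⟨L, hL⟩ : ∃ L : Prs 𝓘(ℝ, E) M → ℝ, L = fun z => ({z : Prs 𝓘(ℝ, E) M | y z.1 = 0}).indicator
    (DQ y) z := ⟨_, rfl⟩
  have hlim0 : Tendsto (fun n : ℕ => 1 / ((n : ℝ) + 1)) atTop (𝓝 0) :=
    tendsto_one_div_add_atTop_nhds_zero_nat
  have hconv : ∀ z, Tendsto (fun n => F n z) atTop (𝓝 (L z)) := by
    intro z
    have t1 : Tendsto (fun n : ℕ => ch1 (1 / ((n : ℝ) + 1)) (y z.1)) atTop (𝓝 0) :=
      squeeze_zero_norm (fun n => ch1_le (hpos n) (y z.1)) hlim0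
    by_cases hz : y z.1 = 0
    · have e : L z = 0 * TH cov y z + 1 * DQ y z := by
        rw [hL]
        change ({z : Prs 𝓘(ℝ, E) M | y z.1 = 0}).indicator (DQ y) z = _
        rw [Set.indicator_of_mem (show z ∈ {z : Prs 𝓘(ℝ, E) M | y z.1 = 0} from hz)]
        ring
      rw [e, hF]
      refine (t1.mul_const _).add (Tendsto.mul_const _ ?_)
      refine tendsto_const_nhds.congr fun n => ?_
      rw [hz, ch2_zero (hpos n)]
    · have e : L z = 0 * TH cov y z + 0 * DQ y z := by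
        rw [hL]
        change ({z : Prs 𝓘(ℝ, E) M | y z.1 = 0}).indicator (DQ y) z = _
        rw [Set.indicator_of_notMem (show z ∉ {z : Prs 𝓘(ℝ, E) M | y z.1 = 0} from hz)]
        ring
      rw [e, hF]
      refine (t1.mul_const _).add (Tendsto.mul_const _ ?_)
      refine squeeze_zero_norm (fun n => ch2_le' (hpos n) hz) ?_
      have := (hlim0.pow 2).div_const (y z.1 ^ 2)
      simpa using this
  have hdom := tendsto_integral_of_dominated_convergence (μ := μ)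
    (fun z => |TH cov y z| + |DQ y z|) hFm hbint (fun n => by
      filter_upwards with z
      rw [hF, Real.norm_eq_abs]
      refine (abs_add_le _ _).trans (add_le_add ?_ ?_)
      · rw [abs_mul]
        exact mul_le_of_le_one_left (abs_nonneg _) ((ch1_le (hpos n) _).trans (hle1 n))
      · rw [abs_mul]
        exact mul_le_of_le_one_left (abs_nonneg _) (ch2_le (hpos n) _))
    (Eventually.of_forall hconv)
  have hL0 : ∫ z, L z ∂μ = 0 := by
    refine tendsto_nhds_unique hdom ?_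
    simp only [hFint]
    exact tendsto_const_nhds
  have hmeas : MeasurableSet {z : Prs 𝓘(ℝ, E) M | y z.1 = 0} :=
    (isClosed_singleton.preimage (hy.continuous.comp cont_foot)).measurableSet
  have hLint : Integrable L μ := by
    rw [hL]
    exact (int_cont h hR hs hcD).indicator hmeas
  have hLnn : 0 ≤ L := by
    intro z
    rw [hL]
    refine Set.indicator_nonneg (fun z _ => ?_) z
    unfold DQ
    positivity
  rw [integral_eq_zero_iff_of_nonneg hLnn hLint] at hL0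
  filter_upwards [hL0] with z hz hyz
  rw [hL] at hz
  change ({z : Prs 𝓘(ℝ, E) M | y z.1 = 0}).indicator (DQ y) z = 0 at hz
  rw [Set.indicator_of_mem (show z ∈ {z : Prs 𝓘(ℝ, E) M | y z.1 = 0} from hyz)] at hz
  unfold DQ at hz
  constructor
  · nlinarith [sq_nonneg (mvfderiv 𝓘(ℝ, E) y z.1 z.2.1), sq_nonneg (mvfderiv 𝓘(ℝ, E) y z.1 z.2.2)]
  · nlinarith [sq_nonneg (mvfderiv 𝓘(ℝ, E) y z.1 z.2.1), sq_nonneg (mvfderiv 𝓘(ℝ, E) y z.1 z.2.2)]

end Pool.Agent.Helper62.KP
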