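import Pool.Agent.Helper62.KP.Alt4

/-!
The barrier principle for the annihilating measures.
-/

open Bundle Manifold ContDiff ContinuousLinearMap Filter VectorField MeasureTheory
open scoped Topology

set_option autoImplicit false
set_option synthInstance.maxHeartbeats 400000
set_option maxHeartbeats 4000000
set_option linter.unusedSectionVars false

noncomputable section

namespace Pool.Agent.Helper62.KP

open Pool.Agent.H821R2 Pool.Agent.H821R3 Pool.Agent.H893R5.HO

variable {E : Type*} [NormedAddCommGroup E] [NormedSpace ℝ E] [FiniteDimensional ℝ E]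
  {M : Type*} [TopologicalSpace M] [ChartedSpace E M] [IsManifold 𝓘(ℝ, E) ∞ M]
  [T2Space M] [CompactSpace M]
  {g : ContMDiffRiemannianMetric 𝓘(ℝ, E) ∞ E (fun x : M => TangentSpace 𝓘(ℝ, E) x)}
  {cov : CovariantDerivative 𝓘(ℝ, E) E (TangentSpace 𝓘(ℝ, E) : M → Type _)}
  {R : CurvField 𝓘(ℝ, E) M}

theorem sc_prs : SecondCountableTopology (Prs 𝓘(ℝ, E) M) := by
  obtain ⟨N, D, -⟩ := exists_frame 𝓘(ℝ, E) M
  have h1 : SecondCountableTopology M := ChartedSpace.secondCountable_of_sigmaCompact E M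
  have h2 : Topology.IsEmbedding (PF D) :=
    Function.LeftInverse.isEmbedding (PE_PF D) (cont_PE D) (cont_PF D)
  exact h2.secondCountableTopology

/-- a smooth function with a nondegenerate zero -/
theorem exists_rho (p : M) : ∃ ρ : M → ℝ, Sm 𝓘(ℝ, E) ρ ∧ ρ p = 0 ∧ (∀ x, x ≠ p → 0 < ρ x) ∧
    ∀ v : TangentSpace 𝓘(ℝ, E) p, mvfderiv 𝓘(ℝ, E) ρ p v = 0 := by
  obtain ⟨N, D, hinj⟩ := exists_frame 𝓘(ℝ, E) M
  have hs : ∀ i : Fin N, Sm 𝓘(ℝ, E) (fun x => D.f i x - D.f i p) := fun i =>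
    (D.hf i).sub (Sm.const _)
  have hs2 : ∀ i : Fin N, Sm 𝓘(ℝ, E) (fun x => (D.f i x - D.f i p) * (D.f i x - D.f i p)) :=
    fun i => (hs i).mul (hs i)
  have hρ : Sm 𝓘(ℝ, E) (fun x => ∑ i, (D.f i x - D.f i p) * (D.f i x - D.f i p)) :=
    sm_sum Finset.univ hs2
  refine ⟨_, hρ, by simp, ?_, ?_⟩
  · intro x hx
    have hnn : ∀ i ∈ Finset.univ, 0 ≤ (D.f i x - D.f i p) * (D.f i x - D.f i p) := fun i _ =>
      mul_self_nonneg _
    rcases (Finset.sum_nonneg hnn).lt_or_eq with h | h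
    · exact h
    · exfalso
      apply hx
      apply hinj
      intro i
      have := (Finset.sum_eq_zero_iff_of_nonneg hnn).1 h.symm i (Finset.mem_univ i)
      have h2 := mul_self_eq_zero.1 this
      linarith
  · intro v
    -- the function has a minimum at `p`
    have e1 := xt_self (I := 𝓘(ℝ, E)) p v
    have e2 : mvfderiv 𝓘(ℝ, E) (fun x => ∑ i, (D.f i x - D.f i p) * (D.f i x - D.f i p)) p v =
        ∑ i, der (xt p v) (fun x => (D.f i x - D.f i p) * (D.f i x - D.f i p)) p := by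
      have : ∀ s : Finset (Fin N), der (xt (I := 𝓘(ℝ, E)) p v)
          (fun x => ∑ i ∈ s, (D.f i x - D.f i p) * (D.f i x - D.f i p)) p =
          ∑ i ∈ s, der (xt p v) (fun x => (D.f i x - D.f i p) * (D.f i x - D.f i p)) p := by
        classical
        intro s
        induction s using Finset.induction_on with
        | empty => simp [der_const]
        | insert a s ha ih =>
          simp only [Finset.sum_insert ha]
          rw [der_add (hs2 a) (sm_sum s hs2)]
          change der (xt p v) (fun x => (D.f a x - D.f a p) * (D.f a x - D.f a p)) p +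
            der (xt p v) (fun y => ∑ i ∈ s, (D.f i y - D.f i p) * (D.f i y - D.f i p)) p = _
          rw [ih]
      have h3 := this Finset.univ
      rw [der_apply, e1] at h3
      exact h3
    rw [e2]
    refine Finset.sum_eq_zero fun i _ => ?_
    rw [der_mul (hs i) (hs i)]
    simp

variable {μ : Measure (Prs 𝓘(ℝ, E) M)} [IsFiniteMeasure μ]

/-- **The barrier principle.** -/
theorem barrier (h : IsLeviCivita g cov) (hR : IsRiemannTensor cov R) (hs : μ (FP g R)ᶜ = 0)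
    (hT : ∀ φ : M → ℝ, Sm 𝓘(ℝ, E) φ → Integrable (TH cov φ) μ ∧ ∫ z, TH cov φ z ∂μ = 0)
    {y : M → ℝ} (hy : Sm 𝓘(ℝ, E) y) {z₀ : Prs 𝓘(ℝ, E) M} (hz₀ : z₀ ∈ μ.support)
    (hmax : ∀ z ∈ μ.support, y z.1 ≤ y z₀.1) :
    ∃ z ∈ μ.support, z.1 = z₀.1 ∧ mvfderiv 𝓘(ℝ, E) y z.1 z.2.1 = 0 ∧
      mvfderiv 𝓘(ℝ, E) y z.1 z.2.2 = 0 ∧ TH cov y z ≤ 0 := by
  have hSC := sc_prs (E := E) (M := M)
  obtain ⟨p, hp⟩ : ∃ p, p = z₀.1 := ⟨_, rfl⟩
  rw [← hp] at hmax ⊢
  by_contra hcon
  push Not at hcon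
  obtain ⟨W, hW⟩ : ∃ W, W = μ.support := ⟨_, rfl⟩
  rw [← hW] at hz₀ hmax hcon
  have hWsub : W ⊆ FP g R := by
    rw [hW]; exact Measure.support_subset_of_isClosed (isClosed_FP h hR) hs
  have hWcl : IsClosed W := by rw [hW]; exact Measure.isClosed_support
  have hWc : IsCompact W := (isCompact_FP h hR).of_isClosed_subset hWcl hWsub
  have hWae : ∀ᵐ z ∂μ, z ∈ W := by rw [hW]; exact Measure.support_mem_ae
  have hfoot := cont_foot (E := E) (M := M)
  -- the fibre over `p`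
  obtain ⟨Wp, hWp⟩ : ∃ Wp : Set (Prs 𝓘(ℝ, E) M), Wp = W ∩ (fun z => z.1) ⁻¹' {p} := ⟨_, rfl⟩
  have hWpc : IsCompact Wp := by
    rw [hWp]; exact hWc.inter_right (isClosed_singleton.preimage hfoot)
  have hcT := cont_TH h hy
  have hcD := cont_DQ (E := E) hy
  obtain ⟨s₀, hs₀, hss⟩ := compact_pos hWpc hcD.continuousOn hcT.continuousOn
    (fun z _ => by unfold DQ; positivity) (by
      intro z hz hz0
      rw [hWp] at hz
      unfold DQ at hz0
      refine hcon z hz.1 hz.2 ?_ ?_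
      · nlinarith [sq_nonneg (mvfderiv 𝓘(ℝ, E) y z.1 z.2.1),
          sq_nonneg (mvfderiv 𝓘(ℝ, E) y z.1 z.2.2)]
      · nlinarith [sq_nonneg (mvfderiv 𝓘(ℝ, E) y z.1 z.2.1),
          sq_nonneg (mvfderiv 𝓘(ℝ, E) y z.1 z.2.2)]) (le_refl (0 : ℝ))
  obtain ⟨s, hs1, hs2⟩ : ∃ s, 0 < s ∧ s < s₀ := ⟨s₀ / 2, by linarith, by linarith⟩
  have hG0 : ∀ z ∈ Wp, 0 < DQ y z + s * TH cov y z := by
    intro z hz
    have := hss s hs1 hs2 z hz
    linarith
  have hzp : z₀ ∈ Wp := by rw [hWp]; exact ⟨hz₀, hp.symm⟩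
  obtain ⟨c₀, hc₀, hc₀'⟩ : ∃ c₀ : ℝ, 0 < c₀ ∧ ∀ z ∈ Wp, c₀ ≤ DQ y z + s * TH cov y z := by
    obtain ⟨z₁, hz₁, hmin⟩ := hWpc.exists_isMinOn ⟨z₀, hzp⟩
      ((hcD.add (continuous_const.mul hcT)).continuousOn (f := fun z => DQ y z + s * TH cov y z))
    exact ⟨_, hG0 z₁ hz₁, fun z hz => hmin hz⟩
  -- perturbation
  obtain ⟨ρ, hρ, hρp, hρpos, hρd⟩ := exists_rho (E := E) p
  obtain ⟨B, hB⟩ := hWpc.exists_bound_of_continuousOn (cont_TH h hρ).continuousOn
  have hB0 : 0 ≤ B := (norm_nonneg _).trans (hB z₀ hzp)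
  obtain ⟨ε, hε⟩ : ∃ ε, ε = c₀ / (4 * (s * B + 1)) := ⟨_, rfl⟩
  have hε0 : 0 < ε := by rw [hε]; positivity
  have hεB : s * (ε * B) ≤ c₀ / 4 := by
    rw [hε, ← mul_assoc, mul_comm s, mul_assoc, div_mul_eq_mul_div,
      div_le_div_iff₀ (by positivity) (by norm_num)]
    nlinarith [mul_nonneg hs1.le hB0]
  obtain ⟨y', hy'⟩ : ∃ y' : M → ℝ, y' = fun x => y x + (-ε) * ρ x := ⟨_, rfl⟩
  have hy's : Sm 𝓘(ℝ, E) y' := by rw [hy']; exact hy.add (hρ.cmul _)
  have hy'p : y' p = y p := by rw [hy']; simp [hρp]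
  have hTH' : ∀ z, TH cov y' z = TH cov y z - ε * TH cov ρ z := by
    intro z
    rw [hy']
    unfold TH
    rw [hes_add hy (hρ.cmul _), hes_add hy (hρ.cmul _), hes_cmul _ hρ, hes_cmul _ hρ]
    ring
  have hd' : ∀ v : TangentSpace 𝓘(ℝ, E) p, mvfderiv 𝓘(ℝ, E) y' p v = mvfderiv 𝓘(ℝ, E) y p v := by
    intro v
    have h1 := congrFun (der_add (Z := xt (I := 𝓘(ℝ, E)) p v) hy (hρ.cmul (-ε))) p
    rw [der_cmul _ hρ] at h1
    simp only [der_apply, xt_self] at h1
    rw [hρd v, mul_zero, add_zero] at h1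
    rw [hy']
    exact h1
  have hcT' := cont_TH h hy's
  have hcD' := cont_DQ (E := E) hy's
  have hG : ∀ z ∈ Wp, c₀ / 2 ≤ DQ y' z + s * TH cov y' z := by
    intro z hz
    have h1 := hc₀' z hz
    have h2 : DQ y' z = DQ y z := by
      rw [hWp] at hz
      obtain ⟨x, u, v⟩ := z
      have hx : x = p := hz.2
      subst hx
      unfold DQ
      rw [hd', hd']
    have h3 := abs_le.1 (hB z hz)
    rw [h2, hTH']
    have h4 : s * (ε * TH cov ρ z) ≤ s * (ε * B) :=
      mul_le_mul_of_nonneg_left (mul_le_mul_of_nonneg_left h3.2 hε0.le) hs1.le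
    nlinarith
  -- a neighbourhood of `p`
  obtain ⟨K, hK⟩ : ∃ K : Set (Prs 𝓘(ℝ, E) M), K = W ∩ (fun z => DQ y' z + s * TH cov y' z) ⁻¹'
    (Set.Iic (c₀ / 4)) := ⟨_, rfl⟩
  have hKc : IsCompact K := by
    rw [hK]
    exact hWc.inter_right (isClosed_Iic.preimage (hcD'.add (continuous_const.mul hcT')))
  obtain ⟨O, hO⟩ : ∃ O : Set M, O = ((fun z : Prs 𝓘(ℝ, E) M => z.1) '' K)ᶜ := ⟨_, rfl⟩
  have hOo : IsOpen O := by rw [hO]; exact (hKc.image hfoot).isClosed.isOpen_compl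
  have hpO : p ∈ O := by
    rw [hO]
    rintro ⟨z, hz, hzp'⟩
    rw [hK] at hz
    have h1 := hG z (by rw [hWp]; exact ⟨hz.1, hzp'⟩)
    have h2 : DQ y' z + s * TH cov y' z ≤ c₀ / 4 := hz.2
    linarith
  have hOG : ∀ z ∈ W, z.1 ∈ O → c₀ / 4 ≤ DQ y' z + s * TH cov y' z := by
    intro z hz hzO
    by_contra hlt
    push Not at hlt
    rw [hO] at hzO
    exact hzO ⟨z, by rw [hK]; exact ⟨hz, hlt.le⟩, rfl⟩
  -- away from the neighbourhood
  obtain ⟨η, hη, hη'⟩ : ∃ η : ℝ, 0 < η ∧ ∀ z ∈ W, z.1 ∉ O → y' z.1 ≤ y' p - 2 * η := by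
    have hAc : IsCompact (W ∩ (fun z : Prs 𝓘(ℝ, E) M => z.1) ⁻¹' Oᶜ) :=
      hWc.inter_right (hOo.isClosed_compl.preimage hfoot)
    rcases (W ∩ (fun z : Prs 𝓘(ℝ, E) M => z.1) ⁻¹' Oᶜ).eq_empty_or_nonempty with he | hne
    · refine ⟨1, one_pos, fun z hz hzO => ?_⟩
      have : z ∈ W ∩ (fun z : Prs 𝓘(ℝ, E) M => z.1) ⁻¹' Oᶜ := ⟨hz, hzO⟩
      rw [he] at this
      exact absurd this (Set.notMem_empty _)
    · obtain ⟨z₁, hz₁, hmx⟩ := hAc.exists_isMaxOn hne
        ((hy's.continuous.comp hfoot).continuousOn (f := fun z : Prs 𝓘(ℝ, E) M => y' z.1))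
      have hne' : z₁.1 ≠ p := by
        intro he
        apply hz₁.2
        change z₁.1 ∈ O
        rw [he]
        exact hpO
      have hlt : y' z₁.1 < y' p := by
        have h1 := hmax z₁ hz₁.1
        have h2 := hρpos z₁.1 hne'
        rw [hy'p, hy']
        have h3 : 0 < ε * ρ z₁.1 := mul_pos hε0 h2
        simp only
        linarith
      refine ⟨(y' p - y' z₁.1) / 2, by linarith, fun z hz hzO => ?_⟩
      have h1 : y' z.1 ≤ y' z₁.1 := hmx ⟨hz, hzO⟩
      linarith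
  -- the small neighbourhood
  obtain ⟨O', hO'⟩ : ∃ O' : Set M, O' = O ∩ y' ⁻¹' (Set.Ioi (y' p - η)) := ⟨_, rfl⟩
  have hO'o : IsOpen O' := by
    rw [hO']; exact hOo.inter (isOpen_Ioi.preimage hy's.continuous)
  have hpO' : p ∈ O' := by
    rw [hO']
    refine ⟨hpO, ?_⟩
    change y' p - η < y' p
    linarith
  have hmO' : MeasurableSet ((fun z : Prs 𝓘(ℝ, E) M => z.1) ⁻¹' O') :=
    (hO'o.preimage hfoot).measurableSet
  obtain ⟨m, hm⟩ : ∃ m, m = μ.real ((fun z : Prs 𝓘(ℝ, E) M => z.1) ⁻¹' O') := ⟨_, rfl⟩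
  have hm0 : 0 < m := by
    rw [hm, Measure.real, ENNReal.toReal_pos_iff]
    refine ⟨?_, measure_lt_top _ _⟩
    rw [hW] at hz₀
    refine (Measure.mem_support_iff_forall z₀).1 hz₀ _ ((hO'o.preimage hfoot).mem_nhds ?_)
    change z₀.1 ∈ O'
    rw [← hp]
    exact hpO'
  obtain ⟨C, hC⟩ := hWc.exists_bound_of_continuousOn hcT'.continuousOn
  have hC0 : 0 ≤ C := (norm_nonneg _).trans (hC z₀ hz₀)
  obtain ⟨tot, htot⟩ : ∃ tot, tot = μ.real (Set.univ : Set (Prs 𝓘(ℝ, E) M)) := ⟨_, rfl⟩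
  have htot0 : 0 ≤ tot := by rw [htot]; exact measureReal_nonneg
  -- choice of the exponent
  obtain ⟨l, hl1, hl2⟩ : ∃ l : ℝ, 1 / s ≤ l ∧ Real.exp (-(l * η)) <
      (c₀ / (4 * s) * m) / (C * tot + 1) := by
    have h1 : Tendsto (fun l : ℝ => Real.exp (-(l * η))) atTop (𝓝 0) :=
      Real.tendsto_exp_neg_atTop_nhds_zero.comp (tendsto_id.atTop_mul_const hη)
    have h2 := h1.eventually (gt_mem_nhds (show 0 < (c₀ / (4 * s) * m) / (C * tot + 1) by
      positivity))
    exact ((eventually_ge_atTop (1 / s)).and h2).exists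
  have hl0 : 0 < l := lt_of_lt_of_le (by positivity) hl1
  -- the test function
  have hχ1 : ∀ t : ℝ, HasDerivAt (fun t => Real.exp (l * (t - y' p)))
      (l * Real.exp (l * (t - y' p))) t := by
    intro t
    have h1 := (((hasDerivAt_id t).sub_const (y' p)).const_mul l).exp
    simp only [id, mul_one] at h1
    rw [mul_comm] at h1
    exact h1
  have hχ2 : ∀ t : ℝ, HasDerivAt (fun t => l * Real.exp (l * (t - y' p)))
      (l * (l * Real.exp (l * (t - y' p)))) t := fun t => (hχ1 t).const_mul l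
  have hφs : Sm 𝓘(ℝ, E) (fun x => Real.exp (l * (y' x - y' p))) := by
    have h1 : ContDiff ℝ ∞ (fun t : ℝ => Real.exp (l * (t - y' p))) := by fun_prop
    exact h1.contMDiff.comp hy's
  obtain ⟨hint, hzero⟩ := hT _ hφs
  have hval : ∀ z, TH cov (fun x => Real.exp (l * (y' x - y' p))) z =
      l * (Real.exp (l * (y' z.1 - y' p)) * (TH cov y' z + l * DQ y' z)) := by
    intro z
    have h1 := TH_comp (cov := cov) hy's z (fun x => hχ1 (y' x)) (hχ2 (y' z.1))
    exact h1.trans (by ring)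
  have i1 : Integrable (((fun z : Prs 𝓘(ℝ, E) M => z.1) ⁻¹' O').indicator
      fun _ => l * (c₀ / (4 * s) * Real.exp (-(l * η)))) μ :=
    (integrable_const _).indicator hmO'
  have i2 : Integrable (fun _ : Prs 𝓘(ℝ, E) M => l * (C * Real.exp (-(2 * l * η)))) μ :=
    integrable_const _
  have hle : (fun z => ((fun z : Prs 𝓘(ℝ, E) M => z.1) ⁻¹' O').indicator
      (fun _ => l * (c₀ / (4 * s) * Real.exp (-(l * η)))) z -
        l * (C * Real.exp (-(2 * l * η)))) ≤ᵐ[μ]
      TH cov (fun x => Real.exp (l * (y' x - y' p))) := by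
    filter_upwards [hWae] with z hz
    rw [hval]
    have hD : 0 ≤ DQ y' z := by unfold DQ; positivity
    have hpos : 0 ≤ C * Real.exp (-(2 * l * η)) := by positivity
    by_cases hzO : z.1 ∈ O
    · have h1 := hOG z hz hzO
      have h2 : c₀ / (4 * s) ≤ TH cov y' z + l * DQ y' z := by
        have h3 : 1 / s * DQ y' z ≤ l * DQ y' z := mul_le_mul_of_nonneg_right hl1 hD
        have h4 : c₀ / (4 * s) = 1 / s * (c₀ / 4) := by field_simp
        have h5 : 1 / s * (c₀ / 4) ≤ 1 / s * (DQ y' z + s * TH cov y' z) :=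
          mul_le_mul_of_nonneg_left h1 (by positivity)
        have h6 : 1 / s * (DQ y' z + s * TH cov y' z) = 1 / s * DQ y' z + TH cov y' z := by
          field_simp
        linarith
      have h2' : 0 < c₀ / (4 * s) := by positivity
      by_cases hzO' : z ∈ (fun z : Prs 𝓘(ℝ, E) M => z.1) ⁻¹' O'
      · rw [Set.indicator_of_mem hzO']
        have h7 : y' p - η < y' z.1 := by
          have : z.1 ∈ O' := hzO'
          rw [hO'] at this
          exact this.2
        have h8 : Real.exp (-(l * η)) ≤ Real.exp (l * (y' z.1 - y' p)) := by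
          apply Real.exp_le_exp.2
          nlinarith
        have h9 : c₀ / (4 * s) * Real.exp (-(l * η)) ≤
            Real.exp (l * (y' z.1 - y' p)) * (TH cov y' z + l * DQ y' z) := by
          rw [mul_comm]
          exact mul_le_mul h8 h2 h2'.le (Real.exp_pos _).le
        have h10 := mul_le_mul_of_nonneg_left h9 hl0.le
        have h11 := mul_nonneg hl0.le hpos
        linarith
      · rw [Set.indicator_of_notMem hzO']
        have h9 : 0 ≤ Real.exp (l * (y' z.1 - y' p)) * (TH cov y' z + l * DQ y' z) :=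
          mul_nonneg (Real.exp_pos _).le (h2'.le.trans h2)
        have h10 := mul_nonneg hl0.le h9
        have h11 := mul_nonneg hl0.le hpos
        linarith
    · have hzO' : z ∉ (fun z : Prs 𝓘(ℝ, E) M => z.1) ⁻¹' O' := by
        intro hmem
        have : z.1 ∈ O' := hmem
        rw [hO'] at this
        exact hzO this.1
      rw [Set.indicator_of_notMem hzO']
      have h1 := hη' z hz hzO
      have h2 : Real.exp (l * (y' z.1 - y' p)) ≤ Real.exp (-(2 * l * η)) := by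
        apply Real.exp_le_exp.2
        nlinarith
      have h3 : -C ≤ TH cov y' z + l * DQ y' z := by
        have h4 := (abs_le.1 (hC z hz)).1
        have h5 := mul_nonneg hl0.le hD
        linarith
      have h6 : -(C * Real.exp (-(2 * l * η))) ≤
          Real.exp (l * (y' z.1 - y' p)) * (TH cov y' z + l * DQ y' z) := by
        have h7 : Real.exp (l * (y' z.1 - y' p)) * (-C) ≤
            Real.exp (l * (y' z.1 - y' p)) * (TH cov y' z + l * DQ y' z) :=
          mul_le_mul_of_nonneg_left h3 (Real.exp_pos _).le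
        have h8 : Real.exp (l * (y' z.1 - y' p)) * C ≤ Real.exp (-(2 * l * η)) * C :=
          mul_le_mul_of_nonneg_right h2 hC0
        linarith
      have h7 := mul_le_mul_of_nonneg_left h6 hl0.le
      linarith
  have i3 : Integrable (fun z => ((fun z : Prs 𝓘(ℝ, E) M => z.1) ⁻¹' O').indicator
      (fun _ => l * (c₀ / (4 * s) * Real.exp (-(l * η)))) z -
        l * (C * Real.exp (-(2 * l * η)))) μ := i1.sub i2
  have hfin := integral_mono_ae i3 hint hle
  rw [hzero, integral_sub i1 i2, integral_indicator_const _ hmO', integral_const, ← hm,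
    ← htot] at hfin
  simp only [smul_eq_mul] at hfin
  -- contradiction
  have h1 : Real.exp (-(2 * l * η)) = Real.exp (-(l * η)) * Real.exp (-(l * η)) := by
    rw [← Real.exp_add]; congr 1; ring
  have hex := Real.exp_pos (-(l * η))
  rw [h1] at hfin
  have h2 : c₀ / (4 * s) * m ≤ C * tot * Real.exp (-(l * η)) := by
    have h3 : l * Real.exp (-(l * η)) * (c₀ / (4 * s) * m) ≤
        l * Real.exp (-(l * η)) * (C * tot * Real.exp (-(l * η))) := by linarith
    exact le_of_mul_le_mul_left h3 (by positivity)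
  rw [lt_div_iff₀ (by positivity)] at hl2
  nlinarith

end Pool.Agent.Helper62.KP
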