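import Pool.Agent.Helper62.KP.Alt5

/-!
The rate of change of the curvature under linear variations of the metric.
-/

open Bundle Manifold ContDiff ContinuousLinearMap Filter VectorField MeasureTheory
open scoped Topology

set_option autoImplicit false
set_option synthInstance.maxHeartbeats 400000
set_option maxHeartbeats 4000000
set_option linter.unusedSectionVars false

noncomputable section

namespace Pool.Agent.Helper62.KP

open Pool.Agent.H821R2 Pool.Agent.H821R3 Pool.Agent.H893R5.HO

section gen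

variable {E : Type*} [NormedAddCommGroup E] [NormedSpace ℝ E]
  {H : Type*} [TopologicalSpace H] {I : ModelWithCorners ℝ E H}
  {M : Type*} [TopologicalSpace M] [ChartedSpace H M] [IsManifold I ∞ M]

theorem metric_ext {g g' : Metric I M}
    (h : ∀ (y : M) (a b : TangentSpace I y), g'.inner y a b = g.inner y a b) : g' = g := by
  have e : g'.inner = g.inner := by
    funext y
    ext a b
    exact h y a b
  obtain ⟨a1, a2, a3, a4, a5⟩ := g
  obtain ⟨b1, b2, b3, b4, b5⟩ := g'
  simp only at e
  subst e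
  rfl

end gen

variable {E : Type*} [NormedAddCommGroup E] [NormedSpace ℝ E] [FiniteDimensional ℝ E]
  {H : Type*} [TopologicalSpace H] {I : ModelWithCorners ℝ E H}
  {M : Type*} [TopologicalSpace M] [ChartedSpace H M] [IsManifold I ∞ M]
  [T2Space M] [CompactSpace M]
  {g : Metric I M} {cov : Conn I M} {R : CurvField I M} {h : Bilin I M}

theorem HasRate.unique {x : M} {u v : TangentSpace I x} {l l' : ℝ} (h1 : HasRate g h x u v l)
    (h2 : HasRate g h x u v l') : l = l' := by
  obtain ⟨q, hq, hq'⟩ := h1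
  obtain ⟨r, hr, hr'⟩ := h2
  refine hq.unique (hr.congr_of_eventuallyEq ?_)
  filter_upwards [hq', hr'] with s ⟨g', cov', R', e1, hc1, hR1, hq1⟩ ⟨g2, cov2, R2, e2, hc2, hR2, hq2⟩
  have hg : g2 = g' := metric_ext fun y a b => by rw [e1, e2]
  subst hg
  rw [hq1, hq2, riemann_unique hc1 hc2 hR1 hR2]

theorem hasRate_LV [Nontrivial E] (hh : SymTensor h) (hc : IsLeviCivita g cov)
    (hR : IsRiemannTensor cov R) {x : M} {u v : TangentSpace I x} (huv : OrthoPair g x u v) :
    HasRate g h x u v (LV h cov x u v) := by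
  classical
  obtain ⟨C, s₀, hC, hs₀, hexp⟩ := expand_bound hh.smooth hc
  obtain ⟨s₁, hs₁, hmet⟩ := exists_addMet g hh
  have hex : ∀ s : ℝ, |s| ≤ s₁ → ∃ (t : ℝ) (g' : Metric I M) (cov' : Conn I M)
      (R' : CurvField I M),
      (∀ (y : M) (a b : TangentSpace I y), g'.inner y a b = g.inner y a b + s * h y a b) ∧
      IsLeviCivita g' cov' ∧ IsRiemannTensor cov' R' ∧ t = g'.inner x (R' x u v v) u := by
    intro s hs
    obtain ⟨g', hg'⟩ := hmet s hs
    obtain ⟨cov', hc'⟩ := exists_LC g'
    obtain ⟨R', hR'⟩ := exists_riemann_of_LC hc'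
    exact ⟨_, g', cov', R', hg', hc', hR', rfl⟩
  obtain ⟨q, hq⟩ : ∃ q : ℝ → ℝ, ∀ s : ℝ, |s| ≤ s₁ → ∃ (g' : Metric I M) (cov' : Conn I M)
      (R' : CurvField I M),
      (∀ (y : M) (a b : TangentSpace I y), g'.inner y a b = g.inner y a b + s * h y a b) ∧
      IsLeviCivita g' cov' ∧ IsRiemannTensor cov' R' ∧ q s = g'.inner x (R' x u v v) u := by
    refine ⟨fun s => if hs : |s| ≤ s₁ then (hex s hs).choose else 0, fun s hs => ?_⟩
    simp only [dif_pos hs]
    exact (hex s hs).choose_spec
  have hbd : ∀ s : ℝ, |s| ≤ s₁ → |s| ≤ s₀ →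
      |q s - (g.inner x (R x u v v) u + s * LV h cov x u v)| ≤ C * s ^ 2 := by
    intro s h1 h0
    obtain ⟨g', cov', R', e1, e2, e3, e4⟩ := hq s h1
    rw [e4]
    exact hexp s h0 g' cov' R R' e1 e2 hR e3 x u v huv
  have hq0 : q 0 = g.inner x (R x u v v) u := by
    have := hbd 0 (by simp [hs₁.le]) (by simp [hs₀.le])
    simp only [zero_mul, add_zero, ne_eq, OfNat.ofNat_ne_zero, not_false_eq_true, zero_pow,
      mul_zero] at this
    have h2 := abs_nonpos_iff.1 this
    linarith
  refine ⟨q, ?_, ?_⟩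
  · rw [hasDerivAt_iff_isLittleO]
    have hO : (fun s : ℝ => q s - q 0 - (s - 0) • LV h cov x u v) =O[𝓝 0] fun s : ℝ => s ^ 2 := by
      refine Asymptotics.IsBigO.of_bound C ?_
      have hball : ∀ᶠ s : ℝ in 𝓝 0, |s| < min s₀ s₁ := by
        have := Metric.ball_mem_nhds (0 : ℝ) (lt_min hs₀ hs₁)
        filter_upwards [this] with s hs
        rwa [Metric.mem_ball, dist_zero_right, Real.norm_eq_abs] at hs
      filter_upwards [hball] with s hs
      have h1 := hbd s (hs.le.trans (min_le_right _ _)) (hs.le.trans (min_le_left _ _))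
      rw [Real.norm_eq_abs, Real.norm_eq_abs, abs_of_nonneg (sq_nonneg s), hq0, smul_eq_mul,
        sub_zero]
      have e : q s - g.inner x (R x u v v) u - s * LV h cov x u v =
        q s - (g.inner x (R x u v v) u + s * LV h cov x u v) := by ring
      rw [e]
      exact h1
    refine hO.trans_isLittleO ?_
    simp only [sub_zero]
    have : (fun s : ℝ => s ^ 2) = fun s : ℝ => s * s := by ext s; ring
    rw [this]
    have h2 : (fun s : ℝ => s * s) =o[𝓝 0] fun s : ℝ => 1 * s := by
      refine Asymptotics.IsLittleO.mul_isBigO ?_ (Asymptotics.isBigO_refl _ _)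
      rw [Asymptotics.isLittleO_one_iff]
      exact tendsto_id
    simpa using h2
  · have hball : ∀ᶠ s : ℝ in 𝓝 0, |s| ≤ s₁ := by
      have := Metric.ball_mem_nhds (0 : ℝ) hs₁
      filter_upwards [this] with s hs
      rw [Metric.mem_ball, dist_zero_right, Real.norm_eq_abs] at hs
      exact hs.le
    filter_upwards [hball] with s hs
    exact hq s hs

end Pool.Agent.Helper62.KP
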