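import Pool.Agent.Helper62.KP.ConfAlt

/-!
Properties on the support.
-/

open Bundle Manifold ContDiff ContinuousLinearMap Filter VectorField MeasureTheory
open scoped Topology

set_option autoImplicit false
set_option synthInstance.maxHeartbeats 400000
set_option maxHeartbeats 4000000
set_option linter.unusedSectionVars false

noncomputable section

namespace Pool.Agent.Helper62.KP

open Pool.Agent.H821R2 Pool.Agent.H821R3 Pool.Agent.H893R5.HO

variable {E : Type*} [NormedAddCommGroup E] [NormedSpace ℝ E] [FiniteDimensional ℝ E]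
  {M : Type*} [TopologicalSpace M] [ChartedSpace E M] [IsManifold 𝓘(ℝ, E) ∞ M]
  [T2Space M] [CompactSpace M]
  {g : Metric 𝓘(ℝ, E) M} {cov : Conn 𝓘(ℝ, E) M} {R : CurvField 𝓘(ℝ, E) M}

/-- the covariant derivative of a field is continuous on the pairs -/
theorem cont_A (h : IsLeviCivita g cov) {X : Π x : M, TangentSpace 𝓘(ℝ, E) x} (hX : SmV X) :
    Continuous (fun z : Prs 𝓘(ℝ, E) M => g.inner z.1 (cov X z.1 z.2.1) z.2.1) ∧
    Continuous (fun z : Prs 𝓘(ℝ, E) M => g.inner z.1 (cov X z.1 z.2.1) z.2.2) ∧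
    Continuous (fun z : Prs 𝓘(ℝ, E) M => g.inner z.1 (cov X z.1 z.2.2) z.2.2) := by
  obtain ⟨N, D, -⟩ := exists_frame 𝓘(ℝ, E) M
  have hv : ∀ (x : M) (u w : TangentSpace 𝓘(ℝ, E) x), g.inner x (cov X x u) w =
      ∑ i, ∑ j, Fv D x u i * (Fv D x w j * g.inner x (cov X x (D.e i x)) (D.e j x)) := by
    intro x u w
    have hv : cov X x u = ∑ i, Fv D x u i • cov X x (D.e i x) := by
      conv_lhs => rw [← D.repr x u, map_sum]
      exact Finset.sum_congr rfl fun i _ => map_smul _ _ _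
    rw [hv, in_sum_left g x (Fv D x u) (fun i => cov X x (D.e i x))]
    refine Finset.sum_congr rfl fun i _ => ?_
    have hv2 : g.inner x (cov X x (D.e i x)) w = ∑ j, Fv D x w j *
        g.inner x (cov X x (D.e i x)) (D.e j x) := by
      conv_lhs => rw [← D.repr x w]
      exact in_sum_right g x (Fv D x w) (fun i => D.e i x) _
    rw [hv2, Finset.mul_sum]
  have hc : ∀ i j, Continuous (fun x : M => g.inner x (cov X x (D.e i x)) (D.e j x)) := fun i j =>
    (gi_smooth (nabla_smooth h (D.he i) hX) (D.he j)).continuous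
  have c := cont_PF D
  have c0 := cont_foot (E := E) (M := M)
  have c1 : ∀ i, Continuous (fun z : Prs 𝓘(ℝ, E) M => Fv D z.1 z.2.1 i) := fun i =>
    (continuous_apply i).comp (continuous_fst.comp (continuous_snd.comp c))
  have c2 : ∀ i, Continuous (fun z : Prs 𝓘(ℝ, E) M => Fv D z.1 z.2.2 i) := fun i =>
    (continuous_apply i).comp (continuous_snd.comp (continuous_snd.comp c))
  refine ⟨?_, ?_, ?_⟩
  · have e : (fun z : Prs 𝓘(ℝ, E) M => g.inner z.1 (cov X z.1 z.2.1) z.2.1) = fun z =>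
      ∑ i, ∑ j, Fv D z.1 z.2.1 i * (Fv D z.1 z.2.1 j * g.inner z.1 (cov X z.1 (D.e i z.1))
        (D.e j z.1)) := funext fun z => hv z.1 z.2.1 z.2.1
    rw [e]
    refine continuous_finsetSum _ fun i _ => continuous_finsetSum _ fun j _ => ?_
    exact (c1 i).mul ((c1 j).mul ((hc i j).comp c0))
  · have e : (fun z : Prs 𝓘(ℝ, E) M => g.inner z.1 (cov X z.1 z.2.1) z.2.2) = fun z =>
      ∑ i, ∑ j, Fv D z.1 z.2.1 i * (Fv D z.1 z.2.2 j * g.inner z.1 (cov X z.1 (D.e i z.1))
        (D.e j z.1)) := funext fun z => hv z.1 z.2.1 z.2.2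
    rw [e]
    refine continuous_finsetSum _ fun i _ => continuous_finsetSum _ fun j _ => ?_
    exact (c1 i).mul ((c2 j).mul ((hc i j).comp c0))
  · have e : (fun z : Prs 𝓘(ℝ, E) M => g.inner z.1 (cov X z.1 z.2.2) z.2.2) = fun z =>
      ∑ i, ∑ j, Fv D z.1 z.2.2 i * (Fv D z.1 z.2.2 j * g.inner z.1 (cov X z.1 (D.e i z.1))
        (D.e j z.1)) := funext fun z => hv z.1 z.2.2 z.2.2
    rw [e]
    refine continuous_finsetSum _ fun i _ => continuous_finsetSum _ fun j _ => ?_
    exact (c2 i).mul ((c2 j).mul ((hc i j).comp c0))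

variable {μ : Measure (Prs 𝓘(ℝ, E) M)}

/-- a continuous function vanishing almost everywhere vanishes on the support -/
theorem supp_zero {f : Prs 𝓘(ℝ, E) M → ℝ} (hf : Continuous f) (h0 : ∀ᵐ z ∂μ, f z = 0) :
    ∀ z ∈ μ.support, f z = 0 := by
  have hcl : IsClosed (f ⁻¹' {0}) := isClosed_singleton.preimage hf
  exact fun z hz => Measure.support_subset_of_isClosed hcl h0 hz

theorem supp_FP (h : IsLeviCivita g cov) (hR : IsRiemannTensor cov R) (hs : μ (FP g R)ᶜ = 0) :
    μ.support ⊆ FP g R := Measure.support_subset_of_isClosed (isClosed_FP h hR) hs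

theorem supp_kill [Nontrivial E] (h : IsLeviCivita g cov) (hR : IsRiemannTensor cov R)
    (hnn : ∀ (x : M) (u v : TangentSpace 𝓘(ℝ, E) x), LinearIndependent ℝ ![u, v] →
      0 ≤ sectionalCurvature g R x u v) (hs : μ (FP g R)ᶜ = 0)
    (hann : ∀ h : Bilin 𝓘(ℝ, E) M, SymTensor h → Integrable (LP h cov) μ ∧
      ∫ z, LP h cov z ∂μ = 0)
    {X : Π x : M, TangentSpace 𝓘(ℝ, E) x} (hX : IsKilling g cov X) :
    ∀ z ∈ μ.support, g.inner z.1 (cov X z.1 z.2.1) z.2.2 = 0 :=
  supp_zero (cont_A h hX.smooth).2.1 (ae_kill h hR hnn hs hann hX)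

end Pool.Agent.Helper62.KP
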