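import Mathlib

/-!
The convex hull of a compact set in a finite dimensional space is compact.
-/

open Set

set_option autoImplicit false

noncomputable section

namespace Pool.Agent.Helper62.KP

theorem sum_emb {α β B : Type*} [Fintype α] [Fintype β] [AddCommMonoid B] (em : α ↪ β) (f : β → B)
    (hf : ∀ i, i ∉ Set.range em → f i = 0) : ∑ i, f i = ∑ a : α, f (em a) := by
  classical
  rw [← Finset.sum_map Finset.univ em f]
  symm
  apply Finset.sum_subset (Finset.subset_univ _)
  intro i _ hi
  apply hf
  rintro ⟨a, ha⟩
  exact hi (Finset.mem_map.2 ⟨a, Finset.mem_univ _, ha⟩)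

theorem compact_hull {V : Type*} [NormedAddCommGroup V] [NormedSpace ℝ V] [FiniteDimensional ℝ V]
    {C : Set V} (hC : IsCompact C) : IsCompact (convexHull ℝ C) := by
  rcases C.eq_empty_or_nonempty with rfl | ⟨c₀, hc₀⟩
  · simp
  obtain ⟨n, hn⟩ : ∃ n, n = Module.finrank ℝ V + 1 := ⟨_, rfl⟩
  obtain ⟨D, hD⟩ : ∃ D : Set ((Fin n → ℝ) × (Fin n → V)),
    D = stdSimplex ℝ (Fin n) ×ˢ (Set.univ.pi fun _ => C) := ⟨_, rfl⟩
  have hDc : IsCompact D := by
    rw [hD]
    exact (isCompact_stdSimplex ℝ (Fin n)).prod (isCompact_univ_pi fun _ => hC)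
  have hcont : Continuous (fun q : (Fin n → ℝ) × (Fin n → V) => ∑ i, q.1 i • q.2 i) := by
    refine continuous_finsetSum _ fun i _ => ?_
    exact ((continuous_apply i).comp continuous_fst).smul ((continuous_apply i).comp continuous_snd)
  have himg : (fun q : (Fin n → ℝ) × (Fin n → V) => ∑ i, q.1 i • q.2 i) '' D = convexHull ℝ C := by
    apply Set.Subset.antisymm
    · rintro _ ⟨q, hq, rfl⟩
      rw [hD] at hq
      obtain ⟨⟨h1, h2⟩, h3⟩ := hq
      exact (convex_convexHull ℝ C).sum_mem (fun i _ => h1 i) h2
        fun i _ => subset_convexHull ℝ C (h3 i (Set.mem_univ i))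
    · intro x hx
      rw [convexHull_eq_union] at hx
      simp only [Set.mem_iUnion] at hx
      obtain ⟨t, htC, hai, hxt⟩ := hx
      have hcard : Fintype.card t ≤ n := by
        have h1 := hai.card_le_finrank_succ
        have h2 : Module.finrank ℝ (vectorSpan ℝ (Set.range ((↑) : t → V))) ≤
          Module.finrank ℝ V := Submodule.finrank_le _
        omega
      rw [Finset.mem_convexHull'] at hxt
      obtain ⟨w, hw0, hw1, hwx⟩ := hxt
      obtain ⟨em⟩ : Nonempty (t ↪ Fin n) :=
        Function.Embedding.nonempty_of_card_le (by simpa using hcard)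
      classical
      obtain ⟨W, hW⟩ : ∃ W : Fin n → ℝ, W = fun i => if h : ∃ a : t, em a = i then w h.choose.1
        else 0 := ⟨_, rfl⟩
      obtain ⟨P, hP⟩ : ∃ P : Fin n → V, P = fun i => if h : ∃ a : t, em a = i then h.choose.1
        else c₀ := ⟨_, rfl⟩
      have hWem : ∀ a : t, W (em a) = w a.1 := by
        intro a
        have h : ∃ b : t, em b = em a := ⟨a, rfl⟩
        have h2 : h.choose = a := em.injective h.choose_spec
        rw [hW]
        simp only [dif_pos h, h2]
      have hPem : ∀ a : t, P (em a) = a.1 := by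
        intro a
        have h : ∃ b : t, em b = em a := ⟨a, rfl⟩
        have h2 : h.choose = a := em.injective h.choose_spec
        rw [hP]
        simp only [dif_pos h, h2]
      have hW0 : ∀ i, i ∉ Set.range em → W i = 0 := by
        intro i hi
        rw [hW]
        exact dif_neg fun ⟨a, ha⟩ => hi ⟨a, ha⟩
      refine ⟨(W, P), ?_, ?_⟩
      · rw [hD]
        refine ⟨⟨?_, ?_⟩, ?_⟩
        · intro i
          by_cases h : ∃ a : t, em a = i
          · obtain ⟨a, rfl⟩ := h
            change 0 ≤ W (em a)
            rw [hWem]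
            exact hw0 _ a.2
          · change 0 ≤ W i
            rw [hW0 i fun ⟨a, ha⟩ => h ⟨a, ha⟩]
        · change ∑ i, W i = 1
          rw [sum_emb em W hW0, ← hw1, ← Finset.sum_coe_sort t w]
          exact Finset.sum_congr rfl fun a _ => hWem a
        · intro i _
          by_cases h : ∃ a : t, em a = i
          · obtain ⟨a, rfl⟩ := h
            change P (em a) ∈ C
            rw [hPem]
            exact htC a.2
          · change P i ∈ C
            rw [hP]
            simp only [dif_neg h]
            exact hc₀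
      · change ∑ i, W i • P i = x
        rw [sum_emb em (fun i => W i • P i) (fun i hi => by rw [hW0 i hi, zero_smul]), ← hwx,
          ← Finset.sum_coe_sort t (fun y => w y • y)]
        exact Finset.sum_congr rfl fun a _ => by rw [hWem, hPem]
  rw [← himg]
  exact hDc.image hcont

end Pool.Agent.Helper62.KP
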