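import Pool.Agent.Helper62.KP.Surf4
import Pool.Agent.Helper62.KP.Cara

/-!
Flat planes over a closed set: mixed discriminants of Hessians, and finitely many balanced flat
planes at each point of the support.
-/

open Bundle Manifold ContDiff ContinuousLinearMap Filter VectorField MeasureTheory
open scoped Topology

set_option autoImplicit false
set_option synthInstance.maxHeartbeats 400000
set_option maxHeartbeats 4000000
set_option linter.unusedSectionVars false

noncomputable section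

namespace Pool.Agent.Helper62.KP

open Pool.Agent.H821R2 Pool.Agent.H821R3 Pool.Agent.H893R5.HO

/-- separation in a finite dimensional coordinate space -/
theorem separate {κ : Type*} [Fintype κ] [DecidableEq κ] {X : Type*} [TopologicalSpace X]
    {K : Set X} (hK : IsCompact K) {ψ : X → κ → ℝ} (hψ : Continuous ψ) :
    (∃ (N : ℕ) (w : Fin N → ℝ) (p : Fin N → X), (∀ i, 0 < w i) ∧ ∑ i, w i = 1 ∧
      (∀ i, p i ∈ K) ∧ ∀ k, ∑ i, w i * ψ (p i) k = 0) ∨
    ∃ c : κ → ℝ, ∀ x ∈ K, 0 < ∑ k, c k * ψ x k := by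
  by_cases h0 : (0 : κ → ℝ) ∈ convexHull ℝ (ψ '' K)
  · left
    rw [mem_convexHull_iff_exists_fintype] at h0
    obtain ⟨ι, _, w, z, hw0, hw1, hz, hsum⟩ := h0
    classical
    -- remove the zero weights
    obtain ⟨s, hs⟩ : ∃ s : Finset ι, s = Finset.univ.filter fun i => w i ≠ 0 := ⟨_, rfl⟩
    have hcard : ∃ N, N = s.card := ⟨_, rfl⟩
    obtain ⟨N, hN⟩ := hcard
    let e : Fin N ≃ s := (Fin.castOrderIso hN).toEquiv.trans s.equivFin.symm
    choose p hpK hp using hz
    have hsum' : ∀ f : ι → ℝ, ∑ i : Fin N, w (e i).1 * f (e i).1 = ∑ i, w i * f i := by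
      intro f
      rw [Equiv.sum_comp e (fun i : s => w i.1 * f i.1), Finset.sum_coe_sort s
        (fun i => w i * f i), hs, Finset.sum_filter]
      refine Finset.sum_congr rfl fun i _ => ?_
      by_cases hi : w i = 0
      · simp [hi]
      · simp [hi]
    refine ⟨N, fun i => w (e i).1, fun i => p (e i).1, ?_, ?_, fun i => hpK _, ?_⟩
    · intro i
      have h1 : ∀ a : ι, a ∈ s → w a ≠ 0 := by
        intro a ha
        rw [hs, Finset.mem_filter] at ha
        exact ha.2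
      exact lt_of_le_of_ne (hw0 _) (Ne.symm (h1 _ (e i).2))
    · have := hsum' (fun _ => 1)
      simp only [mul_one] at this
      rw [this, hw1]
    · intro k
      rw [hsum' (fun i => ψ (p i) k)]
      have h2 := congrFun hsum k
      rw [Finset.sum_apply] at h2
      simp only [Pi.smul_apply, smul_eq_mul, Pi.zero_apply] at h2
      rw [← h2]
      exact Finset.sum_congr rfl fun i _ => by rw [hp i]
  · right
    have hcomp : IsCompact (convexHull ℝ (ψ '' K)) := compact_hull (hK.image hψ)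
    obtain ⟨f, u, hu0, hu1⟩ := geometric_hahn_banach_point_closed (convex_convexHull ℝ (ψ '' K))
      hcomp.isClosed h0
    refine ⟨fun k => f (Pi.single k 1), fun x hx => ?_⟩
    have h1 := hu1 (ψ x) (subset_convexHull ℝ _ ⟨x, hx, rfl⟩)
    rw [map_zero] at hu0
    have h2 : f (ψ x) = ∑ k, f (Pi.single k 1) * ψ x k := by
      have h3 : ψ x = ∑ k, ψ x k • (Pi.single k 1 : κ → ℝ) := by
        ext j
        rw [Finset.sum_apply]
        simp [Pi.single_apply]
      conv_lhs => rw [h3]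
      rw [map_sum]
      refine Finset.sum_congr rfl fun k _ => ?_
      rw [map_smul, smul_eq_mul, mul_comm]
    rw [← h2]
    linarith

variable {E : Type*} [NormedAddCommGroup E] [InnerProductSpace ℝ E] [FiniteDimensional ℝ E]
  [Nontrivial E]
  {M : Type*} [TopologicalSpace M] [ChartedSpace E M] [IsManifold 𝓘(ℝ, E) ∞ M]
  [T2Space M] [CompactSpace M]
  {g : Metric 𝓘(ℝ, E) M} {cov : Conn 𝓘(ℝ, E) M} {R : CurvField 𝓘(ℝ, E) M}

/-- the mixed discriminant of the Hessians -/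
def MD (g : Metric 𝓘(ℝ, E) M) (cov : Conn 𝓘(ℝ, E) M) (G K : Π x : M, TangentSpace 𝓘(ℝ, E) x)
    (z : Prs 𝓘(ℝ, E) M) : ℝ :=
  g.inner z.1 (cov G z.1 z.2.1) z.2.1 * g.inner z.1 (cov K z.1 z.2.2) z.2.2 +
    g.inner z.1 (cov G z.1 z.2.2) z.2.2 * g.inner z.1 (cov K z.1 z.2.1) z.2.1 -
    2 * (g.inner z.1 (cov G z.1 z.2.1) z.2.2 * g.inner z.1 (cov K z.1 z.2.1) z.2.2)

/-- the Hessian of a sum -/
theorem grad_add_on (h : IsLeviCivita g cov) {y w : M → ℝ} (hy : Sm 𝓘(ℝ, E) y)
    (hw : Sm 𝓘(ℝ, E) w) {G K G' : Π x : M, TangentSpace 𝓘(ℝ, E) x} (hG : IsGrad g y G)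
    (hK : IsGrad g w K) (hG' : IsGrad g (fun x => y x + w x) G') (x : M)
    (a b : TangentSpace 𝓘(ℝ, E) x) :
    g.inner x (cov G' x a) b = g.inner x (cov G x a) b + g.inner x (cov K x a) b := by
  have key : ∀ c : TangentSpace 𝓘(ℝ, E) x,
      g.inner x (cov G' x c) c = g.inner x (cov G x c) c + g.inner x (cov K x c) c := by
    intro c
    rw [hes_eq h hG', hes_eq h hG, hes_eq h hK, hes_add hy hw]
  have k1 := key a
  have k2 := key b
  have k3 := key (a + b)
  have s1 := hess_symm (hy.add hw) hG' h x b a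
  have s2 := hess_symm hy hG h x b a
  have s3 := hess_symm hw hK h x b a
  have pol : ∀ (Y : Π x : M, TangentSpace 𝓘(ℝ, E) x),
      g.inner x (cov Y x (a + b)) (a + b) = g.inner x (cov Y x a) a + g.inner x (cov Y x a) b +
        g.inner x (cov Y x b) a + g.inner x (cov Y x b) b := by
    intro Y
    rw [map_add (cov Y x), map_add (g.inner x), add_apply, map_add, map_add]
    ring
  rw [pol, pol, pol, s1, s2, s3] at k3
  linarith

theorem cont_MD (h : IsLeviCivita g cov) {G K : Π x : M, TangentSpace 𝓘(ℝ, E) x} (hG : SmV G)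
    (hK : SmV K) : Continuous (MD g cov G K) := by
  obtain ⟨h1, h2, h3⟩ := cont_A (g := g) h hG
  obtain ⟨k1, k2, k3⟩ := cont_A (g := g) h hK
  exact ((h1.mul k3).add (h3.mul k1)).sub (continuous_const.mul (h2.mul k2))

variable {μ : Measure (Prs 𝓘(ℝ, E) M)} [IsFiniteMeasure μ]

/-- the mixed discriminants have zero integral -/
theorem int_MD (h : IsLeviCivita g cov) (hR : IsRiemannTensor cov R)
    (hann : ∀ h : Bilin 𝓘(ℝ, E) M, SymTensor h → Integrable (LP h cov) μ ∧
      ∫ z, LP h cov z ∂μ = 0)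
    {y w : M → ℝ} (hy : Sm 𝓘(ℝ, E) y) (hw : Sm 𝓘(ℝ, E) w)
    {G K : Π x : M, TangentSpace 𝓘(ℝ, E) x} (hG : IsGrad g y G) (hK : IsGrad g w K) :
    ∫ z, MD g cov G K z ∂μ = 0 := by
  obtain ⟨G', hG'⟩ := exists_grad g (hy.add hw)
  have hD : ∀ {q : M → ℝ} {Q : Π x : M, TangentSpace 𝓘(ℝ, E) x}, Sm 𝓘(ℝ, E) q → IsGrad g q Q →
      Integrable (DG g cov Q) μ ∧ ∫ z, DG g cov Q z ∂μ = 0 := by
    intro q Q hq hQ
    obtain ⟨h1, h2⟩ := hann _ (sq_sym (g := g) hQ.smooth)
    have e : LP (sq g Q) cov = DG g cov Q := funext fun z => LP_grad h hR hq hQ z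
    rw [e] at h1 h2
    exact ⟨h1, h2⟩
  obtain ⟨i1, j1⟩ := hD hy hG
  obtain ⟨i2, j2⟩ := hD hw hK
  obtain ⟨i3, j3⟩ := hD (hy.add hw) hG'
  have e : MD g cov G K = fun z => (DG g cov G' z - DG g cov G z) - DG g cov K z := by
    ext z
    unfold MD DG
    rw [grad_add_on h hy hw hG hK hG', grad_add_on h hy hw hG hK hG',
      grad_add_on h hy hw hG hK hG']
    ring
  rw [e]
  have e1 := integral_sub (i3.sub i1) i2
  have e2 := integral_sub i3 i1
  rw [j3, j1] at e2
  rw [j2] at e1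
  refine e1.trans ?_
  have e3 : ∫ z, (DG g cov G' - DG g cov G) z ∂μ = 0 := e2.trans (sub_zero 0)
  rw [e3, sub_zero]

/-- localized version for a function vanishing on the foot points -/
theorem int_MD_loc (h : IsLeviCivita g cov) (hR : IsRiemannTensor cov R)
    (hann : ∀ h : Bilin 𝓘(ℝ, E) M, SymTensor h → Integrable (LP h cov) μ ∧
      ∫ z, LP h cov z ∂μ = 0)
    {T : Set M} (hT : ∀ z ∈ μ.support, z.1 ∈ T)
    (htan : ∀ z ∈ μ.support, TangentTo E T z.1 z.2.1 ∧ TangentTo E T z.1 z.2.2)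
    {y w f : M → ℝ} (hf : Sm 𝓘(ℝ, E) f) (hy : Sm 𝓘(ℝ, E) y) (hyT : ∀ p ∈ T, y p = 0)
    (hw : Sm 𝓘(ℝ, E) w)
    {G K : Π x : M, TangentSpace 𝓘(ℝ, E) x} (hG : IsGrad g y G) (hK : IsGrad g w K) :
    ∫ z, f z.1 * MD g cov G K z ∂μ = 0 := by
  have hSC := sc_prs (E := E) (M := M)
  have hW : ∀ᵐ z ∂μ, z ∈ μ.support := Measure.support_mem_ae
  obtain ⟨G', hG'⟩ := exists_grad g (hf.mul hy)
  rw [← int_MD h hR hann (hf.mul hy) hw hG' hK]
  refine integral_congr_ae ?_
  filter_upwards [hW] with z hz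
  have hz0 := hyT z.1 (hT z hz)
  have d1 := (htan z hz).1 y hy hyT
  have d2 := (htan z hz).2 y hy hyT
  unfold MD
  rw [grad_mul_on h hf hy hG hG' hz0 d1 d1, grad_mul_on h hf hy hG hG' hz0 d2 d2,
    grad_mul_on h hf hy hG hG' hz0 d1 d2]
  ring

end Pool.Agent.Helper62.KP
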