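import Pool.Agent.Helper62.KP.Bal

/-!
Finitely many balanced flat planes at each point of the support.
-/

open Bundle Manifold ContDiff ContinuousLinearMap Filter VectorField MeasureTheory
open scoped Topology

set_option autoImplicit false
set_option synthInstance.maxHeartbeats 400000
set_option maxHeartbeats 4000000
set_option linter.unusedSectionVars false

noncomputable section

namespace Pool.Agent.Helper62.KP

open Pool.Agent.H821R2 Pool.Agent.H821R3 Pool.Agent.H893R5.HO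

/-- the mixed discriminant of two bilinear forms on a pair of vectors -/
def mB {V : Type*} [NormedAddCommGroup V] [NormedSpace ℝ V] (A B : V →L[ℝ] V →L[ℝ] ℝ) (u v : V) :
    ℝ := A u u * B v v + A v v * B u u - 2 * (A u v * B u v)

theorem fin_span {V : Type*} [NormedAddCommGroup V] [NormedSpace ℝ V] [FiniteDimensional ℝ V]
    (A : Set V) : ∃ s : Finset V, (s : Set V) ⊆ A ∧ ∀ B ∈ A, B ∈ Submodule.span ℝ (s : Set V) := by
  have hNo : IsNoetherian ℝ V := IsNoetherian.iff_fg.2 inferInstance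
  obtain ⟨s, hs, hsp⟩ := (Submodule.fg_span_iff_fg_span_finset_subset A).1
    (hNo.noetherian (Submodule.span ℝ A))
  exact ⟨s, hs, fun B hB => hsp ▸ Submodule.subset_span hB⟩

theorem fin_span_bil {V : Type*} [NormedAddCommGroup V] [NormedSpace ℝ V] [FiniteDimensional ℝ V]
    (A : Set (V →L[ℝ] V →L[ℝ] ℝ)) : ∃ s : Finset (V →L[ℝ] V →L[ℝ] ℝ),
      (s : Set (V →L[ℝ] V →L[ℝ] ℝ)) ⊆ A ∧
      ∀ B ∈ A, B ∈ Submodule.span ℝ (s : Set (V →L[ℝ] V →L[ℝ] ℝ)) := fin_span A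

theorem span_zero {V : Type*} [NormedAddCommGroup V] [NormedSpace ℝ V] {N : ℕ}
    {w : Fin N → ℝ} {u v : Fin N → V} {s₁ s₂ : Set (V →L[ℝ] V →L[ℝ] ℝ)}
    (h : ∀ A ∈ s₁, ∀ B ∈ s₂, ∑ i, w i * mB A B (u i) (v i) = 0)
    {A B : V →L[ℝ] V →L[ℝ] ℝ} (hA : A ∈ Submodule.span ℝ s₁) (hB : B ∈ Submodule.span ℝ s₂) :
    ∑ i, w i * mB A B (u i) (v i) = 0 := by
  have h1 : ∀ B ∈ s₂, ∑ i, w i * mB A B (u i) (v i) = 0 := by
    intro B hB
    induction hA using Submodule.span_induction with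
    | mem A hA => exact h A hA B hB
    | zero => simp [mB]
    | add A A' _ _ h1 h2 =>
      have e : ∀ i, w i * mB (A + A') B (u i) (v i) =
          w i * mB A B (u i) (v i) + w i * mB A' B (u i) (v i) := by
        intro i
        simp only [mB, add_apply]
        ring
      rw [Finset.sum_congr rfl fun i _ => e i, Finset.sum_add_distrib, h1, h2, add_zero]
    | smul c A _ h1 =>
      have e : ∀ i, w i * mB (c • A) B (u i) (v i) = c * (w i * mB A B (u i) (v i)) := by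
        intro i
        simp only [mB, smul_apply, smul_eq_mul]
        ring
      rw [Finset.sum_congr rfl fun i _ => e i, ← Finset.mul_sum, h1, mul_zero]
  induction hB using Submodule.span_induction with
  | mem B hB => exact h1 B hB
  | zero => simp [mB]
  | add B B' _ _ h2 h3 =>
    have e : ∀ i, w i * mB A (B + B') (u i) (v i) =
        w i * mB A B (u i) (v i) + w i * mB A B' (u i) (v i) := by
      intro i
      simp only [mB, add_apply]
      ring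
    rw [Finset.sum_congr rfl fun i _ => e i, Finset.sum_add_distrib, h2, h3, add_zero]
  | smul c B _ h2 =>
    have e : ∀ i, w i * mB A (c • B) (u i) (v i) = c * (w i * mB A B (u i) (v i)) := by
      intro i
      simp only [mB, smul_apply, smul_eq_mul]
      ring
    rw [Finset.sum_congr rfl fun i _ => e i, ← Finset.mul_sum, h2, mul_zero]

variable {E : Type*} [NormedAddCommGroup E] [InnerProductSpace ℝ E] [FiniteDimensional ℝ E]
  [Nontrivial E]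
  {M : Type*} [TopologicalSpace M] [ChartedSpace E M] [IsManifold 𝓘(ℝ, E) ∞ M]
  [T2Space M] [CompactSpace M]
  {g : Metric 𝓘(ℝ, E) M} {cov : Conn 𝓘(ℝ, E) M} {R : CurvField 𝓘(ℝ, E) M}

/-- the bilinear form `⟨∇_a G, b⟩` at `x` -/
def Bf (g : Metric 𝓘(ℝ, E) M) (cov : Conn 𝓘(ℝ, E) M) (G : Π x : M, TangentSpace 𝓘(ℝ, E) x)
    (x : M) : E →L[ℝ] E →L[ℝ] ℝ :=
  let b : E →L[ℝ] E →L[ℝ] ℝ := g.inner x
  let c : E →L[ℝ] E := cov G x
  b.comp c

theorem Bf_apply (G : Π x : M, TangentSpace 𝓘(ℝ, E) x) (x : M) (a b : TangentSpace 𝓘(ℝ, E) x) :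
    Bf g cov G x a b = g.inner x (cov G x a) b := rfl

theorem MD_eq (G K : Π x : M, TangentSpace 𝓘(ℝ, E) x) (x : M) (u v : TangentSpace 𝓘(ℝ, E) x) :
    MD g cov G K ⟨x, (u, v)⟩ = mB (V := E) (Bf g cov G x) (Bf g cov K x) u v := rfl

variable {μ : Measure (Prs 𝓘(ℝ, E) M)} [IsFiniteMeasure μ]

theorem bal_point (h : IsLeviCivita g cov) (hR : IsRiemannTensor cov R) (hs : μ (FP g R)ᶜ = 0)
    (hann : ∀ h : Bilin 𝓘(ℝ, E) M, SymTensor h → Integrable (LP h cov) μ ∧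
      ∫ z, LP h cov z ∂μ = 0)
    {T : Set M} (hT : ∀ z ∈ μ.support, z.1 ∈ T)
    (htan : ∀ z ∈ μ.support, TangentTo E T z.1 z.2.1 ∧ TangentTo E T z.1 z.2.2)
    {x : M} (hx : x ∈ (fun z : Prs 𝓘(ℝ, E) M => z.1) '' μ.support) :
    ∃ (N : ℕ) (w : Fin N → ℝ) (u v : Fin N → TangentSpace 𝓘(ℝ, E) x),
      (∀ i, 0 < w i) ∧ ∑ i, w i = 1 ∧
      (∀ i, (⟨x, (u i, v i)⟩ : Prs 𝓘(ℝ, E) M) ∈ μ.support) ∧
      ∀ (y q : M → ℝ) (G K : Π x : M, TangentSpace 𝓘(ℝ, E) x), Sm 𝓘(ℝ, E) y → Sm 𝓘(ℝ, E) q →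
        (∀ p ∈ T, y p = 0) → IsGrad g y G → IsGrad g q K →
        ∑ i, w i * MD g cov G K ⟨x, (u i, v i)⟩ = 0 := by
  classical
  have hSC := sc_prs (E := E) (M := M)
  have hWsub := supp_FP h hR hs
  have hW : ∀ᵐ z ∂μ, z ∈ μ.support := Measure.support_mem_ae
  have hWc : IsCompact μ.support :=
    (isCompact_FP h hR).of_isClosed_subset Measure.isClosed_support hWsub
  have hfoot := cont_foot (E := E) (M := M)
  obtain ⟨A₁, hA₁⟩ : ∃ A₁ : Set (E →L[ℝ] E →L[ℝ] ℝ), A₁ = {B | ∃ (y : M → ℝ)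
    (G : Π x : M, TangentSpace 𝓘(ℝ, E) x), Sm 𝓘(ℝ, E) y ∧ (∀ p ∈ T, y p = 0) ∧ IsGrad g y G ∧
      B = Bf g cov G x} := ⟨_, rfl⟩
  obtain ⟨A₂, hA₂⟩ : ∃ A₂ : Set (E →L[ℝ] E →L[ℝ] ℝ), A₂ = {B | ∃ (y : M → ℝ)
    (G : Π x : M, TangentSpace 𝓘(ℝ, E) x), Sm 𝓘(ℝ, E) y ∧ IsGrad g y G ∧
      B = Bf g cov G x} := ⟨_, rfl⟩
  obtain ⟨s₁, hs₁, hsp₁⟩ := fin_span_bil A₁
  obtain ⟨s₂, hs₂, hsp₂⟩ := fin_span_bil A₂
  have c₁ : ∀ a : s₁, ∃ (y : M → ℝ) (G : Π x : M, TangentSpace 𝓘(ℝ, E) x), Sm 𝓘(ℝ, E) y ∧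
      (∀ p ∈ T, y p = 0) ∧ IsGrad g y G ∧ a.1 = Bf g cov G x := by
    intro a
    have := hs₁ a.2
    rw [hA₁] at this
    exact this
  have c₂ : ∀ a : s₂, ∃ (y : M → ℝ) (G : Π x : M, TangentSpace 𝓘(ℝ, E) x), Sm 𝓘(ℝ, E) y ∧
      IsGrad g y G ∧ a.1 = Bf g cov G x := by
    intro a
    have := hs₂ a.2
    rw [hA₂] at this
    exact this
  choose y₁ G₁ hy₁ hyT hG₁ hB₁ using c₁
  choose y₂ G₂ hy₂ hG₂ hB₂ using c₂
  have hMB : ∀ (a : s₁) (b : s₂) (uv : TangentSpace 𝓘(ℝ, E) x × TangentSpace 𝓘(ℝ, E) x),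
      MD g cov (G₁ a) (G₂ b) ⟨x, uv⟩ = mB (V := E) a.1 b.1 uv.1 uv.2 := fun a b uv =>
    (congrArg₂ (fun A B => mB (V := E) A B uv.1 uv.2) (hB₁ a) (hB₂ b)).symm
  obtain ⟨ψ, hψ⟩ : ∃ ψ : Prs 𝓘(ℝ, E) M → (s₁ × s₂) → ℝ,
    ψ = fun z k => MD g cov (G₁ k.1) (G₂ k.2) z := ⟨_, rfl⟩
  have hψc : ∀ k, Continuous (fun z => ψ z k) := by
    intro k
    rw [hψ]
    exact cont_MD h (hG₁ k.1).smooth (hG₂ k.2).smooth
  obtain ⟨K, hK⟩ : ∃ K : Set (Prs 𝓘(ℝ, E) M), K = μ.support ∩ (fun z => z.1) ⁻¹' {x} :=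
    ⟨_, rfl⟩
  have hKc : IsCompact K := by
    rw [hK]; exact hWc.inter_right (isClosed_singleton.preimage hfoot)
  rcases separate hKc (continuous_pi hψc) with ⟨N, w, p, hw0, hw1, hpK, hsum⟩ | ⟨c, hc⟩
  · have hp : ∀ i, ∃ uv : TangentSpace 𝓘(ℝ, E) x × TangentSpace 𝓘(ℝ, E) x,
        p i = ⟨x, uv⟩ := by
      intro i
      have h1 := hpK i
      rw [hK] at h1
      rcases hpi : p i with ⟨x', uv⟩
      rw [hpi] at h1
      have h2 : x' = x := h1.2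
      subst h2
      exact ⟨uv, rfl⟩
    choose uv huv using hp
    refine ⟨N, w, fun i => (uv i).1, fun i => (uv i).2, hw0, hw1, ?_, ?_⟩
    · intro i
      have h1 := hpK i
      rw [hK, huv] at h1
      exact h1.1
    · intro y q G Kq hy hq hyT' hG hKq
      have m1 : Bf g cov G x ∈ Submodule.span ℝ (s₁ : Set (E →L[ℝ] E →L[ℝ] ℝ)) := by
        apply hsp₁
        rw [hA₁]
        exact ⟨y, G, hy, hyT', hG, rfl⟩
      have m2 : Bf g cov Kq x ∈ Submodule.span ℝ (s₂ : Set (E →L[ℝ] E →L[ℝ] ℝ)) := by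
        apply hsp₂
        rw [hA₂]
        exact ⟨q, Kq, hq, hKq, rfl⟩
      obtain ⟨U, hU⟩ : ∃ U : Fin N → E, U = fun i => (uv i).1 := ⟨_, rfl⟩
      obtain ⟨V, hV⟩ : ∃ V : Fin N → E, V = fun i => (uv i).2 := ⟨_, rfl⟩
      have hyp : ∀ A ∈ (s₁ : Set (E →L[ℝ] E →L[ℝ] ℝ)), ∀ B ∈ (s₂ : Set (E →L[ℝ] E →L[ℝ] ℝ)),
          ∑ i, w i * mB A B (U i) (V i) = 0 := by
        intro A hA B hB
        have h1 := hsum (⟨A, hA⟩, ⟨B, hB⟩)
        rw [← h1]
        refine Finset.sum_congr rfl fun i _ => ?_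
        rw [huv i, hψ, hU, hV]
        exact congrArg (fun t => w i * t) (hMB ⟨A, hA⟩ ⟨B, hB⟩ (uv i)).symm
      have key := span_zero hyp m1 m2
      rw [← key]
      refine Finset.sum_congr rfl fun i _ => ?_
      rw [hU, hV]
      exact congrArg (fun t => w i * t) (MD_eq G Kq x (uv i).1 (uv i).2)
  · exfalso
    obtain ⟨Ψ, hΨ⟩ : ∃ Ψ : Prs 𝓘(ℝ, E) M → ℝ, Ψ = fun z => ∑ k, c k * ψ z k := ⟨_, rfl⟩
    have hΨc : Continuous Ψ := by
      rw [hΨ]
      exact continuous_finsetSum _ fun k _ => continuous_const.mul (hψc k)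
    obtain ⟨L, hL⟩ : ∃ L : Set (Prs 𝓘(ℝ, E) M), L = μ.support ∩ Ψ ⁻¹' (Set.Iic 0) := ⟨_, rfl⟩
    have hLc : IsCompact L := by
      rw [hL]
      exact hWc.inter_right (isClosed_Iic.preimage hΨc)
    have hcl : IsClosed ((fun z : Prs 𝓘(ℝ, E) M => z.1) '' L) := (hLc.image hfoot).isClosed
    obtain ⟨f, hf0, hf1, hf01⟩ := exists_contMDiffMap_zero_one_of_isClosed (n := (⊤ : ℕ∞))
      𝓘(ℝ, E) hcl (isClosed_singleton (x := x)) (by
        rw [Set.disjoint_singleton_right]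
        rintro ⟨z, hz, hzz⟩
        rw [hL] at hz
        have h1 : z ∈ K := by rw [hK]; exact ⟨hz.1, hzz⟩
        have h2 := hc z h1
        have h3 : Ψ z ≤ 0 := hz.2
        rw [hΨ] at h3
        simp only at h3
        linarith)
    have hf : Sm 𝓘(ℝ, E) (fun x => f x) := f.contMDiff
    have hcf : Continuous (fun z : Prs 𝓘(ℝ, E) M => f z.1 * Ψ z) :=
      (hf.continuous.comp hfoot).mul hΨc
    have hI : ∫ z, f z.1 * Ψ z ∂μ = 0 := by
      have e : (fun z : Prs 𝓘(ℝ, E) M => f z.1 * Ψ z) =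
          fun z => ∑ k, c k * (f z.1 * MD g cov (G₁ k.1) (G₂ k.2) z) := by
        ext z
        rw [hΨ, hψ, Finset.mul_sum]
        exact Finset.sum_congr rfl fun k _ => by ring
      rw [e, integral_finsetSum]
      · refine Finset.sum_eq_zero fun k _ => ?_
        rw [integral_const_mul, int_MD_loc h hR hann hT htan hf (hy₁ k.1) (hyT k.1) (hy₂ k.2)
          (hG₁ k.1) (hG₂ k.2), mul_zero]
      · intro k _
        exact (int_cont h hR hs ((hf.continuous.comp hfoot).mul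
          (cont_MD h (hG₁ k.1).smooth (hG₂ k.2).smooth))).const_mul _
    have hnn : 0 ≤ᵐ[μ] fun z : Prs 𝓘(ℝ, E) M => f z.1 * Ψ z := by
      filter_upwards [hW] with z hz
      by_cases hzK : z.1 ∈ (fun z : Prs 𝓘(ℝ, E) M => z.1) '' L
      · have : f z.1 = 0 := hf0 hzK
        change 0 ≤ f z.1 * Ψ z
        rw [this]
        simp
      · have h1 : 0 < Ψ z := by
          by_contra hle
          push Not at hle
          exact hzK ⟨z, by rw [hL]; exact ⟨hz, hle⟩, rfl⟩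
        exact mul_nonneg (hf01 z.1).1 h1.le
    rw [integral_eq_zero_iff_of_nonneg_ae hnn (int_cont h hR hs hcf)] at hI
    obtain ⟨z₀, hz₀, rfl⟩ := hx
    have h0 := supp_zero hcf hI z₀ hz₀
    have h1 : f z₀.1 = 1 := hf1 rfl
    have h2 := hc z₀ (by rw [hK]; exact ⟨hz₀, rfl⟩)
    simp only [h1, hΨ] at h0
    linarith

end Pool.Agent.Helper62.KP
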