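import Pool.Agent.Helper62.KP.Bal2

/-!
The alternative for metrics of nonnegative curvature whose flat planes are essentially based on a
closed set.
-/

open Bundle Manifold ContDiff ContinuousLinearMap Filter VectorField MeasureTheory
open scoped Topology

set_option autoImplicit false
set_option synthInstance.maxHeartbeats 400000
set_option maxHeartbeats 4000000
set_option linter.unusedSectionVars false

noncomputable section

namespace Pool.Agent.Helper62.KP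

open Pool.Agent.H821R2 Pool.Agent.H821R3 Pool.Agent.H893R5.HO

variable {E : Type*} [NormedAddCommGroup E] [InnerProductSpace ℝ E] [FiniteDimensional ℝ E]
  [Nontrivial E] [MeasurableSpace E] [BorelSpace E]
  {M : Type*} [TopologicalSpace M] [ChartedSpace E M] [IsManifold 𝓘(ℝ, E) ∞ M]
  [T2Space M] [CompactSpace M]
  {g : Metric 𝓘(ℝ, E) M} {cov : Conn 𝓘(ℝ, E) M} {R : CurvField 𝓘(ℝ, E) M}

theorem balanced_alt (hc : IsLeviCivita g cov) (hR : IsRiemannTensor cov R)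
    (hnn : ∀ (x : M) (u v : TangentSpace 𝓘(ℝ, E) x), LinearIndependent ℝ ![u, v] →
      0 ≤ sectionalCurvature g R x u v)
    (hno : ∀ h : Bilin 𝓘(ℝ, E) M, SymTensor h → ∃ z ∈ FP g R, LP h cov z ≤ 0)
    {F : Set M} (hFcl : IsClosed F)
    {S : Set M} (hS : ∀ p : M, μH[2] (chartAt E p '' (S ∩ (chartAt E p).source)) = 0)
    {y : ℕ → M → ℝ} (hy : ∀ i, Sm 𝓘(ℝ, E) (y i))
    (hflat : ∀ (x : M) (u v : TangentSpace 𝓘(ℝ, E) x), x ∉ F → x ∉ S → OrthoPair g x u v →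
      sec g R x u v = 0 → (∃ i, y i x = 0 ∧
        ¬ (mvfderiv 𝓘(ℝ, E) (y i) x u = 0 ∧ mvfderiv 𝓘(ℝ, E) (y i) x v = 0)) ∨
        ∃ X, IsKilling g cov X ∧ g.inner x (cov X x u) v ≠ 0) :
    ∃ T ⊆ F, T.Nonempty ∧ IsClosed T ∧
      (∀ O : Set M, IsOpen O → (T ∩ O).Nonempty →
        ¬ ∀ p : M, μH[2] (chartAt E p '' ((T ∩ O) ∩ (chartAt E p).source)) = 0) ∧
      ∀ x ∈ T, ∃ (N : ℕ) (w : Fin N → ℝ) (u v : Fin N → TangentSpace 𝓘(ℝ, E) x),
        (∀ i, 0 < w i) ∧ ∑ i, w i = 1 ∧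
        (∀ i, OrthoPair g x (u i) (v i) ∧ sec g R x (u i) (v i) = 0 ∧
          TangentTo E T x (u i) ∧ TangentTo E T x (v i) ∧
          ∀ X, IsKilling g cov X → g.inner x (cov X x (u i)) (v i) = 0) ∧
        ∀ (y q : M → ℝ) (G K : Π x : M, TangentSpace 𝓘(ℝ, E) x), Sm 𝓘(ℝ, E) y → Sm 𝓘(ℝ, E) q →
          (∀ p ∈ T, y p = 0) → IsGrad g y G → IsGrad g q K →
          ∑ i, w i * MD g cov G K ⟨x, (u i, v i)⟩ = 0 := by
  have hSC := sc_prs (E := E) (M := M)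
  obtain ⟨μ, hμ, hs, hann⟩ := exists_mu hc hR hno
  have hT : ∀ φ : M → ℝ, Sm 𝓘(ℝ, E) φ → Integrable (TH cov φ) μ ∧ ∫ z, TH cov φ z ∂μ = 0 :=
    fun φ hφ => int_TH hc hR hs hann hφ
  obtain ⟨N, D, hinj⟩ := exists_frame 𝓘(ℝ, E) M
  have hnull := null_all D hc hs hinj hT (null_image D (by norm_num) hS)
  have htan : ∀ᵐ z ∂μ, ∀ i, y i z.1 = 0 → mvfderiv 𝓘(ℝ, E) (y i) z.1 z.2.1 = 0 ∧
      mvfderiv 𝓘(ℝ, E) (y i) z.1 z.2.2 = 0 :=
    ae_all_iff.2 fun i => ae_tangent hc hR hs hT (hy i)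
  have hS' : ∀ᵐ z ∂μ, z.1 ∉ S := by
    have : {z : Prs 𝓘(ℝ, E) M | ¬ (z.1 ∉ S)} = (fun z : Prs 𝓘(ℝ, E) M => z.1) ⁻¹' S := by
      ext z
      simp
    rw [ae_iff, this]
    exact hnull
  have hWae : ∀ᵐ z ∂μ, z ∈ μ.support := Measure.support_mem_ae
  have hfoot := cont_foot (E := E) (M := M)
  have hWsub := supp_FP hc hR hs
  have hWc : IsCompact μ.support :=
    (isCompact_FP hc hR).of_isClosed_subset Measure.isClosed_support hWsub
  have hFae : ∀ᵐ z ∂μ, z.1 ∈ F := by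
    filter_upwards [ae_FP hs, htan, hS', hWae] with z h1 h2 h3 h4
    by_contra hzF
    rcases hflat z.1 z.2.1 z.2.2 hzF h3 h1.1 h1.2 with ⟨i, hi, hi'⟩ | ⟨X, hX, hX'⟩
    · exact hi' (h2 i hi)
    · exact hX' (supp_kill hc hR hnn hs hann hX z h4)
  have hFsupp : ∀ z ∈ μ.support, z.1 ∈ F := by
    have hcl : IsClosed ((fun z : Prs 𝓘(ℝ, E) M => z.1) ⁻¹' F) := hFcl.preimage hfoot
    exact fun z hz => Measure.support_subset_of_isClosed hcl hFae hz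
  obtain ⟨T, hTdef⟩ : ∃ T : Set M, T = (fun z : Prs 𝓘(ℝ, E) M => z.1) '' μ.support := ⟨_, rfl⟩
  have hTs : ∀ z ∈ μ.support, z.1 ∈ T := fun z hz => by rw [hTdef]; exact ⟨z, hz, rfl⟩
  have htan' : ∀ z ∈ μ.support, TangentTo E T z.1 z.2.1 ∧ TangentTo E T z.1 z.2.2 := by
    intro z hz
    have key : ∀ q : M → ℝ, Sm 𝓘(ℝ, E) q → (∀ p ∈ T, q p = 0) →
        mvfderiv 𝓘(ℝ, E) q z.1 z.2.1 = 0 ∧ mvfderiv 𝓘(ℝ, E) q z.1 z.2.2 = 0 := by
      intro q hq hqT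
      have h1 : ∀ᵐ z ∂μ, mvfderiv 𝓘(ℝ, E) q z.1 z.2.1 = 0 ∧ mvfderiv 𝓘(ℝ, E) q z.1 z.2.2 = 0 := by
        filter_upwards [ae_tangent hc hR hs hT hq, hWae] with z h2 h3
        exact h2 (hqT _ (hTs z h3))
      exact ⟨supp_zero (cont_d hq).1 (h1.mono fun z h => h.1) z hz,
        supp_zero (cont_d hq).2 (h1.mono fun z h => h.2) z hz⟩
    exact ⟨fun q hq hqF => (key q hq hqF).1, fun q hq hqF => (key q hq hqF).2⟩
  refine ⟨T, ?_, ?_, ?_, ?_, ?_⟩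
  · rw [hTdef]
    rintro _ ⟨z, hz, rfl⟩
    exact hFsupp z hz
  · have : μ ≠ 0 := IsProbabilityMeasure.ne_zero μ
    rw [hTdef]
    exact (Measure.nonempty_support this).image _
  · rw [hTdef]
    exact (hWc.image hfoot).isClosed
  · rintro O hO ⟨x, hxT, hxO⟩ hnul
    have h1 := null_all D hc hs hinj hT (null_image D (by norm_num) hnul)
    rw [hTdef] at hxT
    obtain ⟨z, hz, rfl⟩ := hxT
    have h2 : (fun z : Prs 𝓘(ℝ, E) M => z.1) ⁻¹' O ∈ 𝓝 z :=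
      (hO.preimage hfoot).mem_nhds hxO
    have h3 : 0 < μ ((fun z : Prs 𝓘(ℝ, E) M => z.1) ⁻¹' O) :=
      (Measure.mem_support_iff_forall z).1 hz _ h2
    have h4 : μ ((fun z : Prs 𝓘(ℝ, E) M => z.1) ⁻¹' O) ≤
        μ ((fun z : Prs 𝓘(ℝ, E) M => z.1) ⁻¹' (T ∩ O)) := by
      apply measure_mono_ae
      filter_upwards [hWae] with q hq hqO
      exact ⟨hTs q hq, hqO⟩
    rw [h1] at h4
    exact absurd h3 (not_lt.2 h4)
  · intro x hx
    obtain ⟨N, w, u, v, hw0, hw1, hp, hsum⟩ := bal_point hc hR hs hann hTs htan'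
      (by rw [← hTdef]; exact hx)
    refine ⟨N, w, u, v, hw0, hw1, fun i => ⟨(hWsub (hp i)).1, (hWsub (hp i)).2,
      (htan' _ (hp i)).1, (htan' _ (hp i)).2, fun X hX => ?_⟩, hsum⟩
    exact supp_kill hc hR hnn hs hann hX _ (hp i)

end Pool.Agent.Helper62.KP
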