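import Pool.Agent.Helper62.KP.Hess

/-!
Uniform bounds on closed manifolds.
-/

open Bundle Manifold ContDiff ContinuousLinearMap Filter VectorField
open scoped Topology

set_option autoImplicit false
set_option synthInstance.maxHeartbeats 400000
set_option maxHeartbeats 4000000
set_option linter.unusedSectionVars false

noncomputable section

namespace Pool.Agent.Helper62.KP

open Pool.Agent.H821R2 Pool.Agent.H821R3 Pool.Agent.H893R5.HO

theorem bdd_family {X : Type*} [TopologicalSpace X] [CompactSpace X] {κ : Type*} [Fintype κ]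
    {q : κ → X → ℝ} (hq : ∀ k, Continuous (q k)) : ∃ C : ℝ, 0 ≤ C ∧ ∀ k x, |q k x| ≤ C := by
  have h1 : ∀ k, ∃ C : ℝ, ∀ x, |q k x| ≤ C := by
    intro k
    have hc : IsCompact (Set.univ : Set X) := isCompact_univ
    obtain ⟨C, hC⟩ := hc.exists_bound_of_continuousOn (hq k).continuousOn
    exact ⟨C, fun x => by simpa [Real.norm_eq_abs] using hC x (Set.mem_univ _)⟩
  choose C hC using h1
  refine ⟨∑ k, |C k|, Finset.sum_nonneg fun k _ => abs_nonneg _, fun k x => ?_⟩
  calc |q k x| ≤ C k := hC k x
    _ ≤ |C k| := le_abs_self _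
    _ ≤ ∑ k, |C k| := Finset.single_le_sum (f := fun k => |C k|) (fun j _ => abs_nonneg _)
        (Finset.mem_univ k)

variable {E : Type*} [NormedAddCommGroup E] [NormedSpace ℝ E] [FiniteDimensional ℝ E]
  {H : Type*} [TopologicalSpace H] {I : ModelWithCorners ℝ E H}
  {M : Type*} [TopologicalSpace M] [ChartedSpace H M] [IsManifold I ∞ M]

variable (g : ContMDiffRiemannianMetric I ∞ E (fun x : M => TangentSpace I x))

theorem in_nonneg (x : M) (v : TangentSpace I x) : 0 ≤ g.inner x v v := by
  by_cases h : v = 0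
  · rw [h, map_zero]
  · exact (g.pos x v h).le

/-- Cauchy-Schwarz -/
theorem in_cs (x : M) (u v : TangentSpace I x) :
    g.inner x u v ^ 2 ≤ g.inner x u u * g.inner x v v := by
  by_cases h : v = 0
  · rw [h]; simp
  · have h1 := g.pos x v h
    have h2 := in_nonneg g x (g.inner x v v • u - g.inner x u v • v)
    have e : g.inner x (g.inner x v v • u - g.inner x u v • v)
        (g.inner x v v • u - g.inner x u v • v) =
        g.inner x v v * (g.inner x u u * g.inner x v v - g.inner x u v ^ 2) := by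
      rw [in_sub_left]
      simp only [map_sub, map_smul, smul_apply, smul_eq_mul]
      rw [g.symm x v u]
      ring
    rw [e] at h2
    nlinarith [(mul_nonneg_iff_of_pos_left h1).1 h2]

variable {N : ℕ} (D : FrameData I M (Fin N))

/-- the map defined by the frame functions -/
def Fm (x : M) : Fin N → ℝ := fun i => D.f i x

/-- its derivative -/
def Fv (x : M) (v : TangentSpace I x) : Fin N → ℝ := fun i => mvfderiv I (D.f i) x v

/-- the left inverse of the derivative -/
def Ev (x : M) (a : Fin N → ℝ) : TangentSpace I x := ∑ i, a i • D.e i x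

theorem Ev_Fv (x : M) (v : TangentSpace I x) : Ev D x (Fv D x v) = v := D.repr x v

variable {g} [T2Space M] [CompactSpace M] {cov : CovariantDerivative I E (TangentSpace I : M → Type _)}

variable (g) in
theorem bound_Fv : ∃ C : ℝ, 0 ≤ C ∧ ∀ (x : M) (v : TangentSpace I x) (j : Fin N),
    Fv D x v j ^ 2 ≤ C * g.inner x v v := by
  choose X hX using fun i => exists_grad g (D.hf i)
  obtain ⟨C, hC0, hC⟩ := bdd_family (q := fun j => gi g (X j) (X j))
    (fun j => (gi_smooth (hX j).smooth (hX j).smooth).continuous)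
  refine ⟨C, hC0, fun x v j => ?_⟩
  have h1 := in_cs g x (X j x) v
  rw [(hX j).inner] at h1
  have h2 : g.inner x (X j x) (X j x) ≤ C := (le_abs_self _).trans (hC j x)
  exact h1.trans (mul_le_mul_of_nonneg_right h2 (in_nonneg g x v))

/-- a bilinear expression in the frame -/
theorem quad_bound {κ : Type} [Fintype κ] {T : κ → Π x : M, TangentSpace I x →L[ℝ] TangentSpace I x}
    (hT : ∀ k i j, Continuous (fun x => g.inner x (T k x (D.e i x)) (D.e j x))) :
    ∃ C : ℝ, 0 ≤ C ∧ ∀ (k : κ) (x : M) (v : TangentSpace I x),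
      |g.inner x (T k x v) v| ≤ C * g.inner x v v := by
  obtain ⟨C1, hC1, h1⟩ := bound_Fv g D
  obtain ⟨C2, hC2, h2⟩ := bdd_family (q := fun (k : κ × Fin N × Fin N) (x : M) =>
    g.inner x (T k.1 x (D.e k.2.1 x)) (D.e k.2.2 x)) (fun k => hT k.1 k.2.1 k.2.2)
  refine ⟨∑ i : Fin N, ∑ j : Fin N, C1 * C2, by positivity, fun k x v => ?_⟩
  have e1 : g.inner x (T k x v) v = ∑ i, ∑ j, Fv D x v i * (Fv D x v j *
      g.inner x (T k x (D.e i x)) (D.e j x)) := by
    have hv : T k x v = ∑ i, Fv D x v i • T k x (D.e i x) := by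
      conv_lhs => rw [← D.repr x v, map_sum]
      exact Finset.sum_congr rfl fun i _ => map_smul _ _ _
    rw [hv, in_sum_left g x (Fv D x v) (fun i => T k x (D.e i x))]
    refine Finset.sum_congr rfl fun i _ => ?_
    have hv2 : g.inner x (T k x (D.e i x)) v = ∑ j, Fv D x v j *
        g.inner x (T k x (D.e i x)) (D.e j x) := by
      conv_lhs => rw [← D.repr x v]
      exact in_sum_right g x (Fv D x v) (fun i => D.e i x) _
    rw [hv2, Finset.mul_sum]
  rw [e1, Finset.sum_mul]
  refine (Finset.abs_sum_le_sum_abs _ _).trans (Finset.sum_le_sum fun i _ => ?_)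
  rw [Finset.sum_mul]
  refine (Finset.abs_sum_le_sum_abs _ _).trans (Finset.sum_le_sum fun j _ => ?_)
  rw [abs_mul, abs_mul]
  have h3 := h1 x v i
  have h4 := h1 x v j
  have h5 := h2 (k, i, j) x
  have h6 : |Fv D x v i| * |Fv D x v j| ≤ C1 * g.inner x v v := by
    have : 2 * (|Fv D x v i| * |Fv D x v j|) ≤ |Fv D x v i| ^ 2 + |Fv D x v j| ^ 2 := by
      nlinarith [sq_nonneg (|Fv D x v i| - |Fv D x v j|)]
    rw [sq_abs, sq_abs] at this
    linarith
  have h7 : 0 ≤ C1 * g.inner x v v := mul_nonneg hC1 (in_nonneg g x v)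
  calc |Fv D x v i| * (|Fv D x v j| * |g.inner x (T k x (D.e i x)) (D.e j x)|)
      = (|Fv D x v i| * |Fv D x v j|) * |g.inner x (T k x (D.e i x)) (D.e j x)| := by ring
    _ ≤ (C1 * g.inner x v v) * C2 := mul_le_mul h6 h5 (abs_nonneg _) h7
    _ = C1 * C2 * g.inner x v v := by ring

variable (g) in
/-- the Hessians of the frame functions are bounded -/
theorem bound_hes (h : IsLeviCivita g cov) : ∃ C : ℝ, 0 ≤ C ∧
    ∀ (x : M) (v : TangentSpace I x) (j : Fin N), |hes cov (D.f j) x v| ≤ C * g.inner x v v := by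
  choose X hX using fun i => exists_grad g (D.hf i)
  obtain ⟨C, hC0, hC⟩ := quad_bound (g := g) D (T := fun k x => cov (X k) x) (by
    intro k i j
    exact (gi_smooth (nabla_smooth h (D.he i) (hX k).smooth) (D.he j)).continuous)
  refine ⟨C, hC0, fun x v j => ?_⟩
  rw [← hes_eq h (hX j)]
  exact hC j x v

end Pool.Agent.Helper62.KP
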