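import Pool.Agent.Helper62.KP.Defs

/-!
Conformal change of a Riemannian metric: the metric `e^{2f} g`, its Levi-Civita connection and its
curvature.
-/

open Bundle Manifold ContDiff ContinuousLinearMap Filter VectorField
open scoped Topology

set_option autoImplicit false
set_option synthInstance.maxHeartbeats 400000
set_option maxHeartbeats 4000000
set_option linter.unusedSectionVars false

noncomputable section

namespace Pool.Agent.Helper62.KP

open Pool.Agent.H821R2 Pool.Agent.H821R3 Pool.Agent.H893R5.HO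

variable {E : Type*} [NormedAddCommGroup E] [NormedSpace ℝ E] [FiniteDimensional ℝ E]
  {H : Type*} [TopologicalSpace H] {I : ModelWithCorners ℝ E H}
  {M : Type*} [TopologicalSpace M] [ChartedSpace H M] [IsManifold I ∞ M]

theorem sm_exp {f : M → ℝ} (hf : Sm I f) : Sm I (fun x => Real.exp (2 * f x)) := by
  have h1 : Sm I (fun x => 2 * f x) := Sm.cmul 2 hf
  exact (Real.contDiff_exp (n := ∞)).contMDiff.comp h1

/-- The conformal metric `e^{2f} g`. -/
def conf (g : ContMDiffRiemannianMetric I ∞ E (fun x : M => TangentSpace I x)) (f : M → ℝ)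
    (hf : ContMDiff I 𝓘(ℝ, ℝ) ∞ f) :
    ContMDiffRiemannianMetric I ∞ E (fun x : M => TangentSpace I x) where
  inner x := Real.exp (2 * f x) • g.inner x
  symm x v w := by
    rw [smul_apply, smul_apply, smul_apply, smul_apply, g.symm x v w]
  pos x v hv := by
    rw [smul_apply, smul_apply, smul_eq_mul]
    exact mul_pos (Real.exp_pos _) (g.pos x v hv)
  isVonNBounded x := by
    apply vonN (E := E) (Real.exp (2 * f x) • g.inner x)
    intro v hv
    exact mul_pos (Real.exp_pos _) (g.pos x v hv)
  contMDiff := ContMDiff.smul_section (sm_exp hf) g.contMDiff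

variable (g : ContMDiffRiemannianMetric I ∞ E (fun x : M => TangentSpace I x))

theorem conf_inner (f : M → ℝ) (hf : Sm I f) (x : M) (v w : TangentSpace I x) :
    (conf g f hf).inner x v w = Real.exp (2 * f x) * g.inner x v w := rfl

/-- `G` is the gradient of `f` -/
structure IsGrad (f : M → ℝ) (G : Π x : M, TangentSpace I x) : Prop where
  smooth : SmV G
  inner : ∀ x v, g.inner x (G x) v = mvfderiv I f x v

/-- the difference tensor of the conformal change -/
def cB (f : M → ℝ) (G : Π x : M, TangentSpace I x) (x : M) :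
    TangentSpace I x →L[ℝ] TangentSpace I x →L[ℝ] TangentSpace I x :=
  let d : E →L[ℝ] ℝ := mvfderiv I f x
  let b : E →L[ℝ] E →L[ℝ] ℝ := g.inner x
  let G0 : E := G x
  let r : E →L[ℝ] E →L[ℝ] E := (ContinuousLinearMap.smulRightL ℝ E E d) +
    d.smulRight (ContinuousLinearMap.id ℝ E) -
    ((ContinuousLinearMap.smulRightL ℝ E E).flip G0).comp b
  r

theorem cB_apply (f : M → ℝ) (G : Π x : M, TangentSpace I x) (x : M) (w v : TangentSpace I x) :
    cB g f G x w v = mvfderiv I f x v • w + mvfderiv I f x w • v - g.inner x w v • G x := rfl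

/-- the Levi-Civita connection of the conformal metric -/
def cC (f : M → ℝ) (G : Π x : M, TangentSpace I x)
    (cov : CovariantDerivative I E (TangentSpace I : M → Type _)) :
    CovariantDerivative I E (TangentSpace I : M → Type _) where
  toFun := fun σ x => cov σ x + cB g f G x (σ x)
  isCovariantDerivativeOnUniv := cov.isCovariantDerivativeOnUniv.add_one_form (cB g f G)

theorem cC_apply (f : M → ℝ) (G : Π x : M, TangentSpace I x)
    (cov : CovariantDerivative I E (TangentSpace I : M → Type _)) (σ : Π x : M, TangentSpace I x)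
    (x : M) (v : TangentSpace I x) :
    cC g f G cov σ x v = cov σ x v + (mvfderiv I f x v • σ x + mvfderiv I f x (σ x) • v -
      g.inner x (σ x) v • G x) := rfl

/-- chain rule -/
theorem d_real {φ : ℝ → ℝ} {f : M → ℝ} {x : M} {c : ℝ} (hφ : HasDerivAt φ c (f x))
    (hf : MDifferentiableAt I 𝓘(ℝ, ℝ) f x) (v : TangentSpace I x) :
    mvfderiv I (fun y => φ (f y)) x v = c * mvfderiv I f x v := by
  have h1 : MDifferentiableAt 𝓘(ℝ, ℝ) 𝓘(ℝ, ℝ) φ (f x) :=
    hφ.differentiableAt.mdifferentiableAt
  have h2 := mvfderiv_comp_apply (g := φ) (f := f) x h1 hf v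
  have h3 : (mvfderiv 𝓘(ℝ, ℝ) φ (f x)) ((mfderiv I 𝓘(ℝ, ℝ) f x) v) =
      fderiv ℝ φ (f x) ((mfderiv I 𝓘(ℝ, ℝ) f x) v) := by
    have := mfderiv_eq_fderiv (𝕜 := ℝ) (f := φ) (x := f x)
    unfold mvfderiv
    rw [this]
    rfl
  have h4 : fderiv ℝ φ (f x) = ContinuousLinearMap.smulRight (1 : ℝ →L[ℝ] ℝ) c :=
    hφ.hasFDerivAt.fderiv
  refine h2.trans (h3.trans ?_)
  rw [h4]
  change (mvfderiv I f x v) * c = c * mvfderiv I f x v
  ring

theorem d_exp {f : M → ℝ} (hf : Sm I f) (x : M) (v : TangentSpace I x) :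
    mvfderiv I (fun y => Real.exp (2 * f y)) x v =
      2 * Real.exp (2 * f x) * mvfderiv I f x v := by
  have h : HasDerivAt (fun t : ℝ => Real.exp (2 * t)) (2 * Real.exp (2 * f x)) (f x) := by
    have := ((hasDerivAt_id (f x)).const_mul 2).exp
    simpa [mul_comm] using this
  exact d_real h (hf.mdiff x) v

/-- the identity is a smooth endomorphism field -/
theorem smE_id : SmE (I := I) (M := M) (fun x => ContinuousLinearMap.id ℝ (TangentSpace I x)) := by
  intro x₀
  rw [contMDiffAt_hom_bundle]
  refine ⟨contMDiffAt_id, ?_⟩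
  have h3 : ContMDiffAt I 𝓘(ℝ, E →L[ℝ] E) ∞ (fun _ : M => ContinuousLinearMap.id ℝ E) x₀ :=
    contMDiffAt_const
  refine h3.congr_of_eventuallyEq ?_
  have hb : ∀ᶠ x in 𝓝 x₀, x ∈ (trivializationAt E (TangentSpace I : M → Type _) x₀).baseSet :=
    (trivializationAt E (TangentSpace I : M → Type _) x₀).open_baseSet.mem_nhds
      (mem_baseSet_trivializationAt E (TangentSpace I : M → Type _) x₀)
  filter_upwards [hb] with x hx
  ext v
  simp only [inCoordinates, ContinuousLinearMap.comp_apply, ContinuousLinearMap.id_apply]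
  exact Trivialization.continuousLinearMapAt_symmL _ hx v

section LC

variable {g} {f : M → ℝ} {G : Π x : M, TangentSpace I x}
  {cov : CovariantDerivative I E (TangentSpace I : M → Type _)}

theorem mul_ext {a b : ℝ} (h : a = b) : a = b := h

theorem isLeviCivita_cC [T2Space M] [SigmaCompactSpace M] (hf : Sm I f) (hG : IsGrad g f G)
    (h : IsLeviCivita g cov) : IsLeviCivita (conf g f hf) (cC g f G cov) where
  smooth := ⟨⟨by
    intro σ hσ
    rw [contMDiffOn_univ] at hσ ⊢
    have hσ' : SmV σ := hσ.of_le (by simp)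
    have h1 : SmE (fun x => cov σ x) := by
      have := (h.smooth.contMDiff.contMDiff (σ := σ) (by
        have : CMDiff ∞ (T% σ) := hσ'
        exact this.contMDiffOn))
      rw [contMDiffOn_univ] at this
      exact this
    have h2 : SmE (fun x => (mvfderiv I f x).smulRight (σ x)) :=
      contMDiff_smulRight (contMDiff_dSec hf) hσ'
    have h3 : SmE (fun x => (mvfderiv I f x (σ x)) • ContinuousLinearMap.id ℝ (TangentSpace I x)) :=
      ContMDiff.smul_section (Sm.der hσ' hf) smE_id
    have h4 : Sm1 (fun x => g.inner x (σ x)) := ContMDiff.clm_bundle_apply g.contMDiff hσ'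
    have h5 : SmE (fun x => (g.inner x (σ x)).smulRight (G x)) :=
      contMDiff_smulRight h4 hG.smooth
    exact h1.add_section ((h2.add_section h3).sub_section h5)⟩⟩
  metric A Y Z hA hY hZ x := by
    have e1 : (fun y => (conf g f hf).inner y (Y y) (Z y)) =
        fun y => (fun y => Real.exp (2 * f y)) y * (gi g Y Z) y := rfl
    have e2 : mvfderiv I (fun y => (fun y => Real.exp (2 * f y)) y * (gi g Y Z) y) x (A x) =
        mvfderiv I (fun y => Real.exp (2 * f y)) x (A x) * gi g Y Z x +
          Real.exp (2 * f x) * mvfderiv I (gi g Y Z) x (A x) :=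
      congrFun (der_mul (Z := A) (sm_exp hf) (gi_smooth hY hZ)) x
    have e3 : mvfderiv I (gi g Y Z) x (A x) =
        g.inner x (cov Y x (A x)) (Z x) + g.inner x (Y x) (cov Z x (A x)) := h.metric hA hY hZ x
    rw [e1, e2, d_exp hf, e3, conf_inner, conf_inner, cC_apply, cC_apply]
    simp only [map_add, map_sub, map_smul, add_apply, sub_apply, smul_apply, smul_eq_mul]
    rw [hG.inner, g.symm x (Y x) (G x), hG.inner, g.symm x (A x) (Z x), g.symm x (Y x) (A x), gi]
    ring
  torsionFree A Y hA hY x := by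
    rw [cC_apply, cC_apply, ← h.torsionFree hA hY x, g.symm x (Y x) (A x)]
    abel

end LC

end Pool.Agent.Helper62.KP
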