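import Pool.Agent.Helper62.KP.Alt6

/-!
Duality for conformal deformations.
-/

open Bundle Manifold ContDiff ContinuousLinearMap Filter VectorField MeasureTheory
open scoped Topology

set_option autoImplicit false
set_option synthInstance.maxHeartbeats 400000
set_option maxHeartbeats 4000000
set_option linter.unusedSectionVars false

noncomputable section

namespace Pool.Agent.Helper62.KP

open Pool.Agent.H821R2 Pool.Agent.H821R3 Pool.Agent.H893R5.HO

variable {E : Type*} [NormedAddCommGroup E] [NormedSpace ℝ E] [FiniteDimensional ℝ E]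
  {M : Type*} [TopologicalSpace M] [ChartedSpace E M] [IsManifold 𝓘(ℝ, E) ∞ M]
  [T2Space M] [CompactSpace M]
  {g : Metric 𝓘(ℝ, E) M} {cov : Conn 𝓘(ℝ, E) M} {R : CurvField 𝓘(ℝ, E) M}

theorem TH_add {a b : M → ℝ} (ha : Sm 𝓘(ℝ, E) a) (hb : Sm 𝓘(ℝ, E) b) (z : Prs 𝓘(ℝ, E) M) :
    TH cov (fun y => a y + b y) z = TH cov a z + TH cov b z := by
  unfold TH
  rw [hes_add ha hb, hes_add ha hb]
  ring

theorem TH_cmul {a : M → ℝ} (c : ℝ) (ha : Sm 𝓘(ℝ, E) a) (z : Prs 𝓘(ℝ, E) M) :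
    TH cov (fun y => c * a y) z = c * TH cov a z := by
  unfold TH
  rw [hes_cmul c ha, hes_cmul c ha]
  ring

theorem TH_const (c : ℝ) (z : Prs 𝓘(ℝ, E) M) : TH cov (fun _ => c) z = 0 := by
  unfold TH
  rw [hes_const, hes_const, add_zero]

/-- **Duality for conformal deformations.** -/
theorem exists_mu_conf (hc : IsLeviCivita g cov) (hR : IsRiemannTensor cov R)
    (hno : ∀ φ : M → ℝ, Sm 𝓘(ℝ, E) φ → ∃ z ∈ FP g R, TH cov φ z ≤ 0) :
    ∃ μ : Measure (Prs 𝓘(ℝ, E) M), IsProbabilityMeasure μ ∧ μ (FP g R)ᶜ = 0 ∧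
      ∀ φ : M → ℝ, Sm 𝓘(ℝ, E) φ → Integrable (TH cov φ) μ ∧ ∫ z, TH cov φ z ∂μ = 0 := by
  have hT2 := t2_prs (I := 𝓘(ℝ, E)) (M := M)
  have hcomp := isCompact_FP hc hR
  have hCS : CompactSpace (FP g R) := isCompact_iff_compactSpace.1 hcomp
  have hcont : ∀ φ : M → ℝ, Sm 𝓘(ℝ, E) φ → Continuous (fun z : FP g R => TH cov φ z) := fun φ hφ =>
    (cont_TH hc hφ).comp continuous_subtype_val
  let V : Submodule ℝ C(FP g R, ℝ) :=
    { carrier := {f | ∃ φ : M → ℝ, Sm 𝓘(ℝ, E) φ ∧ ∀ z : FP g R, f z = TH cov φ z}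
      zero_mem' := ⟨_, Sm.const 0, fun z => by rw [TH_const]; rfl⟩
      add_mem' := by
        rintro f f' ⟨φ, hφ, hf⟩ ⟨φ', hφ', hf'⟩
        refine ⟨_, hφ.add hφ', fun z => ?_⟩
        rw [TH_add hφ hφ']
        change f z + f' z = _
        rw [hf, hf']
      smul_mem' := by
        rintro c f ⟨φ, hφ, hf⟩
        refine ⟨_, hφ.cmul c, fun z => ?_⟩
        rw [TH_cmul c hφ]
        change c * f z = _
        rw [hf] }
  obtain ⟨μ, hμ, hann⟩ := exists_measure V (by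
    rintro f ⟨φ, hφ, hf⟩
    obtain ⟨z, hz, hle⟩ := hno φ hφ
    exact ⟨⟨z, hz⟩, by rw [hf]; exact hle⟩)
  have hemb : MeasurableEmbedding (Subtype.val : FP g R → Prs 𝓘(ℝ, E) M) :=
    MeasurableEmbedding.subtype_coe hcomp.isClosed.measurableSet
  refine ⟨μ.map Subtype.val, Measure.isProbabilityMeasure_map hemb.measurable.aemeasurable, ?_, ?_⟩
  · rw [Measure.map_apply hemb.measurable hcomp.isClosed.measurableSet.compl]
    have : (Subtype.val ⁻¹' (FP g R)ᶜ : Set (FP g R)) = ∅ := by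
      ext z
      simp
    rw [this, measure_empty]
  · intro φ hφ
    constructor
    · rw [hemb.integrable_map_iff]
      exact (hcont φ hφ).integrable_of_hasCompactSupport (HasCompactSupport.of_compactSpace _)
    · rw [hemb.integral_map]
      exact hann ⟨_, hcont φ hφ⟩ ⟨φ, hφ, fun z => rfl⟩

/-- If every flat plane is based in a null set or transversal to a zero set, then there is a
conformal metric of positive curvature. -/
theorem conf_of_transverse [Nontrivial E] [MeasurableSpace E] [BorelSpace E]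
    (hc : IsLeviCivita g cov) (hR : IsRiemannTensor cov R)
    (hnn : ∀ (x : M) (u v : TangentSpace 𝓘(ℝ, E) x), OrthoPair g x u v → 0 ≤ sec g R x u v)
    {S : Set M} (hS : ∀ p : M, μH[2] (chartAt E p '' (S ∩ (chartAt E p).source)) = 0)
    {y : ℕ → M → ℝ} (hy : ∀ i, Sm 𝓘(ℝ, E) (y i))
    (hflat : ∀ (x : M) (u v : TangentSpace 𝓘(ℝ, E) x), x ∉ S → OrthoPair g x u v →
      sec g R x u v = 0 → ∃ i, y i x = 0 ∧
        ¬ (mvfderiv 𝓘(ℝ, E) (y i) x u = 0 ∧ mvfderiv 𝓘(ℝ, E) (y i) x v = 0)) :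
    ∃ (f : M → ℝ) (hf : ContMDiff 𝓘(ℝ, E) 𝓘(ℝ, ℝ) ∞ f),
      HasPositiveSectionalCurvature (conf g f hf) := by
  by_contra hcon
  obtain ⟨μ, hμ, hs, hT⟩ := exists_mu_conf (g := g) (R := R) hc hR (by
    by_contra hno
    push Not at hno
    obtain ⟨φ, hφ, hpos⟩ := hno
    apply hcon
    refine pos_of_neg_trace hc hR hnn (φ := fun x => (-1) * φ x) (hφ.cmul (-1)) ?_
    intro x u v huv h0
    have := hpos ⟨x, (u, v)⟩ ⟨huv, h0⟩
    rw [hes_cmul _ hφ, hes_cmul _ hφ]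
    unfold TH at this
    simp only at this
    linarith)
  obtain ⟨N, D, hinj⟩ := exists_frame 𝓘(ℝ, E) M
  have hnull := null_all D hc hs hinj hT (null_image D (by norm_num) hS)
  have htan : ∀ᵐ z ∂μ, ∀ i, y i z.1 = 0 → mvfderiv 𝓘(ℝ, E) (y i) z.1 z.2.1 = 0 ∧
      mvfderiv 𝓘(ℝ, E) (y i) z.1 z.2.2 = 0 :=
    ae_all_iff.2 fun i => ae_tangent hc hR hs hT (hy i)
  have hS' : ∀ᵐ z ∂μ, z.1 ∉ S := by
    have : {z : Prs 𝓘(ℝ, E) M | ¬ (z.1 ∉ S)} = (fun z : Prs 𝓘(ℝ, E) M => z.1) ⁻¹' S := by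
      ext z
      simp
    rw [ae_iff, this]
    exact hnull
  have hfalse : ∀ᵐ _z ∂μ, False := by
    filter_upwards [ae_FP hs, htan, hS'] with z h1 h2 h3
    obtain ⟨i, hi, hi'⟩ := hflat z.1 z.2.1 z.2.2 h3 h1.1 h1.2
    exact hi' (h2 i hi)
  rw [ae_iff] at hfalse
  simp only [not_false_eq_true, Set.ofPred_true] at hfalse
  rw [measure_univ] at hfalse
  exact one_ne_zero hfalse

end Pool.Agent.Helper62.KP
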