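import Mathlib

/-!
Finite covers of compact null sets of the Hausdorff measure.
-/

open MeasureTheory Metric Set Filter
open scoped Topology ENNReal

set_option autoImplicit false

noncomputable section

namespace Pool.Agent.Helper62.KP

theorem exists_countable_cover {W : Type*} [MetricSpace W] [MeasurableSpace W] [BorelSpace W]
    {T : Set W} (hT : μH[2] T = 0) {δ : ℝ} (hδ : 0 < δ) :
    ∃ t : ℕ → Set W, T ⊆ ⋃ n, t n ∧ (∀ n, ediam (t n) ≤ 1) ∧
      ∑' n, ⨆ _ : (t n).Nonempty, ediam (t n) ^ (2 : ℝ) < ENNReal.ofReal δ := by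
  rw [Measure.hausdorffMeasure_apply] at hT
  have h1 : (⨅ (t : ℕ → Set W) (_ : T ⊆ ⋃ n, t n) (_ : ∀ n, ediam (t n) ≤ 1),
      ∑' n, ⨆ _ : (t n).Nonempty, ediam (t n) ^ (2 : ℝ)) = 0 := by
    have := (iSup₂_le_iff.1 hT.le) 1 one_pos
    exact le_antisymm this zero_le
  have h2 : (⨅ (t : ℕ → Set W) (_ : T ⊆ ⋃ n, t n) (_ : ∀ n, ediam (t n) ≤ 1),
      ∑' n, ⨆ _ : (t n).Nonempty, ediam (t n) ^ (2 : ℝ)) < ENNReal.ofReal δ := by
    rw [h1]
    exact ENNReal.ofReal_pos.2 hδ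
  rw [iInf_lt_iff] at h2
  obtain ⟨t, ht⟩ := h2
  rw [iInf_lt_iff] at ht
  obtain ⟨h3, ht⟩ := ht
  rw [iInf_lt_iff] at ht
  obtain ⟨h4, ht⟩ := ht
  exact ⟨t, h3, h4, ht⟩

/-- Compact sets of zero two-dimensional Hausdorff measure have finite covers by balls with
arbitrarily small sum of the squares of the radii. -/
theorem exists_finite_cover {W : Type*} [MetricSpace W] [MeasurableSpace W] [BorelSpace W]
    [Nonempty W]
    {T : Set W} (hTc : IsCompact T) (hT : μH[2] T = 0) {δ : ℝ} (hδ : 0 < δ) :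
    ∃ (J : Finset ℕ) (c : ℕ → W) (r : ℕ → ℝ), (∀ k ∈ J, c k ∈ T ∧ 0 < r k) ∧
      T ⊆ ⋃ k ∈ J, ball (c k) (r k) ∧ ∑ k ∈ J, r k ^ 2 ≤ δ := by
  classical
  rcases T.eq_empty_or_nonempty with hne | ⟨w₀, hw₀⟩
  · subst hne
    exact ⟨∅, fun _ => Classical.arbitrary W, fun _ => 1, by simp, by simp, by simpa using hδ.le⟩
  obtain ⟨t, ht1, ht2, ht3⟩ := exists_countable_cover hT (show 0 < δ / 8 by positivity)
  let A : Set ℕ := {n | (t n ∩ T).Nonempty}
  have hc : ∀ n, ∃ w ∈ T, (t n ∩ T).Nonempty → w ∈ t n := by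
    intro n
    by_cases h : (t n ∩ T).Nonempty
    · obtain ⟨w, hw1, hw2⟩ := h
      exact ⟨w, hw2, fun _ => hw1⟩
    · exact ⟨w₀, hw₀, fun h' => absurd h' h⟩
  choose c hcT hct using hc
  let d : ℕ → ℝ := fun n => (ediam (t n)).toReal
  let η : ℕ → ℝ := fun n => Real.sqrt (δ / 8) * (1 / 2) ^ n
  have hη : ∀ n, 0 < η n := fun n => by positivity
  have hd0 : ∀ n, 0 ≤ d n := fun n => ENNReal.toReal_nonneg
  have hfin : ∀ n, ediam (t n) ≠ ⊤ := fun n => ne_top_of_le_ne_top ENNReal.one_ne_top (ht2 n)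
  have hcov : T ⊆ ⋃ n ∈ A, ball (c n) (d n + η n) := by
    intro x hx
    obtain ⟨n, hn⟩ := mem_iUnion.1 (ht1 hx)
    have hA : (t n ∩ T).Nonempty := ⟨x, hn, hx⟩
    refine mem_iUnion₂.2 ⟨n, hA, ?_⟩
    rw [mem_ball]
    have h1 : edist x (c n) ≤ ediam (t n) := edist_le_ediam_of_mem hn (hct n hA)
    have h2 : dist x (c n) ≤ d n := by
      rw [dist_edist]
      exact ENNReal.toReal_mono (hfin n) h1
    have := hη n
    linarith
  obtain ⟨b, hbA, hbf, hb⟩ := hTc.elim_finite_subcover_image (fun n _ => isOpen_ball) hcov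
  refine ⟨hbf.toFinset, c, fun n => d n + η n, ?_, ?_, ?_⟩
  · intro k _
    exact ⟨hcT k, by have := hη k; have := hd0 k; linarith⟩
  · simpa using hb
  · have h1 : ∑ k ∈ hbf.toFinset, d k ^ 2 ≤ δ / 8 := by
      have h2 : ENNReal.ofReal (∑ k ∈ hbf.toFinset, d k ^ 2) ≤ ENNReal.ofReal (δ / 8) := by
        rw [ENNReal.ofReal_sum_of_nonneg fun k _ => sq_nonneg _]
        refine le_trans ?_ ht3.le
        refine le_trans (Finset.sum_le_sum fun k hk => ?_) (ENNReal.sum_le_tsum hbf.toFinset)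
        have hk' : k ∈ A := hbA (hbf.mem_toFinset.1 hk)
        have hne : (t k).Nonempty := hk'.mono inter_subset_left
        rw [iSup_pos hne]
        have h3 : ENNReal.ofReal (d k ^ 2) = ediam (t k) ^ (2 : ℝ) := by
          rw [ENNReal.ofReal_pow (hd0 k), ENNReal.ofReal_toReal (hfin k)]
          norm_cast
        exact h3.le
      exact (ENNReal.ofReal_le_ofReal_iff (by positivity)).1 h2
    have h4 : ∑ k ∈ hbf.toFinset, η k ^ 2 ≤ δ / 6 := by
      have e : ∀ k, η k ^ 2 = δ / 8 * (1 / 4) ^ k := by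
        intro k
        simp only [η, mul_pow, Real.sq_sqrt (show 0 ≤ δ / 8 by positivity)]
        rw [← pow_mul, mul_comm k 2, pow_mul]
        norm_num
      simp only [e]
      rw [← Finset.mul_sum]
      have h5 : ∑ k ∈ hbf.toFinset, ((1 : ℝ) / 4) ^ k ≤ 4 / 3 := by
        have h6 := hasSum_geometric_of_lt_one (r := (1 : ℝ) / 4) (by norm_num) (by norm_num)
        have h7 := sum_le_hasSum hbf.toFinset (fun k _ => by positivity) h6
        norm_num at h7 ⊢
        exact h7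
      calc δ / 8 * ∑ k ∈ hbf.toFinset, ((1 : ℝ) / 4) ^ k ≤ δ / 8 * (4 / 3) :=
            mul_le_mul_of_nonneg_left h5 (by positivity)
        _ = δ / 6 := by ring
    have h8 : ∑ k ∈ hbf.toFinset, (d k + η k) ^ 2 ≤
        2 * ∑ k ∈ hbf.toFinset, d k ^ 2 + 2 * ∑ k ∈ hbf.toFinset, η k ^ 2 := by
      rw [Finset.mul_sum, Finset.mul_sum, ← Finset.sum_add_distrib]
      refine Finset.sum_le_sum fun k _ => ?_
      nlinarith [sq_nonneg (d k - η k)]
    linarith

end Pool.Agent.Helper62.KP
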