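import Pool.Agent.Helper62.KP.Conf

/-!
The curvature of a conformal metric.
-/

open Bundle Manifold ContDiff ContinuousLinearMap Filter VectorField
open scoped Topology

set_option autoImplicit false
set_option synthInstance.maxHeartbeats 400000
set_option maxHeartbeats 4000000
set_option linter.unusedSectionVars false

noncomputable section

namespace Pool.Agent.Helper62.KP

open Pool.Agent.H821R2 Pool.Agent.H821R3 Pool.Agent.H893R5.HO

variable {E : Type*} [NormedAddCommGroup E] [NormedSpace ℝ E] [FiniteDimensional ℝ E]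
  {H : Type*} [TopologicalSpace H] {I : ModelWithCorners ℝ E H}
  {M : Type*} [TopologicalSpace M] [ChartedSpace H M] [IsManifold I ∞ M]

section alg

variable {V : Type*} [AddCommGroup V] [Module ℝ V]

/-- the algebra of the curvature formula -/
theorem curv_alg (X Y Z G AX AY nXY nYX nXZ nYZ D1 D2 D3 : V)
    (fx fy fz GG gXY gYX gXZ gZX gYZ gZY aXY aYX aXZ aYZ fnXY fnYX fnXZ fnYZ gnXZY gnYZX gZnXY
      gZnYX : ℝ)
    (h1 : gYX = gXY) (h2 : gZX = gXZ) (h3 : gZY = gYZ) (h4 : aYX = aXY) :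
    (D1 + fy • nXZ + (aXY + fnXY) • Z + (fz • nXY + (aXZ + fnXZ) • Y) -
      (gZY • AX + (gnXZY + gZnXY) • G) +
      (fx • (nYZ + fy • Z + fz • Y - gZY • G) + (fnYZ + fy * fz + fz * fy - gZY * GG) • X -
        (gnYZX + fy * gZX + fz * gYX - gZY * fx) • G)) -
    (D2 + fx • nYZ + (aYX + fnYX) • Z + (fz • nYX + (aYZ + fnYZ) • X) -
      (gZX • AY + (gnYZX + gZnYX) • G) +
      (fy • (nXZ + fx • Z + fz • X - gZX • G) + (fnXZ + fx * fz + fz * fx - gZX * GG) • Y -
        (gnXZY + fx * gZY + fz * gXY - gZX * fy) • G)) -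
    (D3 + ((fnXY - fnYX) • Z + fz • (nXY - nYX) - (gZnXY - gZnYX) • G)) =
    (D1 - D2 - D3) - (aYZ - fy * fz + GG * gYZ) • X + (aXZ - fx * fz + GG * gXZ) • Y -
      gYZ • (AX - fx • G) + gXZ • (AY - fy • G) := by
  subst h1 h2 h3 h4
  module

end alg

variable {g : ContMDiffRiemannianMetric I ∞ E (fun x : M => TangentSpace I x)}
  {f : M → ℝ} {G : Π x : M, TangentSpace I x}
  {cov : CovariantDerivative I E (TangentSpace I : M → Type _)}

/-- the derivative of `df(Y)` -/
theorem d_der (hG : IsGrad g f G) (h : IsLeviCivita g cov) {X Y : Π x : M, TangentSpace I x}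
    (hX : SmV X) (hY : SmV Y) (x : M) :
    mvfderiv I (fun y => mvfderiv I f y (Y y)) x (X x) =
      g.inner x (cov G x (X x)) (Y x) + mvfderiv I f x (cov Y x (X x)) := by
  have e : (fun y => mvfderiv I f y (Y y)) = fun y => g.inner y (G y) (Y y) := by
    ext y
    exact (hG.inner y (Y y)).symm
  rw [e]
  refine (h.metric hX hG.smooth hY x).trans ?_
  rw [hG.inner]

/-- symmetry of the Hessian -/
theorem hess_symm [T2Space M] [SigmaCompactSpace M] [Nontrivial E] (hf : Sm I f)
    (hG : IsGrad g f G) (h : IsLeviCivita g cov) (x : M) (u v : TangentSpace I x) :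
    g.inner x (cov G x u) v = g.inner x (cov G x v) u := by
  obtain ⟨X, hX, rfl⟩ := exists_smooth_field (I := I) x u
  obtain ⟨Y, hY, rfl⟩ := exists_smooth_field (I := I) x v
  have h1 := comm_fun hf hX hY (Sm.der hX hf) (Sm.der hY hf) x
  rw [d_der hG h hX hY, d_der hG h hY hX, ← h.torsionFree hX hY x, map_sub] at h1
  linarith

theorem d_inner (h : IsLeviCivita g cov) {X Y Z : Π x : M, TangentSpace I x}
    (hX : SmV X) (hY : SmV Y) (hZ : SmV Z) (x : M) :
    mvfderiv I (gi g Y Z) x (X x) = g.inner x (cov Y x (X x)) (Z x) +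
      g.inner x (Y x) (cov Z x (X x)) := h.metric hX hY hZ x

/-- the conformal connection applied twice -/
theorem cC_cC [T2Space M] [SigmaCompactSpace M] (hf : Sm I f)
    (hG : IsGrad g f G) (h : IsLeviCivita g cov) {X Y Z : Π x : M, TangentSpace I x}
    (hX : SmV X) (hY : SmV Y) (hZ : SmV Z) (x : M) :
    cC g f G cov (nabla (cC g f G cov) Y Z) x (X x) =
    cov (nabla cov Y Z) x (X x) + mvfderiv I f x (Y x) • cov Z x (X x) +
      (g.inner x (cov G x (X x)) (Y x) + mvfderiv I f x (cov Y x (X x))) • Z x +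
      (mvfderiv I f x (Z x) • cov Y x (X x) +
        (g.inner x (cov G x (X x)) (Z x) + mvfderiv I f x (cov Z x (X x))) • Y x) -
      (g.inner x (Z x) (Y x) • cov G x (X x) +
        (g.inner x (cov Z x (X x)) (Y x) + g.inner x (Z x) (cov Y x (X x))) • G x) +
      (mvfderiv I f x (X x) • (cov Z x (Y x) + mvfderiv I f x (Y x) • Z x +
          mvfderiv I f x (Z x) • Y x - g.inner x (Z x) (Y x) • G x) +
        (mvfderiv I f x (cov Z x (Y x)) + mvfderiv I f x (Y x) * mvfderiv I f x (Z x) +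
          mvfderiv I f x (Z x) * mvfderiv I f x (Y x) - g.inner x (Z x) (Y x) *
            mvfderiv I f x (G x)) • X x -
        (g.inner x (cov Z x (Y x)) (X x) + mvfderiv I f x (Y x) * g.inner x (Z x) (X x) +
          mvfderiv I f x (Z x) * g.inner x (Y x) (X x) - g.inner x (Z x) (Y x) *
            mvfderiv I f x (X x)) • G x) := by
  have hN : SmV (nabla cov Y Z) := nabla_smooth h hY hZ
  have hfy : Sm I (der Y f) := Sm.der hY hf
  have hfz : Sm I (der Z f) := Sm.der hZ hf
  have hzy : Sm I (gi g Z Y) := gi_smooth hZ hY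
  have e : nabla (cC g f G cov) Y Z =
      ((nabla cov Y Z + (der Y f) • Z) + (der Z f) • Y) + (fun y => -(gi g Z Y y)) • G := by
    ext1 y
    change cC g f G cov Z y (Y y) = cov Z y (Y y) + mvfderiv I f y (Y y) • Z y +
      mvfderiv I f y (Z y) • Y y + (-(g.inner y (Z y) (Y y))) • G y
    rw [cC_apply]
    module
  have s1 : SmV (nabla cov Y Z) := hN
  have s2 : SmV ((der Y f) • Z) := ContMDiff.smul_section hfy hZ
  have s3 : SmV ((der Z f) • Y) := ContMDiff.smul_section hfz hY
  have hzy' : Sm I (fun y => -(gi g Z Y y)) := by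
    have := Sm.cmul (-1) hzy
    simpa using this
  have s4 : SmV ((fun y => -(gi g Z Y y)) • G) := ContMDiff.smul_section hzy' hG.smooth
  have s12 : SmV (nabla cov Y Z + (der Y f) • Z) := s1.add_section s2
  have s123 : SmV (nabla cov Y Z + (der Y f) • Z + (der Z f) • Y) := s12.add_section s3
  have c := cov.isCovariantDerivativeOnUniv
  have k1 : cov (nabla (cC g f G cov) Y Z) x (X x) =
      cov (nabla cov Y Z) x (X x) + ((der Y f x) • cov Z x (X x) +
        mvfderiv I (der Y f) x (X x) • Z x) + ((der Z f x) • cov Y x (X x) +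
        mvfderiv I (der Z f) x (X x) • Y x) + ((-(gi g Z Y x)) • cov G x (X x) +
        mvfderiv I (fun y => -(gi g Z Y y)) x (X x) • G x) := by
    rw [e, c.add (mdiffAt s123 x) (mdiffAt s4 x), c.add (mdiffAt s12 x) (mdiffAt s3 x),
      c.add (mdiffAt s1 x) (mdiffAt s2 x), c.leibniz (mdiffAt hZ x) (hfy.mdiff x),
      c.leibniz (mdiffAt hY x) (hfz.mdiff x), c.leibniz (mdiffAt hG.smooth x) (hzy'.mdiff x)]
    rfl
  have k2 : mvfderiv I (der Y f) x (X x) = g.inner x (cov G x (X x)) (Y x) +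
      mvfderiv I f x (cov Y x (X x)) := d_der hG h hX hY x
  have k3 : mvfderiv I (der Z f) x (X x) = g.inner x (cov G x (X x)) (Z x) +
      mvfderiv I f x (cov Z x (X x)) := d_der hG h hX hZ x
  have k4 : mvfderiv I (fun y => -(gi g Z Y y)) x (X x) =
      -(g.inner x (cov Z x (X x)) (Y x) + g.inner x (Z x) (cov Y x (X x))) := by
    have e5 : (fun y => -(gi g Z Y y)) = -(gi g Z Y) := rfl
    rw [e5, mvfderiv_neg]
    change -(mvfderiv I (gi g Z Y) x (X x)) = _
    rw [d_inner h hX hZ hY]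
  rw [cC_apply, k1, k2, k3, k4]
  have e6 : nabla (cC g f G cov) Y Z x = cov Z x (Y x) + mvfderiv I f x (Y x) • Z x +
          mvfderiv I f x (Z x) • Y x - g.inner x (Z x) (Y x) • G x := by
    change cC g f G cov Z x (Y x) = _
    rw [cC_apply]
    module
  rw [e6]
  simp only [map_add, map_sub, map_smul, add_apply, sub_apply, smul_apply, smul_eq_mul, der_apply,
    gi]
  rw [hG.inner x (X x)]
  module

/-- **The curvature of the conformal connection.** -/
theorem curv_cC [T2Space M] [SigmaCompactSpace M] [Nontrivial E] (hf : Sm I f)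
    (hG : IsGrad g f G) (h : IsLeviCivita g cov) {X Y Z : Π x : M, TangentSpace I x}
    (hX : SmV X) (hY : SmV Y) (hZ : SmV Z) (x : M) :
    curv (cC g f G cov) X Y Z x = curv cov X Y Z x -
      (g.inner x (cov G x (Y x)) (Z x) - mvfderiv I f x (Y x) * mvfderiv I f x (Z x) +
        mvfderiv I f x (G x) * g.inner x (Y x) (Z x)) • X x +
      (g.inner x (cov G x (X x)) (Z x) - mvfderiv I f x (X x) * mvfderiv I f x (Z x) +
        mvfderiv I f x (G x) * g.inner x (X x) (Z x)) • Y x -
      g.inner x (Y x) (Z x) • (cov G x (X x) - mvfderiv I f x (X x) • G x) +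
      g.inner x (X x) (Z x) • (cov G x (Y x) - mvfderiv I f x (Y x) • G x) := by
  unfold curv
  rw [cC_cC hf hG h hX hY hZ x, cC_cC hf hG h hY hX hZ x, cC_apply g f G cov Z x
    (mlieBracket I X Y x)]
  have hL : mlieBracket I X Y x = cov Y x (X x) - cov X x (Y x) := (h.torsionFree hX hY x).symm
  have e1 : mvfderiv I f x (mlieBracket I X Y x) = mvfderiv I f x (cov Y x (X x)) -
      mvfderiv I f x (cov X x (Y x)) := by rw [hL, map_sub]
  have e2 : g.inner x (Z x) (mlieBracket I X Y x) = g.inner x (Z x) (cov Y x (X x)) -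
      g.inner x (Z x) (cov X x (Y x)) := by rw [hL, map_sub]
  have e3 : mvfderiv I f x (Z x) • mlieBracket I X Y x = mvfderiv I f x (Z x) •
      (cov Y x (X x) - cov X x (Y x)) := by rw [hL]
  rw [e1, e2, e3]
  exact curv_alg (X x) (Y x) (Z x) (G x) (cov G x (X x)) (cov G x (Y x)) (cov Y x (X x))
    (cov X x (Y x)) (cov Z x (X x)) (cov Z x (Y x)) _ _ _ (mvfderiv I f x (X x))
    (mvfderiv I f x (Y x)) (mvfderiv I f x (Z x)) (mvfderiv I f x (G x)) (g.inner x (X x) (Y x))
    (g.inner x (Y x) (X x)) (g.inner x (X x) (Z x)) (g.inner x (Z x) (X x))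
    (g.inner x (Y x) (Z x)) (g.inner x (Z x) (Y x)) (g.inner x (cov G x (X x)) (Y x))
    (g.inner x (cov G x (Y x)) (X x)) (g.inner x (cov G x (X x)) (Z x))
    (g.inner x (cov G x (Y x)) (Z x)) _ _ _ _ (g.inner x (cov Z x (X x)) (Y x))
    (g.inner x (cov Z x (Y x)) (X x)) _ _ (g.symm x _ _) (g.symm x _ _) (g.symm x _ _)
    (hess_symm hf hG h x _ _)

/-- **The sectional curvature of a conformal metric.** -/
theorem sec_conf [T2Space M] [SigmaCompactSpace M] [Nontrivial E] (hf : Sm I f)
    (hG : IsGrad g f G) (h : IsLeviCivita g cov) {R R' : CurvField I M}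
    (hR : IsRiemannTensor cov R) (hR' : IsRiemannTensor (cC g f G cov) R') (x : M)
    (u v : TangentSpace I x) (h1 : g.inner x u u = 1) (h2 : g.inner x v v = 1)
    (h3 : g.inner x u v = 0) :
    (conf g f hf).inner x (R' x u v v) u = Real.exp (2 * f x) * (g.inner x (R x u v v) u -
      (g.inner x (cov G x u) u + g.inner x (cov G x v) v) +
      (mvfderiv I f x u ^ 2 + mvfderiv I f x v ^ 2 - mvfderiv I f x (G x))) := by
  obtain ⟨X, hX, rfl⟩ := exists_smooth_field (I := I) x u
  obtain ⟨Y, hY, rfl⟩ := exists_smooth_field (I := I) x v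
  rw [conf_inner, hR' hX hY hY x, curv_cC hf hG h hX hY hY x, hR hX hY hY x]
  congr 1
  simp only [map_add, map_sub, map_smul, add_apply, sub_apply, smul_apply, smul_eq_mul]
  rw [h1, h2, h3, g.symm x (Y x) (X x), h3, hG.inner x (X x)]
  ring

end Pool.Agent.Helper62.KP
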