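import Pool.Graph.R_seed8.H893R5.HO.Strong

/-!
Definitions used in the statements: metrics, bilinear fields, connections, symmetric tensors, the
space of pairs of tangent vectors with a common foot point, the rate of change of the curvature
under linear variations of the metric, Killing fields.
-/

open Bundle Manifold ContDiff Filter
open scoped Topology

set_option autoImplicit false
set_option synthInstance.maxHeartbeats 400000
set_option maxHeartbeats 4000000

noncomputable section

namespace Pool.Agent.Helper62.KP

open Pool.Agent.H821R2 Pool.Agent.H821R3 Pool.Agent.H893R5.HO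

variable {E : Type*} [NormedAddCommGroup E] [NormedSpace ℝ E]
  {H : Type*} [TopologicalSpace H] {I : ModelWithCorners ℝ E H}
  {M : Type*} [TopologicalSpace M] [ChartedSpace H M] [IsManifold I ∞ M]

variable (I M) in
/-- The smooth Riemannian metrics on `M`. -/
abbrev Metric : Type _ := ContMDiffRiemannianMetric I ∞ E (fun x : M => TangentSpace I x)

variable (I M) in
/-- The fields of bilinear forms on `M`. -/
abbrev Bilin : Type _ := Π x : M, TangentSpace I x →L[ℝ] TangentSpace I x →L[ℝ] ℝ

variable (I M) in
/-- The connections on the tangent bundle of `M`. -/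
abbrev Conn : Type _ := CovariantDerivative I E (TangentSpace I : M → Type _)

/-- Smooth symmetric 2-tensors. -/
structure SymTensor (h : Π x : M, TangentSpace I x →L[ℝ] TangentSpace I x →L[ℝ] ℝ) : Prop where
  smooth : ContMDiff I (I.prod 𝓘(ℝ, E →L[ℝ] E →L[ℝ] ℝ)) ∞
      (fun x : M => TotalSpace.mk' (E →L[ℝ] E →L[ℝ] ℝ)
        (E := fun x : M => TangentSpace I x →L[ℝ] TangentSpace I x →L[ℝ] Bundle.Trivial M ℝ x) x
        (h x))
  symm : ∀ x (v w : TangentSpace I x), h x v w = h x w v

variable (I M) in
/-- The total space of `TM ⊕ TM`: triples `(x, u, v)` with `u, v` tangent vectors at `x`. -/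
abbrev Prs : Type _ :=
  TotalSpace (E × E) (fun x : M => TangentSpace I x × TangentSpace I x)

/-- The Borel sets of `TM ⊕ TM`. -/
instance prsMeas : MeasurableSpace (Prs I M) := borel _

instance prsBorel : BorelSpace (Prs I M) := ⟨rfl⟩

/-- The family of metrics `g + s h`, `s` near `0`, changes the number `⟨R(u, v) v, u⟩` at the pair
`(u, v)` of tangent vectors at `x` with derivative `l` at `s = 0`: there is a function `q` with
`q'(0) = l` which for all `s` near `0` has as value `q(s)` the number `g'(R'(u, v) v, u)` for the
Riemann tensor `R'` of the metric `g' = g + s h`. -/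
def HasRate (g : Metric I M) (h : Bilin I M) (x : M) (u v : TangentSpace I x) (l : ℝ) : Prop :=
  ∃ q : ℝ → ℝ, HasDerivAt q l 0 ∧ ∀ᶠ s in 𝓝 (0 : ℝ),
    ∃ (g' : Metric I M) (cov' : Conn I M) (R' : CurvField I M),
      (∀ (y : M) (a b : TangentSpace I y), g'.inner y a b = g.inner y a b + s * h y a b) ∧
      IsLeviCivita g' cov' ∧ IsRiemannTensor cov' R' ∧ q s = g'.inner x (R' x u v v) u

/-- `X` is a Killing field: a smooth field whose covariant derivative is skew-symmetric. -/
structure IsKilling (g : ContMDiffRiemannianMetric I ∞ E (fun x : M => TangentSpace I x))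
    (cov : CovariantDerivative I E (TangentSpace I : M → Type _))
    (X : Π x : M, TangentSpace I x) : Prop where
  smooth : ContMDiff I I.tangent ∞ (fun x => (⟨x, X x⟩ : TangentBundle I M))
  skew : ∀ (x : M) (a b : TangentSpace I x),
    g.inner x (cov X x a) b + g.inner x a (cov X x b) = 0

end Pool.Agent.Helper62.KP
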