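import Pool.Agent.Helper62.KP.Curv

/-!
Existence of smooth gradients of smooth functions.
-/

open Bundle Manifold ContDiff ContinuousLinearMap Filter VectorField
open scoped Topology

set_option autoImplicit false
set_option synthInstance.maxHeartbeats 400000
set_option maxHeartbeats 4000000
set_option linter.unusedSectionVars false

noncomputable section

namespace Pool.Agent.Helper62.KP

open Pool.Agent.H821R2 Pool.Agent.H821R3 Pool.Agent.H893R5.HO

section lin

variable {W : Type*} [NormedAddCommGroup W] [NormedSpace ℝ W] [FiniteDimensional ℝ W]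

/-- a positive definite bilinear form as an equivalence with the dual space -/
theorem exists_equiv (B : W →L[ℝ] W →L[ℝ] ℝ) (hB : ∀ v, v ≠ 0 → 0 < B v v) :
    ∃ k : W ≃L[ℝ] (W →L[ℝ] ℝ), (k : W →L[ℝ] (W →L[ℝ] ℝ)) = B := by
  have hinj : Function.Injective (B : W →ₗ[ℝ] (W →L[ℝ] ℝ)) := by
    rw [← LinearMap.ker_eq_bot, LinearMap.ker_eq_bot']
    intro v hv
    by_contra h
    have h1 := hB v h
    have h2 : B v v = 0 := by
      have : B v = 0 := hv
      rw [this]; rfl
    linarith
  have hdim : Module.finrank ℝ W = Module.finrank ℝ (W →L[ℝ] ℝ) := by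
    have h1 : Module.finrank ℝ (W →ₗ[ℝ] ℝ) = Module.finrank ℝ W := Subspace.dual_finrank_eq
    have h2 : Module.finrank ℝ (W →L[ℝ] ℝ) = Module.finrank ℝ (W →ₗ[ℝ] ℝ) :=
      (LinearMap.toContinuousLinearMap (𝕜 := ℝ) (E := W) (F' := ℝ)).symm.finrank_eq
    rw [h2, h1]
  refine ⟨(LinearEquiv.ofInjectiveOfFinrankEq (B : W →ₗ[ℝ] (W →L[ℝ] ℝ)) hinj
    hdim).toContinuousLinearEquiv, ?_⟩
  ext v w
  rfl

theorem inverse_apply (B : W →L[ℝ] W →L[ℝ] ℝ) (hB : ∀ v, v ≠ 0 → 0 < B v v) (om : W →L[ℝ] ℝ) :
    B (ContinuousLinearMap.inverse B om) = om := by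
  obtain ⟨k, hk⟩ := exists_equiv B hB
  rw [← hk, ContinuousLinearMap.inverse_equiv]
  exact k.apply_symm_apply om

end lin

section coord

variable {ι : Type*} [Fintype ι]

/-- the bilinear form with given coefficients -/
def toForm : (ι → ι → ℝ) →ₗ[ℝ] ((ι → ℝ) →L[ℝ] (ι → ℝ) →L[ℝ] ℝ) where
  toFun A := ∑ i, ∑ j, A i j • (ContinuousLinearMap.proj (R := ℝ) (φ := fun _ : ι => ℝ) i).smulRight
    (ContinuousLinearMap.proj (R := ℝ) (φ := fun _ : ι => ℝ) j)
  map_add' A B := by
    rw [← Finset.sum_add_distrib]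
    refine Finset.sum_congr rfl fun i _ => ?_
    rw [← Finset.sum_add_distrib]
    refine Finset.sum_congr rfl fun j _ => ?_
    simp only [Pi.add_apply]
    module
  map_smul' c A := by
    simp only [Pi.smul_apply, smul_eq_mul, mul_smul, Finset.smul_sum, RingHom.id_apply]

theorem toForm_apply (A : ι → ι → ℝ) (v w : ι → ℝ) :
    toForm A v w = ∑ i, ∑ j, A i j * (v i * w j) := by
  simp [toForm, sum_apply]

/-- the linear form with given coefficients -/
def toLin : (ι → ℝ) →ₗ[ℝ] ((ι → ℝ) →L[ℝ] ℝ) where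
  toFun a := ∑ i, a i • (ContinuousLinearMap.proj (R := ℝ) (φ := fun _ : ι => ℝ) i)
  map_add' A B := by
    simp only [Pi.add_apply, add_smul, Finset.sum_add_distrib]
  map_smul' c A := by
    simp only [Pi.smul_apply, smul_eq_mul, mul_smul, Finset.smul_sum, RingHom.id_apply]

theorem toLin_apply (a v : ι → ℝ) : toLin a v = ∑ i, a i * v i := by
  simp [toLin, sum_apply]

end coord

variable {E : Type*} [NormedAddCommGroup E] [NormedSpace ℝ E] [FiniteDimensional ℝ E]
  {H : Type*} [TopologicalSpace H] {I : ModelWithCorners ℝ E H}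
  {M : Type*} [TopologicalSpace M] [ChartedSpace H M] [IsManifold I ∞ M]

variable (g : ContMDiffRiemannianMetric I ∞ E (fun x : M => TangentSpace I x))

theorem in_sum_left {κ : Type*} [Fintype κ] (x : M) (c : κ → ℝ) (s : κ → TangentSpace I x)
    (w : TangentSpace I x) :
    g.inner x (∑ i, c i • s i) w = ∑ i, c i * g.inner x (s i) w := by
  have h : g.inner x (∑ i, c i • s i) = ∑ i, c i • g.inner x (s i) := by
    rw [map_sum]
    exact Finset.sum_congr rfl fun i _ => map_smul _ _ _
  rw [h, sum_apply]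
  rfl

theorem in_sum_right {κ : Type*} [Fintype κ] (x : M) (c : κ → ℝ) (s : κ → TangentSpace I x)
    (w : TangentSpace I x) :
    g.inner x w (∑ i, c i • s i) = ∑ i, c i * g.inner x w (s i) := by
  rw [map_sum]
  exact Finset.sum_congr rfl fun i _ => map_smul _ _ _

theorem in_sub_left (x : M) (u v w : TangentSpace I x) :
    g.inner x (u - v) w = g.inner x u w - g.inner x v w := by
  have h : g.inner x (u - v) = g.inner x u - g.inner x v := map_sub _ _ _
  rw [h]; rfl

theorem riesz (x : M) (om : TangentSpace I x →L[ℝ] ℝ) :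
    ∃ w : TangentSpace I x, ∀ v, g.inner x w v = om v := by
  refine ⟨(ContinuousLinearMap.inverse (g.inner x : E →L[ℝ] E →L[ℝ] ℝ) (om : E →L[ℝ] ℝ) : E), ?_⟩
  intro v
  have := inverse_apply (W := E) (g.inner x) (fun v hv => g.pos x v hv) om
  exact congrArg (fun L : E →L[ℝ] ℝ => L v) this

/-- Existence of the gradient of a smooth function. -/
theorem exists_grad {f : M → ℝ} (hf : Sm I f) : ∃ G : Π x : M, TangentSpace I x, IsGrad g f G := by
  classical
  choose G hG using fun x : M => riesz g x (mvfderiv I f x)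
  refine ⟨G, ?_, hG⟩
  intro x₀
  set e := trivializationAt E (TangentSpace I : M → Type _) x₀ with he
  have hx₀ : x₀ ∈ e.baseSet := mem_baseSet_trivializationAt E (TangentSpace I : M → Type _) x₀
  set b := Module.finBasis ℝ E with hb
  set s := e.localFrame b with hs
  have hsm : ∀ i, ContMDiffAt I (I.prod 𝓘(ℝ, E)) ∞ (T% (s i)) x₀ := fun i =>
    contMDiffAt_localFrame_of_mem ∞ e b i hx₀
  have hA : ∀ i j, ContMDiffAt I 𝓘(ℝ, ℝ) ∞ (fun y => g.inner y (s i y) (s j y)) x₀ := by
    intro i j
    let _ : RiemannianBundle (fun x : M => TangentSpace I x) := ⟨g.toRiemannianMetric⟩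
    exact ContMDiffAt.inner_bundle (F := E) (E := fun x : M => TangentSpace I x) (IB := I)
      (hsm i) (hsm j)
  have hβ : ∀ i, ContMDiffAt I 𝓘(ℝ, ℝ) ∞ (fun y => mvfderiv I f y (s i y)) x₀ := by
    intro i
    have h1 : ContMDiff I.tangent 𝓘(ℝ, ℝ).tangent ∞ (tangentMap I 𝓘(ℝ, ℝ) f) :=
      hf.contMDiff_tangentMap (by simp)
    have h2 := (contMDiff_snd_tangentBundle_modelSpace ℝ 𝓘(ℝ, ℝ) (n := ∞)).comp h1
    exact ContMDiffAt.comp x₀ (h2 _) (hsm i)
  -- coefficients
  let A : M → (Fin (Module.finrank ℝ E) → Fin (Module.finrank ℝ E) → ℝ) :=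
    fun y i j => g.inner y (s i y) (s j y)
  let β : M → (Fin (Module.finrank ℝ E) → ℝ) := fun y i => mvfderiv I f y (s i y)
  have hA' : ContMDiffAt I 𝓘(ℝ, Fin (Module.finrank ℝ E) → Fin (Module.finrank ℝ E) → ℝ) ∞ A x₀ :=
    contMDiffAt_pi_space.2 fun i => contMDiffAt_pi_space.2 fun j => hA i j
  have hβ' : ContMDiffAt I 𝓘(ℝ, Fin (Module.finrank ℝ E) → ℝ) ∞ β x₀ :=
    contMDiffAt_pi_space.2 fun i => hβ i
  have hpos : ∀ y ∈ e.baseSet, ∀ v, v ≠ 0 → 0 < toForm (A y) v v := by
    intro y hy v hv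
    have e1 : toForm (A y) v v = g.inner y (∑ i, v i • s i y) (∑ i, v i • s i y) := by
      rw [toForm_apply, in_sum_left g y v (fun i => s i y)]
      refine Finset.sum_congr rfl fun i _ => ?_
      rw [in_sum_right g y v (fun i => s i y), Finset.mul_sum]
      refine Finset.sum_congr rfl fun j _ => ?_
      change g.inner y (s i y) (s j y) * _ = _
      ring
    rw [e1]
    apply g.pos
    intro h0
    apply hv
    have h1 : ∑ i, v i • (e.basisAt b hy) i = 0 := by
      rw [← h0]
      refine Finset.sum_congr rfl fun i _ => ?_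
      rw [hs, e.localFrame_apply_of_mem_baseSet b hy]
    have h2 := (Fintype.linearIndependent_iff.1 (e.basisAt b hy).linearIndependent) v h1
    funext i
    exact h2 i
  let c : M → (Fin (Module.finrank ℝ E) → ℝ) := fun y =>
    ContinuousLinearMap.inverse (toForm (A y)) (toLin (β y))
  have hc : ContMDiffAt I 𝓘(ℝ, Fin (Module.finrank ℝ E) → ℝ) ∞ c x₀ := by
    obtain ⟨k, hk⟩ := exists_equiv (toForm (A x₀)) (hpos x₀ hx₀)
    have h1 : ContDiffAt ℝ ∞ (ContinuousLinearMap.inverse :
        ((Fin (Module.finrank ℝ E) → ℝ) →L[ℝ] ((Fin (Module.finrank ℝ E) → ℝ) →L[ℝ] ℝ)) → _)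
        (toForm (A x₀)) := by
      rw [← hk]
      exact contDiffAt_map_inverse k
    have h2 : ContDiff ℝ ∞ (fun A : Fin (Module.finrank ℝ E) → Fin (Module.finrank ℝ E) → ℝ =>
        toForm A) := by
      rw [contDiff_clm_apply_iff]
      intro v
      rw [contDiff_clm_apply_iff]
      intro w
      simp only [toForm_apply]
      fun_prop
    have h3 : ContDiff ℝ ∞ (fun a : Fin (Module.finrank ℝ E) → ℝ => toLin a) := by
      rw [contDiff_clm_apply_iff]
      intro v
      simp only [toLin_apply]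
      fun_prop
    have h4 : ContDiffAt ℝ ∞ (fun q : (Fin (Module.finrank ℝ E) → Fin (Module.finrank ℝ E) → ℝ) ×
        (Fin (Module.finrank ℝ E) → ℝ) => ContinuousLinearMap.inverse (toForm q.1) (toLin q.2))
        (A x₀, β x₀) := by
      have h5 : ContDiffAt ℝ ∞ (fun q : (Fin (Module.finrank ℝ E) → Fin (Module.finrank ℝ E) → ℝ) ×
        (Fin (Module.finrank ℝ E) → ℝ) => ContinuousLinearMap.inverse (toForm q.1))
        (A x₀, β x₀) :=
        ContDiffAt.comp (A x₀, β x₀) (g := ContinuousLinearMap.inverse)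
          (f := fun q : (Fin (Module.finrank ℝ E) → Fin (Module.finrank ℝ E) → ℝ) ×
        (Fin (Module.finrank ℝ E) → ℝ) => toForm q.1) h1 (h2.comp contDiff_fst).contDiffAt
      exact h5.clm_apply (h3.comp contDiff_snd).contDiffAt
    exact ContDiffAt.comp_contMDiffAt (g := fun q : (Fin (Module.finrank ℝ E) →
      Fin (Module.finrank ℝ E) → ℝ) × (Fin (Module.finrank ℝ E) → ℝ) =>
        ContinuousLinearMap.inverse (toForm q.1) (toLin q.2)) (f := fun y => (A y, β y)) h4
      (hA'.prodMk_space hβ')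
  have key : ∀ y ∈ e.baseSet, G y = ∑ i, c y i • s i y := by
    intro y hy
    have h1 : toForm (A y) (c y) = toLin (β y) := inverse_apply (toForm (A y)) (hpos y hy) _
    have h2 : ∀ v, g.inner y (∑ i, c y i • s i y) v = mvfderiv I f y v := by
      intro v
      have hv : v = ∑ i, (e.basisAt b hy).repr v i • s i y := by
        conv_lhs => rw [← (e.basisAt b hy).sum_repr v]
        refine Finset.sum_congr rfl fun i _ => ?_
        rw [hs, e.localFrame_apply_of_mem_baseSet b hy]
      have h3 := congrArg (fun L : (Fin (Module.finrank ℝ E) → ℝ) →L[ℝ] ℝ =>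
        L (fun i => (e.basisAt b hy).repr v i)) h1
      simp only [toForm_apply, toLin_apply] at h3
      have e1 : ∀ i, c y i * (g.inner y (s i y)) v =
          ∑ j, A y i j * (c y i * (e.basisAt b hy).repr v j) := by
        intro i
        conv_lhs => rw [hv]
        rw [in_sum_right g y (fun j => (e.basisAt b hy).repr v j) (fun i => s i y),
          Finset.mul_sum]
        refine Finset.sum_congr rfl fun j _ => ?_
        change _ * (_ * g.inner y (s i y) (s j y)) = g.inner y (s i y) (s j y) * _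
        ring
      rw [in_sum_left g y (c y) (fun i => s i y), Finset.sum_congr rfl fun i _ => e1 i, h3]
      conv_rhs => rw [hv, map_sum]
      refine Finset.sum_congr rfl fun j _ => ?_
      rw [map_smul, smul_eq_mul, mul_comm]
    have h4 : G y - ∑ i, c y i • s i y = 0 := by
      by_contra hne
      have h5 := g.pos y _ hne
      have h6 : g.inner y (G y - ∑ i, c y i • s i y) (G y - ∑ i, c y i • s i y) = 0 := by
        rw [in_sub_left, hG, h2, sub_self]
      linarith
    exact sub_eq_zero.1 h4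
  have hfin : ContMDiffAt I (I.prod 𝓘(ℝ, E)) ∞ (T% (fun y => ∑ i, c y i • s i y)) x₀ := by
    apply ContMDiffAt.sum_section (V := fun x : M => TangentSpace I x) (F := E)
      (t := fun (i : Fin (Module.finrank ℝ E)) (y : M) => c y i • s i y)
    intro i _
    have h1 : ContMDiffAt I 𝓘(ℝ, ℝ) ∞ (fun y => c y i) x₀ := (contMDiffAt_pi_space.1 hc) i
    exact ContMDiffAt.smul_section h1 (hsm i)
  refine hfin.congr_of_eventuallyEq ?_
  filter_upwards [e.open_baseSet.mem_nhds hx₀] with y hy
  change (⟨y, G y⟩ : TotalSpace E (TangentSpace I : M → Type _)) = ⟨y, ∑ i, c y i • s i y⟩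
  rw [key y hy]

end Pool.Agent.Helper62.KP
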