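import Pool.Agent.Helper62.KP.LCex

/-!
The Hessian of a function as a quadratic form; chain and product rules; boundedness.
-/

open Bundle Manifold ContDiff ContinuousLinearMap Filter VectorField
open scoped Topology

set_option autoImplicit false
set_option synthInstance.maxHeartbeats 400000
set_option maxHeartbeats 4000000
set_option linter.unusedSectionVars false

noncomputable section

namespace Pool.Agent.Helper62.KP

open Pool.Agent.H821R2 Pool.Agent.H821R3 Pool.Agent.H893R5.HO

variable {E : Type*} [NormedAddCommGroup E] [NormedSpace ℝ E] [FiniteDimensional ℝ E]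
  {H : Type*} [TopologicalSpace H] {I : ModelWithCorners ℝ E H}
  {M : Type*} [TopologicalSpace M] [ChartedSpace H M] [IsManifold I ∞ M]
  [T2Space M] [SigmaCompactSpace M]

/-- a smooth vector field through a given tangent vector -/
def xt (x : M) (v : TangentSpace I x) : Π x : M, TangentSpace I x :=
  (exists_smooth_field (I := I) x v).choose

theorem xt_smooth (x : M) (v : TangentSpace I x) : SmV (xt x v) :=
  (exists_smooth_field (I := I) x v).choose_spec.1

theorem xt_self (x : M) (v : TangentSpace I x) : xt x v x = v :=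
  (exists_smooth_field (I := I) x v).choose_spec.2

/-- The Hessian `(∇²u)(v, v) = v (V u) - (∇_v V) u`, where `V` extends `v`. -/
def hes (cov : CovariantDerivative I E (TangentSpace I : M → Type _)) (u : M → ℝ) (x : M)
    (v : TangentSpace I x) : ℝ :=
  mvfderiv I (fun y => mvfderiv I u y (xt x v y)) x v - mvfderiv I u x (cov (xt x v) x v)

variable {g : ContMDiffRiemannianMetric I ∞ E (fun x : M => TangentSpace I x)}
  {cov : CovariantDerivative I E (TangentSpace I : M → Type _)}

/-- the Hessian from the gradient -/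
theorem hes_eq (h : IsLeviCivita g cov) {u : M → ℝ} {G : Π x : M, TangentSpace I x}
    (hG : IsGrad g u G) (x : M) (v : TangentSpace I x) :
    g.inner x (cov G x v) v = hes cov u x v := by
  have h1 := d_der hG h (xt_smooth x v) (xt_smooth x v) x
  rw [xt_self] at h1
  unfold hes
  rw [h1]
  ring

theorem sm_xt {u : M → ℝ} (hu : Sm I u) (x : M) (v : TangentSpace I x) :
    Sm I (fun y => mvfderiv I u y (xt x v y)) := Sm.der (xt_smooth x v) hu

theorem hes_add {a b : M → ℝ} (ha : Sm I a) (hb : Sm I b) (x : M) (v : TangentSpace I x) :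
    hes cov (fun y => a y + b y) x v = hes cov a x v + hes cov b x v := by
  unfold hes
  have e1 := der_add (Z := xt x v) ha hb
  have e1' : (fun y => mvfderiv I (fun y => a y + b y) y (xt x v y)) =
    fun y => mvfderiv I a y (xt x v y) + mvfderiv I b y (xt x v y) := e1
  rw [e1']
  have e2 := congrFun (der_add (Z := xt x v) (sm_xt ha x v) (sm_xt hb x v)) x
  rw [der_apply, der_apply, der_apply, xt_self] at e2
  rw [e2]
  have e3 : mvfderiv I (fun y => a y + b y) x (cov (xt x v) x v) =
      mvfderiv I a x (cov (xt x v) x v) + mvfderiv I b x (cov (xt x v) x v) := by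
    have : (fun y => a y + b y) = a + b := rfl
    rw [this, mvfderiv_add (ha.mdiff x) (hb.mdiff x)]
    rfl
  rw [e3]
  ring

theorem hes_mul {a b : M → ℝ} (ha : Sm I a) (hb : Sm I b) (x : M) (v : TangentSpace I x) :
    hes cov (fun y => a y * b y) x v = hes cov a x v * b x + a x * hes cov b x v +
      2 * (mvfderiv I a x v * mvfderiv I b x v) := by
  unfold hes
  have e1' : (fun y => mvfderiv I (fun y => a y * b y) y (xt x v y)) =
    fun y => mvfderiv I a y (xt x v y) * b y + a y * mvfderiv I b y (xt x v y) :=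
    der_mul (Z := xt x v) ha hb
  rw [e1']
  have e2 := congrFun (der_add (Z := xt x v) (Sm.mul (sm_xt ha x v) hb)
    (Sm.mul ha (sm_xt hb x v))) x
  rw [der_mul (Z := xt x v) (sm_xt ha x v) hb, der_mul (Z := xt x v) ha (sm_xt hb x v)] at e2
  simp only [der_apply, xt_self] at e2
  rw [e2]
  have e3 := congrFun (der_mul (Z := fun y => cov (xt x v) y (xt x v y)) ha hb) x
  simp only [der_apply, xt_self] at e3
  rw [e3]
  ring

theorem hes_const (c : ℝ) (x : M) (v : TangentSpace I x) :
    hes cov (fun _ => c) x v = 0 := by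
  unfold hes
  have e1 : (fun y => mvfderiv I (fun _ : M => c) y (xt x v y)) = fun _ => (0 : ℝ) :=
    der_const (Z := xt x v) c
  rw [e1, mvfderiv_const, mvfderiv_const]
  simp

theorem hes_cmul {a : M → ℝ} (c : ℝ) (ha : Sm I a) (x : M) (v : TangentSpace I x) :
    hes cov (fun y => c * a y) x v = c * hes cov a x v := by
  rw [hes_mul (Sm.const c) ha, hes_const]
  have : mvfderiv I (fun _ : M => c) x v = 0 := by rw [mvfderiv_const]; rfl
  rw [this]
  ring

theorem d_cmul {a : M → ℝ} (c : ℝ) (ha : Sm I a) (x : M) (v : TangentSpace I x) :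
    mvfderiv I (fun y => c * a y) x v = c * mvfderiv I a x v := by
  have := congrFun (der_cmul (Z := xt x v) c ha) x
  simpa only [der_apply, xt_self] using this

theorem hes_sum {κ : Type} (s : Finset κ) {a : κ → M → ℝ} (ha : ∀ k, Sm I (a k)) (x : M)
    (v : TangentSpace I x) :
    hes cov (fun y => ∑ k ∈ s, a k y) x v = ∑ k ∈ s, hes cov (a k) x v := by
  classical
  induction s using Finset.induction_on with
  | empty => simpa using hes_const (cov := cov) 0 x v
  | insert k s hk ih =>
    simp only [Finset.sum_insert hk]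
    rw [hes_add (ha k) (sm_sum s ha), ih]

/-- chain rule for the Hessian -/
theorem hes_comp {χ χ' : ℝ → ℝ} {χ'' : ℝ} {ρ : M → ℝ} (hρ : Sm I ρ) (x : M)
    (h1 : ∀ y, HasDerivAt χ (χ' (ρ y)) (ρ y)) (h2 : HasDerivAt χ' χ'' (ρ x))
    (v : TangentSpace I x) :
    hes cov (fun y => χ (ρ y)) x v = χ' (ρ x) * hes cov ρ x v +
      χ'' * mvfderiv I ρ x v ^ 2 := by
  unfold hes
  have e1 : (fun y => mvfderiv I (fun y => χ (ρ y)) y (xt x v y)) =
      (fun y => χ' (ρ y)) * (fun y => mvfderiv I ρ y (xt x v y)) := by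
    ext y
    exact d_real (h1 y) (hρ.mdiff y) _
  have hc : MDifferentiableAt I 𝓘(ℝ, ℝ) (fun y => χ' (ρ y)) x := by
    have h3 : MDifferentiableAt 𝓘(ℝ, ℝ) 𝓘(ℝ, ℝ) χ' (ρ x) := h2.differentiableAt.mdifferentiableAt
    exact h3.comp x (hρ.mdiff x)
  rw [e1, mvfderiv_mul hc ((sm_xt hρ x v).mdiff x)]
  simp only [add_apply, smul_apply, smul_eq_mul, xt_self]
  rw [d_real h2 (hρ.mdiff x), d_real (h1 x) (hρ.mdiff x)]
  ring

end Pool.Agent.Helper62.KP
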