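import Pool.Agent.Helper62.KP.Bound

/-!
The Koszul expression of a symmetric bilinear tensor field, and the curvature numerator.
-/

open Bundle Manifold ContDiff ContinuousLinearMap Filter VectorField
open scoped Topology

set_option autoImplicit false
set_option synthInstance.maxHeartbeats 400000
set_option maxHeartbeats 4000000
set_option linter.unusedSectionVars false

noncomputable section

namespace Pool.Agent.Helper62.KP

open Pool.Agent.H821R2 Pool.Agent.H821R3 Pool.Agent.H893R5.HO

variable {E : Type*} [NormedAddCommGroup E] [NormedSpace ℝ E] [FiniteDimensional ℝ E]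
  {H : Type*} [TopologicalSpace H] {I : ModelWithCorners ℝ E H}
  {M : Type*} [TopologicalSpace M] [ChartedSpace H M] [IsManifold I ∞ M]

variable (b : Π x : M, TangentSpace I x →L[ℝ] TangentSpace I x →L[ℝ] ℝ)

/-- a bilinear tensor field on two vector fields -/
def bi (A B : Π x : M, TangentSpace I x) : M → ℝ := fun x => b x (A x) (B x)

variable {b} in
theorem bi_smooth (hb : SmG b) {A B : Π x : M, TangentSpace I x} (hA : SmV A) (hB : SmV B) :
    Sm I (bi b A B) := by
  intro x
  have : ContMDiffAt I (I.prod 𝓘(ℝ)) ∞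
      (fun m ↦ TotalSpace.mk' ℝ (E := Bundle.Trivial M ℝ) m (b m (A m) (B m))) x := by
    apply ContMDiffAt.clm_bundle_apply₂ (F₁ := E) (F₂ := E)
    · exact hb x
    · exact hA x
    · exact hB x
  rw [contMDiffAt_totalSpace] at this
  exact this.2

/-- the Koszul expression -/
def Kz (X Y Z : Π x : M, TangentSpace I x) (x : M) : ℝ :=
  (1 / 2) * (der X (bi b Y Z) x + der Y (bi b X Z) x - der Z (bi b X Y) x +
    b x (mlieBracket I X Y x) (Z x) - b x (mlieBracket I X Z x) (Y x) -
    b x (mlieBracket I Y Z x) (X x))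

variable {b} in
theorem Kz_smooth (hb : SmG b) {X Y Z : Π x : M, TangentSpace I x} (hX : SmV X) (hY : SmV Y)
    (hZ : SmV Z) : Sm I (Kz b X Y Z) := by
  have h1 : Sm I (fun x => (1 / 2) * (der X (bi b Y Z) x + der Y (bi b X Z) x -
    der Z (bi b X Y) x + bi b (mlieBracket I X Y) Z x - bi b (mlieBracket I X Z) Y x -
    bi b (mlieBracket I Y Z) X x)) := by
    apply Sm.cmul
    exact Sm.sub (Sm.sub (Sm.add (Sm.sub (Sm.add (Sm.der hX (bi_smooth hb hY hZ))
      (Sm.der hY (bi_smooth hb hX hZ))) (Sm.der hZ (bi_smooth hb hX hY)))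
      (bi_smooth hb (smooth_bracket hX hY) hZ)) (bi_smooth hb (smooth_bracket hX hZ) hY))
      (bi_smooth hb (smooth_bracket hY hZ) hX)
  exact h1

variable {g : ContMDiffRiemannianMetric I ∞ E (fun x : M => TangentSpace I x)}
  {cov : CovariantDerivative I E (TangentSpace I : M → Type _)}

/-- **Koszul formula.** -/
theorem koszul_gen (h : IsLeviCivita g cov) {X Y Z : Π x : M, TangentSpace I x} (hX : SmV X)
    (hY : SmV Y) (hZ : SmV Z) (x : M) :
    g.inner x (cov Y x (X x)) (Z x) = Kz g.inner X Y Z x := by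
  unfold Kz
  have e1 : der X (bi g.inner Y Z) x = g.inner x (cov Y x (X x)) (Z x) +
    g.inner x (Y x) (cov Z x (X x)) := h.metric hX hY hZ x
  have e2 : der Y (bi g.inner X Z) x = g.inner x (cov X x (Y x)) (Z x) +
    g.inner x (X x) (cov Z x (Y x)) := h.metric hY hX hZ x
  have e3 : der Z (bi g.inner X Y) x = g.inner x (cov X x (Z x)) (Y x) +
    g.inner x (X x) (cov Y x (Z x)) := h.metric hZ hX hY x
  rw [e1, e2, e3, ← h.torsionFree hX hY x, ← h.torsionFree hX hZ x, ← h.torsionFree hY hZ x,
    in_sub_left, in_sub_left, in_sub_left, g.symm x (Y x) (cov Z x (X x)),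
    g.symm x (X x) (cov Z x (Y x)), g.symm x (X x) (cov Y x (Z x))]
  ring

/-- **The curvature numerator.** -/
theorem curv_num (h : IsLeviCivita g cov) {R : CurvField I M} (hR : IsRiemannTensor cov R)
    {X Y : Π x : M, TangentSpace I x} (hX : SmV X) (hY : SmV Y) (x : M) :
    g.inner x (R x (X x) (Y x) (Y x)) (X x) =
      der X (Kz g.inner Y Y X) x - der Y (Kz g.inner X Y X) x -
      Kz g.inner (mlieBracket I X Y) Y X x -
      g.inner x (cov Y x (Y x)) (cov X x (X x)) + g.inner x (cov Y x (X x)) (cov X x (Y x)) := by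
  have hYY := nabla_smooth h hY hY
  have hXY := nabla_smooth h hX hY
  have e0 : Kz g.inner Y Y X = gi g (nabla cov Y Y) X := by
    ext y; exact (koszul_gen h hY hY hX y).symm
  have e1 : Kz g.inner X Y X = gi g (nabla cov X Y) X := by
    ext y; exact (koszul_gen h hX hY hX y).symm
  have e2 : der X (gi g (nabla cov Y Y) X) x = g.inner x (cov (nabla cov Y Y) x (X x)) (X x) +
    g.inner x (nabla cov Y Y x) (cov X x (X x)) := h.metric hX hYY hX x
  have e3 : der Y (gi g (nabla cov X Y) X) x = g.inner x (cov (nabla cov X Y) x (Y x)) (X x) +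
    g.inner x (nabla cov X Y x) (cov X x (Y x)) := h.metric hY hXY hX x
  rw [e0, e1, e2, e3, ← koszul_gen h (smooth_bracket hX hY) hY hX x, hR hX hY hY x]
  unfold curv
  rw [in_sub_left, in_sub_left]
  change _ = g.inner x (cov (nabla cov Y Y) x (X x)) (X x) +
    g.inner x (cov Y x (Y x)) (cov X x (X x)) - (g.inner x (cov (nabla cov X Y) x (Y x)) (X x) +
    g.inner x (cov Y x (X x)) (cov X x (Y x))) - _ - _ + _
  ring

section lin

variable {h : Π x : M, TangentSpace I x →L[ℝ] TangentSpace I x →L[ℝ] ℝ}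
  {b b' : Π x : M, TangentSpace I x →L[ℝ] TangentSpace I x →L[ℝ] ℝ} {s : ℝ}

theorem der_lin {X : Π x : M, TangentSpace I x} {a c : M → ℝ} (ha : Sm I a) (hc : Sm I c) (s : ℝ) :
    der X (fun y => a y + s * c y) = fun x => der X a x + s * der X c x := by
  have := der_add (Z := X) ha (Sm.cmul s hc)
  rw [this, der_cmul s hc]

theorem bi_lin (hbb : ∀ x (v w : TangentSpace I x), b' x v w = b x v w + s * h x v w)
    (X Y : Π x : M, TangentSpace I x) : bi b' X Y = fun x => bi b X Y x + s * bi h X Y x := by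
  ext x
  exact hbb x _ _

theorem Kz_lin (hb : SmG b) (hh : SmG h)
    (hbb : ∀ x (v w : TangentSpace I x), b' x v w = b x v w + s * h x v w)
    {X Y Z : Π x : M, TangentSpace I x} (hX : SmV X) (hY : SmV Y) (hZ : SmV Z) :
    Kz b' X Y Z = fun x => Kz b X Y Z x + s * Kz h X Y Z x := by
  ext x
  unfold Kz
  rw [bi_lin hbb, bi_lin hbb, bi_lin hbb,
    der_lin (bi_smooth hb hY hZ) (bi_smooth hh hY hZ),
    der_lin (bi_smooth hb hX hZ) (bi_smooth hh hX hZ),
    der_lin (bi_smooth hb hX hY) (bi_smooth hh hX hY), hbb, hbb, hbb]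
  ring

end lin

/-- the tensor `T(X, Y, Z)` of the first variation of the connection -/
def tau (h : Π x : M, TangentSpace I x →L[ℝ] TangentSpace I x →L[ℝ] ℝ)
    (cov : CovariantDerivative I E (TangentSpace I : M → Type _))
    (X Y Z : Π x : M, TangentSpace I x) (x : M) : ℝ :=
  Kz h X Y Z x - h x (cov Y x (X x)) (Z x)

/-- the first variation of the curvature numerator on vector fields -/
def LF (h : Π x : M, TangentSpace I x →L[ℝ] TangentSpace I x →L[ℝ] ℝ)
    (cov : CovariantDerivative I E (TangentSpace I : M → Type _))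
    (X Y : Π x : M, TangentSpace I x) (x : M) : ℝ :=
  der X (Kz h Y Y X) x - der Y (Kz h X Y X) x - Kz h (mlieBracket I X Y) Y X x -
    (h x (cov Y x (Y x)) (cov X x (X x)) + tau h cov Y Y (nabla cov X X) x +
      tau h cov X X (nabla cov Y Y) x) +
    (h x (cov Y x (X x)) (cov X x (Y x)) + tau h cov X Y (nabla cov Y X) x +
      tau h cov Y X (nabla cov X Y) x)

section fam

variable {g' : ContMDiffRiemannianMetric I ∞ E (fun x : M => TangentSpace I x)}
  {cov' : CovariantDerivative I E (TangentSpace I : M → Type _)}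
  {h : Π x : M, TangentSpace I x →L[ℝ] TangentSpace I x →L[ℝ] ℝ} {s : ℝ}

/-- the difference of the connections -/
theorem diff_inner (hh : SmG h) (hg' : ∀ x (v w : TangentSpace I x), g'.inner x v w =
      g.inner x v w + s * h x v w) (hc : IsLeviCivita g cov) (hc' : IsLeviCivita g' cov')
    {X Y Z : Π x : M, TangentSpace I x} (hX : SmV X) (hY : SmV Y) (hZ : SmV Z) (x : M) :
    g'.inner x (cov' Y x (X x) - cov Y x (X x)) (Z x) = s * tau h cov X Y Z x := by
  rw [in_sub_left, koszul_gen hc' hX hY hZ, Kz_lin g.contMDiff hh hg' hX hY hZ, hg',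
    koszul_gen hc hX hY hZ]
  unfold tau
  ring

/-- **The exact expansion of the curvature numerator.** -/
theorem curv_expand (hh : SmG h) (hg' : ∀ x (v w : TangentSpace I x), g'.inner x v w =
      g.inner x v w + s * h x v w) (hc : IsLeviCivita g cov) (hc' : IsLeviCivita g' cov')
    {R R' : CurvField I M} (hR : IsRiemannTensor cov R) (hR' : IsRiemannTensor cov' R')
    {X Y : Π x : M, TangentSpace I x} (hX : SmV X) (hY : SmV Y) (x : M) :
    g'.inner x (R' x (X x) (Y x) (Y x)) (X x) =
      g.inner x (R x (X x) (Y x) (Y x)) (X x) + s * LF h cov X Y x -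
      g'.inner x (cov' Y x (Y x) - cov Y x (Y x)) (cov' X x (X x) - cov X x (X x)) +
      g'.inner x (cov' Y x (X x) - cov Y x (X x)) (cov' X x (Y x) - cov X x (Y x)) := by
  rw [curv_num hc' hR' hX hY, curv_num hc hR hX hY, Kz_lin g.contMDiff hh hg' hY hY hX,
    Kz_lin g.contMDiff hh hg' hX hY hX, Kz_lin g.contMDiff hh hg' (smooth_bracket hX hY) hY hX,
    der_lin (Kz_smooth g.contMDiff hY hY hX) (Kz_smooth hh hY hY hX),
    der_lin (Kz_smooth g.contMDiff hX hY hX) (Kz_smooth hh hX hY hX)]
  have k1 := diff_inner hh hg' hc hc' hY hY (nabla_smooth hc hX hX) x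
  have k2 := diff_inner hh hg' hc hc' hX hX (nabla_smooth hc hY hY) x
  have k3 := diff_inner hh hg' hc hc' hX hY (nabla_smooth hc hY hX) x
  have k4 := diff_inner hh hg' hc hc' hY hX (nabla_smooth hc hX hY) x
  -- expand the quadratic terms
  have q : ∀ a a' c c' : TangentSpace I x, g'.inner x a' c' = g.inner x a c + s * h x a c +
      g'.inner x (a' - a) c + g'.inner x (c' - c) a + g'.inner x (a' - a) (c' - c) := by
    intro a a' c c'
    rw [map_sub (g'.inner x (a' - a)), in_sub_left, in_sub_left, in_sub_left, g'.symm x c a,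
      g'.symm x c' a, hg' x a c]
    ring
  rw [q (cov Y x (Y x)) (cov' Y x (Y x)) (cov X x (X x)) (cov' X x (X x)),
    q (cov Y x (X x)) (cov' Y x (X x)) (cov X x (Y x)) (cov' X x (Y x))]
  have k1' : g'.inner x (cov' Y x (Y x) - cov Y x (Y x)) (cov X x (X x)) =
      s * tau h cov Y Y (nabla cov X X) x := k1
  have k2' : g'.inner x (cov' X x (X x) - cov X x (X x)) (cov Y x (Y x)) =
      s * tau h cov X X (nabla cov Y Y) x := k2
  have k3' : g'.inner x (cov' Y x (X x) - cov Y x (X x)) (cov X x (Y x)) =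
      s * tau h cov X Y (nabla cov Y X) x := k3
  have k4' : g'.inner x (cov' X x (Y x) - cov X x (Y x)) (cov Y x (X x)) =
      s * tau h cov Y X (nabla cov X Y) x := k4
  rw [k1', k2', k3', k4']
  unfold LF
  ring

end fam

end Pool.Agent.Helper62.KP
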