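import Pool.Agent.Helper62.KP.Grad

/-!
Existence of global frame data and of Levi-Civita connections on closed manifolds.
-/

open Bundle Manifold ContDiff ContinuousLinearMap Filter VectorField
open scoped Topology

set_option autoImplicit false
set_option synthInstance.maxHeartbeats 400000
set_option maxHeartbeats 4000000
set_option linter.unusedSectionVars false

noncomputable section

namespace Pool.Agent.Helper62.KP

open Pool.Agent.H821R2 Pool.Agent.H821R3 Pool.Agent.H893R5.HO

variable {E : Type*} [NormedAddCommGroup E] [NormedSpace ℝ E] [FiniteDimensional ℝ E]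
  {H : Type*} [TopologicalSpace H] {I : ModelWithCorners ℝ E H}
  {M : Type*} [TopologicalSpace M] [ChartedSpace H M] [IsManifold I ∞ M]

/-- the form `∑ df_i ⊗ df_i` -/
def sqForm {N : ℕ} (f : Fin N → M → ℝ) (x : M) :
    TangentSpace I x →L[ℝ] TangentSpace I x →L[ℝ] ℝ :=
  ∑ i, (mvfderiv I (f i) x).smulRight (mvfderiv I (f i) x)

theorem sqForm_apply {N : ℕ} (f : Fin N → M → ℝ) (x : M) (v w : TangentSpace I x) :
    sqForm (I := I) f x v w = ∑ i, mvfderiv I (f i) x v * mvfderiv I (f i) x w := by
  rw [sqForm, sum_apply, sum_apply]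
  rfl

theorem smooth_sqForm {N : ℕ} {f : Fin N → M → ℝ} (hf : ∀ i, Sm I (f i)) :
    SmG (sqForm (I := I) f) := by
  apply ContMDiff.sum_section (V := fun x : M => TangentSpace I x →L[ℝ] TangentSpace I x →L[ℝ]
    Bundle.Trivial M ℝ x) (F := E →L[ℝ] E →L[ℝ] ℝ)
    (t := fun (i : Fin N) (x : M) => (mvfderiv I (f i) x).smulRight (mvfderiv I (f i) x))
  intro i _
  exact contMDiff_smulRight (contMDiff_dSec (hf i)) (contMDiff_dSec (hf i))

/-- The metric induced by an immersion. -/
def sqMetric {N : ℕ} (f : Fin N → M → ℝ) (hf : ∀ i, Sm I (f i))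
    (hinj : ∀ (x : M) (v : TangentSpace I x), (∀ i, mvfderiv I (f i) x v = 0) → v = 0) :
    ContMDiffRiemannianMetric I ∞ E (fun x : M => TangentSpace I x) where
  inner x := sqForm f x
  symm x v w := by
    rw [sqForm_apply, sqForm_apply]
    exact Finset.sum_congr rfl fun i _ => mul_comm _ _
  pos x v hv := by
    rw [sqForm_apply]
    have h : ∃ i, mvfderiv I (f i) x v ≠ 0 := by
      by_contra hh
      push Not at hh
      exact hv (hinj x v hh)
    obtain ⟨i, hi⟩ := h
    exact Finset.sum_pos' (fun j _ => mul_self_nonneg _) ⟨i, Finset.mem_univ _, mul_self_pos.2 hi⟩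
  isVonNBounded x := by
    apply vonN (E := E) (sqForm f x)
    intro v hv
    have h1 : sqForm (I := I) f x v v = ∑ i, mvfderiv I (f i) x v * mvfderiv I (f i) x v :=
      sqForm_apply f x v v
    have h : ∃ i, mvfderiv I (f i) x v ≠ 0 := by
      by_contra hh
      push Not at hh
      exact hv (hinj x v hh)
    obtain ⟨i, hi⟩ := h
    refine lt_of_lt_of_eq ?_ h1.symm
    exact Finset.sum_pos' (fun j _ => mul_self_nonneg _) ⟨i, Finset.mem_univ _, mul_self_pos.2 hi⟩
  contMDiff := smooth_sqForm hf

variable (I M) in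
/-- Global frame data exist on closed manifolds; the functions define an embedding. -/
theorem exists_frame [T2Space M] [CompactSpace M] :
    ∃ (N : ℕ) (D : FrameData I M (Fin N)), ∀ x y : M, (∀ i, D.f i x = D.f i y) → x = y := by
  obtain ⟨N, e, he, hemb, hinj⟩ := exists_embedding_euclidean_of_compact (I := I) (M := M)
  let f : Fin N → M → ℝ := fun i x => e x i
  have hf : ∀ i, Sm I (f i) := by
    intro i
    have h1 : ContDiff ℝ ∞ (fun z : EuclideanSpace ℝ (Fin N) => z i) := by fun_prop
    exact h1.contMDiff.comp he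
  have hd : ∀ (i) (x : M) (v : TangentSpace I x),
      mvfderiv I (f i) x v = (EuclideanSpace.proj i : EuclideanSpace ℝ (Fin N) →L[ℝ] ℝ)
        (mfderiv I (𝓡 N) e x v) := by
    intro i x v
    have h1 : MDifferentiableAt (𝓡 N) 𝓘(ℝ, ℝ) (fun z : EuclideanSpace ℝ (Fin N) => z i) (e x) := by
      have : ContDiff ℝ ∞ (fun z : EuclideanSpace ℝ (Fin N) => z i) := by fun_prop
      exact (this.contMDiff (e x)).mdifferentiableAt (by simp)
    have h2 : MDifferentiableAt I (𝓡 N) e x := (he x).mdifferentiableAt (by simp)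
    have h3 := mfderiv_comp_apply (I'' := 𝓘(ℝ, ℝ)) x h1 h2 v
    have h4 : mfderiv (𝓡 N) 𝓘(ℝ, ℝ) (fun z : EuclideanSpace ℝ (Fin N) => z i) (e x) =
        (EuclideanSpace.proj i : EuclideanSpace ℝ (Fin N) →L[ℝ] ℝ) := by
      rw [mfderiv_eq_fderiv]
      exact (EuclideanSpace.proj i : EuclideanSpace ℝ (Fin N) →L[ℝ] ℝ).fderiv
    rw [h4] at h3
    exact h3
  have hinj' : ∀ (x : M) (v : TangentSpace I x), (∀ i, mvfderiv I (f i) x v = 0) → v = 0 := by
    intro x v hv
    have h1 : mfderiv I (𝓡 N) e x v = mfderiv I (𝓡 N) e x 0 := by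
      rw [map_zero]
      have : ∀ w : EuclideanSpace ℝ (Fin N), (∀ i, w i = 0) → w = 0 := by
        intro w hw
        ext i
        exact hw i
      exact this _ fun i => (hd i x v).symm.trans (hv i)
    exact hinj x h1
  choose G hG using fun i => exists_grad (sqMetric f hf hinj') (hf i)
  refine ⟨N, ⟨f, G, hf, fun i => (hG i).smooth, ?_⟩, ?_⟩
  · intro x v
    have h1 : ∀ w, (sqMetric f hf hinj').inner x (∑ i, mvfderiv I (f i) x v • G i x - v) w = 0 := by
      intro w
      rw [in_sub_left, in_sum_left (sqMetric f hf hinj') x (fun i => mvfderiv I (f i) x v)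
        (fun i => G i x)]
      have h2 : ∀ i, (sqMetric f hf hinj').inner x (G i x) w = mvfderiv I (f i) x w :=
        fun i => (hG i).inner x w
      simp only [h2]
      change _ - sqForm f x v w = 0
      rw [sqForm_apply]
      ring
    by_contra hne
    have h3 : ∑ i, mvfderiv I (f i) x v • G i x - v ≠ 0 := fun h => hne (sub_eq_zero.1 h)
    have h4 := (sqMetric f hf hinj').pos x _ h3
    have h5 := h1 (∑ i, mvfderiv I (f i) x v • G i x - v)
    linarith
  · intro x y hxy
    apply hemb.injective
    ext i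
    exact hxy i

/-- **Existence of the Levi-Civita connection** on closed manifolds. -/
theorem exists_LC [T2Space M] [CompactSpace M] [Nontrivial E]
    (g : ContMDiffRiemannianMetric I ∞ E (fun x : M => TangentSpace I x)) :
    ∃ cov : CovariantDerivative I E (TangentSpace I : M → Type _), IsLeviCivita g cov := by
  obtain ⟨N, D, -⟩ := exists_frame I M
  choose X hX using fun i => exists_grad g (D.hf i)
  exact ⟨D.lc g X, D.isLeviCivita_lc g (fun i => (hX i).smooth) (fun i x v => (hX i).inner x v)⟩

end Pool.Agent.Helper62.KP
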