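import Pool.Agent.Helper62.KP.Bound

/-!
Smooth functions on a closed manifold are Lipschitz for the distance of the embedding.
-/

open Bundle Manifold ContDiff ContinuousLinearMap Filter VectorField
open scoped Topology NNReal

set_option autoImplicit false
set_option synthInstance.maxHeartbeats 400000
set_option maxHeartbeats 4000000
set_option linter.unusedSectionVars false

noncomputable section

namespace Pool.Agent.Helper62.KP

open Pool.Agent.H821R2 Pool.Agent.H821R3 Pool.Agent.H893R5.HO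

variable {E : Type*} [NormedAddCommGroup E] [NormedSpace ℝ E] [FiniteDimensional ℝ E]
  {M : Type*} [TopologicalSpace M] [ChartedSpace E M] [IsManifold 𝓘(ℝ, E) ∞ M]
  {N : ℕ} (D : FrameData 𝓘(ℝ, E) M (Fin N))

/-- a smooth function in a chart -/
theorem contDiffAt_chart {q : M → ℝ} (hq : Sm 𝓘(ℝ, E) q) (x₀ : M) :
    ContDiffAt ℝ ∞ (q ∘ (extChartAt 𝓘(ℝ, E) x₀).symm) (extChartAt 𝓘(ℝ, E) x₀ x₀) := by
  have h1 : ContMDiffAt 𝓘(ℝ, E) 𝓘(ℝ, ℝ) ∞ (q ∘ (extChartAt 𝓘(ℝ, E) x₀).symm)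
      (extChartAt 𝓘(ℝ, E) x₀ x₀) := by
    have h2 : ContMDiffAt 𝓘(ℝ, E) 𝓘(ℝ, E) ∞ (extChartAt 𝓘(ℝ, E) x₀).symm
        (extChartAt 𝓘(ℝ, E) x₀ x₀) := by
      have h3 := contMDiffOn_extChartAt_symm (I := 𝓘(ℝ, E)) (n := ∞) x₀
      exact h3.contMDiffAt ((isOpen_extChartAt_target x₀).mem_nhds (mem_extChartAt_target x₀))
    exact ContMDiffAt.comp _ (hq _) h2
  exact h1.contDiffAt

theorem fderiv_chart {q : M → ℝ} (hq : Sm 𝓘(ℝ, E) q) (x₀ : M) (v : E) :
    fderiv ℝ (q ∘ (extChartAt 𝓘(ℝ, E) x₀).symm) (extChartAt 𝓘(ℝ, E) x₀ x₀) v =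
      mvfderiv 𝓘(ℝ, E) q x₀ v := by
  have h1 := (hq.mdiff x₀).mvfderiv
  have h2 : Set.range (𝓘(ℝ, E) : ModelWithCorners ℝ E E) = Set.univ := by simp
  rw [h2, fderivWithin_univ] at h1
  rw [h1]
  rfl

/-- near a point the chart is controlled by the embedding -/
theorem chart_le (x₀ : M) : ∃ C : ℝ, 0 ≤ C ∧ ∀ᶠ z : E × E in
    𝓝 (extChartAt 𝓘(ℝ, E) x₀ x₀, extChartAt 𝓘(ℝ, E) x₀ x₀),
      ‖z.1 - z.2‖ ≤ C * ‖Fm D ((extChartAt 𝓘(ℝ, E) x₀).symm z.1) -
        Fm D ((extChartAt 𝓘(ℝ, E) x₀).symm z.2)‖ := by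
  set y₀ := extChartAt 𝓘(ℝ, E) x₀ x₀ with hy₀
  set ψ := (extChartAt 𝓘(ℝ, E) x₀).symm with hψ
  let e0 : Fin N → E := fun i => D.e i x₀
  let L : E → E := fun y => ∑ i, (D.f i ∘ ψ) y • e0 i
  have hL : HasStrictFDerivAt L (ContinuousLinearMap.id ℝ E) y₀ := by
    have h1 : ∀ i, HasStrictFDerivAt (D.f i ∘ ψ) (fderiv ℝ (D.f i ∘ ψ) y₀) y₀ := fun i =>
      (contDiffAt_chart (D.hf i) x₀).hasStrictFDerivAt (by simp)
    have h2 : HasStrictFDerivAt L (∑ i, (fderiv ℝ (D.f i ∘ ψ) y₀).smulRight (e0 i)) y₀ := by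
      apply HasStrictFDerivAt.fun_sum
      intro i _
      exact (h1 i).smul_const (e0 i)
    have h3 : (∑ i, (fderiv ℝ (D.f i ∘ ψ) y₀).smulRight (e0 i)) =
        ContinuousLinearMap.id ℝ E := by
      ext v
      rw [sum_apply]
      have h4 := D.repr x₀ (v : TangentSpace 𝓘(ℝ, E) x₀)
      refine Eq.trans ?_ h4
      refine Finset.sum_congr rfl fun i _ => ?_
      change (fderiv ℝ (D.f i ∘ ψ) y₀ v) • e0 i = _
      rw [fderiv_chart (D.hf i) x₀ v]
      rfl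
    rw [h3] at h2
    exact h2
  have h5 := hL.isLittleO.def (show (0 : ℝ) < 1 / 2 by norm_num)
  refine ⟨2 * ∑ i, ‖e0 i‖, by positivity, ?_⟩
  filter_upwards [h5] with z hz
  have h6 : ‖z.1 - z.2‖ ≤ 2 * ‖L z.1 - L z.2‖ := by
    have h7 : ‖z.1 - z.2‖ ≤ ‖L z.1 - L z.2‖ + ‖L z.1 - L z.2 - (z.1 - z.2)‖ := by
      have := norm_sub_le (L z.1 - L z.2) (L z.1 - L z.2 - (z.1 - z.2))
      simpa using this
    have h8 : ‖L z.1 - L z.2 - (z.1 - z.2)‖ ≤ 1 / 2 * ‖z.1 - z.2‖ := by simpa using hz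
    linarith
  have h9 : ‖L z.1 - L z.2‖ ≤ (∑ i, ‖e0 i‖) * ‖Fm D (ψ z.1) - Fm D (ψ z.2)‖ := by
    have e1 : L z.1 - L z.2 = ∑ i, (D.f i (ψ z.1) - D.f i (ψ z.2)) • e0 i := by
      simp only [L, Function.comp, ← Finset.sum_sub_distrib, sub_smul]
    rw [e1, Finset.sum_mul]
    refine (norm_sum_le _ _).trans (Finset.sum_le_sum fun i _ => ?_)
    rw [norm_smul, mul_comm]
    refine mul_le_mul_of_nonneg_left ?_ (norm_nonneg _)
    have := norm_le_pi_norm (Fm D (ψ z.1) - Fm D (ψ z.2)) i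
    exact this
  calc ‖z.1 - z.2‖ ≤ 2 * ‖L z.1 - L z.2‖ := h6
    _ ≤ 2 * ((∑ i, ‖e0 i‖) * ‖Fm D (ψ z.1) - Fm D (ψ z.2)‖) := by linarith
    _ = _ := by ring

theorem continuous_Fm : Continuous (Fm D) := continuous_pi fun i => (D.hf i).continuous

/-- **Smooth functions are Lipschitz for the distance of the embedding.** -/
theorem lip [T2Space M] [CompactSpace M] (hinj : ∀ x y : M, (∀ i, D.f i x = D.f i y) → x = y)
    {q : M → ℝ} (hq : Sm 𝓘(ℝ, E) q) :
    ∃ C : ℝ, 0 ≤ C ∧ ∀ x p : M, |q x - q p| ≤ C * ‖Fm D x - Fm D p‖ := by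
  have key : ∃ C : ℝ, 0 ≤ C ∧ ∀ z ∈ (Set.univ : Set (M × M)),
      |q z.1 - q z.2| ≤ C * ‖Fm D z.1 - Fm D z.2‖ := by
    refine IsCompact.induction_on (p := fun s : Set (M × M) => ∃ C : ℝ, 0 ≤ C ∧ ∀ z ∈ s,
      |q z.1 - q z.2| ≤ C * ‖Fm D z.1 - Fm D z.2‖) isCompact_univ ⟨0, le_rfl, by simp⟩ ?_ ?_ ?_
    · rintro s t hst ⟨C, hC, h⟩
      exact ⟨C, hC, fun z hz => h z (hst hz)⟩
    · rintro s t ⟨C, hC, h⟩ ⟨C', hC', h'⟩
      refine ⟨max C C', le_max_of_le_left hC, ?_⟩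
      rintro z (hz | hz)
      · exact (h z hz).trans (mul_le_mul_of_nonneg_right (le_max_left _ _) (norm_nonneg _))
      · exact (h' z hz).trans (mul_le_mul_of_nonneg_right (le_max_right _ _) (norm_nonneg _))
    · rintro ⟨x₀, p₀⟩ -
      rw [nhdsWithin_univ]
      by_cases h0 : x₀ = p₀
      · subst h0
        obtain ⟨C, hC, h1⟩ := chart_le D x₀
        have hqs : HasStrictFDerivAt (q ∘ (extChartAt 𝓘(ℝ, E) x₀).symm)
            (fderiv ℝ (q ∘ (extChartAt 𝓘(ℝ, E) x₀).symm) (extChartAt 𝓘(ℝ, E) x₀ x₀))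
            (extChartAt 𝓘(ℝ, E) x₀ x₀) :=
          (contDiffAt_chart hq x₀).hasStrictFDerivAt (by simp)
        obtain ⟨K, s, hs, hK⟩ := hqs.exists_lipschitzOnWith
        have hφ : Tendsto (fun z : M × M => (extChartAt 𝓘(ℝ, E) x₀ z.1,
            extChartAt 𝓘(ℝ, E) x₀ z.2)) (𝓝 (x₀, x₀))
            (𝓝 (extChartAt 𝓘(ℝ, E) x₀ x₀, extChartAt 𝓘(ℝ, E) x₀ x₀)) := by
          rw [nhds_prod_eq, nhds_prod_eq]
          exact ((continuousAt_extChartAt x₀).tendsto.comp tendsto_fst).prodMk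
            ((continuousAt_extChartAt x₀).tendsto.comp tendsto_snd)
        have h2 := hφ.eventually h1
        have h3 : ∀ᶠ z : M × M in 𝓝 (x₀, x₀), z.1 ∈ (extChartAt 𝓘(ℝ, E) x₀).source ∧
            z.2 ∈ (extChartAt 𝓘(ℝ, E) x₀).source := by
          have ho : (extChartAt 𝓘(ℝ, E) x₀).source ∈ 𝓝 x₀ := extChartAt_source_mem_nhds x₀
          rw [nhds_prod_eq]
          exact (tendsto_fst.eventually ho).and (tendsto_snd.eventually ho)
        have h4 : ∀ᶠ z : M × M in 𝓝 (x₀, x₀), extChartAt 𝓘(ℝ, E) x₀ z.1 ∈ s ∧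
            extChartAt 𝓘(ℝ, E) x₀ z.2 ∈ s := by
          have ho := (continuousAt_extChartAt (I := 𝓘(ℝ, E)) x₀).tendsto.eventually hs
          rw [nhds_prod_eq]
          exact (tendsto_fst.eventually ho).and (tendsto_snd.eventually ho)
        obtain ⟨t, ht, ht'⟩ := (h2.and (h3.and h4)).exists_mem
        refine ⟨t, ht, K * C, by positivity, ?_⟩
        intro z hz
        obtain ⟨a1, ⟨a2, a3⟩, a4, a5⟩ := ht' z hz
        simp only [PartialEquiv.left_inv _ a2, PartialEquiv.left_inv _ a3] at a1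
        have a6 := hK.dist_le_mul _ a4 _ a5
        simp only [Function.comp, PartialEquiv.left_inv _ a2, PartialEquiv.left_inv _ a3] at a6
        rw [Real.dist_eq, dist_eq_norm] at a6
        calc |q z.1 - q z.2| ≤ K * ‖extChartAt 𝓘(ℝ, E) x₀ z.1 - extChartAt 𝓘(ℝ, E) x₀ z.2‖ := a6
          _ ≤ K * (C * ‖Fm D z.1 - Fm D z.2‖) := mul_le_mul_of_nonneg_left a1 K.2
          _ = K * C * ‖Fm D z.1 - Fm D z.2‖ := by ring
      · have h1 : 0 < ‖Fm D x₀ - Fm D p₀‖ := by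
          rw [norm_pos_iff, sub_ne_zero]
          intro h
          exact h0 (hinj _ _ fun i => congrFun h i)
        have hc : Continuous (fun z : M × M => ‖Fm D z.1 - Fm D z.2‖) :=
          (((continuous_Fm D).comp continuous_fst).sub
            ((continuous_Fm D).comp continuous_snd)).norm
        have h2 : ∀ᶠ z : M × M in 𝓝 (x₀, p₀), ‖Fm D x₀ - Fm D p₀‖ / 2 <
            ‖Fm D z.1 - Fm D z.2‖ := by
          have := hc.continuousAt (x := (x₀, p₀))
          exact this.eventually_const_lt (by simp only; linarith)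
        obtain ⟨C, hC0, hC⟩ := bdd_family (q := fun (_ : Unit) => q) (fun _ => hq.continuous)
        obtain ⟨t, ht, ht'⟩ := h2.exists_mem
        refine ⟨t, ht, 2 * C / (‖Fm D x₀ - Fm D p₀‖ / 2), by positivity, ?_⟩
        intro z hz
        have h3 := (ht' z hz).le
        have h4 : |q z.1 - q z.2| ≤ 2 * C := by
          have := abs_sub (q z.1) (q z.2)
          have a1 := hC () z.1
          have a2 := hC () z.2
          linarith
        calc |q z.1 - q z.2| ≤ 2 * C := h4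
          _ = 2 * C / (‖Fm D x₀ - Fm D p₀‖ / 2) * (‖Fm D x₀ - Fm D p₀‖ / 2) := by
              field_simp
          _ ≤ _ := mul_le_mul_of_nonneg_left h3 (by positivity)
  obtain ⟨C, hC, h⟩ := key
  exact ⟨C, hC, fun x p => h (x, p) (Set.mem_univ _)⟩

/-- The frame map is locally Lipschitz in charts. -/
theorem lip_chart (x₀ : M) : ∃ (K : ℝ≥0), ∃ s ∈ 𝓝 (extChartAt 𝓘(ℝ, E) x₀ x₀),
    LipschitzOnWith K (Fm D ∘ (extChartAt 𝓘(ℝ, E) x₀).symm) s := by
  have h : HasStrictFDerivAt (Fm D ∘ (extChartAt 𝓘(ℝ, E) x₀).symm)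
      (ContinuousLinearMap.pi fun i => fderiv ℝ (D.f i ∘ (extChartAt 𝓘(ℝ, E) x₀).symm)
        (extChartAt 𝓘(ℝ, E) x₀ x₀)) (extChartAt 𝓘(ℝ, E) x₀ x₀) := by
    rw [hasStrictFDerivAt_pi']
    intro i
    exact (contDiffAt_chart (D.hf i) x₀).hasStrictFDerivAt (by simp)
  exact h.exists_lipschitzOnWith

open MeasureTheory in
/-- sets which are null in charts are null for the embedding -/
theorem null_image [MeasurableSpace E] [BorelSpace E] [T2Space M] [CompactSpace M]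
    {S : Set M} {d : ℝ} (hd : 0 ≤ d)
    (hS : ∀ p : M, μH[d] (chartAt E p '' (S ∩ (chartAt E p).source)) = 0) :
    μH[d] (Fm D '' S) = 0 := by
  have key : μH[d] (Fm D '' (S ∩ Set.univ)) = 0 := by
    refine IsCompact.induction_on (p := fun s : Set M => μH[d] (Fm D '' (S ∩ s)) = 0)
      isCompact_univ (by simp) ?_ ?_ ?_
    · intro s t hst h
      exact measure_mono_null (Set.image_mono (Set.inter_subset_inter_right _ hst)) h
    · intro s t h h'
      rw [Set.inter_union_distrib_left, Set.image_union]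
      exact measure_union_null h h'
    · intro x₀ _
      rw [nhdsWithin_univ]
      obtain ⟨K, s, hs, hK⟩ := lip_chart D x₀
      refine ⟨(chartAt E x₀).source ∩ (extChartAt 𝓘(ℝ, E) x₀) ⁻¹' s,
        inter_mem ((chartAt E x₀).open_source.mem_nhds (mem_chart_source E x₀))
          ((continuousAt_extChartAt (I := 𝓘(ℝ, E)) x₀).preimage_mem_nhds hs), ?_⟩
      have hsub : Fm D '' (S ∩ ((chartAt E x₀).source ∩ (extChartAt 𝓘(ℝ, E) x₀) ⁻¹' s)) ⊆
          (Fm D ∘ (extChartAt 𝓘(ℝ, E) x₀).symm) ''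
            ((chartAt E x₀ '' (S ∩ (chartAt E x₀).source)) ∩ s) := by
        rintro _ ⟨y, ⟨hy1, hy2, hy3⟩, rfl⟩
        refine ⟨extChartAt 𝓘(ℝ, E) x₀ y, ⟨⟨y, ⟨hy1, hy2⟩, ?_⟩, hy3⟩, ?_⟩
        · simp [extChartAt]
        · have : y ∈ (extChartAt 𝓘(ℝ, E) x₀).source := by
            rw [extChartAt_source]; exact hy2
          simp only [Function.comp, PartialEquiv.left_inv _ this]
      refine measure_mono_null hsub ?_
      have h1 := (hK.mono Set.inter_subset_right (s := (chartAt E x₀ ''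
        (S ∩ (chartAt E x₀).source)) ∩ s)).hausdorffMeasure_image_le hd
      have h2 : μH[d] ((chartAt E x₀ '' (S ∩ (chartAt E x₀).source)) ∩ s) = 0 :=
        measure_mono_null Set.inter_subset_left (hS x₀)
      rw [h2, mul_zero] at h1
      exact le_antisymm h1 zero_le
  simpa using key

end Pool.Agent.Helper62.KP
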