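import Pool.Agent.Helper62.KP.Planes

/-!
Conformal deformation of nonnegative to positive sectional curvature.
-/

open Bundle Manifold ContDiff ContinuousLinearMap Filter VectorField
open scoped Topology NNReal

set_option autoImplicit false
set_option synthInstance.maxHeartbeats 400000
set_option maxHeartbeats 4000000
set_option linter.unusedSectionVars false

noncomputable section

namespace Pool.Agent.Helper62.KP

open Pool.Agent.H821R2 Pool.Agent.H821R3 Pool.Agent.H893R5.HO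

variable {E : Type*} [NormedAddCommGroup E] [NormedSpace ℝ E] [FiniteDimensional ℝ E]
  {M : Type*} [TopologicalSpace M] [ChartedSpace E M] [IsManifold 𝓘(ℝ, E) ∞ M]
  {g : ContMDiffRiemannianMetric 𝓘(ℝ, E) ∞ E (fun x : M => TangentSpace 𝓘(ℝ, E) x)}
  {cov : CovariantDerivative 𝓘(ℝ, E) E (TangentSpace 𝓘(ℝ, E) : M → Type _)}

theorem isGrad_smul {f : M → ℝ} {G : Π x : M, TangentSpace 𝓘(ℝ, E) x} (hf : Sm 𝓘(ℝ, E) f)
    (hG : IsGrad g f G) (s : ℝ) : IsGrad g (fun x => s * f x) (fun x => s • G x) where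
  smooth := ContMDiff.const_smul_section hG.smooth
  inner x v := by
    have h1 : g.inner x (s • G x) v = s * g.inner x (G x) v := by
      have : g.inner x (s • G x) = s • g.inner x (G x) := map_smul _ _ _
      rw [this]; rfl
    have h2 : MDifferentiableAt 𝓘(ℝ, E) 𝓘(ℝ, ℝ) f x := hf.mdiff x
    have h3 : mvfderiv 𝓘(ℝ, E) (fun y => s * f y) x v = s * mvfderiv 𝓘(ℝ, E) f x v :=
      d_real (φ := fun t => s * t) (c := s) (by simpa using (hasDerivAt_id (f x)).const_mul s) h2 v
    rw [h1, hG.inner, h3]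

/-- orthonormal pairs of the conformal metric -/
theorem sec_conf_pos [T2Space M] [SigmaCompactSpace M] [Nontrivial E] {f : M → ℝ}
    (hf : Sm 𝓘(ℝ, E) f) {R' : CurvField 𝓘(ℝ, E) M} {x : M}
    (hpos : ∀ u v : TangentSpace 𝓘(ℝ, E) x, OrthoPair g x u v →
      0 < (conf g f hf).inner x (R' x u v v) u)
    (u v : TangentSpace 𝓘(ℝ, E) x) (huv : OrthoPair (conf g f hf) x u v) :
    0 < sec (conf g f hf) R' x u v := by
  obtain ⟨h1, h2, h3⟩ := huv
  rw [conf_inner] at h1 h2 h3
  have he : 0 < Real.exp (f x) := Real.exp_pos _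
  have he2 : Real.exp (2 * f x) = Real.exp (f x) * Real.exp (f x) := by
    rw [← Real.exp_add]; congr 1; ring
  have hsm : ∀ (g : ContMDiffRiemannianMetric 𝓘(ℝ, E) ∞ E
      (fun x : M => TangentSpace 𝓘(ℝ, E) x)) (s : ℝ) (u v : TangentSpace 𝓘(ℝ, E) x),
      g.inner x (s • u) v = s * g.inner x u v := by
    intro g s u v
    have : g.inner x (s • u) = s • g.inner x u := map_smul _ _ _
    rw [this]; rfl
  have hsm2 : ∀ (g : ContMDiffRiemannianMetric 𝓘(ℝ, E) ∞ E
      (fun x : M => TangentSpace 𝓘(ℝ, E) x)) (s : ℝ) (u v : TangentSpace 𝓘(ℝ, E) x),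
      g.inner x u (s • v) = s * g.inner x u v := by
    intro g s u v
    exact map_smul _ _ _
  have h4 := hpos (Real.exp (f x) • u) (Real.exp (f x) • v) ⟨by
      rw [hsm, hsm2, ← mul_assoc, ← he2]; exact h1, by
      rw [hsm, hsm2, ← mul_assoc, ← he2]; exact h2, by
      rw [hsm, hsm2, ← mul_assoc, ← he2]; exact h3⟩
  have e1 : R' x (Real.exp (f x) • u) (Real.exp (f x) • v) (Real.exp (f x) • v) =
      (Real.exp (f x) * Real.exp (f x) * Real.exp (f x)) • R' x u v v := by
    simp only [map_smul, LinearMap.smul_apply, smul_smul]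
    congr 1
    ring
  rw [e1, hsm, hsm2] at h4
  unfold sec
  have h5 : 0 < Real.exp (f x) * Real.exp (f x) * Real.exp (f x) := by positivity
  have h6 := (mul_pos_iff_of_pos_left h5).1 h4
  exact (mul_pos_iff_of_pos_left he).1 h6

/-- **First order criterion.** -/
theorem pos_of_neg_trace [T2Space M] [CompactSpace M] [Nontrivial E] (h : IsLeviCivita g cov)
    {R : CurvField 𝓘(ℝ, E) M} (hR : IsRiemannTensor cov R)
    (hnn : ∀ (x : M) (u v : TangentSpace 𝓘(ℝ, E) x), OrthoPair g x u v → 0 ≤ sec g R x u v)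
    {φ : M → ℝ} (hφ : Sm 𝓘(ℝ, E) φ)
    (hneg : ∀ (x : M) (u v : TangentSpace 𝓘(ℝ, E) x), OrthoPair g x u v → sec g R x u v = 0 →
      hes cov φ x u + hes cov φ x v < 0) :
    ∃ (f : M → ℝ) (hf : ContMDiff 𝓘(ℝ, E) 𝓘(ℝ, ℝ) ∞ f),
      HasPositiveSectionalCurvature (conf g f hf) := by
  obtain ⟨N, D, hinj⟩ := exists_frame 𝓘(ℝ, E) M
  obtain ⟨k, hkc, hk⟩ := exists_cont_sec D h hR
  obtain ⟨m, hmc, hm⟩ := exists_cont_hes D h hφ
  obtain ⟨G, hG⟩ := exists_grad g hφ
  obtain ⟨C, hC0, hC⟩ := bdd_family (q := fun (_ : Unit) (x : M) => gi g G G x)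
    (fun _ => (gi_smooth hG.smooth hG.smooth).continuous)
  have c1 : Continuous (fun z : M × (Fin N → ℝ) × (Fin N → ℝ) => -(m (z.1, z.2.1) +
      m (z.1, z.2.2))) :=
    ((hmc.comp (continuous_fst.prodMk (continuous_fst.comp continuous_snd))).add
      (hmc.comp (continuous_fst.prodMk (continuous_snd.comp continuous_snd)))).neg
  obtain ⟨s₀, hs₀, hs⟩ := compact_pos (isCompact_PL g D) hkc.continuousOn c1.continuousOn (by
    rintro ⟨x, a, b⟩ ⟨u, v, huv, ha, hb⟩
    have h1 : k (x, a, b) = sec g R x u v := by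
      have := hk x u v
      rw [← this]
      exact congrArg k (Prod.ext rfl (Prod.ext ha hb))
    rw [h1]
    exact hnn x u v huv) (by
    rintro ⟨x, a, b⟩ ⟨u, v, huv, ha, hb⟩ h0
    have h1 : k (x, a, b) = sec g R x u v := by
      have := hk x u v
      rw [← this]
      exact congrArg k (Prod.ext rfl (Prod.ext ha hb))
    have h2 := hneg x u v huv (h1.symm.trans h0)
    have h3 : m (x, a) = hes cov φ x u := by
      rw [← hm x u]; exact congrArg m (Prod.ext rfl ha)
    have h4 : m (x, b) = hes cov φ x v := by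
      rw [← hm x v]; exact congrArg m (Prod.ext rfl hb)
    simp only [h3, h4]
    linarith) hC0
  obtain ⟨s, hs1, hs2⟩ : ∃ s, 0 < s ∧ s < s₀ := ⟨s₀ / 2, by linarith, by linarith⟩
  have hf : Sm 𝓘(ℝ, E) (fun x => s * φ x) := Sm.cmul s hφ
  have hG' := isGrad_smul hφ hG s
  have hLC := isLeviCivita_cC hf hG' h
  obtain ⟨R', hR'⟩ := exists_riemann_of_LC hLC
  refine ⟨fun x => s * φ x, hf, HasPositiveSectionalCurvature.of_exists hLC hR' ?_⟩
  intro x u v huv
  refine sec_conf_pos hf ?_ u v huv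
  intro u v huv
  rw [sec_conf hf hG' h hR hR' x u v huv.1 huv.2.1 huv.2.2]
  refine mul_pos (Real.exp_pos _) ?_
  have h1 := hs s hs1 hs2 (x, Fv D x u, Fv D x v) ⟨u, v, huv, rfl, rfl⟩
  simp only [hk x u v, hm x u, hm x v] at h1
  rw [hes_eq h hG', hes_eq h hG', hes_cmul s hφ, hes_cmul s hφ]
  have h2 : mvfderiv 𝓘(ℝ, E) (fun x => s * φ x) x (s • G x) = s ^ 2 * gi g G G x := by
    rw [d_cmul s hφ, map_smul, ← hG.inner, gi]
    simp only [smul_eq_mul]
    ring
  rw [h2]
  have h3 : gi g G G x ≤ C := (le_abs_self _).trans (hC () x)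
  have h4 : s ^ 2 * gi g G G x ≤ s ^ 2 * C := mul_le_mul_of_nonneg_left h3 (sq_nonneg s)
  have h5 : sec g R x u v = g.inner x (R x u v v) u := rfl
  rw [h5] at h1
  nlinarith [sq_nonneg (mvfderiv 𝓘(ℝ, E) (fun x => s * φ x) x u),
    sq_nonneg (mvfderiv 𝓘(ℝ, E) (fun x => s * φ x) x v)]

/-- the converse: the exponent of the conformal factor has negative trace on flat planes -/
theorem neg_trace_of_pos [T2Space M] [CompactSpace M] [Nontrivial E] (h : IsLeviCivita g cov)
    {R : CurvField 𝓘(ℝ, E) M} (hR : IsRiemannTensor cov R) {f : M → ℝ} (hf : Sm 𝓘(ℝ, E) f)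
    (hpos : HasPositiveSectionalCurvature (conf g f hf)) (x : M)
    (u v : TangentSpace 𝓘(ℝ, E) x) (huv : OrthoPair g x u v) (h0 : sec g R x u v ≤ 0) :
    hes cov f x u + hes cov f x v < 0 := by
  obtain ⟨G, hG⟩ := exists_grad g hf
  have hLC := isLeviCivita_cC hf hG h
  obtain ⟨R', hR'⟩ := exists_riemann_of_LC hLC
  have hli : LinearIndependent ℝ ![u, v] := by
    obtain ⟨h1, h2, h3⟩ := huv
    rw [LinearIndependent.pair_iff]
    intro s t hst
    have e1 : g.inner x u (s • u + t • v) = 0 := by rw [hst, map_zero]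
    have e2 : g.inner x v (s • u + t • v) = 0 := by rw [hst, map_zero]
    rw [map_add, map_smul, map_smul, h1, h3] at e1
    rw [map_add, map_smul, map_smul, g.symm x v u, h2, h3] at e2
    simp at e1 e2
    exact ⟨e1, e2⟩
  have h1 := hpos.2 _ R' hLC hR' x u v hli
  unfold sectionalCurvature at h1
  have hd : 0 < (conf g f hf).inner x u u * (conf g f hf).inner x v v -
      (conf g f hf).inner x u v ^ 2 := by
    rw [conf_inner, conf_inner, conf_inner, huv.1, huv.2.1, huv.2.2]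
    have := Real.exp_pos (2 * f x)
    nlinarith [mul_pos this this]
  have h2 := (div_pos_iff_of_pos_right hd).1 h1
  rw [sec_conf hf hG h hR hR' x u v huv.1 huv.2.1 huv.2.2, hes_eq h hG, hes_eq h hG] at h2
  have h3 := (mul_pos_iff_of_pos_left (Real.exp_pos _)).1 h2
  have h5 : sec g R x u v = g.inner x (R x u v v) u := rfl
  rw [h5] at h0
  -- Bessel
  have h6 : mvfderiv 𝓘(ℝ, E) f x u ^ 2 + mvfderiv 𝓘(ℝ, E) f x v ^ 2 ≤
      mvfderiv 𝓘(ℝ, E) f x (G x) := by
    obtain ⟨a, ha⟩ : ∃ a, a = g.inner x (G x) u := ⟨_, rfl⟩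
    obtain ⟨b, hb⟩ : ∃ b, b = g.inner x (G x) v := ⟨_, rfl⟩
    have h7 := in_nonneg g x (G x - (a • u + b • v))
    have e : g.inner x (G x - (a • u + b • v)) (G x - (a • u + b • v)) =
        g.inner x (G x) (G x) - a ^ 2 - b ^ 2 := by
      rw [in_sub_left]
      have e2 : g.inner x (a • u + b • v) = a • g.inner x u + b • g.inner x v := by
        rw [map_add, map_smul, map_smul]
      rw [e2]
      simp only [map_sub, map_add, map_smul, add_apply, smul_apply, smul_eq_mul]
      rw [← ha, ← hb, g.symm x u (G x), g.symm x v (G x), g.symm x v u, ← ha, ← hb, huv.1, huv.2.1,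
        huv.2.2]
      ring
    rw [e] at h7
    rw [← hG.inner x u, ← hG.inner x v, ← hG.inner x (G x), ← ha, ← hb]
    linarith
  linarith

end Pool.Agent.Helper62.KP
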