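import Pool.Agent.Helper62.KP.Pot3

/-!
A function whose Hessian has positive trace on all tangent planes over a null set.
-/

open Bundle Manifold ContDiff ContinuousLinearMap Filter VectorField
open scoped Topology NNReal

set_option autoImplicit false
set_option synthInstance.maxHeartbeats 400000
set_option maxHeartbeats 4000000
set_option linter.unusedSectionVars false

noncomputable section

namespace Pool.Agent.Helper62.KP

open Pool.Agent.H821R2 Pool.Agent.H821R3 Pool.Agent.H893R5.HO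

variable {E : Type*} [NormedAddCommGroup E] [NormedSpace ℝ E] [FiniteDimensional ℝ E]
  {M : Type*} [TopologicalSpace M] [ChartedSpace E M] [IsManifold 𝓘(ℝ, E) ∞ M]
  {g : ContMDiffRiemannianMetric 𝓘(ℝ, E) ∞ E (fun x : M => TangentSpace 𝓘(ℝ, E) x)}
  {N : ℕ} (D : FrameData 𝓘(ℝ, E) M (Fin N)) [T2Space M] [CompactSpace M]
  {cov : CovariantDerivative 𝓘(ℝ, E) E (TangentSpace 𝓘(ℝ, E) : M → Type _)}

open MeasureTheory in
theorem exists_fun (h : IsLeviCivita g cov) (hinj : ∀ x y : M, (∀ i, D.f i x = D.f i y) → x = y)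
    {S : Set M} (hS : IsClosed S) (hnull : μH[2] (Fm D '' S) = 0) :
    ∃ (w : M → ℝ) (c : ℝ), Sm 𝓘(ℝ, E) w ∧ 0 < c ∧ ∀ x ∈ S,
      ∀ (u v : TangentSpace 𝓘(ℝ, E) x), OrthoPair g x u v → c ≤ hes cov w x u + hes cov w x v := by
  classical
  obtain ⟨C, c, hC, hc, hpot⟩ := exists_pot D h hinj
  have hT : IsCompact (Fm D '' S) := hS.isCompact.image (continuous_Fm D)
  obtain ⟨J, cc, r, hJ, hcov, hsum⟩ := exists_finite_cover hT hnull
    (show 0 < c / (2 * (C + 1)) by positivity)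
  have hex : ∀ k : ℕ, ∃ w : M → ℝ, Sm 𝓘(ℝ, E) w ∧ (k ∈ J →
      (∀ (x : M) (u v : TangentSpace 𝓘(ℝ, E) x), OrthoPair g x u v →
        -C ≤ hes cov w x u + hes cov w x v) ∧
      (∀ x : M, ‖Fm D x - cc k‖ ≤ r k → ∀ (u v : TangentSpace 𝓘(ℝ, E) x), OrthoPair g x u v →
        c / r k ^ 2 - C ≤ hes cov w x u + hes cov w x v)) := by
    intro k
    by_cases hk : k ∈ J
    · obtain ⟨⟨p, hp, hpk⟩, hr⟩ := hJ k hk
      obtain ⟨w, hw, h1, h2⟩ := hpot p (r k) hr
      refine ⟨w, hw, fun _ => ⟨h1, ?_⟩⟩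
      rw [← hpk]
      exact h2
    · exact ⟨fun _ => 0, Sm.const 0, fun h' => absurd h' hk⟩
  choose w hw hwk using hex
  have hs : ∀ k, Sm 𝓘(ℝ, E) (fun y => r k ^ 2 * w k y) := fun k => Sm.cmul _ (hw k)
  refine ⟨fun y => ∑ k ∈ J, r k ^ 2 * w k y, c / 2, sm_sum J hs, by positivity, ?_⟩
  intro x hx u v huv
  rw [hes_sum J hs, hes_sum J hs, ← Finset.sum_add_distrib]
  have e : ∀ k ∈ J, hes cov (fun y => r k ^ 2 * w k y) x u + hes cov (fun y => r k ^ 2 * w k y) x v =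
      r k ^ 2 * (hes cov (w k) x u + hes cov (w k) x v) := by
    intro k _
    rw [hes_cmul _ (hw k), hes_cmul _ (hw k)]
    ring
  rw [Finset.sum_congr rfl e]
  obtain ⟨k, hk, hxk⟩ := Set.mem_iUnion₂.1 (hcov ⟨x, hx, rfl⟩)
  have hr : 0 < r k := (hJ k hk).2
  have h1 : c / r k ^ 2 - C ≤ hes cov (w k) x u + hes cov (w k) x v := by
    refine (hwk k hk).2 x ?_ u v huv
    rw [← dist_eq_norm]
    exact (Metric.mem_ball.1 hxk).le
  rw [← Finset.add_sum_erase J _ hk]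
  have h2 : c - C * r k ^ 2 ≤ r k ^ 2 * (hes cov (w k) x u + hes cov (w k) x v) := by
    have := mul_le_mul_of_nonneg_left h1 (sq_nonneg (r k))
    have e3 : r k ^ 2 * (c / r k ^ 2 - C) = c - C * r k ^ 2 := by
      field_simp
    linarith
  have h3 : -(C * ∑ j ∈ J.erase k, r j ^ 2) ≤
      ∑ j ∈ J.erase k, r j ^ 2 * (hes cov (w j) x u + hes cov (w j) x v) := by
    rw [Finset.mul_sum, ← Finset.sum_neg_distrib]
    refine Finset.sum_le_sum fun j hj => ?_
    have h4 := (hwk j (Finset.mem_of_mem_erase hj)).1 x u v huv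
    have := mul_le_mul_of_nonneg_left h4 (sq_nonneg (r j))
    linarith
  have h5 : r k ^ 2 + ∑ j ∈ J.erase k, r j ^ 2 = ∑ j ∈ J, r j ^ 2 :=
    Finset.add_sum_erase J (fun j => r j ^ 2) hk
  have h6 : C * ∑ j ∈ J, r j ^ 2 ≤ c / 2 := by
    have h7 : C * ∑ j ∈ J, r j ^ 2 ≤ C * (c / (2 * (C + 1))) := mul_le_mul_of_nonneg_left hsum hC
    have h8 : C * (c / (2 * (C + 1))) ≤ c / 2 := by
      rw [mul_div_assoc', div_le_div_iff₀ (by positivity) (by positivity)]
      nlinarith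
    linarith
  have h9 : C * ∑ j ∈ J, r j ^ 2 = C * r k ^ 2 + C * ∑ j ∈ J.erase k, r j ^ 2 := by
    rw [← h5]; ring
  linarith

/-- the compactness lemma -/
theorem compact_pos {X : Type*} [TopologicalSpace X] {T : Set X} (hT : IsCompact T)
    {k m : X → ℝ} (hkc : ContinuousOn k T) (hmc : ContinuousOn m T) (hk : ∀ z ∈ T, 0 ≤ k z)
    (hm : ∀ z ∈ T, k z = 0 → 0 < m z) {C : ℝ} (hC : 0 ≤ C) :
    ∃ s₀ : ℝ, 0 < s₀ ∧ ∀ s : ℝ, 0 < s → s < s₀ → ∀ z ∈ T, 0 < k z + s * m z - s ^ 2 * C := by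
  -- the sets
  have hpre : ∀ (f : X → ℝ) (hf : ContinuousOn f T) (A : Set ℝ), IsClosed A →
      IsCompact (T ∩ f ⁻¹' A) := by
    intro f hf A hA
    obtain ⟨u, hu, hu'⟩ := (continuousOn_iff_isClosed.1 hf) A hA
    rw [Set.inter_comm, hu', Set.inter_comm]
    exact hT.inter_right hu
  obtain ⟨μ, hμ, h1⟩ : ∃ μ : ℝ, 0 < μ ∧ ∀ z ∈ T, k z = 0 → μ < m z := by
    have hc := hpre k hkc {0} isClosed_singleton
    rcases (T ∩ k ⁻¹' {0}).eq_empty_or_nonempty with he | hne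
    · refine ⟨1, one_pos, fun z hz h0 => ?_⟩
      have : z ∈ T ∩ k ⁻¹' {0} := ⟨hz, h0⟩
      rw [he] at this
      exact absurd this (Set.notMem_empty _)
    · obtain ⟨z0, hz0, hmin⟩ := hc.exists_isMinOn hne (hmc.mono Set.inter_subset_left)
      refine ⟨m z0 / 2, by have := hm z0 hz0.1 hz0.2; linarith, fun z hz h0 => ?_⟩
      have h2 := hmin (a := z) ⟨hz, h0⟩
      simp only [Set.mem_ofPred_eq] at h2
      have := hm z0 hz0.1 hz0.2
      linarith
  obtain ⟨κ, hκ, h2⟩ : ∃ κ : ℝ, 0 < κ ∧ ∀ z ∈ T, m z ≤ μ → κ ≤ k z := by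
    have hc := hpre m hmc (Set.Iic μ) isClosed_Iic
    rcases (T ∩ m ⁻¹' (Set.Iic μ)).eq_empty_or_nonempty with he | hne
    · refine ⟨1, one_pos, fun z hz h0 => ?_⟩
      have : z ∈ T ∩ m ⁻¹' (Set.Iic μ) := ⟨hz, h0⟩
      rw [he] at this
      exact absurd this (Set.notMem_empty _)
    · obtain ⟨z0, hz0, hmin⟩ := hc.exists_isMinOn hne (hkc.mono Set.inter_subset_left)
      refine ⟨k z0, ?_, fun z hz h0 => ?_⟩
      · rcases (hk z0 hz0.1).lt_or_eq with h | h
        · exact h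
        · have := h1 z0 hz0.1 h.symm
          have h3 : m z0 ≤ μ := hz0.2
          linarith
      · have h2 := hmin (a := z) ⟨hz, h0⟩
        simpa only [Set.mem_ofPred_eq] using h2
  obtain ⟨B, hB⟩ := hT.exists_bound_of_continuousOn hmc
  refine ⟨min 1 (min (μ / (C + 1)) (κ / (|B| + C + 1))), by positivity, ?_⟩
  intro s hs hs0 z hz
  have hs1 : s < 1 := hs0.trans_le (min_le_left _ _)
  have hs2 : s < μ / (C + 1) := hs0.trans_le ((min_le_right _ _).trans (min_le_left _ _))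
  have hs3 : s < κ / (|B| + C + 1) := hs0.trans_le ((min_le_right _ _).trans (min_le_right _ _))
  rw [lt_div_iff₀ (by positivity)] at hs2 hs3
  by_cases hmz : m z ≤ μ
  · have h3 := h2 z hz hmz
    have h4 : -|B| ≤ m z := by
      have := hB z hz
      rw [Real.norm_eq_abs] at this
      have h5 := (abs_le.1 (this.trans (le_abs_self B))).1
      exact h5
    have h5 : s * (-|B|) ≤ s * m z := mul_le_mul_of_nonneg_left h4 hs.le
    have h6 : s ^ 2 * C ≤ s * C := mul_le_mul_of_nonneg_right (by nlinarith) hC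
    nlinarith
  · push Not at hmz
    have h3 := hk z hz
    have h4 : s * μ < s * m z := mul_lt_mul_of_pos_left hmz hs
    have h5 : s * (s * (C + 1)) < s * μ := mul_lt_mul_of_pos_left hs2 hs
    nlinarith

end Pool.Agent.Helper62.KP
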