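import Pool.Agent.Helper62.KP.Null

/-!
The compact space of orthonormal pairs of a closed Riemannian manifold, in frame coordinates.
-/

open Bundle Manifold ContDiff ContinuousLinearMap Filter VectorField
open scoped Topology NNReal

set_option autoImplicit false
set_option synthInstance.maxHeartbeats 400000
set_option maxHeartbeats 4000000
set_option linter.unusedSectionVars false

noncomputable section

namespace Pool.Agent.Helper62.KP

open Pool.Agent.H821R2 Pool.Agent.H821R3 Pool.Agent.H893R5.HO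

variable {E : Type*} [NormedAddCommGroup E] [NormedSpace ℝ E] [FiniteDimensional ℝ E]
  {M : Type*} [TopologicalSpace M] [ChartedSpace E M] [IsManifold 𝓘(ℝ, E) ∞ M]
  (g : ContMDiffRiemannianMetric 𝓘(ℝ, E) ∞ E (fun x : M => TangentSpace 𝓘(ℝ, E) x))
  {N : ℕ} (D : FrameData 𝓘(ℝ, E) M (Fin N)) [T2Space M] [CompactSpace M]
  {cov : CovariantDerivative 𝓘(ℝ, E) E (TangentSpace 𝓘(ℝ, E) : M → Type _)}

/-- the orthonormal pairs -/
def PL : Set (M × (Fin N → ℝ) × (Fin N → ℝ)) :=
  {z | ∃ u v : TangentSpace 𝓘(ℝ, E) z.1, OrthoPair g z.1 u v ∧ z.2.1 = Fv D z.1 u ∧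
    z.2.2 = Fv D z.1 v}

theorem cont_QF {X : Type*} [TopologicalSpace X] {a b : X → Fin N → ℝ} {x : X → M}
    (hx : Continuous x) (ha : Continuous a) (hb : Continuous b) :
    Continuous (fun z => QF (fun i j => qc g D i j (x z)) (a z) (b z)) := by
  unfold QF
  refine continuous_finsetSum _ fun i _ => continuous_finsetSum _ fun j _ => ?_
  exact ((sm_qc g D i j).continuous.comp hx).mul
    (((continuous_apply i).comp ha).mul ((continuous_apply j).comp hb))

theorem cont_P {X : Type*} [TopologicalSpace X] {a : X → Fin N → ℝ} {x : X → M}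
    (hx : Continuous x) (ha : Continuous a) : Continuous (fun z => Fv D (x z) (Ev D (x z) (a z))) := by
  refine continuous_pi fun k => ?_
  have e : (fun z => Fv D (x z) (Ev D (x z) (a z)) k) =
      fun z => ∑ i, a z i * der (D.e i) (D.f k) (x z) := by
    ext z
    unfold Fv Ev
    rw [map_sum]
    exact Finset.sum_congr rfl fun i _ => map_smul _ _ _
  rw [e]
  refine continuous_finsetSum _ fun i _ => ?_
  exact ((continuous_apply i).comp ha).mul ((Sm.der (D.he i) (D.hf k)).continuous.comp hx)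

theorem isCompact_PL : IsCompact (PL g D) := by
  obtain ⟨C, hC, hF⟩ := bound_Fv g D
  have e : PL g D = {z | QF (fun i j => qc g D i j z.1) z.2.1 z.2.1 = 1} ∩
      {z | QF (fun i j => qc g D i j z.1) z.2.2 z.2.2 = 1} ∩
      {z | QF (fun i j => qc g D i j z.1) z.2.1 z.2.2 = 0} ∩
      {z | Fv D z.1 (Ev D z.1 z.2.1) = z.2.1} ∩ {z | Fv D z.1 (Ev D z.1 z.2.2) = z.2.2} := by
    ext ⟨x, a, b⟩
    simp only [PL, Set.mem_inter_iff, Set.mem_ofPred_eq]
    constructor
    · rintro ⟨u, v, ⟨h1, h2, h3⟩, rfl, rfl⟩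
      simp only [QF_Fv, Ev_Fv, h1, h2, h3, and_self]
    · rintro ⟨⟨⟨⟨h1, h2⟩, h3⟩, h4⟩, h5⟩
      refine ⟨Ev D x a, Ev D x b, ⟨?_, ?_, ?_⟩, h4.symm, h5.symm⟩
      · rw [← QF_Fv g D, h4]; exact h1
      · rw [← QF_Fv g D, h5]; exact h2
      · rw [← QF_Fv g D, h4, h5]; exact h3
  have c1 : Continuous (fun z : M × (Fin N → ℝ) × (Fin N → ℝ) => z.1) := continuous_fst
  have c2 : Continuous (fun z : M × (Fin N → ℝ) × (Fin N → ℝ) => z.2.1) :=
    continuous_fst.comp continuous_snd
  have c3 : Continuous (fun z : M × (Fin N → ℝ) × (Fin N → ℝ) => z.2.2) :=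
    continuous_snd.comp continuous_snd
  have hclosed : IsClosed (PL g D) := by
    rw [e]
    refine IsClosed.inter (IsClosed.inter (IsClosed.inter (IsClosed.inter ?_ ?_) ?_) ?_) ?_
    · exact isClosed_eq (cont_QF g D c1 c2 c2) continuous_const
    · exact isClosed_eq (cont_QF g D c1 c3 c3) continuous_const
    · exact isClosed_eq (cont_QF g D c1 c2 c3) continuous_const
    · exact isClosed_eq (cont_P D c1 c2) c2
    · exact isClosed_eq (cont_P D c1 c3) c3
  have hsub : PL g D ⊆ (Set.univ : Set M) ×ˢ (Metric.closedBall (0 : Fin N → ℝ) (Real.sqrt C) ×ˢ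
      Metric.closedBall (0 : Fin N → ℝ) (Real.sqrt C)) := by
    rintro ⟨x, a, b⟩ ⟨u, v, ⟨h1, h2, -⟩, ha, hb⟩
    refine ⟨Set.mem_univ _, ?_, ?_⟩
    · rw [mem_closedBall_zero_iff, pi_norm_le_iff_of_nonneg (Real.sqrt_nonneg _)]
      intro i
      rw [Real.norm_eq_abs, ha]
      refine Real.abs_le_sqrt ?_
      have := hF x u i
      rwa [h1, mul_one] at this
    · rw [mem_closedBall_zero_iff, pi_norm_le_iff_of_nonneg (Real.sqrt_nonneg _)]
      intro i
      rw [Real.norm_eq_abs, hb]
      refine Real.abs_le_sqrt ?_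
      have := hF x v i
      rwa [h2, mul_one] at this
  exact (isCompact_univ.prod ((isCompact_closedBall _ _).prod
    (isCompact_closedBall _ _))).of_isClosed_subset hclosed hsub

variable {g}

/-- the Hessian is continuous -/
theorem exists_cont_hes (h : IsLeviCivita g cov) {w : M → ℝ} (hw : Sm 𝓘(ℝ, E) w) :
    ∃ m : M × (Fin N → ℝ) → ℝ, Continuous m ∧
      ∀ (x : M) (u : TangentSpace 𝓘(ℝ, E) x), m (x, Fv D x u) = hes cov w x u := by
  obtain ⟨G, hG⟩ := exists_grad g hw
  refine ⟨fun z => ∑ i, ∑ j, z.2 i * (z.2 j * g.inner z.1 (cov G z.1 (D.e i z.1)) (D.e j z.1)),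
    ?_, ?_⟩
  · refine continuous_finsetSum _ fun i _ => continuous_finsetSum _ fun j _ => ?_
    have h1 : Continuous (fun x : M => g.inner x (cov G x (D.e i x)) (D.e j x)) :=
      (gi_smooth (nabla_smooth h (D.he i) hG.smooth) (D.he j)).continuous
    exact ((continuous_apply i).comp continuous_snd).mul
      (((continuous_apply j).comp continuous_snd).mul (h1.comp continuous_fst))
  · intro x u
    rw [← hes_eq h hG]
    have hv : cov G x u = ∑ i, Fv D x u i • cov G x (D.e i x) := by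
      conv_lhs => rw [← D.repr x u, map_sum]
      exact Finset.sum_congr rfl fun i _ => map_smul _ _ _
    rw [hv, in_sum_left g x (Fv D x u) (fun i => cov G x (D.e i x))]
    refine Finset.sum_congr rfl fun i _ => ?_
    have hv2 : g.inner x (cov G x (D.e i x)) u = ∑ j, Fv D x u j *
        g.inner x (cov G x (D.e i x)) (D.e j x) := by
      conv_lhs => rw [← D.repr x u]
      exact in_sum_right g x (Fv D x u) (fun i => D.e i x) _
    rw [hv2, Finset.mul_sum]

theorem trilin {V : Type*} [AddCommGroup V] [Module ℝ V] (T : V →ₗ[ℝ] V →ₗ[ℝ] V →ₗ[ℝ] V)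
    {κ : Type*} [Fintype κ] (e : κ → V) (a b c : κ → ℝ) :
    T (∑ i, a i • e i) (∑ i, b i • e i) (∑ i, c i • e i) =
      ∑ q : κ × κ × κ, (a q.1 * b q.2.1 * c q.2.2) • T (e q.1) (e q.2.1) (e q.2.2) := by
  have h1 : T (∑ i, a i • e i) = ∑ i, a i • T (e i) := by
    rw [map_sum]
    exact Finset.sum_congr rfl fun i _ => map_smul _ _ _
  have h2 : ∀ i, T (e i) (∑ j, b j • e j) = ∑ j, b j • T (e i) (e j) := by
    intro i
    rw [map_sum]
    exact Finset.sum_congr rfl fun i _ => map_smul _ _ _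
  have h3 : ∀ i j, T (e i) (e j) (∑ k, c k • e k) = ∑ k, c k • T (e i) (e j) (e k) := by
    intro i j
    rw [map_sum]
    exact Finset.sum_congr rfl fun i _ => map_smul _ _ _
  rw [h1, LinearMap.sum_apply, LinearMap.sum_apply, Fintype.sum_prod_type]
  refine Finset.sum_congr rfl fun i _ => ?_
  rw [LinearMap.smul_apply, LinearMap.smul_apply, h2, LinearMap.sum_apply, Finset.smul_sum,
    Fintype.sum_prod_type]
  refine Finset.sum_congr rfl fun j _ => ?_
  rw [LinearMap.smul_apply, h3, Finset.smul_sum, Finset.smul_sum]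
  refine Finset.sum_congr rfl fun k _ => ?_
  module

/-- the sectional curvature is continuous -/
theorem exists_cont_sec (h : IsLeviCivita g cov) {R : CurvField 𝓘(ℝ, E) M}
    (hR : IsRiemannTensor cov R) :
    ∃ k : M × (Fin N → ℝ) × (Fin N → ℝ) → ℝ, Continuous k ∧
      ∀ (x : M) (u v : TangentSpace 𝓘(ℝ, E) x), k (x, Fv D x u, Fv D x v) = sec g R x u v := by
  refine ⟨fun z => ∑ q : Fin N × Fin N × Fin N, (z.2.1 q.1 * z.2.2 q.2.1 * z.2.2 q.2.2) *
    ∑ l, z.2.1 l * g.inner z.1 (R z.1 (D.e q.1 z.1) (D.e q.2.1 z.1) (D.e q.2.2 z.1))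
      (D.e l z.1), ?_, ?_⟩
  · refine continuous_finsetSum _ fun q _ => ?_
    have c2 : ∀ i, Continuous (fun z : M × (Fin N → ℝ) × (Fin N → ℝ) => z.2.1 i) := fun i =>
      (continuous_apply i).comp (continuous_fst.comp continuous_snd)
    have c3 : ∀ i, Continuous (fun z : M × (Fin N → ℝ) × (Fin N → ℝ) => z.2.2 i) := fun i =>
      (continuous_apply i).comp (continuous_snd.comp continuous_snd)
    refine (((c2 _).mul (c3 _)).mul (c3 _)).mul (continuous_finsetSum _ fun l _ => ?_)
    refine (c2 l).mul ?_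
    have h1 : Continuous (fun x : M => g.inner x (R x (D.e q.1 x) (D.e q.2.1 x) (D.e q.2.2 x))
        (D.e l x)) := by
      have e1 : (fun x : M => g.inner x (R x (D.e q.1 x) (D.e q.2.1 x) (D.e q.2.2 x))
        (D.e l x)) = gi g (curv cov (D.e q.1) (D.e q.2.1) (D.e q.2.2)) (D.e l) := by
        ext x
        rw [hR (D.he _) (D.he _) (D.he _) x]
        rfl
      rw [e1]
      refine (gi_smooth ?_ (D.he l)).continuous
      have t1 := nabla_smooth h (D.he q.1) (nabla_smooth h (D.he q.2.1) (D.he q.2.2))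
      have t2 := nabla_smooth h (D.he q.2.1) (nabla_smooth h (D.he q.1) (D.he q.2.2))
      have t3 := nabla_smooth h (smooth_bracket (D.he q.1) (D.he q.2.1)) (D.he q.2.2)
      exact (t1.sub_section t2).sub_section t3
    exact h1.comp continuous_fst
  · intro x u v
    unfold sec
    have e1 : R x u v v = ∑ q : Fin N × Fin N × Fin N, (Fv D x u q.1 * Fv D x v q.2.1 *
        Fv D x v q.2.2) • R x (D.e q.1 x) (D.e q.2.1 x) (D.e q.2.2 x) := by
      conv_lhs => rw [← D.repr x u, ← D.repr x v]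
      exact trilin (R x) (fun i => D.e i x) (Fv D x u) (Fv D x v) (Fv D x v)
    rw [e1, in_sum_left g x (fun q : Fin N × Fin N × Fin N => Fv D x u q.1 * Fv D x v q.2.1 *
        Fv D x v q.2.2) (fun q => R x (D.e q.1 x) (D.e q.2.1 x) (D.e q.2.2 x))]
    refine Finset.sum_congr rfl fun q _ => ?_
    congr 1
    conv_rhs => rw [← D.repr x u]
    exact (in_sum_right g x (Fv D x u) (fun i => D.e i x) _).symm

end Pool.Agent.Helper62.KP
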