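import Pool.Agent.Helper62.KP.Lip
import Pool.Agent.Helper62.KP.Cover

/-!
Logarithmic potentials on a closed Riemannian manifold: functions whose Hessian has a trace on
every tangent plane which is bounded below, and very positive near a point.
-/

open Bundle Manifold ContDiff ContinuousLinearMap Filter VectorField
open scoped Topology NNReal

set_option autoImplicit false
set_option synthInstance.maxHeartbeats 400000
set_option maxHeartbeats 4000000
set_option linter.unusedSectionVars false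

noncomputable section

namespace Pool.Agent.Helper62.KP

open Pool.Agent.H821R2 Pool.Agent.H821R3 Pool.Agent.H893R5.HO

/-- the real inequality behind the potentials -/
theorem real_ineq {k k3 κ N ζ ε S1 S2 : ℝ} (hk : 0 ≤ k) (hk3 : 0 ≤ k3) (hκ : 0 ≤ κ)
    (hN : 0 < N) (hζ : 0 ≤ ζ) (hζN : ζ ≤ κ * N) (hS1 : 2 - k * ζ ≤ S1)
    (hS2 : S2 ≤ N ^ 2 - ε ^ 2 + k3 * ζ ^ 3) :
    2 * ε ^ 2 / N ^ 4 - (k * κ + 2 * k3 * κ ^ 3) ^ 2 ≤
      (1 / N ^ 2 + (k * κ + 2 * k3 * κ ^ 3) / N) * S1 -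
        (2 / N ^ 4 + (k * κ + 2 * k3 * κ ^ 3) / N ^ 3) * S2 := by
  obtain ⟨t, ht⟩ : ∃ t, t = 1 / N := ⟨_, rfl⟩
  have ht0 : 0 < t := by rw [ht]; positivity
  have htN : N * t = 1 := by rw [ht]; field_simp
  obtain ⟨C, hC⟩ : ∃ C, C = k * κ + 2 * k3 * κ ^ 3 := ⟨_, rfl⟩
  have hC0 : 0 ≤ C := by rw [hC]; positivity
  have e1 : (1 : ℝ) / N ^ 2 = t ^ 2 := by rw [ht]; field_simp
  have e2 : C / N = C * t := by rw [ht]; field_simp
  have e3 : (2 : ℝ) / N ^ 4 = 2 * t ^ 4 := by rw [ht]; field_simp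
  have e4 : C / N ^ 3 = C * t ^ 3 := by rw [ht]; field_simp
  have e5 : 2 * ε ^ 2 / N ^ 4 = 2 * ε ^ 2 * t ^ 4 := by rw [ht]; field_simp
  rw [← hC, e1, e2, e3, e4, e5]
  have hz1 : ζ * t ≤ κ := by
    have := mul_le_mul_of_nonneg_right hζN ht0.le
    rwa [mul_assoc, htN, mul_one] at this
  have hz0 : 0 ≤ ζ * t := by positivity
  have hz3 : (ζ * t) ^ 3 ≤ κ ^ 3 := pow_le_pow_left₀ hz0 hz1 3
  have f1 : (t ^ 2 + C * t) * (2 - k * ζ) ≤ (t ^ 2 + C * t) * S1 :=
    mul_le_mul_of_nonneg_left hS1 (by positivity)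
  have f2 : (2 * t ^ 4 + C * t ^ 3) * S2 ≤
      (2 * t ^ 4 + C * t ^ 3) * (N ^ 2 - ε ^ 2 + k3 * ζ ^ 3) :=
    mul_le_mul_of_nonneg_left hS2 (by positivity)
  have f3 : (t ^ 2 + C * t) * (2 - k * ζ) = 2 * t ^ 2 + 2 * C * t - k * (ζ * t) * t -
      C * k * (ζ * t) := by ring
  have f4 : (2 * t ^ 4 + C * t ^ 3) * (N ^ 2 - ε ^ 2 + k3 * ζ ^ 3) =
      2 * (N * t) ^ 2 * t ^ 2 + C * (N * t) ^ 2 * t - 2 * ε ^ 2 * t ^ 4 - C * ε ^ 2 * t ^ 3 +
        2 * k3 * (ζ * t) ^ 3 * t + C * k3 * (ζ * t) ^ 3 := by ring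
  rw [htN] at f4
  have g1 : k * (ζ * t) * t ≤ k * κ * t :=
    mul_le_mul_of_nonneg_right (mul_le_mul_of_nonneg_left hz1 hk) ht0.le
  have g2 : C * k * (ζ * t) ≤ C * k * κ := mul_le_mul_of_nonneg_left hz1 (by positivity)
  have g3 : 2 * k3 * (ζ * t) ^ 3 * t ≤ 2 * k3 * κ ^ 3 * t :=
    mul_le_mul_of_nonneg_right (mul_le_mul_of_nonneg_left hz3 (by positivity)) ht0.le
  have g4 : C * k3 * (ζ * t) ^ 3 ≤ C * k3 * κ ^ 3 :=
    mul_le_mul_of_nonneg_left hz3 (by positivity)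
  have g5 : 0 ≤ C * ε ^ 2 * t ^ 3 := by positivity
  have g6 : 0 ≤ C * (k3 * κ ^ 3) := by positivity
  have g7 : C ^ 2 = C * k * κ + 2 * (C * (k3 * κ ^ 3)) := by
    conv_lhs => rw [sq]
    nth_rewrite 2 [hC]
    ring
  have g8 : C * t = k * κ * t + 2 * k3 * κ ^ 3 * t := by
    nth_rewrite 1 [hC]
    ring
  nlinarith

/-- quadratic forms on `ℝᴺ` -/
def QF {N : ℕ} (q : Fin N → Fin N → ℝ) (a b : Fin N → ℝ) : ℝ := ∑ i, ∑ j, q i j * (a i * b j)

section QF

variable {N : ℕ} (q : Fin N → Fin N → ℝ)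

theorem QF_add_left (a a' b : Fin N → ℝ) : QF q (a + a') b = QF q a b + QF q a' b := by
  simp only [QF, ← Finset.sum_add_distrib, Pi.add_apply]
  refine Finset.sum_congr rfl fun i _ => Finset.sum_congr rfl fun j _ => ?_
  ring

theorem QF_add_right (a b b' : Fin N → ℝ) : QF q a (b + b') = QF q a b + QF q a b' := by
  simp only [QF, ← Finset.sum_add_distrib, Pi.add_apply]
  refine Finset.sum_congr rfl fun i _ => Finset.sum_congr rfl fun j _ => ?_
  ring

theorem QF_smul_left (c : ℝ) (a b : Fin N → ℝ) : QF q (c • a) b = c * QF q a b := by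
  simp only [QF, Finset.mul_sum, Pi.smul_apply, smul_eq_mul]
  refine Finset.sum_congr rfl fun i _ => Finset.sum_congr rfl fun j _ => ?_
  ring

theorem QF_smul_right (c : ℝ) (a b : Fin N → ℝ) : QF q a (c • b) = c * QF q a b := by
  simp only [QF, Finset.mul_sum, Pi.smul_apply, smul_eq_mul]
  refine Finset.sum_congr rfl fun i _ => Finset.sum_congr rfl fun j _ => ?_
  ring

theorem QF_symm (hq : ∀ i j, q i j = q j i) (a b : Fin N → ℝ) : QF q a b = QF q b a := by
  simp only [QF]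
  rw [Finset.sum_comm]
  refine Finset.sum_congr rfl fun i _ => Finset.sum_congr rfl fun j _ => ?_
  rw [hq j i]
  ring

theorem QF_bound {C : ℝ} (hq : ∀ i j, |q i j| ≤ C) (a b : Fin N → ℝ) :
    |QF q a b| ≤ (∑ _i : Fin N, ∑ _j : Fin N, C) * (‖a‖ * ‖b‖) := by
  simp only [QF, Finset.sum_mul]
  refine (Finset.abs_sum_le_sum_abs _ _).trans (Finset.sum_le_sum fun i _ => ?_)
  refine (Finset.abs_sum_le_sum_abs _ _).trans (Finset.sum_le_sum fun j _ => ?_)
  rw [abs_mul, abs_mul]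
  have h1 : |a i| ≤ ‖a‖ := norm_le_pi_norm a i
  have h2 : |b j| ≤ ‖b‖ := norm_le_pi_norm b j
  exact mul_le_mul (hq i j) (mul_le_mul h1 h2 (abs_nonneg _) (norm_nonneg _))
    (by positivity) ((abs_nonneg _).trans (hq i j))

/-- Bessel's inequality -/
theorem QF_bessel (hq : ∀ i j, q i j = q j i) (hpos : ∀ a, 0 ≤ QF q a a) {a b : Fin N → ℝ}
    (ha : QF q a a = 1) (hb : QF q b b = 1) (hab : QF q a b = 0) (z : Fin N → ℝ) :
    QF q z a ^ 2 + QF q z b ^ 2 ≤ QF q z z := by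
  have h1 := hpos (z + (-(QF q z a)) • a + (-(QF q z b)) • b)
  simp only [QF_add_left, QF_add_right, QF_smul_left, QF_smul_right] at h1
  rw [QF_symm q hq b a, hab, ha, hb, QF_symm q hq a z, QF_symm q hq b z] at h1
  nlinarith

end QF

variable {E : Type*} [NormedAddCommGroup E] [NormedSpace ℝ E] [FiniteDimensional ℝ E]
  {M : Type*} [TopologicalSpace M] [ChartedSpace E M] [IsManifold 𝓘(ℝ, E) ∞ M]
  (g : ContMDiffRiemannianMetric 𝓘(ℝ, E) ∞ E (fun x : M => TangentSpace 𝓘(ℝ, E) x))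
  {N : ℕ} (D : FrameData 𝓘(ℝ, E) M (Fin N))

/-- the coefficients of the extension of the metric to `ℝᴺ` -/
def qc (i j : Fin N) (x : M) : ℝ :=
  gi g (D.e i) (D.e j) x +
    ∑ k, ((if i = k then 1 else 0) - der (D.e i) (D.f k) x) *
      ((if j = k then 1 else 0) - der (D.e j) (D.f k) x)

theorem sm_qc (i j : Fin N) : Sm 𝓘(ℝ, E) (qc g D i j) := by
  apply Sm.add (gi_smooth (D.he i) (D.he j))
  apply sm_sum
  intro k
  exact Sm.mul (Sm.sub (Sm.const _) (Sm.der (D.he i) (D.hf k)))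
    (Sm.sub (Sm.const _) (Sm.der (D.he j) (D.hf k)))

theorem qc_symm (i j : Fin N) (x : M) : qc g D i j x = qc g D j i x := by
  unfold qc
  rw [gi_comm]
  congr 1
  exact Finset.sum_congr rfl fun k _ => mul_comm _ _

theorem QF_qc (x : M) (a b : Fin N → ℝ) : QF (fun i j => qc g D i j x) a b =
    g.inner x (Ev D x a) (Ev D x b) + ∑ k, (a k - Fv D x (Ev D x a) k) *
      (b k - Fv D x (Ev D x b) k) := by
  have e1 : g.inner x (Ev D x a) (Ev D x b) = ∑ i, ∑ j, gi g (D.e i) (D.e j) x * (a i * b j) := by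
    unfold Ev
    rw [in_sum_left g x a (fun i => D.e i x)]
    refine Finset.sum_congr rfl fun i _ => ?_
    rw [in_sum_right g x b (fun i => D.e i x), Finset.mul_sum]
    refine Finset.sum_congr rfl fun j _ => ?_
    unfold gi
    ring
  have e2 : ∀ (c : Fin N → ℝ) (k : Fin N), c k - Fv D x (Ev D x c) k =
      ∑ i, c i * ((if i = k then 1 else 0) - der (D.e i) (D.f k) x) := by
    intro c k
    have : Fv D x (Ev D x c) k = ∑ i, c i * der (D.e i) (D.f k) x := by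
      unfold Fv Ev
      rw [map_sum]
      exact Finset.sum_congr rfl fun i _ => map_smul _ _ _
    rw [this]
    simp only [mul_sub, Finset.sum_sub_distrib, mul_ite, mul_one, mul_zero]
    simp
  have e3 : ∀ k, (a k - Fv D x (Ev D x a) k) * (b k - Fv D x (Ev D x b) k) =
      ∑ i, ∑ j, (((if i = k then 1 else 0) - der (D.e i) (D.f k) x) *
      ((if j = k then 1 else 0) - der (D.e j) (D.f k) x)) * (a i * b j) := by
    intro k
    rw [e2, e2, Finset.sum_mul_sum]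
    refine Finset.sum_congr rfl fun i _ => Finset.sum_congr rfl fun j _ => ?_
    ring
  rw [e1]
  simp only [e3]
  rw [Finset.sum_comm (s := (Finset.univ : Finset (Fin N))) (t := Finset.univ)
    (f := fun k i => ∑ j, (((if i = k then 1 else 0) - der (D.e i) (D.f k) x) *
      ((if j = k then 1 else 0) - der (D.e j) (D.f k) x)) * (a i * b j))]
  rw [← Finset.sum_add_distrib, QF]
  refine Finset.sum_congr rfl fun i _ => ?_
  rw [Finset.sum_comm, ← Finset.sum_add_distrib]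
  refine Finset.sum_congr rfl fun j _ => ?_
  unfold qc
  rw [add_mul, Finset.sum_mul]

theorem QF_Fv (x : M) (u v : TangentSpace 𝓘(ℝ, E) x) :
    QF (fun i j => qc g D i j x) (Fv D x u) (Fv D x v) = g.inner x u v := by
  rw [QF_qc, Ev_Fv, Ev_Fv]
  simp

theorem QF_nonneg (x : M) (a : Fin N → ℝ) : 0 ≤ QF (fun i j => qc g D i j x) a a := by
  rw [QF_qc]
  exact add_nonneg (in_nonneg g x _) (Finset.sum_nonneg fun k _ => mul_self_nonneg _)

theorem QF_pos (x : M) (a : Fin N → ℝ) (ha : a ≠ 0) : 0 < QF (fun i j => qc g D i j x) a a := by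
  rw [QF_qc]
  by_contra h
  push Not at h
  have h1 := in_nonneg g x (Ev D x a)
  have h2 : 0 ≤ ∑ k, (a k - Fv D x (Ev D x a) k) * (a k - Fv D x (Ev D x a) k) :=
    Finset.sum_nonneg fun k _ => mul_self_nonneg _
  have h3 : g.inner x (Ev D x a) (Ev D x a) = 0 := by linarith
  have h4 : ∑ k, (a k - Fv D x (Ev D x a) k) * (a k - Fv D x (Ev D x a) k) = 0 := by linarith
  have h5 : Ev D x a = 0 := by
    by_contra hne
    exact absurd h3 (g.pos x _ hne).ne'
  apply ha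
  funext k
  have h6 := (Finset.sum_eq_zero_iff_of_nonneg (fun k _ => mul_self_nonneg
    (a k - Fv D x (Ev D x a) k))).1 h4 k (Finset.mem_univ k)
  have h7 : a k - Fv D x (Ev D x a) k = 0 := mul_self_eq_zero.1 h6
  rw [h5] at h7
  have h8 : Fv D x (0 : TangentSpace 𝓘(ℝ, E) x) k = 0 := by
    unfold Fv
    exact map_zero _
  rw [h8] at h7
  simpa using h7

end Pool.Agent.Helper62.KP
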