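import Pool.Agent.Helper62.KP.Pot

/-!
Logarithmic potentials on a closed Riemannian manifold: the estimate.
-/

open Bundle Manifold ContDiff ContinuousLinearMap Filter VectorField
open scoped Topology NNReal

set_option autoImplicit false
set_option synthInstance.maxHeartbeats 400000
set_option maxHeartbeats 4000000
set_option linter.unusedSectionVars false

noncomputable section

namespace Pool.Agent.Helper62.KP

open Pool.Agent.H821R2 Pool.Agent.H821R3 Pool.Agent.H893R5.HO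

variable {E : Type*} [NormedAddCommGroup E] [NormedSpace ℝ E] [FiniteDimensional ℝ E]
  {M : Type*} [TopologicalSpace M] [ChartedSpace E M] [IsManifold 𝓘(ℝ, E) ∞ M]
  (g : ContMDiffRiemannianMetric 𝓘(ℝ, E) ∞ E (fun x : M => TangentSpace 𝓘(ℝ, E) x))
  {N : ℕ} (D : FrameData 𝓘(ℝ, E) M (Fin N)) [T2Space M] [CompactSpace M]

theorem QF_lower : ∃ c : ℝ, 0 < c ∧ ∀ (x : M) (a : Fin N → ℝ),
    c * ‖a‖ ^ 2 ≤ QF (fun i j => qc g D i j x) a a := by
  have hcont : Continuous (fun z : M × (Fin N → ℝ) => QF (fun i j => qc g D i j z.1) z.2 z.2) := by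
    unfold QF
    refine continuous_finsetSum _ fun i _ => continuous_finsetSum _ fun j _ => ?_
    exact ((sm_qc g D i j).continuous.comp continuous_fst).mul
      (((continuous_apply i).comp continuous_snd).mul ((continuous_apply j).comp continuous_snd))
  have hK : IsCompact ((Set.univ : Set M) ×ˢ Metric.sphere (0 : Fin N → ℝ) 1) :=
    isCompact_univ.prod (isCompact_sphere 0 1)
  rcases ((Set.univ : Set M) ×ˢ Metric.sphere (0 : Fin N → ℝ) 1).eq_empty_or_nonempty with hK0 | hK0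
  · refine ⟨1, one_pos, fun x a => ?_⟩
    by_cases ha : a = 0
    · rw [ha]; simpa using QF_nonneg g D x 0
    · exfalso
      have hn : ‖a‖ ≠ 0 := norm_ne_zero_iff.2 ha
      have : (x, ‖a‖⁻¹ • a) ∈ (Set.univ : Set M) ×ˢ Metric.sphere (0 : Fin N → ℝ) 1 :=
        ⟨Set.mem_univ _, by simp [norm_smul, hn]⟩
      rw [hK0] at this
      exact this
  · obtain ⟨⟨x0, a0⟩, ⟨-, h0⟩, hmin⟩ := hK.exists_isMinOn hK0 hcont.continuousOn
    have ha0 : a0 ≠ 0 := by
      intro h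
      simp only [h] at h0
      simp at h0
    refine ⟨QF (fun i j => qc g D i j x0) a0 a0, QF_pos g D x0 a0 ha0, fun x a => ?_⟩
    by_cases ha : a = 0
    · rw [ha]; simpa using QF_nonneg g D x 0
    · have hn : ‖a‖ ≠ 0 := norm_ne_zero_iff.2 ha
      have h1 : (x, ‖a‖⁻¹ • a) ∈ (Set.univ : Set M) ×ˢ Metric.sphere (0 : Fin N → ℝ) 1 :=
        ⟨Set.mem_univ _, by simp [norm_smul, hn]⟩
      have h2 := hmin h1
      simp only [Set.mem_ofPred_eq, QF_smul_left, QF_smul_right] at h2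
      have h4 : QF (fun i j => qc g D i j x) a a =
          (‖a‖⁻¹ * (‖a‖⁻¹ * QF (fun i j => qc g D i j x) a a)) * ‖a‖ ^ 2 := by
        field_simp
      rw [h4]
      exact mul_le_mul_of_nonneg_right h2 (by positivity)

theorem QF_upper : ∃ C : ℝ, 0 ≤ C ∧ ∀ (x : M) (a b : Fin N → ℝ),
    |QF (fun i j => qc g D i j x) a b| ≤ C * (‖a‖ * ‖b‖) := by
  obtain ⟨C, hC0, hC⟩ := bdd_family (q := fun (k : Fin N × Fin N) => qc g D k.1 k.2)
    (fun k => (sm_qc g D k.1 k.2).continuous)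
  exact ⟨∑ _i : Fin N, ∑ _j : Fin N, C, by positivity, fun x a b =>
    QF_bound _ (fun i j => hC (i, j) x) a b⟩

theorem QF_lip (hinj : ∀ x y : M, (∀ i, D.f i x = D.f i y) → x = y) :
    ∃ L : ℝ, 0 ≤ L ∧ ∀ (x p : M) (a b : Fin N → ℝ),
    |QF (fun i j => qc g D i j p) a b - QF (fun i j => qc g D i j x) a b| ≤
      L * ‖Fm D x - Fm D p‖ * (‖a‖ * ‖b‖) := by
  choose C hC0 hC using fun k : Fin N × Fin N => lip D hinj (sm_qc g D k.1 k.2)
  have hsum : 0 ≤ ∑ k, C k := Finset.sum_nonneg fun k _ => hC0 k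
  refine ⟨∑ _i : Fin N, ∑ _j : Fin N, ∑ k, C k, by positivity, fun x p a b => ?_⟩
  have e : QF (fun i j => qc g D i j p) a b - QF (fun i j => qc g D i j x) a b =
      QF (fun i j => qc g D i j p - qc g D i j x) a b := by
    simp only [QF, ← Finset.sum_sub_distrib]
    refine Finset.sum_congr rfl fun i _ => Finset.sum_congr rfl fun j _ => ?_
    ring
  rw [e]
  have h1 : ∀ i j, |qc g D i j p - qc g D i j x| ≤ (∑ k, C k) * ‖Fm D x - Fm D p‖ := by
    intro i j
    rw [abs_sub_comm]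
    refine (hC (i, j) x p).trans (mul_le_mul_of_nonneg_right ?_ (norm_nonneg _))
    exact Finset.single_le_sum (f := C) (fun k _ => hC0 k) (Finset.mem_univ (i, j))
  refine (QF_bound _ h1 a b).trans (le_of_eq ?_)
  simp only [Finset.sum_const, Finset.card_univ, Fintype.card_fin, nsmul_eq_mul]
  ring

/-- the function `Q_p(F(x) - F(p)) + ε²` -/
def rh (p : M) (ε : ℝ) (x : M) : ℝ :=
  ∑ i, (∑ j, qc g D i j p * ((D.f i x + (-(D.f i p))) * (D.f j x + (-(D.f j p))))) + ε ^ 2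

theorem rh_eq (p : M) (ε : ℝ) (x : M) : rh g D p ε x =
    QF (fun i j => qc g D i j p) (Fm D x - Fm D p) (Fm D x - Fm D p) + ε ^ 2 := by
  unfold rh QF Fm
  congr 1

theorem sm_rh (p : M) (ε : ℝ) : Sm 𝓘(ℝ, E) (rh g D p ε) := by
  apply Sm.add ?_ (Sm.const _)
  apply sm_sum
  intro i
  apply sm_sum
  intro j
  exact Sm.cmul _ (Sm.mul (Sm.add (D.hf i) (Sm.const _)) (Sm.add (D.hf j) (Sm.const _)))

theorem d_rh (p : M) (ε : ℝ) (x : M) (v : TangentSpace 𝓘(ℝ, E) x) :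
    mvfderiv 𝓘(ℝ, E) (rh g D p ε) x v =
      2 * QF (fun i j => qc g D i j p) (Fm D x - Fm D p) (Fv D x v) := by
  have s1 : ∀ i, Sm 𝓘(ℝ, E) (fun y => D.f i y + (-(D.f i p))) := fun i =>
    Sm.add (D.hf i) (Sm.const _)
  have s2 : ∀ i j, Sm 𝓘(ℝ, E) (fun y => qc g D i j p *
      ((D.f i y + (-(D.f i p))) * (D.f j y + (-(D.f j p))))) := fun i j =>
    Sm.cmul _ (Sm.mul (s1 i) (s1 j))
  have s3 : ∀ i, Sm 𝓘(ℝ, E) (fun y => ∑ j, qc g D i j p *
      ((D.f i y + (-(D.f i p))) * (D.f j y + (-(D.f j p))))) := fun i => sm_sum _ (s2 i)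
  have e0 : mvfderiv 𝓘(ℝ, E) (rh g D p ε) x v = ∑ i, ∑ j, qc g D i j p *
      (mvfderiv 𝓘(ℝ, E) (D.f i) x v * (D.f j x + (-(D.f j p))) +
        (D.f i x + (-(D.f i p))) * mvfderiv 𝓘(ℝ, E) (D.f j) x v) := by
    have h1 := congrFun (der_add (Z := xt x v) (sm_sum Finset.univ s3) (Sm.const (ε ^ 2))) x
    simp only [der_apply, xt_self] at h1
    have h2 : mvfderiv 𝓘(ℝ, E) (fun _ : M => ε ^ 2) x v = 0 := by rw [mvfderiv_const]; rfl
    rw [h2, add_zero] at h1
    refine h1.trans ?_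
    rw [d_sum _ s3]
    refine Finset.sum_congr rfl fun i _ => ?_
    rw [d_sum _ (s2 i)]
    refine Finset.sum_congr rfl fun j _ => ?_
    rw [d_cmul _ (Sm.mul (s1 i) (s1 j))]
    have h3 := congrFun (der_mul (Z := xt x v) (s1 i) (s1 j)) x
    simp only [der_apply, xt_self] at h3
    rw [h3]
    have h4 : ∀ k, mvfderiv 𝓘(ℝ, E) (fun y => D.f k y + (-(D.f k p))) x v =
        mvfderiv 𝓘(ℝ, E) (D.f k) x v := by
      intro k
      have h5 := congrFun (der_add (Z := xt x v) (D.hf k) (Sm.const (-(D.f k p)))) x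
      simp only [der_apply, xt_self] at h5
      rw [h5, mvfderiv_const]
      simp
    rw [h4, h4]
  rw [e0]
  have e1 : ∑ i, ∑ j, qc g D i j p * (mvfderiv 𝓘(ℝ, E) (D.f i) x v * (D.f j x + (-(D.f j p))) +
        (D.f i x + (-(D.f i p))) * mvfderiv 𝓘(ℝ, E) (D.f j) x v) =
      QF (fun i j => qc g D i j p) (Fv D x v) (Fm D x - Fm D p) +
        QF (fun i j => qc g D i j p) (Fm D x - Fm D p) (Fv D x v) := by
    simp only [QF, ← Finset.sum_add_distrib]
    refine Finset.sum_congr rfl fun i _ => Finset.sum_congr rfl fun j _ => ?_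
    simp only [Fv, Fm, Pi.sub_apply]
    ring
  rw [e1, QF_symm _ (fun i j => qc_symm g D i j p) (Fv D x v)]
  ring

variable {g} in
theorem hes_rh {cov : CovariantDerivative 𝓘(ℝ, E) E (TangentSpace 𝓘(ℝ, E) : M → Type _)}
    (p : M) (ε : ℝ) (x : M) (v : TangentSpace 𝓘(ℝ, E) x) :
    hes cov (rh g D p ε) x v =
      2 * QF (fun i j => qc g D i j p) (Fv D x v) (Fv D x v) +
      2 * QF (fun i j => qc g D i j p) (Fm D x - Fm D p) (fun i => hes cov (D.f i) x v) := by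
  have s1 : ∀ i, Sm 𝓘(ℝ, E) (fun y => D.f i y + (-(D.f i p))) := fun i =>
    Sm.add (D.hf i) (Sm.const _)
  have s2 : ∀ i j, Sm 𝓘(ℝ, E) (fun y => qc g D i j p *
      ((D.f i y + (-(D.f i p))) * (D.f j y + (-(D.f j p))))) := fun i j =>
    Sm.cmul _ (Sm.mul (s1 i) (s1 j))
  have s3 : ∀ i, Sm 𝓘(ℝ, E) (fun y => ∑ j, qc g D i j p *
      ((D.f i y + (-(D.f i p))) * (D.f j y + (-(D.f j p))))) := fun i => sm_sum _ (s2 i)
  have h4 : ∀ k, mvfderiv 𝓘(ℝ, E) (fun y => D.f k y + (-(D.f k p))) x v =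
      mvfderiv 𝓘(ℝ, E) (D.f k) x v := by
    intro k
    have h5 := congrFun (der_add (Z := xt x v) (D.hf k) (Sm.const (-(D.f k p)))) x
    simp only [der_apply, xt_self] at h5
    rw [h5, mvfderiv_const]
    simp
  have h6 : ∀ k, hes cov (fun y => D.f k y + (-(D.f k p))) x v = hes cov (D.f k) x v := by
    intro k
    rw [hes_add (D.hf k) (Sm.const _), hes_const, add_zero]
  have e0 : hes cov (rh g D p ε) x v = ∑ i, ∑ j, qc g D i j p *
      (hes cov (D.f i) x v * (D.f j x + (-(D.f j p))) +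
        (D.f i x + (-(D.f i p))) * hes cov (D.f j) x v +
        2 * (mvfderiv 𝓘(ℝ, E) (D.f i) x v * mvfderiv 𝓘(ℝ, E) (D.f j) x v)) := by
    have h1 : hes cov (rh g D p ε) x v = hes cov (fun y => (∑ i, ∑ j, qc g D i j p *
      ((D.f i y + (-(D.f i p))) * (D.f j y + (-(D.f j p)))))) x v +
        hes cov (fun _ : M => ε ^ 2) x v := hes_add (sm_sum Finset.univ s3) (Sm.const (ε ^ 2)) x v
    rw [h1, hes_const, add_zero, hes_sum _ s3]
    refine Finset.sum_congr rfl fun i _ => ?_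
    rw [hes_sum _ (s2 i)]
    refine Finset.sum_congr rfl fun j _ => ?_
    rw [hes_cmul _ (Sm.mul (s1 i) (s1 j)), hes_mul (s1 i) (s1 j), h4, h4, h6, h6]
  rw [e0]
  have e1 : ∑ i, ∑ j, qc g D i j p *
      (hes cov (D.f i) x v * (D.f j x + (-(D.f j p))) +
        (D.f i x + (-(D.f i p))) * hes cov (D.f j) x v +
        2 * (mvfderiv 𝓘(ℝ, E) (D.f i) x v * mvfderiv 𝓘(ℝ, E) (D.f j) x v)) =
      QF (fun i j => qc g D i j p) (fun i => hes cov (D.f i) x v) (Fm D x - Fm D p) +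
        QF (fun i j => qc g D i j p) (Fm D x - Fm D p) (fun i => hes cov (D.f i) x v) +
        2 * QF (fun i j => qc g D i j p) (Fv D x v) (Fv D x v) := by
    simp only [QF, Finset.mul_sum, ← Finset.sum_add_distrib]
    refine Finset.sum_congr rfl fun i _ => Finset.sum_congr rfl fun j _ => ?_
    simp only [Fv, Fm, Pi.sub_apply]
    ring
  rw [e1, QF_symm _ (fun i j => qc_symm g D i j p) (fun i => hes cov (D.f i) x v)]
  ring

end Pool.Agent.Helper62.KP
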