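import Pool.Agent.Helper62.KP.Pot2

/-!
Logarithmic potentials on a closed Riemannian manifold: existence.
-/

open Bundle Manifold ContDiff ContinuousLinearMap Filter VectorField
open scoped Topology NNReal

set_option autoImplicit false
set_option synthInstance.maxHeartbeats 400000
set_option maxHeartbeats 4000000
set_option linter.unusedSectionVars false

noncomputable section

namespace Pool.Agent.Helper62.KP

open Pool.Agent.H821R2 Pool.Agent.H821R3 Pool.Agent.H893R5.HO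

/-- the profile -/
def chi (C t : ℝ) : ℝ := (1 / 2) * Real.log t + C * Real.sqrt t

/-- its derivative -/
def chi' (C t : ℝ) : ℝ := 1 / (2 * t) + C / (2 * Real.sqrt t)

theorem hasDerivAt_chi (C : ℝ) {t : ℝ} (ht : 0 < t) : HasDerivAt (chi C) (chi' C t) t := by
  have h1 := (Real.hasDerivAt_log ht.ne').const_mul (1 / 2)
  have h2 := (Real.hasDerivAt_sqrt ht.ne').const_mul C
  have h3 := h1.add h2
  have e : (1 / 2) * t⁻¹ + C * (1 / (2 * Real.sqrt t)) = chi' C t := by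
    unfold chi'
    have : Real.sqrt t ≠ 0 := (Real.sqrt_pos.2 ht).ne'
    field_simp
  rw [e] at h3
  exact h3

theorem hasDerivAt_chi' (C : ℝ) {t : ℝ} (ht : 0 < t) :
    HasDerivAt (chi' C) (-(1 / (2 * t ^ 2)) - C / (4 * t * Real.sqrt t)) t := by
  have hs : Real.sqrt t ≠ 0 := (Real.sqrt_pos.2 ht).ne'
  have hss : Real.sqrt t * Real.sqrt t = t := Real.mul_self_sqrt ht.le
  have h1 : HasDerivAt (fun s : ℝ => 1 / (2 * s)) (-(1 / (2 * t ^ 2))) t := by
    have h := ((hasDerivAt_id t).const_mul 2).inv (show (2 : ℝ) * id t ≠ 0 by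
      simp only [id]; positivity)
    have e : -(2 * 1) / (2 * id t) ^ 2 = -(1 / (2 * t ^ 2)) := by
      simp only [id]; field_simp
    rw [e] at h
    have e2 : (fun s : ℝ => 1 / (2 * s)) = (fun y : ℝ => 2 * id y)⁻¹ := by
      ext s; simp [one_div]
    rw [e2]
    exact h
  have h2 : HasDerivAt (fun s : ℝ => C / (2 * Real.sqrt s)) (-(C / (4 * t * Real.sqrt t))) t := by
    have h := (((Real.hasDerivAt_sqrt ht.ne').const_mul 2).inv (show (2 : ℝ) * Real.sqrt t ≠ 0 by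
      positivity)).const_mul C
    have e : C * (-(2 * (1 / (2 * Real.sqrt t))) / (2 * Real.sqrt t) ^ 2) =
        -(C / (4 * t * Real.sqrt t)) := by
      rw [mul_pow, Real.sq_sqrt ht.le]
      field_simp
      norm_num
    rw [e] at h
    simpa [div_eq_mul_inv] using h
  have h3 := h1.add h2
  exact h3

variable {E : Type*} [NormedAddCommGroup E] [NormedSpace ℝ E] [FiniteDimensional ℝ E]
  {M : Type*} [TopologicalSpace M] [ChartedSpace E M] [IsManifold 𝓘(ℝ, E) ∞ M]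
  {g : ContMDiffRiemannianMetric 𝓘(ℝ, E) ∞ E (fun x : M => TangentSpace 𝓘(ℝ, E) x)}
  {N : ℕ} (D : FrameData 𝓘(ℝ, E) M (Fin N)) [T2Space M] [CompactSpace M]
  {cov : CovariantDerivative 𝓘(ℝ, E) E (TangentSpace 𝓘(ℝ, E) : M → Type _)}

variable (g) in
theorem rh_pos (p : M) {ε : ℝ} (hε : 0 < ε) (x : M) : 0 < rh g D p ε x := by
  rw [rh_eq]
  have := QF_nonneg g D p (Fm D x - Fm D p)
  positivity

variable (g) in
theorem sm_pot (C : ℝ) (p : M) {ε : ℝ} (hε : 0 < ε) :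
    Sm 𝓘(ℝ, E) (fun x => chi C (rh g D p ε x)) := by
  intro x
  have h1 : ContDiffAt ℝ ∞ (chi C) (rh g D p ε x) := by
    unfold chi
    have h0 := (rh_pos g D p hε x).ne'
    exact (contDiffAt_const.mul (Real.contDiffAt_log.2 h0)).add
      (contDiffAt_const.mul (Real.contDiffAt_sqrt h0))
  exact h1.comp_contMDiffAt (sm_rh g D p ε x)

/-- the Hessian of the potential -/
theorem hes_pot (C : ℝ) (p : M) {ε : ℝ} (hε : 0 < ε) (x : M) (v : TangentSpace 𝓘(ℝ, E) x) {n : ℝ}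
    (hn : 0 < n) (hn2 : n ^ 2 = rh g D p ε x) :
    hes cov (fun x => chi C (rh g D p ε x)) x v =
      (1 / n ^ 2 + C / n) * (QF (fun i j => qc g D i j p) (Fv D x v) (Fv D x v) +
        QF (fun i j => qc g D i j p) (Fm D x - Fm D p) (fun i => hes cov (D.f i) x v)) -
      (2 / n ^ 4 + C / n ^ 3) *
        QF (fun i j => qc g D i j p) (Fm D x - Fm D p) (Fv D x v) ^ 2 := by
  rw [hes_comp (χ := chi C) (χ' := chi' C) (sm_rh g D p ε) x
    (fun y => hasDerivAt_chi C (rh_pos g D p hε y)) (hasDerivAt_chi' C (rh_pos g D p hε x)),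
    hes_rh, d_rh]
  have hs : Real.sqrt (rh g D p ε x) = n := by rw [← hn2, Real.sqrt_sq hn.le]
  unfold chi'
  rw [hs, ← hn2]
  field_simp
  ring

/-- **Existence of the potentials.** -/
theorem exists_pot (h : IsLeviCivita g cov) (hinj : ∀ x y : M, (∀ i, D.f i x = D.f i y) → x = y) :
    ∃ C c : ℝ, 0 ≤ C ∧ 0 < c ∧ ∀ (p : M) (ε : ℝ), 0 < ε → ∃ w : M → ℝ, Sm 𝓘(ℝ, E) w ∧
      (∀ (x : M) (u v : TangentSpace 𝓘(ℝ, E) x), OrthoPair g x u v →
        -C ≤ hes cov w x u + hes cov w x v) ∧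
      (∀ x : M, ‖Fm D x - Fm D p‖ ≤ ε → ∀ (u v : TangentSpace 𝓘(ℝ, E) x), OrthoPair g x u v →
        c / ε ^ 2 - C ≤ hes cov w x u + hes cov w x v) := by
  obtain ⟨c, hc, hlow⟩ := QF_lower g D
  obtain ⟨Λ, hΛ, hup⟩ := QF_upper g D
  obtain ⟨L, hL, hlip⟩ := QF_lip g D hinj
  obtain ⟨CF, hCF, hF⟩ := bound_Fv g D
  obtain ⟨CH, hCH, hH⟩ := bound_hes g D h
  obtain ⟨A, hA⟩ : ∃ A, A = Real.sqrt CF := ⟨_, rfl⟩
  have hA0 : 0 ≤ A := by rw [hA]; exact Real.sqrt_nonneg _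
  obtain ⟨κ, hκ⟩ : ∃ κ, κ = 1 / Real.sqrt c := ⟨_, rfl⟩
  have hsc : 0 < Real.sqrt c := Real.sqrt_pos.2 hc
  have hκ0 : 0 ≤ κ := by rw [hκ]; positivity
  obtain ⟨k, hk⟩ : ∃ k, k = 2 * L * A ^ 2 + 2 * Λ * CH := ⟨_, rfl⟩
  obtain ⟨k3, hk3⟩ : ∃ k3, k3 = L + 4 * Λ * L * A ^ 2 := ⟨_, rfl⟩
  have hk0 : 0 ≤ k := by rw [hk]; positivity
  have hk30 : 0 ≤ k3 := by rw [hk3]; positivity
  obtain ⟨C1, hC1⟩ : ∃ C1, C1 = k * κ + 2 * k3 * κ ^ 3 := ⟨_, rfl⟩
  have hC10 : 0 ≤ C1 := by rw [hC1]; positivity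
  refine ⟨C1 ^ 2, 2 / (Λ + 1) ^ 2, by positivity, by positivity, fun p ε hε => ?_⟩
  refine ⟨fun x => chi C1 (rh g D p ε x), sm_pot g D C1 p hε, ?_⟩
  -- the main estimate
  have main : ∀ (x : M) (u v : TangentSpace 𝓘(ℝ, E) x), OrthoPair g x u v →
      ∃ n : ℝ, 0 < n ∧ n ^ 2 = rh g D p ε x ∧ 2 * ε ^ 2 / n ^ 4 - C1 ^ 2 ≤
        hes cov (fun x => chi C1 (rh g D p ε x)) x u +
          hes cov (fun x => chi C1 (rh g D p ε x)) x v := by
    intro x u v huv
    obtain ⟨huu, hvv, huv0⟩ := huv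
    refine ⟨Real.sqrt (rh g D p ε x), Real.sqrt_pos.2 (rh_pos g D p hε x),
      Real.sq_sqrt (rh_pos g D p hε x).le, ?_⟩
    obtain ⟨n, hn⟩ : ∃ n, n = Real.sqrt (rh g D p ε x) := ⟨_, rfl⟩
    have hn0 : 0 < n := by rw [hn]; exact Real.sqrt_pos.2 (rh_pos g D p hε x)
    have hn2 : n ^ 2 = rh g D p ε x := by rw [hn]; exact Real.sq_sqrt (rh_pos g D p hε x).le
    rw [← hn]
    rw [hes_pot D C1 p hε x u hn0 hn2, hes_pot D C1 p hε x v hn0 hn2]
    obtain ⟨z, hz⟩ : ∃ z, z = Fm D x - Fm D p := ⟨_, rfl⟩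
    obtain ⟨a, ha⟩ : ∃ a, a = Fv D x u := ⟨_, rfl⟩
    obtain ⟨b, hb⟩ : ∃ b, b = Fv D x v := ⟨_, rfl⟩
    obtain ⟨η, hη⟩ : ∃ η, η = fun i => hes cov (D.f i) x u := ⟨_, rfl⟩
    obtain ⟨θ, hθ⟩ : ∃ θ, θ = fun i => hes cov (D.f i) x v := ⟨_, rfl⟩
    rw [← hz, ← ha, ← hb, ← hη, ← hθ]
    obtain ⟨ζ, hζ⟩ : ∃ ζ, ζ = ‖z‖ := ⟨_, rfl⟩
    have hζ0 : 0 ≤ ζ := by rw [hζ]; exact norm_nonneg _
    have hrh : n ^ 2 = QF (fun i j => qc g D i j p) z z + ε ^ 2 := by rw [hn2, rh_eq, ← hz]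
    -- norms
    have hna : ‖a‖ ≤ A := by
      rw [pi_norm_le_iff_of_nonneg hA0]
      intro i
      rw [Real.norm_eq_abs, hA, ha]
      refine Real.abs_le_sqrt ?_
      have := hF x u i
      rwa [huu, mul_one] at this
    have hnb : ‖b‖ ≤ A := by
      rw [pi_norm_le_iff_of_nonneg hA0]
      intro i
      rw [Real.norm_eq_abs, hA, hb]
      refine Real.abs_le_sqrt ?_
      have := hF x v i
      rwa [hvv, mul_one] at this
    have hnη : ‖η‖ ≤ CH := by
      rw [pi_norm_le_iff_of_nonneg hCH]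
      intro i
      rw [Real.norm_eq_abs, hη]
      have := hH x u i
      rwa [huu, mul_one] at this
    have hnθ : ‖θ‖ ≤ CH := by
      rw [pi_norm_le_iff_of_nonneg hCH]
      intro i
      rw [Real.norm_eq_abs, hθ]
      have := hH x v i
      rwa [hvv, mul_one] at this
    -- the form at `x`
    have haa : QF (fun i j => qc g D i j x) a a = 1 := by rw [ha, QF_Fv, huu]
    have hbb : QF (fun i j => qc g D i j x) b b = 1 := by rw [hb, QF_Fv, hvv]
    have hab : QF (fun i j => qc g D i j x) a b = 0 := by rw [ha, hb, QF_Fv, huv0]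
    have hbes := QF_bessel (fun i j => qc g D i j x) (fun i j => qc_symm g D i j x)
      (QF_nonneg g D x) haa hbb hab z
    have lipz : ∀ a b, |QF (fun i j => qc g D i j p) a b - QF (fun i j => qc g D i j x) a b| ≤
        L * ζ * (‖a‖ * ‖b‖) := by
      intro a b
      rw [hζ, hz]
      exact hlip x p a b
    -- S1
    have b1 : ∀ a : Fin N → ℝ, ‖a‖ ≤ A → QF (fun i j => qc g D i j x) a a = 1 →
        1 - L * A ^ 2 * ζ ≤ QF (fun i j => qc g D i j p) a a := by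
      intro a ha1 ha2
      have h1 := lipz a a
      rw [ha2] at h1
      have h2 := (abs_le.1 h1).1
      have h3 : ‖a‖ * ‖a‖ ≤ A ^ 2 := by rw [sq]; exact mul_self_le_mul_self (norm_nonneg _) ha1
      have h4 : L * ζ * (‖a‖ * ‖a‖) ≤ L * ζ * A ^ 2 := mul_le_mul_of_nonneg_left h3 (by positivity)
      nlinarith
    have b2 : ∀ η : Fin N → ℝ, ‖η‖ ≤ CH →
        -(Λ * CH * ζ) ≤ QF (fun i j => qc g D i j p) z η := by
      intro η hη1
      have h1 := (abs_le.1 (hup p z η)).1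
      rw [← hζ] at h1
      have h2 : Λ * (ζ * ‖η‖) ≤ Λ * (ζ * CH) :=
        mul_le_mul_of_nonneg_left (mul_le_mul_of_nonneg_left hη1 hζ0) hΛ
      nlinarith
    -- S2
    have b3 : ∀ a : Fin N → ℝ, ‖a‖ ≤ A → QF (fun i j => qc g D i j p) z a ^ 2 ≤
        QF (fun i j => qc g D i j x) z a ^ 2 + 2 * Λ * L * A ^ 2 * ζ ^ 3 := by
      intro a ha1
      obtain ⟨s, hs⟩ : ∃ s, s = QF (fun i j => qc g D i j p) z a := ⟨_, rfl⟩
      obtain ⟨t, ht⟩ : ∃ t, t = QF (fun i j => qc g D i j x) z a := ⟨_, rfl⟩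
      have h1 := lipz z a
      have h2 := hup p z a
      have h3 := hup x z a
      rw [← hs] at h1 h2 ⊢
      rw [← ht] at h1 h3 ⊢
      rw [← hζ] at h1 h2 h3
      have h4 : ζ * ‖a‖ ≤ ζ * A := mul_le_mul_of_nonneg_left ha1 hζ0
      have h5 : |s - t| ≤ L * ζ * (ζ * A) :=
        h1.trans (mul_le_mul_of_nonneg_left h4 (by positivity))
      have h6 : |s + t| ≤ 2 * (Λ * (ζ * A)) := by
        have := abs_add_le s t
        have h7 : Λ * (ζ * ‖a‖) ≤ Λ * (ζ * A) := mul_le_mul_of_nonneg_left h4 hΛ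
        linarith
      have h8 : |s - t| * |s + t| ≤ (L * ζ * (ζ * A)) * (2 * (Λ * (ζ * A))) :=
        mul_le_mul h5 h6 (abs_nonneg _) (by positivity)
      rw [← abs_mul] at h8
      have h9 := (le_abs_self _).trans h8
      nlinarith
    have b4 : QF (fun i j => qc g D i j x) z z ≤ QF (fun i j => qc g D i j p) z z + L * ζ ^ 3 := by
      have h1 := (abs_le.1 (lipz z z)).1
      rw [← hζ] at h1
      nlinarith
    have hζn : ζ ≤ κ * n := by
      have h1 := hlow p z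
      rw [← hζ] at h1
      have h2 : (Real.sqrt c * ζ) ^ 2 ≤ n ^ 2 := by
        rw [mul_pow, Real.sq_sqrt hc.le]
        nlinarith [sq_nonneg ε]
      have h3 : Real.sqrt c * ζ ≤ n := by
        exact (pow_le_pow_iff_left₀ (by positivity) hn0.le two_ne_zero).1 h2
      rw [hκ, one_div, inv_mul_eq_div, le_div_iff₀ hsc]
      linarith
    have key := real_ineq (k := k) (k3 := k3) (κ := κ) (N := n) (ζ := ζ) (ε := ε)
      (S1 := QF (fun i j => qc g D i j p) a a + QF (fun i j => qc g D i j p) z η +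
        (QF (fun i j => qc g D i j p) b b + QF (fun i j => qc g D i j p) z θ))
      (S2 := QF (fun i j => qc g D i j p) z a ^ 2 + QF (fun i j => qc g D i j p) z b ^ 2)
      hk0 hk30 hκ0 hn0 hζ0 hζn (by
        have := b1 a hna haa
        have := b1 b hnb hbb
        have := b2 η hnη
        have := b2 θ hnθ
        rw [hk]
        nlinarith) (by
        have := b3 a hna
        have := b3 b hnb
        rw [hk3]
        nlinarith)
    rw [← hC1] at key
    refine key.trans (le_of_eq ?_)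
    ring
  constructor
  · intro x u v huv
    obtain ⟨n, hn0, -, hn⟩ := main x u v huv
    have : 0 ≤ 2 * ε ^ 2 / n ^ 4 := by positivity
    linarith
  · intro x hx u v huv
    obtain ⟨n, hn0, hn2, hn⟩ := main x u v huv
    have h1 : n ^ 2 ≤ (Λ + 1) * ε ^ 2 := by
      rw [hn2, rh_eq]
      have h2 := (le_abs_self _).trans (hup p (Fm D x - Fm D p) (Fm D x - Fm D p))
      have h3 : ‖Fm D x - Fm D p‖ * ‖Fm D x - Fm D p‖ ≤ ε ^ 2 := by
        rw [sq]; exact mul_self_le_mul_self (norm_nonneg _) hx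
      have h4 : Λ * (‖Fm D x - Fm D p‖ * ‖Fm D x - Fm D p‖) ≤ Λ * ε ^ 2 :=
        mul_le_mul_of_nonneg_left h3 hΛ
      linarith
    have h5 : 2 / (Λ + 1) ^ 2 / ε ^ 2 ≤ 2 * ε ^ 2 / n ^ 4 := by
      rw [div_div, div_le_div_iff₀ (by positivity) (by positivity)]
      have h6 : (n ^ 2) ^ 2 ≤ ((Λ + 1) * ε ^ 2) ^ 2 := pow_le_pow_left₀ (by positivity) h1 2
      nlinarith
    linarith

end Pool.Agent.Helper62.KP
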