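import Pool.Agent.Helper62.KP.VKill

/-!
The space of pairs of tangent vectors with a common foot point.
-/

open Bundle Manifold ContDiff ContinuousLinearMap Filter VectorField
open scoped Topology

set_option autoImplicit false
set_option synthInstance.maxHeartbeats 400000
set_option maxHeartbeats 4000000
set_option linter.unusedSectionVars false

noncomputable section

namespace Pool.Agent.Helper62.KP

open Pool.Agent.H821R2 Pool.Agent.H821R3 Pool.Agent.H893R5.HO

variable {E : Type*} [NormedAddCommGroup E] [NormedSpace ℝ E] [FiniteDimensional ℝ E]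
  {H : Type*} [TopologicalSpace H] {I : ModelWithCorners ℝ E H}
  {M : Type*} [TopologicalSpace M] [ChartedSpace H M] [IsManifold I ∞ M]

variable {N : ℕ} (D : FrameData I M (Fin N))

/-- the frame coordinates -/
def PF (z : Prs I M) : M × (Fin N → ℝ) × (Fin N → ℝ) := (z.1, Fv D z.1 z.2.1, Fv D z.1 z.2.2)

/-- the inverse -/
def PE (z : M × (Fin N → ℝ) × (Fin N → ℝ)) : Prs I M := ⟨z.1, (Ev D z.1 z.2.1, Ev D z.1 z.2.2)⟩

theorem PE_PF (z : Prs I M) : PE D (PF D z) = z := by
  unfold PE PF
  simp only [Ev_Fv]

theorem PF_inj : Function.Injective (PF D) := Function.LeftInverse.injective (PE_PF D)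

theorem cont_diag : Topology.IsInducing (fun p : Prs I M =>
    ((⟨p.1, p.2.1⟩, ⟨p.1, p.2.2⟩) : TangentBundle I M × TangentBundle I M)) :=
  FiberBundle.Prod.isInducing_diag E (TangentSpace I : M → Type _) E (TangentSpace I : M → Type _)

theorem cont_der {f : M → ℝ} (hf : Sm I f) :
    Continuous (fun p : TangentBundle I M => mvfderiv I f p.1 p.2) := by
  have h1 : ContMDiff I.tangent 𝓘(ℝ, ℝ).tangent ∞ (tangentMap I 𝓘(ℝ, ℝ) f) :=
    hf.contMDiff_tangentMap (by simp)
  have h2 := (contMDiff_snd_tangentBundle_modelSpace ℝ 𝓘(ℝ, ℝ) (n := ∞)).comp h1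
  exact h2.continuous

theorem cont_PF : Continuous (PF D) := by
  have hd := (cont_diag (I := I) (M := M)).continuous
  have h0 : Continuous (fun p : TangentBundle I M => p.1) :=
    FiberBundle.continuous_proj E (TangentSpace I : M → Type _)
  have h1 : Continuous (fun p : TangentBundle I M => Fv D p.1 p.2) :=
    continuous_pi fun i => cont_der (D.hf i)
  exact (h0.comp (continuous_fst.comp hd)).prodMk
    ((h1.comp (continuous_fst.comp hd)).prodMk (h1.comp (continuous_snd.comp hd)))

theorem cont_Ev : Continuous (fun z : M × (Fin N → ℝ) => (⟨z.1, Ev D z.1 z.2⟩ : TangentBundle I M)) := by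
  rw [continuous_iff_continuousAt]
  intro z₀
  rw [FiberBundle.continuousAt_totalSpace]
  refine ⟨continuousAt_fst, ?_⟩
  have hb : ∀ᶠ z : M × (Fin N → ℝ) in 𝓝 z₀,
      z.1 ∈ (trivializationAt E (TangentSpace I : M → Type _) z₀.1).baseSet :=
    continuousAt_fst.preimage_mem_nhds
      ((trivializationAt E (TangentSpace I : M → Type _) z₀.1).open_baseSet.mem_nhds
        (mem_baseSet_trivializationAt E (TangentSpace I : M → Type _) z₀.1))
  have h1 : ContinuousAt (fun z : M × (Fin N → ℝ) => ∑ i, z.2 i •
      (trivializationAt E (TangentSpace I : M → Type _) z₀.1 ⟨z.1, D.e i z.1⟩).2) z₀ := by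
    refine tendsto_finsetSum _ fun i _ => ?_
    refine ContinuousAt.smul ((continuous_apply i).comp continuous_snd).continuousAt ?_
    have h2 : ContinuousAt (fun x : M => (⟨x, D.e i x⟩ : TangentBundle I M)) z₀.1 :=
      (D.he i).continuous.continuousAt
    have h3 := (FiberBundle.continuousAt_totalSpace E _).1 h2
    exact ContinuousAt.comp (f := fun z : M × (Fin N → ℝ) => z.1)
      (g := fun x : M => (trivializationAt E (TangentSpace I : M → Type _) z₀.1 ⟨x, D.e i x⟩).2)
      (x := z₀) h3.2 continuousAt_fst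
  refine h1.congr ?_
  filter_upwards [hb] with z hz
  have e : ∀ v : TangentSpace I z.1,
      (trivializationAt E (TangentSpace I : M → Type _) z₀.1 ⟨z.1, v⟩).2 =
      (trivializationAt E (TangentSpace I : M → Type _) z₀.1).linearMapAt ℝ z.1 v := by
    intro v
    rw [Trivialization.linearMapAt_apply, if_pos hz]
  rw [e]
  unfold Ev
  rw [map_sum]
  refine Finset.sum_congr rfl fun i _ => ?_
  rw [e, map_smul]

theorem cont_PE : Continuous (PE D : M × (Fin N → ℝ) × (Fin N → ℝ) → Prs I M) := by
  rw [(cont_diag (I := I) (M := M)).continuous_iff]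
  have h := cont_Ev D
  exact (h.comp (continuous_fst.prodMk (continuous_fst.comp continuous_snd))).prodMk
    (h.comp (continuous_fst.prodMk (continuous_snd.comp continuous_snd)))

theorem t2_prs [T2Space M] [CompactSpace M] : T2Space (Prs I M) := by
  obtain ⟨N, D, -⟩ := exists_frame I M
  exact T2Space.of_injective_continuous (PF_inj D) (cont_PF D)

end Pool.Agent.Helper62.KP
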