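import Pool.Agent.Helper62.KP.Alt7

/-!
Slice charts and functions vanishing on a submanifold.
-/

open Bundle Manifold ContDiff ContinuousLinearMap Filter VectorField MeasureTheory
open scoped Topology RealInnerProductSpace

set_option autoImplicit false
set_option synthInstance.maxHeartbeats 400000
set_option maxHeartbeats 4000000
set_option linter.unusedSectionVars false

noncomputable section

namespace Pool.Agent.Helper62.KP

open Pool.Agent.H821R2 Pool.Agent.H821R3 Pool.Agent.H893R5.HO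

variable {E : Type*} [NormedAddCommGroup E] [InnerProductSpace ℝ E] [FiniteDimensional ℝ E]
  {M : Type*} [TopologicalSpace M] [ChartedSpace E M] [IsManifold 𝓘(ℝ, E) ∞ M]

variable (E) in
/-- tangent vectors to the set `F` -/
def TangentTo (F : Set M) (x : M) (ξ : TangentSpace 𝓘(ℝ, E) x) : Prop :=
  ∀ y : M → ℝ, ContMDiff 𝓘(ℝ, E) 𝓘(ℝ, ℝ) ∞ y → (∀ p ∈ F, y p = 0) → mvfderiv 𝓘(ℝ, E) y x ξ = 0

/-- a cut-off function for a chart -/
theorem exists_cut [T2Space M] [CompactSpace M] (e : OpenPartialHomeomorph M E) {K : Set M}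
    (hK : IsClosed K) (hKe : K ⊆ e.source) :
    ∃ χ : M → ℝ, Sm 𝓘(ℝ, E) χ ∧ (∀ x, x ∉ e.source → ∀ᶠ z in 𝓝 x, χ z = 0) ∧
      (∀ x ∈ K, ∀ᶠ z in 𝓝 x, χ z = 1) ∧ ∀ x, 0 ≤ χ x ∧ χ x ≤ 1 := by
  obtain ⟨f, h0, h1, h01⟩ := exists_contMDiffMap_zero_one_nhds_of_isClosed (n := (⊤ : ℕ∞)) 𝓘(ℝ, E)
    (s := e.sourceᶜ) (t := K) e.open_source.isClosed_compl hK
    (Set.disjoint_left.2 fun x hx hx' => hx (hKe hx'))
  refine ⟨f, f.contMDiff, ?_, ?_, fun x => ⟨(h01 x).1, (h01 x).2⟩⟩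
  · intro x hx
    exact h0.filter_mono (nhds_le_nhdsSet hx)
  · intro x hx
    exact h1.filter_mono (nhds_le_nhdsSet hx)

/-- smooth extension by zero -/
theorem sm_ext {e : OpenPartialHomeomorph M E} (he : e ∈ IsManifold.maximalAtlas 𝓘(ℝ, E) ∞ M)
    {χ : M → ℝ} (hχ : Sm 𝓘(ℝ, E) χ) (hχ0 : ∀ x, x ∉ e.source → ∀ᶠ z in 𝓝 x, χ z = 0)
    {η : E → ℝ} (hη : ContDiff ℝ ∞ η) : Sm 𝓘(ℝ, E) (fun x => χ x * η (e x)) := by
  intro x
  by_cases hx : x ∈ e.source
  · have h1 : ContMDiffAt 𝓘(ℝ, E) 𝓘(ℝ, E) ∞ e x := contMDiffAt_of_mem_maximalAtlas he hx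
    have h2 : ContMDiffAt 𝓘(ℝ, E) 𝓘(ℝ, ℝ) ∞ (fun z => η (e z)) x :=
      (hη.contMDiff (e x)).comp x h1
    exact (hχ x).mul h2
  · refine (contMDiffAt_const (c := (0 : ℝ))).congr_of_eventuallyEq ?_
    filter_upwards [hχ0 x hx] with z hz
    rw [hz, zero_mul]

/-- the differential of a chart -/
def dE (e : OpenPartialHomeomorph M E) (x : M) : TangentSpace 𝓘(ℝ, E) x →L[ℝ] E :=
  mfderiv 𝓘(ℝ, E) 𝓘(ℝ, E) e x

theorem dE_inj {e : OpenPartialHomeomorph M E} (he : e ∈ IsManifold.maximalAtlas 𝓘(ℝ, E) ∞ M)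
    {x : M} (hx : x ∈ e.source) : Function.Injective (dE e x) := by
  have h1 : e.MDifferentiable 𝓘(ℝ, E) 𝓘(ℝ, E) :=
    ⟨(contMDiffOn_of_mem_maximalAtlas he).mdifferentiableOn (by simp),
      (contMDiffOn_symm_of_mem_maximalAtlas he).mdifferentiableOn (by simp)⟩
  exact h1.mfderiv_injective hx

/-- the differential of the extension -/
theorem d_ext {e : OpenPartialHomeomorph M E} (he : e ∈ IsManifold.maximalAtlas 𝓘(ℝ, E) ∞ M)
    {χ : M → ℝ} {η : E → ℝ} {x : M} (hx : x ∈ e.source) (hχ1 : ∀ᶠ z in 𝓝 x, χ z = 1)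
    (hη : ContDiff ℝ ∞ η) (ξ : TangentSpace 𝓘(ℝ, E) x) :
    mvfderiv 𝓘(ℝ, E) (fun x => χ x * η (e x)) x ξ = fderiv ℝ η (e x) (dE e x ξ) := by
  have h1 : MDifferentiableAt 𝓘(ℝ, E) 𝓘(ℝ, E) e x :=
    (contMDiffAt_of_mem_maximalAtlas he hx).mdifferentiableAt (by simp)
  have h2 : MDifferentiableAt 𝓘(ℝ, E) 𝓘(ℝ, ℝ) η (e x) :=
    (hη.contMDiff (e x)).mdifferentiableAt (by simp)
  have e1 : (fun x => χ x * η (e x)) =ᶠ[𝓝 x] fun z => η (e z) := by
    filter_upwards [hχ1] with z hz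
    rw [hz, one_mul]
  have e2 : mvfderiv 𝓘(ℝ, E) (fun x => χ x * η (e x)) x = mvfderiv 𝓘(ℝ, E) (fun z => η (e z)) x := by
    unfold mvfderiv
    rw [e1.mfderiv_eq]
    rfl
  rw [e2]
  have h3 := mvfderiv_comp_apply (g := η) (f := e) x h2 h1 ξ
  refine h3.trans ?_
  have h4 : mvfderiv 𝓘(ℝ, E) η (e x) (mfderiv 𝓘(ℝ, E) 𝓘(ℝ, E) e x ξ) =
      fderiv ℝ η (e x) (mfderiv 𝓘(ℝ, E) 𝓘(ℝ, E) e x ξ) := by
    have := mfderiv_eq_fderiv (𝕜 := ℝ) (f := η) (x := e x)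
    unfold mvfderiv
    rw [this]
    rfl
  exact h4

variable [T2Space M] [CompactSpace M]

/-- tangent vectors are mapped to the slice -/
theorem tangent_mem {e : OpenPartialHomeomorph M E} (he : e ∈ IsManifold.maximalAtlas 𝓘(ℝ, E) ∞ M)
    {W : Submodule ℝ E} {F : Set M} (hF : ∀ x ∈ e.source, x ∈ F ↔ e x ∈ W) {x : M}
    (hx : x ∈ e.source) {ξ : TangentSpace 𝓘(ℝ, E) x} (hξ : TangentTo E F x ξ) :
    dE e x ξ ∈ W := by
  obtain ⟨χ, hχ, h0, h1, h01⟩ := exists_cut e (isClosed_singleton (x := x))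
    (Set.singleton_subset_iff.2 hx)
  rw [← Submodule.orthogonal_orthogonal W, Submodule.mem_orthogonal]
  intro w hw
  have hη : ContDiff ℝ ∞ (fun z : E => ⟪w, z⟫) := contDiff_const.inner ℝ contDiff_id
  have h2 := hξ _ (sm_ext he hχ h0 hη) (by
    intro p hp
    by_cases hpe : p ∈ e.source
    · have h3 : e p ∈ W := (hF p hpe).1 hp
      have h4 : ⟪w, e p⟫ = 0 := (Submodule.mem_orthogonal' W w).1 hw _ h3
      change χ p * ⟪w, e p⟫ = 0
      rw [h4, mul_zero]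
    · change χ p * _ = 0
      rw [(h0 p hpe).self_of_nhds, zero_mul])
  rw [d_ext he hx (h1 x rfl) hη] at h2
  have h5 : fderiv ℝ (fun z : E => ⟪w, z⟫) (e x) = innerSL ℝ w := by
    exact (innerSL ℝ w).hasFDerivAt.fderiv
  rw [h5] at h2
  exact h2

/-- the tangent plane of a surface is spanned by any two independent tangent vectors -/
theorem span_tangent {e : OpenPartialHomeomorph M E}
    (he : e ∈ IsManifold.maximalAtlas 𝓘(ℝ, E) ∞ M)
    {W : Submodule ℝ E} (hW : Module.finrank ℝ W ≤ 2) {F : Set M}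
    (hF : ∀ x ∈ e.source, x ∈ F ↔ e x ∈ W) {x : M}
    (hx : x ∈ e.source) {u v : TangentSpace 𝓘(ℝ, E) x} (hu : TangentTo E F x u)
    (hv : TangentTo E F x v) (huv : LinearIndependent ℝ ![u, v]) :
    (∀ w ∈ W, ∃ a b : ℝ, w = a • dE e x u + b • dE e x v) ∧
    ∀ ξ : TangentSpace 𝓘(ℝ, E) x, TangentTo E F x ξ → ∃ a b : ℝ, ξ = a • u + b • v := by
  have hinj := dE_inj he hx
  have hli : LinearIndependent ℝ ![dE e x u, dE e x v] := by
    rw [LinearIndependent.pair_iff] at huv ⊢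
    intro s t hst
    apply huv s t
    apply hinj
    rw [map_add, map_smul, map_smul, map_zero]
    exact hst
  have hspan : Submodule.span ℝ (Set.range ![dE e x u, dE e x v]) = W := by
    apply Submodule.eq_of_le_of_finrank_le
    · rw [Submodule.span_le]
      rintro _ ⟨i, rfl⟩
      fin_cases i
      · exact tangent_mem he hF hx hu
      · exact tangent_mem he hF hx hv
    · rw [finrank_span_eq_card hli]
      simpa using hW
  have hW' : ∀ w ∈ W, ∃ a b : ℝ, w = a • dE e x u + b • dE e x v := by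
    intro w hw
    rw [← hspan] at hw
    have : Set.range ![dE e x u, dE e x v] = {dE e x u, dE e x v} := by
      simp [Matrix.range_cons, Matrix.range_empty, Set.pair_comm]
    rw [this, Submodule.mem_span_pair] at hw
    obtain ⟨a, b, hab⟩ := hw
    exact ⟨a, b, hab.symm⟩
  refine ⟨hW', fun ξ hξ => ?_⟩
  obtain ⟨a, b, hab⟩ := hW' _ (tangent_mem he hF hx hξ)
  refine ⟨a, b, hinj ?_⟩
  rw [hab, map_add, map_smul, map_smul]

end Pool.Agent.Helper62.KP
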