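import Pool.Agent.Helper62.KP.Surf1

/-!
A closed subset of a surface with the barrier property is open in the surface.
-/

open Bundle Manifold ContDiff ContinuousLinearMap Filter VectorField MeasureTheory
open scoped Topology RealInnerProductSpace

set_option autoImplicit false
set_option synthInstance.maxHeartbeats 400000
set_option maxHeartbeats 4000000
set_option linter.unusedSectionVars false

noncomputable section

namespace Pool.Agent.Helper62.KP

open Pool.Agent.H821R2 Pool.Agent.H821R3 Pool.Agent.H893R5.HO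

variable {E : Type*} [NormedAddCommGroup E] [InnerProductSpace ℝ E] [FiniteDimensional ℝ E]
  {M : Type*} [TopologicalSpace M] [ChartedSpace E M] [IsManifold 𝓘(ℝ, E) ∞ M]
  [T2Space M] [CompactSpace M]

theorem open_in {e : OpenPartialHomeomorph M E}
    (he : e ∈ IsManifold.maximalAtlas 𝓘(ℝ, E) ∞ M)
    {W : Submodule ℝ E} (hW : Module.finrank ℝ W ≤ 2) {F : Set M}
    (hF : ∀ x ∈ e.source, x ∈ F ↔ e x ∈ W) {T : Set M} (hT : IsClosed T) (hTF : T ⊆ F)
    (hB : ∀ y : M → ℝ, ContMDiff 𝓘(ℝ, E) 𝓘(ℝ, ℝ) ∞ y → ∀ p ∈ T, (∀ x ∈ T, y x ≤ y p) →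
      ∃ u v : TangentSpace 𝓘(ℝ, E) p, LinearIndependent ℝ ![u, v] ∧ TangentTo E F p u ∧
        TangentTo E F p v ∧ mvfderiv 𝓘(ℝ, E) y p u = 0 ∧ mvfderiv 𝓘(ℝ, E) y p v = 0)
    {x₀ : M} (hx₀T : x₀ ∈ T) (hx₀ : x₀ ∈ e.source) :
    ∃ O : Set M, IsOpen O ∧ x₀ ∈ O ∧ F ∩ O ⊆ T := by
  by_contra hcon
  push Not at hcon
  obtain ⟨r, hr, hball⟩ : ∃ r : ℝ, 0 < r ∧ Metric.closedBall (e x₀) r ⊆ e.target := by
    have h1 : e.target ∈ 𝓝 (e x₀) := e.open_target.mem_nhds (e.map_source hx₀)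
    obtain ⟨r, hr, h2⟩ := Metric.mem_nhds_iff.1 h1
    exact ⟨r / 2, by positivity, (Metric.closedBall_subset_ball (by linarith)).trans h2⟩
  obtain ⟨K, hK⟩ : ∃ K : Set M, K = e.symm '' Metric.closedBall (e x₀) r := ⟨_, rfl⟩
  have hKc : IsCompact K := by
    rw [hK]
    exact (isCompact_closedBall _ _).image_of_continuousOn (e.continuousOn_symm.mono hball)
  have hKs : K ⊆ e.source := by
    rw [hK]
    rintro _ ⟨z, hz, rfl⟩
    exact e.map_target (hball hz)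
  have hmemK : ∀ x ∈ e.source, e x ∈ Metric.closedBall (e x₀) r → x ∈ K := by
    intro x hx hxb
    rw [hK]
    exact ⟨e x, hxb, e.left_inv hx⟩
  obtain ⟨χ, hχ, h0, h1, h01⟩ := exists_cut e hKc.isClosed hKs
  -- the point `q`
  have hO : IsOpen (e.source ∩ e ⁻¹' Metric.ball (e x₀) (r / 2)) :=
    e.isOpen_inter_preimage Metric.isOpen_ball
  obtain ⟨q, hq, hqT⟩ := Set.not_subset.1 (hcon _ hO
    ⟨hx₀, Metric.mem_ball_self (by positivity)⟩)
  obtain ⟨hqF, hqs, hqb⟩ := hq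
  have hqb' : ‖e x₀ - e q‖ < r / 2 := by
    have := Metric.mem_ball.1 hqb
    rwa [dist_comm, dist_eq_norm] at this
  -- the nearest point
  have hAc : IsCompact (T ∩ K) := hKc.inter_left hT
  have hx₀K : x₀ ∈ K := hmemK x₀ hx₀ (Metric.mem_closedBall_self hr.le)
  have hcont : ContinuousOn (fun x => ‖e x - e q‖) (T ∩ K) :=
    ((e.continuousOn.mono (fun x hx => hKs hx.2)).sub continuousOn_const).norm
  obtain ⟨p, hp, hmin⟩ := hAc.exists_isMinOn ⟨x₀, hx₀T, hx₀K⟩ hcont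
  have hps : p ∈ e.source := hKs hp.2
  have hpx : ‖e p - e q‖ < r / 2 := lt_of_le_of_lt (hmin ⟨hx₀T, hx₀K⟩) hqb'
  have hfar : ∀ x ∈ T, x ∈ e.source → ‖e p - e q‖ ≤ ‖e x - e q‖ := by
    intro x hxT hxs
    by_cases hxb : e x ∈ Metric.closedBall (e x₀) r
    · exact hmin ⟨hxT, hmemK x hxs hxb⟩
    · rw [Metric.mem_closedBall, not_le, dist_eq_norm] at hxb
      have h2 : ‖e x - e x₀‖ ≤ ‖e x - e q‖ + ‖e x₀ - e q‖ := by
        have : e x - e x₀ = (e x - e q) - (e x₀ - e q) := by abel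
        rw [this]
        exact norm_sub_le _ _
      linarith
  -- the function
  have hη : ContDiff ℝ ∞ (fun z : E => r ^ 2 - ‖z - e q‖ ^ 2) :=
    contDiff_const.sub ((contDiff_id.sub contDiff_const).norm_sq ℝ)
  have hy := sm_ext he hχ h0 hη
  have hpos : 0 < r ^ 2 - ‖e p - e q‖ ^ 2 := by
    have := norm_nonneg (e p - e q)
    nlinarith
  have hχp : χ p = 1 := (h1 p hp.2).self_of_nhds
  obtain ⟨u, v, huv, hu, hv, hdu, hdv⟩ := hB _ hy p hp.1 (by
    intro x hx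
    simp only [hχp, one_mul]
    by_cases hxs : x ∈ e.source
    · have h2 := hfar x hx hxs
      have h3 := norm_nonneg (e p - e q)
      have h4 : r ^ 2 - ‖e x - e q‖ ^ 2 ≤ r ^ 2 - ‖e p - e q‖ ^ 2 := by nlinarith
      rcases le_total 0 (r ^ 2 - ‖e x - e q‖ ^ 2) with h5 | h5
      · exact (mul_le_of_le_one_left h5 (h01 x).2).trans h4
      · exact (mul_nonpos_of_nonneg_of_nonpos (h01 x).1 h5).trans hpos.le
    · rw [(h0 x hxs).self_of_nhds, zero_mul]
      exact hpos.le)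
  have hder : ∀ ξ : TangentSpace 𝓘(ℝ, E) p,
      mvfderiv 𝓘(ℝ, E) (fun x => χ x * (r ^ 2 - ‖e x - e q‖ ^ 2)) p ξ =
      - (2 * ⟪e p - e q, dE e p ξ⟫) := by
    intro ξ
    rw [d_ext he hps (h1 p hp.2) hη]
    have h2 : HasFDerivAt (fun z : E => r ^ 2 - ‖z - e q‖ ^ 2)
        (-(2 • (innerSL ℝ (e p - e q)).comp (ContinuousLinearMap.id ℝ E))) (e p) := by
      have h3 := (((hasFDerivAt_id (𝕜 := ℝ) (e p)).sub_const (e q)).norm_sq).const_sub (r ^ 2)
      exact h3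
    rw [h2.fderiv]
    simp
    exact (inner_sub_left _ _ _).symm
  rw [hder] at hdu hdv
  have hep : e p ∈ W := (hF p hps).1 (hTF hp.1)
  have heq : e q ∈ W := (hF q hqs).1 hqF
  obtain ⟨a, b, hab⟩ := (span_tangent he hW hF hps hu hv huv).1 _ (W.sub_mem hep heq)
  have h5 : ⟪e p - e q, e p - e q⟫ = 0 := by
    nth_rewrite 2 [hab]
    rw [inner_add_right, inner_smul_right, inner_smul_right]
    have h6 : ⟪e p - e q, dE e p u⟫ = 0 := by linarith
    have h7 : ⟪e p - e q, dE e p v⟫ = 0 := by linarith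
    rw [h6, h7]
    ring
  have h6 : e p = e q := sub_eq_zero.1 (inner_self_eq_zero.1 h5)
  have h7 : p = q := e.injOn hps hqs h6
  rw [← h7] at hqT
  exact hqT hp.1

end Pool.Agent.Helper62.KP
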