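import Pool.Agent.Helper62.KP.VGrad

/-!
Flat planes based on a closed surface.
-/

open Bundle Manifold ContDiff ContinuousLinearMap Filter VectorField MeasureTheory
open scoped Topology

set_option autoImplicit false
set_option synthInstance.maxHeartbeats 400000
set_option maxHeartbeats 4000000
set_option linter.unusedSectionVars false

noncomputable section

namespace Pool.Agent.Helper62.KP

open Pool.Agent.H821R2 Pool.Agent.H821R3 Pool.Agent.H893R5.HO

variable {E : Type*} [NormedAddCommGroup E] [InnerProductSpace ℝ E] [FiniteDimensional ℝ E]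
  [Nontrivial E]
  {M : Type*} [TopologicalSpace M] [ChartedSpace E M] [IsManifold 𝓘(ℝ, E) ∞ M]
  [T2Space M] [CompactSpace M]
  {g : Metric 𝓘(ℝ, E) M} {cov : Conn 𝓘(ℝ, E) M} {R : CurvField 𝓘(ℝ, E) M}

/-- the Hessian of a product on tangent vectors -/
theorem grad_mul_on (h : IsLeviCivita g cov) {f y : M → ℝ} (hf : Sm 𝓘(ℝ, E) f)
    (hy : Sm 𝓘(ℝ, E) y) {G G' : Π x : M, TangentSpace 𝓘(ℝ, E) x} (hG : IsGrad g y G)
    (hG' : IsGrad g (fun x => f x * y x) G') {x : M} (hx : y x = 0)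
    {a b : TangentSpace 𝓘(ℝ, E) x} (ha : mvfderiv 𝓘(ℝ, E) y x a = 0)
    (hb : mvfderiv 𝓘(ℝ, E) y x b = 0) :
    g.inner x (cov G' x a) b = f x * g.inner x (cov G x a) b := by
  have key : ∀ w : TangentSpace 𝓘(ℝ, E) x, mvfderiv 𝓘(ℝ, E) y x w = 0 →
      g.inner x (cov G' x w) w = f x * g.inner x (cov G x w) w := by
    intro w hw
    rw [hes_eq h hG', hes_eq h hG, hes_mul hf hy, hx, hw]
    ring
  have k1 := key a ha
  have k2 := key b hb
  have k3 := key (a + b) (by rw [map_add, ha, hb, add_zero])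
  have s1 := hess_symm (hf.mul hy) hG' h x b a
  have s2 := hess_symm hy hG h x b a
  have pol : ∀ (Y : Π x : M, TangentSpace 𝓘(ℝ, E) x),
      g.inner x (cov Y x (a + b)) (a + b) = g.inner x (cov Y x a) a + g.inner x (cov Y x a) b +
        g.inner x (cov Y x b) a + g.inner x (cov Y x b) b := by
    intro Y
    rw [map_add (cov Y x), map_add (g.inner x), add_apply, map_add, map_add]
    ring
  rw [pol, pol, s1, s2] at k3
  linarith

/-- change of the orthonormal basis of a plane -/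
theorem same_plane (h : IsLeviCivita g cov) {y : M → ℝ} (hy : Sm 𝓘(ℝ, E) y)
    {G : Π x : M, TangentSpace 𝓘(ℝ, E) x} (hG : IsGrad g y G) {x : M}
    {u v u' v' : TangentSpace 𝓘(ℝ, E) x} (huv : OrthoPair g x u v) (huv' : OrthoPair g x u' v')
    {α β γ δ : ℝ} (hu' : u' = α • u + β • v) (hv' : v' = γ • u + δ • v) :
    TH cov y ⟨x, (u', v')⟩ = TH cov y ⟨x, (u, v)⟩ ∧
      DG g cov G ⟨x, (u', v')⟩ = DG g cov G ⟨x, (u, v)⟩ := by
  have s1 := hess_symm hy hG h x v u
  have gexp : ∀ a b c d : ℝ, g.inner x (a • u + b • v) (c • u + d • v) = a * c + b * d := by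
    intro a b c d
    have e2 : g.inner x (a • u + b • v) = a • g.inner x u + b • g.inner x v := by
      rw [map_add, map_smul, map_smul]
    rw [e2]
    simp only [map_add, map_smul, add_apply, smul_apply, smul_eq_mul]
    rw [g.symm x v u, huv.1, huv.2.1, huv.2.2]
    ring
  have bexp : ∀ a b c d : ℝ, g.inner x (cov G x (a • u + b • v)) (c • u + d • v) =
      a * c * g.inner x (cov G x u) u + (a * d + b * c) * g.inner x (cov G x u) v +
        b * d * g.inner x (cov G x v) v := by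
    intro a b c d
    have e1 : cov G x (a • u + b • v) = a • cov G x u + b • cov G x v := by
      rw [map_add, map_smul, map_smul]
    have e2 : g.inner x (a • cov G x u + b • cov G x v) =
        a • g.inner x (cov G x u) + b • g.inner x (cov G x v) := by
      rw [map_add, map_smul, map_smul]
    rw [e1, e2]
    simp only [map_add, map_smul, add_apply, smul_apply, smul_eq_mul]
    rw [s1]
    ring
  obtain ⟨o1, o2, o3⟩ := huv'
  rw [hu', gexp] at o1
  rw [hv', gexp] at o2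
  rw [hu', hv', gexp] at o3
  have hinv := inv_tr_det (b11 := g.inner x (cov G x u) u) (b12 := g.inner x (cov G x u) v)
    (b22 := g.inner x (cov G x v) v) (c11 := g.inner x (cov G x u') u')
    (c12 := g.inner x (cov G x u') v') (c22 := g.inner x (cov G x v') v')
    (α := α) (β := β) (γ := γ) (δ := δ) (by linarith) (by linarith) o3
    (by rw [hu', bexp]; ring) (by rw [hu', hv', bexp]) (by rw [hv', bexp]; ring)
  constructor
  · unfold TH
    simp only
    rw [← hes_eq h hG, ← hes_eq h hG, ← hes_eq h hG, ← hes_eq h hG]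
    exact hinv.1
  · exact hinv.2

variable {μ : Measure (Prs 𝓘(ℝ, E) M)} [IsFiniteMeasure μ]

/-- **Total geodesy.** -/
theorem supp_tg (h : IsLeviCivita g cov) (hR : IsRiemannTensor cov R) (hs : μ (FP g R)ᶜ = 0)
    (hann : ∀ h : Bilin 𝓘(ℝ, E) M, SymTensor h → Integrable (LP h cov) μ ∧
      ∫ z, LP h cov z ∂μ = 0)
    {F : Set M} (hF : ∀ z ∈ μ.support, z.1 ∈ F)
    (htan : ∀ z ∈ μ.support, TangentTo E F z.1 z.2.1 ∧ TangentTo E F z.1 z.2.2)
    (hplane : ∀ z ∈ μ.support, ∀ ξ : TangentSpace 𝓘(ℝ, E) z.1, TangentTo E F z.1 ξ →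
      ∃ a b : ℝ, ξ = a • z.2.1 + b • z.2.2)
    {y : M → ℝ} (hy : Sm 𝓘(ℝ, E) y) (hyF : ∀ p ∈ F, y p = 0)
    {G : Π x : M, TangentSpace 𝓘(ℝ, E) x} (hG : IsGrad g y G) :
    ∀ z ∈ μ.support, g.inner z.1 (cov G z.1 z.2.1) z.2.1 = 0 ∧
      g.inner z.1 (cov G z.1 z.2.1) z.2.2 = 0 ∧ g.inner z.1 (cov G z.1 z.2.2) z.2.2 = 0 := by
  have hSC := sc_prs (E := E) (M := M)
  have hWsub := supp_FP h hR hs
  have hW : ∀ᵐ z ∂μ, z ∈ μ.support := Measure.support_mem_ae
  have hT : ∀ φ : M → ℝ, Sm 𝓘(ℝ, E) φ → Integrable (TH cov φ) μ ∧ ∫ z, TH cov φ z ∂μ = 0 :=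
    fun φ hφ => int_TH h hR hs hann hφ
  have hinv : ∀ z ∈ μ.support, ∀ z' ∈ μ.support, z.1 = z'.1 →
      TH cov y z = TH cov y z' ∧ DG g cov G z = DG g cov G z' := by
    rintro ⟨x, u, v⟩ hz ⟨x', u', v'⟩ hz' hxx
    change x = x' at hxx
    subst hxx
    obtain ⟨a, b, hab⟩ := hplane _ hz' u (htan _ hz).1
    obtain ⟨c, d, hcd⟩ := hplane _ hz' v (htan _ hz).2
    exact same_plane h hy hG (hWsub hz').1 (hWsub hz).1 hab hcd
  have hTH0 : ∀ z ∈ μ.support, TH cov y z = 0 := by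
    refine loc_zero h hR hs (cont_TH h hy) (fun z hz z' hz' hzz => (hinv z hz z' hz' hzz).1) ?_
    intro f hf
    have hff : Sm 𝓘(ℝ, E) (fun x => f x * f x) := hf.mul hf
    rw [← (hT _ (hff.mul hy)).2]
    refine integral_congr_ae ?_
    filter_upwards [hW] with z hz
    unfold TH
    rw [hes_mul hff hy, hes_mul hff hy, hyF z.1 (hF z hz), (htan z hz).1 y hy hyF,
      (htan z hz).2 y hy hyF]
    ring
  have hDG0 : ∀ z ∈ μ.support, DG g cov G z = 0 := by
    refine loc_zero h hR hs (cont_DG h hG.smooth) (fun z hz z' hz' hzz =>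
      (hinv z hz z' hz' hzz).2) ?_
    intro f hf
    obtain ⟨G', hG'⟩ := exists_grad g (hf.mul hy)
    rw [← (hann _ (sq_sym hG'.smooth)).2]
    refine integral_congr_ae ?_
    filter_upwards [hW] with z hz
    rw [LP_grad h hR (hf.mul hy) hG' z]
    have hz0 := hyF z.1 (hF z hz)
    have d1 := (htan z hz).1 y hy hyF
    have d2 := (htan z hz).2 y hy hyF
    unfold DG
    rw [grad_mul_on h hf hy hG hG' hz0 d1 d1, grad_mul_on h hf hy hG hG' hz0 d2 d2,
      grad_mul_on h hf hy hG hG' hz0 d1 d2]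
    ring
  intro z hz
  have t0 := hTH0 z hz
  have d0 := hDG0 z hz
  unfold TH at t0
  rw [← hes_eq h hG, ← hes_eq h hG] at t0
  unfold DG at d0
  obtain ⟨a, ha⟩ : ∃ a, a = g.inner z.1 (cov G z.1 z.2.1) z.2.1 := ⟨_, rfl⟩
  obtain ⟨b, hb⟩ : ∃ b, b = g.inner z.1 (cov G z.1 z.2.1) z.2.2 := ⟨_, rfl⟩
  obtain ⟨c, hc⟩ : ∃ c, c = g.inner z.1 (cov G z.1 z.2.2) z.2.2 := ⟨_, rfl⟩
  rw [← ha, ← hc] at t0
  rw [← ha, ← hb, ← hc] at d0
  rw [← ha, ← hb, ← hc]
  have hca : c = -a := by linarith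
  rw [hca] at d0
  have ha0 : a = 0 := by nlinarith [sq_nonneg a, sq_nonneg b]
  have hb0 : b = 0 := by nlinarith [sq_nonneg a, sq_nonneg b]
  exact ⟨ha0, hb0, by rw [hca, ha0, neg_zero]⟩

end Pool.Agent.Helper62.KP
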