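import Pool.Agent.Helper62.KP.Surf4

/-!
The alternative for metrics of nonnegative curvature whose flat planes are essentially based on a
closed surface.
-/

open Bundle Manifold ContDiff ContinuousLinearMap Filter VectorField MeasureTheory
open scoped Topology

set_option autoImplicit false
set_option synthInstance.maxHeartbeats 400000
set_option maxHeartbeats 4000000
set_option linter.unusedSectionVars false

noncomputable section

namespace Pool.Agent.Helper62.KP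

open Pool.Agent.H821R2 Pool.Agent.H821R3 Pool.Agent.H893R5.HO

variable {E : Type*} [NormedAddCommGroup E] [InnerProductSpace ℝ E] [FiniteDimensional ℝ E]
  [Nontrivial E] [MeasurableSpace E] [BorelSpace E]
  {M : Type*} [TopologicalSpace M] [ChartedSpace E M] [IsManifold 𝓘(ℝ, E) ∞ M]
  [T2Space M] [CompactSpace M]
  {g : Metric 𝓘(ℝ, E) M} {cov : Conn 𝓘(ℝ, E) M} {R : CurvField 𝓘(ℝ, E) M}

theorem surface_alt (hc : IsLeviCivita g cov) (hR : IsRiemannTensor cov R)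
    (hnn : ∀ (x : M) (u v : TangentSpace 𝓘(ℝ, E) x), LinearIndependent ℝ ![u, v] →
      0 ≤ sectionalCurvature g R x u v)
    (hno : ∀ h : Bilin 𝓘(ℝ, E) M, SymTensor h → ∃ z ∈ FP g R, LP h cov z ≤ 0)
    {F : Set M} (hFcl : IsClosed F) {W : Submodule ℝ E} (hW : Module.finrank ℝ W ≤ 2)
    (hF : ∀ p ∈ F, ∃ e ∈ IsManifold.maximalAtlas 𝓘(ℝ, E) ∞ M, p ∈ e.source ∧
      ∀ x ∈ e.source, x ∈ F ↔ e x ∈ W)
    {S : Set M} (hS : ∀ p : M, μH[2] (chartAt E p '' (S ∩ (chartAt E p).source)) = 0)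
    {y : ℕ → M → ℝ} (hy : ∀ i, Sm 𝓘(ℝ, E) (y i))
    (hflat : ∀ (x : M) (u v : TangentSpace 𝓘(ℝ, E) x), x ∉ F → x ∉ S → OrthoPair g x u v →
      sec g R x u v = 0 → (∃ i, y i x = 0 ∧
        ¬ (mvfderiv 𝓘(ℝ, E) (y i) x u = 0 ∧ mvfderiv 𝓘(ℝ, E) (y i) x v = 0)) ∨
        ∃ X, IsKilling g cov X ∧ g.inner x (cov X x u) v ≠ 0) :
    ∃ T ⊆ F, T.Nonempty ∧ IsClosed T ∧ (∃ O, IsOpen O ∧ T = F ∩ O) ∧
      ∀ x ∈ T, ∃ u v : TangentSpace 𝓘(ℝ, E) x, OrthoPair g x u v ∧ sec g R x u v = 0 ∧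
        TangentTo E F x u ∧ TangentTo E F x v ∧
        (∀ ξ : TangentSpace 𝓘(ℝ, E) x, TangentTo E F x ξ → ∃ a b : ℝ, ξ = a • u + b • v) ∧
        (∀ (y : M → ℝ) (G : Π x : M, TangentSpace 𝓘(ℝ, E) x), Sm 𝓘(ℝ, E) y →
          (∀ p ∈ F, y p = 0) → IsGrad g y G → g.inner x (cov G x u) u = 0 ∧
            g.inner x (cov G x u) v = 0 ∧ g.inner x (cov G x v) v = 0) ∧
        ∀ X, IsKilling g cov X → g.inner x (cov X x u) v = 0 := by
  have hSC := sc_prs (E := E) (M := M)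
  obtain ⟨μ, hμ, hs, hann⟩ := exists_mu hc hR hno
  have hT : ∀ φ : M → ℝ, Sm 𝓘(ℝ, E) φ → Integrable (TH cov φ) μ ∧ ∫ z, TH cov φ z ∂μ = 0 :=
    fun φ hφ => int_TH hc hR hs hann hφ
  obtain ⟨N, D, hinj⟩ := exists_frame 𝓘(ℝ, E) M
  have hnull := null_all D hc hs hinj hT (null_image D (by norm_num) hS)
  have htan : ∀ᵐ z ∂μ, ∀ i, y i z.1 = 0 → mvfderiv 𝓘(ℝ, E) (y i) z.1 z.2.1 = 0 ∧
      mvfderiv 𝓘(ℝ, E) (y i) z.1 z.2.2 = 0 :=
    ae_all_iff.2 fun i => ae_tangent hc hR hs hT (hy i)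
  have hS' : ∀ᵐ z ∂μ, z.1 ∉ S := by
    have : {z : Prs 𝓘(ℝ, E) M | ¬ (z.1 ∉ S)} = (fun z : Prs 𝓘(ℝ, E) M => z.1) ⁻¹' S := by
      ext z
      simp
    rw [ae_iff, this]
    exact hnull
  have hWae : ∀ᵐ z ∂μ, z ∈ μ.support := Measure.support_mem_ae
  have hfoot := cont_foot (E := E) (M := M)
  have hWsub := supp_FP hc hR hs
  have hWc : IsCompact μ.support :=
    (isCompact_FP hc hR).of_isClosed_subset Measure.isClosed_support hWsub
  -- the planes of the support are based on the surface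
  have hFae : ∀ᵐ z ∂μ, z.1 ∈ F := by
    filter_upwards [ae_FP hs, htan, hS', hWae] with z h1 h2 h3 h4
    by_contra hzF
    rcases hflat z.1 z.2.1 z.2.2 hzF h3 h1.1 h1.2 with ⟨i, hi, hi'⟩ | ⟨X, hX, hX'⟩
    · exact hi' (h2 i hi)
    · exact hX' (supp_kill hc hR hnn hs hann hX z h4)
  have hFsupp : ∀ z ∈ μ.support, z.1 ∈ F := by
    have hcl : IsClosed ((fun z : Prs 𝓘(ℝ, E) M => z.1) ⁻¹' F) := hFcl.preimage hfoot
    exact fun z hz => Measure.support_subset_of_isClosed hcl hFae hz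
  -- and tangent to it
  have htan' : ∀ z ∈ μ.support, TangentTo E F z.1 z.2.1 ∧ TangentTo E F z.1 z.2.2 := by
    intro z hz
    have key : ∀ q : M → ℝ, Sm 𝓘(ℝ, E) q → (∀ p ∈ F, q p = 0) →
        mvfderiv 𝓘(ℝ, E) q z.1 z.2.1 = 0 ∧ mvfderiv 𝓘(ℝ, E) q z.1 z.2.2 = 0 := by
      intro q hq hqF
      have h1 : ∀ᵐ z ∂μ, mvfderiv 𝓘(ℝ, E) q z.1 z.2.1 = 0 ∧ mvfderiv 𝓘(ℝ, E) q z.1 z.2.2 = 0 := by
        filter_upwards [ae_tangent hc hR hs hT hq, hFae] with z h2 h3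
        exact h2 (hqF _ h3)
      exact ⟨supp_zero (cont_d hq).1 (h1.mono fun z h => h.1) z hz,
        supp_zero (cont_d hq).2 (h1.mono fun z h => h.2) z hz⟩
    exact ⟨fun q hq hqF => (key q hq hqF).1, fun q hq hqF => (key q hq hqF).2⟩
  have hplane : ∀ z ∈ μ.support, ∀ ξ : TangentSpace 𝓘(ℝ, E) z.1, TangentTo E F z.1 ξ →
      ∃ a b : ℝ, ξ = a • z.2.1 + b • z.2.2 := by
    intro z hz ξ hξ
    obtain ⟨e, he, hze, hslice⟩ := hF z.1 (hFsupp z hz)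
    exact (span_tangent he hW hslice hze (htan' z hz).1 (htan' z hz).2
      (ortho_li (hWsub hz).1)).2 ξ hξ
  refine ⟨(fun z : Prs 𝓘(ℝ, E) M => z.1) '' μ.support, ?_, ?_, ?_, ?_, ?_⟩
  · rintro _ ⟨z, hz, rfl⟩
    exact hFsupp z hz
  · have : μ ≠ 0 := IsProbabilityMeasure.ne_zero μ
    exact (Measure.nonempty_support this).image _
  · exact (hWc.image hfoot).isClosed
  · -- openness
    have hloc : ∀ x ∈ (fun z : Prs 𝓘(ℝ, E) M => z.1) '' μ.support,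
        ∃ O : Set M, IsOpen O ∧ x ∈ O ∧ F ∩ O ⊆ (fun z : Prs 𝓘(ℝ, E) M => z.1) '' μ.support := by
      intro x hx
      have hxF : x ∈ F := by
        obtain ⟨z, hz, rfl⟩ := hx
        exact hFsupp z hz
      obtain ⟨e, he, hxe, hslice⟩ := hF x hxF
      refine open_in he hW hslice (hWc.image hfoot).isClosed ?_ ?_ hx hxe
      · rintro _ ⟨z, hz, rfl⟩
        exact hFsupp z hz
      · rintro q hq p ⟨z₀, hz₀, rfl⟩ hmax
        obtain ⟨z, hz, h1, h2, h3, -⟩ := barrier hc hR hs hT hq hz₀ (fun z hz =>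
          hmax z.1 ⟨z, hz, rfl⟩)
        obtain ⟨x₁, u, v⟩ := z
        change x₁ = z₀.1 at h1
        subst h1
        exact ⟨u, v, ortho_li (hWsub hz).1, (htan' _ hz).1, (htan' _ hz).2, h2, h3⟩
    refine ⟨⋃ (x : M) (hx : x ∈ (fun z : Prs 𝓘(ℝ, E) M => z.1) '' μ.support), (hloc x hx).choose,
      isOpen_iUnion fun x => isOpen_iUnion fun hx => (hloc x hx).choose_spec.1, ?_⟩
    apply Set.Subset.antisymm
    · intro x hx
      refine ⟨?_, Set.mem_iUnion.2 ⟨x, Set.mem_iUnion.2 ⟨hx, (hloc x hx).choose_spec.2.1⟩⟩⟩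
      obtain ⟨z, hz, rfl⟩ := hx
      exact hFsupp z hz
    · rintro x ⟨hxF, hxO⟩
      obtain ⟨x₁, hx₁⟩ := Set.mem_iUnion.1 hxO
      obtain ⟨hx₂, hx₃⟩ := Set.mem_iUnion.1 hx₁
      exact (hloc x₁ hx₂).choose_spec.2.2 ⟨hxF, hx₃⟩
  · rintro _ ⟨z, hz, rfl⟩
    refine ⟨z.2.1, z.2.2, (hWsub hz).1, (hWsub hz).2, (htan' z hz).1, (htan' z hz).2, hplane z hz,
      ?_, ?_⟩
    · intro q G hq hqF hG
      exact supp_tg hc hR hs hann hFsupp htan' hplane hq hqF hG z hz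
    · intro X hX
      exact supp_kill hc hR hnn hs hann hX z hz

end Pool.Agent.Helper62.KP
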