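import Pool.Agent.Helper62.KP.Var2

/-!
The first variation of the curvature in conformal directions.
-/

open Bundle Manifold ContDiff ContinuousLinearMap Filter VectorField
open scoped Topology

set_option autoImplicit false
set_option synthInstance.maxHeartbeats 400000
set_option maxHeartbeats 4000000
set_option linter.unusedSectionVars false

noncomputable section

namespace Pool.Agent.Helper62.KP

open Pool.Agent.H821R2 Pool.Agent.H821R3 Pool.Agent.H893R5.HO

variable {E : Type*} [NormedAddCommGroup E] [NormedSpace ℝ E] [FiniteDimensional ℝ E]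
  {H : Type*} [TopologicalSpace H] {I : ModelWithCorners ℝ E H}
  {M : Type*} [TopologicalSpace M] [ChartedSpace H M] [IsManifold I ∞ M]
  {g : ContMDiffRiemannianMetric I ∞ E (fun x : M => TangentSpace I x)}
  {cov : CovariantDerivative I E (TangentSpace I : M → Type _)}

/-- the tensor `φ g` -/
def cg (g : ContMDiffRiemannianMetric I ∞ E (fun x : M => TangentSpace I x)) (φ : M → ℝ)
    (x : M) : TangentSpace I x →L[ℝ] TangentSpace I x →L[ℝ] ℝ := φ x • g.inner x

theorem cg_sym {φ : M → ℝ} (hφ : Sm I φ) : SymTensor (cg g φ) where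
  smooth := ContMDiff.smul_section hφ g.contMDiff
  symm x v w := by
    unfold cg
    rw [smul_apply, smul_apply, smul_apply, smul_apply, g.symm x v w]

theorem bi_cg (φ : M → ℝ) (A B : Π x : M, TangentSpace I x) :
    bi (cg g φ) A B = fun y => φ y * gi g A B y := rfl

theorem der_form {W : Π x : M, TangentSpace I x} {a b p1 q1 p2 q2 p3 q3 : M → ℝ} (ha : Sm I a)
    (hb : Sm I b) (h1 : Sm I p1) (k1 : Sm I q1) (h2 : Sm I p2) (k2 : Sm I q2) (h3 : Sm I p3)
    (k3 : Sm I q3) :
    der W (fun y => a y * b y + (1 / 2) * (p1 y * q1 y + p2 y * q2 y - p3 y * q3 y)) =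
      fun y => (der W a y * b y + a y * der W b y) + (1 / 2) *
        ((der W p1 y * q1 y + p1 y * der W q1 y) + (der W p2 y * q2 y + p2 y * der W q2 y) -
          (der W p3 y * q3 y + p3 y * der W q3 y)) := by
  rw [der_add (ha.mul hb) (((h1.mul k1).add (h2.mul k2) |>.sub (h3.mul k3)).cmul _),
    der_cmul _ ((h1.mul k1).add (h2.mul k2) |>.sub (h3.mul k3)),
    der_sub ((h1.mul k1).add (h2.mul k2)) (h3.mul k3), der_add (h1.mul k1) (h2.mul k2),
    der_mul ha hb, der_mul h1 k1, der_mul h2 k2, der_mul h3 k3]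

theorem Kz_cg (h : IsLeviCivita g cov) {φ : M → ℝ} (hφ : Sm I φ) {X Y Z : Π x : M, TangentSpace I x}
    (hX : SmV X) (hY : SmV Y) (hZ : SmV Z) :
    Kz (cg g φ) X Y Z = fun y => φ y * gi g (nabla cov X Y) Z y +
      (1 / 2) * (der X φ y * gi g Y Z y + der Y φ y * gi g X Z y - der Z φ y * gi g X Y y) := by
  ext y
  have hk : gi g (nabla cov X Y) Z y = Kz g.inner X Y Z y := koszul_gen h hX hY hZ y
  rw [hk]
  unfold Kz
  rw [bi_cg, bi_cg, bi_cg, der_mul hφ (gi_smooth hY hZ), der_mul hφ (gi_smooth hX hZ),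
    der_mul hφ (gi_smooth hX hY)]
  have e1 : bi g.inner Y Z = gi g Y Z := rfl
  have e2 : bi g.inner X Z = gi g X Z := rfl
  have e3 : bi g.inner X Y = gi g X Y := rfl
  rw [e1, e2, e3]
  unfold cg
  simp only [smul_apply, smul_eq_mul]
  ring

/-- **The first variation in the direction `φ g`.** -/
theorem LF_cg (h : IsLeviCivita g cov) {R : CurvField I M} (hR : IsRiemannTensor cov R)
    {φ : M → ℝ} (hφ : Sm I φ) {U V : Π x : M, TangentSpace I x} (hU : SmV U) (hV : SmV V) (x : M)
    (h1 : g.inner x (U x) (U x) = 1) (h2 : g.inner x (V x) (V x) = 1)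
    (h3 : g.inner x (U x) (V x) = 0) :
    LF (cg g φ) cov U V x = φ x * g.inner x (R x (U x) (V x) (V x)) (U x) -
      (1 / 2) * ((der U (der U φ) x - mvfderiv I φ x (cov U x (U x))) +
        (der V (der V φ) x - mvfderiv I φ x (cov V x (V x)))) := by
  have hA := nabla_smooth h hU hU
  have hB := nabla_smooth h hV hV
  have hC := nabla_smooth h hU hV
  have hD := nabla_smooth h hV hU
  have hW := smooth_bracket hU hV
  have hT := h.torsionFree hU hV x
  unfold LF tau
  rw [Kz_cg h hφ hV hV hU, Kz_cg h hφ hU hV hU, Kz_cg h hφ hW hV hU, Kz_cg h hφ hV hV hA,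
    Kz_cg h hφ hU hU hB, Kz_cg h hφ hU hV hD, Kz_cg h hφ hV hU hC,
    der_form hφ (gi_smooth hB hU) (Sm.der hV hφ) (gi_smooth hV hU) (Sm.der hV hφ)
      (gi_smooth hV hU) (Sm.der hU hφ) (gi_smooth hV hV),
    der_form hφ (gi_smooth hC hU) (Sm.der hU hφ) (gi_smooth hV hU) (Sm.der hV hφ)
      (gi_smooth hU hU) (Sm.der hU hφ) (gi_smooth hU hV),
    der_gi h hU hB hU, der_gi h hU hV hU, der_gi h hU hV hV, der_gi h hV hC hU, der_gi h hV hV hU,
    der_gi h hV hU hU, der_gi h hV hU hV, hR hU hV hV x]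
  unfold curv
  have s1 := g.symm x (V x) (U x)
  have s2 := fun a b : TangentSpace I x => g.symm x a b
  simp only [gi, cg, nabla, der_apply, smul_apply, smul_eq_mul, in_sub_left] at *
  rw [← hT]
  simp only [map_sub, in_sub_left, sub_apply]
  rw [s2 (V x) (cov V x (U x)), s2 (V x) (cov U x (U x)), s2 (V x) (U x), h1, h2, h3,
    s2 (U x) (cov V x (V x)), s2 (U x) (cov U x (V x)), s2 (V x) (cov U x (V x)),
    s2 (U x) (cov V x (U x))]
  ring

end Pool.Agent.Helper62.KP
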