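import Pool.Agent.Helper62.KP.Surf2

/-!
The first variation of the curvature in the direction of the square of a differential; localization.
-/

open Bundle Manifold ContDiff ContinuousLinearMap Filter VectorField MeasureTheory
open scoped Topology

set_option autoImplicit false
set_option synthInstance.maxHeartbeats 400000
set_option maxHeartbeats 4000000
set_option linter.unusedSectionVars false

noncomputable section

namespace Pool.Agent.Helper62.KP

open Pool.Agent.H821R2 Pool.Agent.H821R3 Pool.Agent.H893R5.HO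

section gen

variable {E : Type*} [NormedAddCommGroup E] [NormedSpace ℝ E] [FiniteDimensional ℝ E]
  {H : Type*} [TopologicalSpace H] {I : ModelWithCorners ℝ E H}
  {M : Type*} [TopologicalSpace M] [ChartedSpace H M] [IsManifold I ∞ M]
  [T2Space M] [CompactSpace M] [Nontrivial E]
  {g : ContMDiffRiemannianMetric I ∞ E (fun x : M => TangentSpace I x)}
  {cov : CovariantDerivative I E (TangentSpace I : M → Type _)}

theorem QQ_symm (h : IsLeviCivita g cov) {y : M → ℝ} (hy : Sm I y)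
    {G a b c : Π x : M, TangentSpace I x}
    (hG : IsGrad g y G) (ha : SmV a) (hb : SmV b) (hc : SmV c) (x : M) :
    QQ g cov G a b c x = QQ g cov G a c b x := by
  have hbG := nabla_smooth h hb hG.smooth
  have hcG := nabla_smooth h hc hG.smooth
  have e0 : gi g (nabla cov b G) c = gi g (nabla cov c G) b := by
    ext z
    exact hess_symm hy hG h z (b z) (c z)
  have e1 := congrFun (congrArg (der a) e0) x
  rw [der_gi h ha hbG hc, der_gi h ha hcG hb] at e1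
  have k1 := hess_symm hy hG h x (b x) (cov c x (a x))
  have k2 := hess_symm hy hG h x (c x) (cov b x (a x))
  simp only [gi, nabla] at e1
  unfold QQ
  linarith

/-- **The direction `dy ⊗ dy`.** -/
theorem LF_grad (h : IsLeviCivita g cov) {R : CurvField I M} (hR : IsRiemannTensor cov R)
    {y : M → ℝ} (hy : Sm I y) {G U V : Π x : M, TangentSpace I x} (hG : IsGrad g y G)
    (hU : SmV U) (hV : SmV V) (x : M) :
    LF (sq g G) cov U V x = g.inner x (cov G x (U x)) (U x) * g.inner x (cov G x (V x)) (V x) -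
      g.inner x (cov G x (U x)) (V x) ^ 2 := by
  rw [LF_sq h hR hG.smooth hU hV x]
  have s1 := hess_symm hy hG h x (V x) (U x)
  have q1 := QQ_symm h hy hG hV hV hU x
  have q2 := QQ_symm h hy hG hU hV hU x
  have r1 := QQ_ricci h hR V hG.smooth hU hV x
  have r2 : Rm g R x (U x) (V x) (G x) (V x) = - g.inner x (G x) (R x (U x) (V x) (V x)) := by
    rw [Rm_34 h hR]
    unfold Rm
    rw [g.symm]
  rw [r2] at r1
  rw [s1]
  have e1 : QQ g cov G U V V x - QQ g cov G V V U x = - g.inner x (G x) (R x (U x) (V x) (V x)) := by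
    rw [q1]; exact r1
  have e2 : QQ g cov G U V U x - QQ g cov G U U V x = 0 := by
    rw [q2]; ring
  rw [e1, e2]
  ring

end gen

variable {E : Type*} [NormedAddCommGroup E] [NormedSpace ℝ E] [FiniteDimensional ℝ E]
  {M : Type*} [TopologicalSpace M] [ChartedSpace E M] [IsManifold 𝓘(ℝ, E) ∞ M]
  [T2Space M] [CompactSpace M]
  {g : Metric 𝓘(ℝ, E) M} {cov : Conn 𝓘(ℝ, E) M} {R : CurvField 𝓘(ℝ, E) M}

/-- the determinant of the Hessian -/
def DG (g : Metric 𝓘(ℝ, E) M) (cov : Conn 𝓘(ℝ, E) M) (G : Π x : M, TangentSpace 𝓘(ℝ, E) x)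
    (z : Prs 𝓘(ℝ, E) M) : ℝ :=
  g.inner z.1 (cov G z.1 z.2.1) z.2.1 * g.inner z.1 (cov G z.1 z.2.2) z.2.2 -
    g.inner z.1 (cov G z.1 z.2.1) z.2.2 ^ 2

theorem LP_grad [Nontrivial E] (h : IsLeviCivita g cov) (hR : IsRiemannTensor cov R)
    {y : M → ℝ} (hy : Sm 𝓘(ℝ, E) y) {G : Π x : M, TangentSpace 𝓘(ℝ, E) x} (hG : IsGrad g y G)
    (z : Prs 𝓘(ℝ, E) M) : LP (sq g G) cov z = DG g cov G z := by
  unfold LP LV DG
  have e := LF_grad h hR hy hG (xt_smooth (I := 𝓘(ℝ, E)) z.1 z.2.1) (xt_smooth z.1 z.2.2) z.1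
  rw [e, xt_self, xt_self]

theorem cont_DG (h : IsLeviCivita g cov) {G : Π x : M, TangentSpace 𝓘(ℝ, E) x} (hG : SmV G) :
    Continuous (DG g cov G) := by
  obtain ⟨h1, h2, h3⟩ := cont_A (g := g) h hG
  exact (h1.mul h3).sub (h2.pow 2)

variable {μ : Measure (Prs 𝓘(ℝ, E) M)} [IsFiniteMeasure μ]

/-- **Localization.** -/
theorem loc_zero (h : IsLeviCivita g cov) (hR : IsRiemannTensor cov R) (hs : μ (FP g R)ᶜ = 0)
    {ψ : Prs 𝓘(ℝ, E) M → ℝ} (hψ : Continuous ψ)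
    (hinv : ∀ z ∈ μ.support, ∀ z' ∈ μ.support, z.1 = z'.1 → ψ z = ψ z')
    (hint : ∀ f : M → ℝ, Sm 𝓘(ℝ, E) f → ∫ z, f z.1 ^ 2 * ψ z ∂μ = 0) :
    ∀ z ∈ μ.support, ψ z = 0 := by
  have hSC := sc_prs (E := E) (M := M)
  intro z₀ hz₀
  by_contra hne
  obtain ⟨τ, hτ⟩ : ∃ τ, τ = ψ z₀ := ⟨_, rfl⟩
  rw [← hτ] at hne
  have hτ2 : 0 < τ ^ 2 := by positivity
  have hWsub := supp_FP h hR hs
  have hWc : IsCompact μ.support :=
    (isCompact_FP h hR).of_isClosed_subset Measure.isClosed_support hWsub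
  have hfoot := cont_foot (E := E) (M := M)
  obtain ⟨K, hK⟩ : ∃ K : Set (Prs 𝓘(ℝ, E) M), K = μ.support ∩ (fun z => τ * ψ z) ⁻¹'
    (Set.Iic (τ ^ 2 / 2)) := ⟨_, rfl⟩
  have hKc : IsCompact K := by
    rw [hK]
    exact hWc.inter_right (isClosed_Iic.preimage (continuous_const.mul hψ))
  have hcl : IsClosed ((fun z : Prs 𝓘(ℝ, E) M => z.1) '' K) := (hKc.image hfoot).isClosed
  obtain ⟨f, hf0, hf1, hf01⟩ := exists_contMDiffMap_zero_one_of_isClosed (n := (⊤ : ℕ∞)) 𝓘(ℝ, E)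
    hcl (isClosed_singleton (x := z₀.1)) (by
      rw [Set.disjoint_singleton_right]
      rintro ⟨z, hz, hzz⟩
      rw [hK] at hz
      have h1 := hinv z hz.1 z₀ hz₀ hzz
      have h2 : τ * ψ z ≤ τ ^ 2 / 2 := hz.2
      rw [h1, ← hτ] at h2
      nlinarith)
  have hf : Sm 𝓘(ℝ, E) (fun x => f x) := f.contMDiff
  have hcf : Continuous (fun z : Prs 𝓘(ℝ, E) M => f z.1 ^ 2 * (τ * ψ z)) :=
    ((hf.continuous.comp hfoot).pow 2).mul (continuous_const.mul hψ)
  have hI : ∫ z, f z.1 ^ 2 * (τ * ψ z) ∂μ = 0 := by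
    have h1 : (fun z : Prs 𝓘(ℝ, E) M => f z.1 ^ 2 * (τ * ψ z)) =
        fun z => τ * (f z.1 ^ 2 * ψ z) := by
      ext z; ring
    rw [h1, integral_const_mul, hint _ hf, mul_zero]
  have hnn : 0 ≤ᵐ[μ] fun z : Prs 𝓘(ℝ, E) M => f z.1 ^ 2 * (τ * ψ z) := by
    have hW : ∀ᵐ z ∂μ, z ∈ μ.support := Measure.support_mem_ae
    filter_upwards [hW] with z hz
    by_cases hzK : z.1 ∈ (fun z : Prs 𝓘(ℝ, E) M => z.1) '' K
    · have : f z.1 = 0 := hf0 hzK
      change 0 ≤ f z.1 ^ 2 * (τ * ψ z)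
      rw [this]
      simp
    · have h1 : τ ^ 2 / 2 < τ * ψ z := by
        by_contra hle
        push Not at hle
        exact hzK ⟨z, by rw [hK]; exact ⟨hz, hle⟩, rfl⟩
      change 0 ≤ f z.1 ^ 2 * (τ * ψ z)
      have : 0 ≤ τ * ψ z := by linarith
      positivity
  rw [integral_eq_zero_iff_of_nonneg_ae hnn (int_cont h hR hs hcf)] at hI
  have h0 := supp_zero hcf hI z₀ hz₀
  have h1 : f z₀.1 = 1 := hf1 rfl
  simp only [h1, ← hτ] at h0
  nlinarith

/-- invariance of trace and determinant -/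
theorem inv_tr_det {b11 b12 b22 c11 c12 c22 α β γ δ : ℝ} (h1 : α ^ 2 + β ^ 2 = 1)
    (h2 : γ ^ 2 + δ ^ 2 = 1) (h3 : α * γ + β * δ = 0)
    (e11 : c11 = α ^ 2 * b11 + 2 * α * β * b12 + β ^ 2 * b22)
    (e12 : c12 = α * γ * b11 + (α * δ + β * γ) * b12 + β * δ * b22)
    (e22 : c22 = γ ^ 2 * b11 + 2 * γ * δ * b12 + δ ^ 2 * b22) :
    c11 + c22 = b11 + b22 ∧ c11 * c22 - c12 ^ 2 = b11 * b22 - b12 ^ 2 := by
  obtain ⟨Δ, hΔ⟩ : ∃ Δ, Δ = α * δ - β * γ := ⟨_, rfl⟩
  have hΔ2 : Δ ^ 2 = 1 := by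
    rw [hΔ]
    linear_combination (γ ^ 2 + δ ^ 2) * h1 + h2 - (α * γ + β * δ) * h3
  have hγ : γ = -β * Δ := by
    rw [hΔ]
    linear_combination (-γ) * h1 + α * h3
  have hδ : δ = α * Δ := by
    rw [hΔ]
    linear_combination (-δ) * h1 + β * h3
  constructor
  · rw [e11, e22, hγ, hδ]
    linear_combination (b11 + b22) * h1 + (β ^ 2 * b11 - 2 * α * β * b12 + α ^ 2 * b22) * hΔ2
  · have e : c11 * c22 - c12 ^ 2 = Δ ^ 2 * (b11 * b22 - b12 ^ 2) := by
      rw [e11, e12, e22, hΔ]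
      ring
    rw [e, hΔ2, one_mul]

end Pool.Agent.Helper62.KP
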