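import Pool.Agent.Helper62.KP.VSq

/-!
Flat planes of metrics of nonnegative curvature; the first variation in the direction of a Killing
field.
-/

open Bundle Manifold ContDiff ContinuousLinearMap Filter VectorField
open scoped Topology

set_option autoImplicit false
set_option synthInstance.maxHeartbeats 400000
set_option maxHeartbeats 4000000
set_option linter.unusedSectionVars false

noncomputable section

namespace Pool.Agent.Helper62.KP

open Pool.Agent.H821R2 Pool.Agent.H821R3 Pool.Agent.H893R5.HO

variable {E : Type*} [NormedAddCommGroup E] [NormedSpace ℝ E] [FiniteDimensional ℝ E]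
  {H : Type*} [TopologicalSpace H] {I : ModelWithCorners ℝ E H}
  {M : Type*} [TopologicalSpace M] [ChartedSpace H M] [IsManifold I ∞ M]
  [T2Space M] [CompactSpace M] [Nontrivial E]
  {g : ContMDiffRiemannianMetric I ∞ E (fun x : M => TangentSpace I x)}
  {cov : CovariantDerivative I E (TangentSpace I : M → Type _)}

theorem R_skew (h : IsLeviCivita g cov) {R : CurvField I M} (hR : IsRiemannTensor cov R) (x : M)
    (a b c d : TangentSpace I x) : g.inner x (R x a b c) d = - g.inner x c (R x a b d) := by
  let _ : RiemannianBundle (fun x : M => TangentSpace I x) := ⟨g.toRiemannianMetric⟩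
  have h' : IsLeviCivitaB cov := ⟨h.smooth, h.metric, h.torsionFree⟩
  exact (isCurvatureTensor h' hR x).skew a b c d

theorem R_anti (h : IsLeviCivita g cov) {R : CurvField I M} (hR : IsRiemannTensor cov R) (x : M)
    (a b c : TangentSpace I x) : R x a b c = - R x b a c := by
  let _ : RiemannianBundle (fun x : M => TangentSpace I x) := ⟨g.toRiemannianMetric⟩
  have h' : IsLeviCivitaB cov := ⟨h.smooth, h.metric, h.torsionFree⟩
  exact (isCurvatureTensor h' hR x).antisymm a b c

theorem R_bian (h : IsLeviCivita g cov) {R : CurvField I M} (hR : IsRiemannTensor cov R) (x : M)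
    (a b c : TangentSpace I x) : R x a b c + R x b c a + R x c a b = 0 := by
  let _ : RiemannianBundle (fun x : M => TangentSpace I x) := ⟨g.toRiemannianMetric⟩
  have h' : IsLeviCivitaB cov := ⟨h.smooth, h.metric, h.torsionFree⟩
  exact (isCurvatureTensor h' hR x).bianchi a b c

/-- the four-tensor -/
def Rm (g : ContMDiffRiemannianMetric I ∞ E (fun x : M => TangentSpace I x)) (R : CurvField I M)
    (x : M) (a b c d : TangentSpace I x) : ℝ := g.inner x (R x a b c) d

theorem Rm_12 (h : IsLeviCivita g cov) {R : CurvField I M} (hR : IsRiemannTensor cov R) (x : M)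
    (a b c d : TangentSpace I x) : Rm g R x a b c d = - Rm g R x b a c d := by
  unfold Rm
  rw [R_anti h hR x a b c, map_neg, neg_apply]

theorem Rm_34 (h : IsLeviCivita g cov) {R : CurvField I M} (hR : IsRiemannTensor cov R) (x : M)
    (a b c d : TangentSpace I x) : Rm g R x a b c d = - Rm g R x a b d c := by
  unfold Rm
  rw [R_skew h hR x a b c d, g.symm x c]

theorem Rm_bian (h : IsLeviCivita g cov) {R : CurvField I M} (hR : IsRiemannTensor cov R) (x : M)
    (a b c d : TangentSpace I x) : Rm g R x a b c d + Rm g R x b c a d + Rm g R x c a b d = 0 := by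
  unfold Rm
  have := R_bian h hR x a b c
  have h2 : g.inner x (R x a b c + R x b c a + R x c a b) d = 0 := by
    rw [this, map_zero]; rfl
  rw [map_add, map_add, add_apply, add_apply] at h2
  exact h2

/-- pair symmetry -/
theorem Rm_pair (h : IsLeviCivita g cov) {R : CurvField I M} (hR : IsRiemannTensor cov R) (x : M)
    (a b c d : TangentSpace I x) : Rm g R x a b c d = Rm g R x c d a b := by
  have b1 := Rm_bian h hR x a b c d
  have b2 := Rm_bian h hR x b c d a
  have b3 := Rm_bian h hR x c d a b
  have b4 := Rm_bian h hR x d a b c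
  have e1 := Rm_34 h hR x b c d a
  have e2 := Rm_34 h hR x c d b a
  have e3 := Rm_12 h hR x d b c a
  have e4 := Rm_34 h hR x b d c a
  have e5 := Rm_34 h hR x d a c b
  have e6 := Rm_12 h hR x a c d b
  have e7 := Rm_34 h hR x c a d b
  have e8 := Rm_34 h hR x a b d c
  have e9 := Rm_12 h hR x b d a c
  linarith

/-- nonnegativity for all pairs -/
theorem Rm_nonneg {R : CurvField I M}
    (hnn : ∀ (x : M) (u v : TangentSpace I x), LinearIndependent ℝ ![u, v] →
      0 ≤ sectionalCurvature g R x u v)
    (h : IsLeviCivita g cov) (hR : IsRiemannTensor cov R) (x : M) (u v : TangentSpace I x) :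
    0 ≤ Rm g R x u v v u := by
  by_cases hli : LinearIndependent ℝ ![u, v]
  · have h1 := hnn x u v hli
    have hden : 0 < g.inner x u u * g.inner x v v - g.inner x u v ^ 2 := by
      have hu : u ≠ 0 := by simpa using hli.ne_zero 0
      have huu := g.pos x u hu
      have hw0 : v - (g.inner x u v / g.inner x u u) • u ≠ 0 := by
        intro hh
        rw [sub_eq_zero] at hh
        rw [LinearIndependent.pair_iff] at hli
        have := hli (g.inner x u v / g.inner x u u) (-1) (by rw [← hh]; simp)
        norm_num at this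
      have hww := g.pos x _ hw0
      have e : g.inner x (v - (g.inner x u v / g.inner x u u) • u)
          (v - (g.inner x u v / g.inner x u u) • u) =
          (g.inner x u u * g.inner x v v - g.inner x u v ^ 2) / g.inner x u u := by
        rw [in_sub_left]
        simp only [map_sub, map_smul, smul_apply, smul_eq_mul]
        rw [g.symm x v u]
        field_simp
        ring
      rw [e] at hww
      exact (div_pos_iff_of_pos_right huu).1 hww
    unfold sectionalCurvature at h1
    have h2 := mul_nonneg h1 hden.le
    rw [div_mul_cancel₀ _ hden.ne'] at h2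
    exact h2
  · refine le_of_eq ?_
    have z1 : ∀ a c d : TangentSpace I x, Rm g R x a a c d = 0 := fun a c d => by
      have := Rm_12 h hR x a a c d
      linarith
    have z2 : ∀ a b c : TangentSpace I x, Rm g R x a b c c = 0 := fun a b c => by
      have := Rm_34 h hR x a b c c
      linarith
    by_cases hu : u = 0
    · rw [hu]
      unfold Rm
      rw [map_zero]
    · rw [LinearIndependent.pair_iff' hu] at hli
      push Not at hli
      obtain ⟨t, ht⟩ := hli
      rw [← ht]
      have : Rm g R x u (t • u) (t • u) u = t ^ 2 * Rm g R x u u u u := by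
        unfold Rm
        simp only [map_smul, LinearMap.smul_apply, smul_apply, smul_eq_mul]
        ring
      rw [this, z1, mul_zero]

/-- a flat plane of a metric of nonnegative curvature is in the kernel of the Jacobi operator -/
theorem flat_ker {R : CurvField I M}
    (hnn : ∀ (x : M) (u v : TangentSpace I x), LinearIndependent ℝ ![u, v] →
      0 ≤ sectionalCurvature g R x u v)
    (h : IsLeviCivita g cov) (hR : IsRiemannTensor cov R) (x : M) {u v : TangentSpace I x}
    (h0 : Rm g R x u v v u = 0) (w : TangentSpace I x) : Rm g R x u v v w = 0 := by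
  have hs : Rm g R x w v v u = Rm g R x u v v w := by
    rw [Rm_pair h hR x w v v u, Rm_12 h hR x v u w v, Rm_34 h hR x u v w v, neg_neg]
  have hexp : ∀ t : ℝ, Rm g R x (u + t • w) v v (u + t • w) =
      2 * t * Rm g R x u v v w + t ^ 2 * Rm g R x w v v w := by
    intro t
    have e : Rm g R x (u + t • w) v v (u + t • w) = Rm g R x u v v u + t * Rm g R x u v v w +
        t * Rm g R x w v v u + t ^ 2 * Rm g R x w v v w := by
      unfold Rm
      simp only [map_add, map_smul, LinearMap.add_apply, LinearMap.smul_apply, add_apply,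
        smul_apply, smul_eq_mul]
      ring
    rw [e, h0, hs]
    ring
  obtain ⟨B, hB⟩ : ∃ B, B = Rm g R x u v v w := ⟨_, rfl⟩
  obtain ⟨K, hK⟩ : ∃ K, K = Rm g R x w v v w := ⟨_, rfl⟩
  have hK0 : 0 ≤ K := by rw [hK]; exact Rm_nonneg hnn h hR x w v
  have hall : ∀ t : ℝ, 0 ≤ 2 * t * B + t ^ 2 * K := by
    intro t
    rw [hB, hK, ← hexp]
    exact Rm_nonneg hnn h hR x _ v
  rw [← hB]
  by_contra hne
  have h1 := hall (-B / (K + 1))
  have hK1 : 0 < K + 1 := by linarith
  have h2 : 2 * (-B / (K + 1)) * B + (-B / (K + 1)) ^ 2 * K = -(B ^ 2 * (K + 2)) / (K + 1) ^ 2 := by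
    field_simp
    ring
  rw [h2] at h1
  have h3 : 0 < B ^ 2 * (K + 2) := by positivity
  have h4 : -(B ^ 2 * (K + 2)) / (K + 1) ^ 2 < 0 := div_neg_of_neg_of_pos (by linarith) (by positivity)
  linarith

section kill

theorem QQ_skew (h : IsLeviCivita g cov) {X a b c : Π x : M, TangentSpace I x}
    (hX : IsKilling g cov X) (ha : SmV a) (hb : SmV b) (hc : SmV c) (x : M) :
    QQ g cov X a b c x + QQ g cov X a c b x = 0 := by
  have hbX := nabla_smooth h hb hX.smooth
  have hcX := nabla_smooth h hc hX.smooth
  have e0 : (fun y => gi g (nabla cov b X) c y + gi g b (nabla cov c X) y) = fun _ => 0 := by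
    ext y
    exact hX.skew y (b y) (c y)
  have e1 := congrFun (der_add (Z := a) (gi_smooth hbX hc (g := g)) (gi_smooth hb hcX (g := g))) x
  rw [e0, der_const, der_gi h ha hbX hc, der_gi h ha hb hcX] at e1
  have k1 := hX.skew x (b x) (cov c x (a x))
  have k2 := hX.skew x (cov b x (a x)) (c x)
  simp only [gi, nabla] at e1
  unfold QQ
  have s1 := g.symm x (b x) (cov (nabla cov c X) x (a x))
  have s2 := g.symm x (b x) (cov X x (cov c x (a x)))
  linarith

theorem QQ_ricci (h : IsLeviCivita g cov) {R : CurvField I M} (hR : IsRiemannTensor cov R)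
    {X a b : Π x : M, TangentSpace I x} (c : Π x : M, TangentSpace I x)
    (hX : SmV X) (ha : SmV a) (hb : SmV b) (x : M) :
    QQ g cov X a b c x - QQ g cov X b a c x = Rm g R x (a x) (b x) (X x) (c x) := by
  unfold QQ Rm
  rw [hR ha hb hX x]
  unfold curv
  have e : cov X x (mlieBracket I a b x) = cov X x (cov b x (a x)) - cov X x (cov a x (b x)) := by
    rw [← h.torsionFree ha hb x, map_sub]
  rw [e, in_sub_left, in_sub_left, in_sub_left]
  ring

/-- **Killing fields.** The first variation on a flat plane in the direction of minus the square of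
a Killing form. -/
theorem LF_kill (h : IsLeviCivita g cov) {R : CurvField I M} (hR : IsRiemannTensor cov R)
    (hnn : ∀ (x : M) (u v : TangentSpace I x), LinearIndependent ℝ ![u, v] →
      0 ≤ sectionalCurvature g R x u v)
    {X U V : Π x : M, TangentSpace I x} (hX : IsKilling g cov X) (hU : SmV U) (hV : SmV V) (x : M)
    (h0 : Rm g R x (U x) (V x) (V x) (U x) = 0) :
    LF (sq g X) cov U V x = - 3 * g.inner x (cov X x (U x)) (V x) ^ 2 := by
  have h0' : Rm g R x (V x) (U x) (U x) (V x) = 0 := by
    rw [Rm_12 h hR, Rm_34 h hR, h0]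
    simp
  rw [LF_sq h hR hX.smooth hU hV x]
  have k1 := hX.skew x (U x) (U x)
  have k2 := hX.skew x (U x) (V x)
  have s1 := g.symm x (U x) (cov X x (U x))
  have s2 := g.symm x (U x) (cov X x (V x))
  have f1 : Rm g R x (U x) (V x) (V x) (X x) = 0 := flat_ker hnn h hR x h0 (X x)
  have f2 : Rm g R x (V x) (U x) (U x) (X x) = 0 := flat_ker hnn h hR x h0' (X x)
  have q1 := QQ_skew h hX hU hV hV x
  have q2 := QQ_skew h hX hV hV hU x
  have q3 := QQ_skew h hX hU hV hU x
  have q4 := QQ_skew h hX hV hU hU x
  have r1 := QQ_ricci h hR V hX.smooth hU hV x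
  have r2 := QQ_ricci h hR U hX.smooth hU hV x
  have r3 : Rm g R x (U x) (V x) (X x) (V x) = 0 := by rw [Rm_34 h hR, f1, neg_zero]
  have r4 : Rm g R x (U x) (V x) (X x) (U x) = 0 := by
    rw [Rm_34 h hR, Rm_12 h hR, f2]; simp
  have f1' : g.inner x (X x) (R x (U x) (V x) (V x)) = 0 := by rw [g.symm]; exact f1
  have a1 : g.inner x (cov X x (U x)) (U x) = 0 := by linarith
  have a2 : g.inner x (cov X x (V x)) (U x) = - g.inner x (cov X x (U x)) (V x) := by linarith
  have z1 : QQ g cov X U V V x = 0 := by linarith
  have z2 : QQ g cov X V U U x = 0 := by linarith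
  have z3 : QQ g cov X U V U x = 0 := by linarith
  have z4 : QQ g cov X U U V x = 0 := by linarith
  have z5 : QQ g cov X V U V x = 0 := by linarith
  have z6 : QQ g cov X V V U x = 0 := by linarith
  rw [f1', a1, a2, z1, z3, z4, z6]
  ring

end kill

end Pool.Agent.Helper62.KP
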