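import Pool.Agent.Helper62.KP.VConf

/-!
The first variation of the curvature in the direction of the square of a one-form.
-/

open Bundle Manifold ContDiff ContinuousLinearMap Filter VectorField
open scoped Topology

set_option autoImplicit false
set_option synthInstance.maxHeartbeats 400000
set_option maxHeartbeats 4000000
set_option linter.unusedSectionVars false

noncomputable section

namespace Pool.Agent.Helper62.KP

open Pool.Agent.H821R2 Pool.Agent.H821R3 Pool.Agent.H893R5.HO

variable {E : Type*} [NormedAddCommGroup E] [NormedSpace ℝ E] [FiniteDimensional ℝ E]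
  {H : Type*} [TopologicalSpace H] {I : ModelWithCorners ℝ E H}
  {M : Type*} [TopologicalSpace M] [ChartedSpace H M] [IsManifold I ∞ M]
  {g : ContMDiffRiemannianMetric I ∞ E (fun x : M => TangentSpace I x)}
  {cov : CovariantDerivative I E (TangentSpace I : M → Type _)}

/-- the tensor `θ ⊗ θ`, `θ = g(X, ·)` -/
def sq (g : ContMDiffRiemannianMetric I ∞ E (fun x : M => TangentSpace I x))
    (X : Π x : M, TangentSpace I x)
    (x : M) : TangentSpace I x →L[ℝ] TangentSpace I x →L[ℝ] ℝ :=
  (g.inner x (X x)).smulRight (g.inner x (X x))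

theorem sq_apply (X : Π x : M, TangentSpace I x) (x : M) (v w : TangentSpace I x) :
    sq g X x v w = g.inner x (X x) v * g.inner x (X x) w := rfl

theorem sm1_flat {X : Π x : M, TangentSpace I x} (hX : SmV X) : Sm1 (fun x => g.inner x (X x)) := by
  intro x
  apply ContMDiffAt.clm_bundle_apply (F₁ := E) (F₂ := E →L[ℝ] ℝ)
  · exact g.contMDiff x
  · exact hX x

theorem sq_sym {X : Π x : M, TangentSpace I x} (hX : SmV X) : SymTensor (sq g X) where
  smooth := contMDiff_smulRight (sm1_flat hX) (sm1_flat hX)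
  symm x v w := by rw [sq_apply, sq_apply, mul_comm]

theorem bi_sq (X A B : Π x : M, TangentSpace I x) :
    bi (sq g X) A B = fun y => gi g X A y * gi g X B y := rfl

/-- the Koszul expression of `θ ⊗ θ` -/
theorem Kz_sq (h : IsLeviCivita g cov) {X Y Z W : Π x : M, TangentSpace I x} (hX : SmV X)
    (hY : SmV Y) (hZ : SmV Z) (hW : SmV W) :
    Kz (sq g X) Y Z W = fun y => gi g X (nabla cov Y Z) y * gi g X W y +
      (1 / 2) * ((gi g (nabla cov Y X) Z y + gi g (nabla cov Z X) Y y) * gi g X W y +
        gi g X Z y * (gi g (nabla cov Y X) W y - gi g (nabla cov W X) Y y) -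
        gi g X Y y * (gi g (nabla cov W X) Z y - gi g (nabla cov Z X) W y)) := by
  ext y
  have t1 := h.torsionFree hY hZ y
  have t2 := h.torsionFree hY hW y
  have t3 := h.torsionFree hZ hW y
  unfold Kz
  rw [bi_sq, bi_sq, bi_sq, der_mul (gi_smooth hX hZ) (gi_smooth hX hW),
    der_mul (gi_smooth hX hY) (gi_smooth hX hW), der_mul (gi_smooth hX hY) (gi_smooth hX hZ),
    der_gi h hY hX hZ, der_gi h hY hX hW, der_gi h hZ hX hY, der_gi h hZ hX hW,
    der_gi h hW hX hY, der_gi h hW hX hZ, sq_apply, sq_apply, sq_apply, ← t1, ← t2, ← t3]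
  simp only [gi, nabla, map_sub]
  ring

/-- the second covariant derivative of `X`, lowered -/
def QQ (g : ContMDiffRiemannianMetric I ∞ E (fun x : M => TangentSpace I x))
    (cov : CovariantDerivative I E (TangentSpace I : M → Type _))
    (X a b c : Π x : M, TangentSpace I x) (x : M) : ℝ :=
  g.inner x (cov (nabla cov b X) x (a x)) (c x) - g.inner x (cov X x (cov b x (a x))) (c x)

/-- **The first variation in the direction `θ ⊗ θ`.** -/
theorem LF_sq (h : IsLeviCivita g cov) {R : CurvField I M} (hR : IsRiemannTensor cov R)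
    {X U V : Π x : M, TangentSpace I x} (hX : SmV X) (hU : SmV U) (hV : SmV V) (x : M) :
    LF (sq g X) cov U V x =
      g.inner x (cov X x (U x)) (U x) * g.inner x (cov X x (V x)) (V x) +
      g.inner x (cov X x (U x)) (V x) * g.inner x (cov X x (V x)) (U x) -
      g.inner x (cov X x (U x)) (V x) ^ 2 - g.inner x (cov X x (V x)) (U x) ^ 2 +
      g.inner x (X x) (U x) * g.inner x (X x) (R x (U x) (V x) (V x)) +
      g.inner x (X x) (U x) * (QQ g cov X U V V x - QQ g cov X V V U x) +
      g.inner x (X x) (V x) * (QQ g cov X U V U x - QQ g cov X U U V x) := by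
  have hA := nabla_smooth h hU hU
  have hB := nabla_smooth h hV hV
  have hC := nabla_smooth h hU hV
  have hD := nabla_smooth h hV hU
  have hW := smooth_bracket hU hV
  have hUX := nabla_smooth h hU hX
  have hVX := nabla_smooth h hV hX
  have hT := h.torsionFree hU hV x
  unfold LF tau
  rw [Kz_sq h hX hV hV hU, Kz_sq h hX hU hV hU, Kz_sq h hX hW hV hU, Kz_sq h hX hV hV hA,
    Kz_sq h hX hU hU hB, Kz_sq h hX hU hV hD, Kz_sq h hX hV hU hC,
    der_form (gi_smooth hX hB) (gi_smooth hX hU)
      ((gi_smooth hVX hV).add (gi_smooth hVX hV)) (gi_smooth hX hU) (gi_smooth hX hV)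
      ((gi_smooth hVX hU).sub (gi_smooth hUX hV)) (gi_smooth hX hV)
      ((gi_smooth hUX hV).sub (gi_smooth hVX hU)),
    der_form (gi_smooth hX hC) (gi_smooth hX hU)
      ((gi_smooth hUX hV).add (gi_smooth hVX hU)) (gi_smooth hX hU) (gi_smooth hX hV)
      ((gi_smooth hUX hU).sub (gi_smooth hUX hU)) (gi_smooth hX hU)
      ((gi_smooth hUX hV).sub (gi_smooth hVX hU)),
    der_add (gi_smooth hVX hV) (gi_smooth hVX hV), der_add (gi_smooth hUX hV) (gi_smooth hVX hU),
    der_sub (gi_smooth hVX hU) (gi_smooth hUX hV), der_sub (gi_smooth hUX hV) (gi_smooth hVX hU),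
    der_sub (gi_smooth hUX hU) (gi_smooth hUX hU), der_sub (gi_smooth hUX hV) (gi_smooth hVX hU),
    der_gi h hU hX hB, der_gi h hU hX hU, der_gi h hU hVX hV, der_gi h hU hX hV,
    der_gi h hU hVX hU, der_gi h hU hUX hV, der_gi h hV hX hC, der_gi h hV hX hU,
    der_gi h hV hUX hV, der_gi h hV hVX hU, der_gi h hV hX hV, der_gi h hV hUX hU,
    hR hU hV hV x]
  unfold curv QQ
  simp only [gi, nabla, sq_apply]
  rw [← hT]
  simp only [map_sub, sub_apply]
  ring

end Pool.Agent.Helper62.KP
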