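import Pool.Agent.Helper62.KP.Kz

/-!
Uniform estimate of the second order remainder of the curvature under linear variations of the
metric.
-/

open Bundle Manifold ContDiff ContinuousLinearMap Filter VectorField
open scoped Topology

set_option autoImplicit false
set_option synthInstance.maxHeartbeats 400000
set_option maxHeartbeats 4000000
set_option linter.unusedSectionVars false

noncomputable section

namespace Pool.Agent.Helper62.KP

open Pool.Agent.H821R2 Pool.Agent.H821R3 Pool.Agent.H893R5.HO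

variable {E : Type*} [NormedAddCommGroup E] [NormedSpace ℝ E] [FiniteDimensional ℝ E]
  {H : Type*} [TopologicalSpace H] {I : ModelWithCorners ℝ E H}
  {M : Type*} [TopologicalSpace M] [ChartedSpace H M] [IsManifold I ∞ M]

variable (g : ContMDiffRiemannianMetric I ∞ E (fun x : M => TangentSpace I x))

/-- the norm -/
def nm (x : M) (v : TangentSpace I x) : ℝ := Real.sqrt (g.inner x v v)

theorem nm_nonneg (x : M) (v : TangentSpace I x) : 0 ≤ nm g x v := Real.sqrt_nonneg _

theorem nm_sq (x : M) (v : TangentSpace I x) : nm g x v ^ 2 = g.inner x v v :=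
  Real.sq_sqrt (in_nonneg g x v)

theorem in_le (x : M) (u v : TangentSpace I x) : |g.inner x u v| ≤ nm g x u * nm g x v := by
  have h := in_cs g x u v
  rw [← nm_sq, ← nm_sq g x v, ← mul_pow] at h
  have h2 := Real.abs_le_sqrt h
  rwa [Real.sqrt_sq (mul_nonneg (nm_nonneg g x u) (nm_nonneg g x v))] at h2

variable {N : ℕ} (D : FrameData I M (Fin N)) [T2Space M] [CompactSpace M]

theorem bound_Fv' : ∃ K : ℝ, 0 ≤ K ∧ ∀ (x : M) (v : TangentSpace I x) (j : Fin N),
    |Fv D x v j| ≤ K * nm g x v := by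
  obtain ⟨C, hC, h⟩ := bound_Fv g D
  refine ⟨Real.sqrt C, Real.sqrt_nonneg _, fun x v j => ?_⟩
  have := Real.abs_le_sqrt (h x v j)
  rwa [Real.sqrt_mul hC] at this

/-- bilinear tensors are bounded -/
theorem bound_bil {h : Π x : M, TangentSpace I x →L[ℝ] TangentSpace I x →L[ℝ] ℝ} (hh : SmG h) :
    ∃ C : ℝ, 0 ≤ C ∧ ∀ (x : M) (v w : TangentSpace I x),
      |h x v w| ≤ C * (nm g x v * nm g x w) := by
  obtain ⟨N, D, -⟩ := exists_frame I M
  obtain ⟨K, hK, hF⟩ := bound_Fv' g D
  obtain ⟨C, hC, hc⟩ := bdd_family (q := fun (k : Fin N × Fin N) => bi h (D.e k.1) (D.e k.2))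
    (fun k => (bi_smooth hh (D.he _) (D.he _)).continuous)
  refine ⟨∑ _i : Fin N, ∑ _j : Fin N, K * K * C, by positivity, fun x v w => ?_⟩
  have e1 : h x v w = ∑ i, ∑ j, Fv D x v i * (Fv D x w j * h x (D.e i x) (D.e j x)) := by
    have hv : h x v = ∑ i, Fv D x v i • h x (D.e i x) := by
      conv_lhs => rw [← D.repr x v, map_sum]
      exact Finset.sum_congr rfl fun i _ => map_smul _ _ _
    rw [hv, sum_apply]
    refine Finset.sum_congr rfl fun i _ => ?_
    rw [smul_apply, smul_eq_mul]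
    have hw : h x (D.e i x) w = ∑ j, Fv D x w j * h x (D.e i x) (D.e j x) := by
      conv_lhs => rw [← D.repr x w, map_sum]
      exact Finset.sum_congr rfl fun i _ => map_smul _ _ _
    rw [hw, Finset.mul_sum]
  rw [e1, Finset.sum_mul]
  refine (Finset.abs_sum_le_sum_abs _ _).trans (Finset.sum_le_sum fun i _ => ?_)
  rw [Finset.sum_mul]
  refine (Finset.abs_sum_le_sum_abs _ _).trans (Finset.sum_le_sum fun j _ => ?_)
  rw [abs_mul, abs_mul]
  have h1 := hF x v i
  have h2 := hF x w j
  have h3 : |h x (D.e i x) (D.e j x)| ≤ C := hc (i, j) x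
  have n1 := nm_nonneg g x v
  have n2 := nm_nonneg g x w
  calc |Fv D x v i| * (|Fv D x w j| * |h x (D.e i x) (D.e j x)|)
      ≤ (K * nm g x v) * ((K * nm g x w) * C) :=
        mul_le_mul h1 (mul_le_mul h2 h3 (abs_nonneg _) (by positivity)) (by positivity)
          (by positivity)
    _ = K * K * C * (nm g x v * nm g x w) := by ring

/-- the derivatives of a finite family of functions are bounded -/
theorem bound_d {κ : Type} [Fintype κ] {q : κ → M → ℝ} (hq : ∀ k, Sm I (q k)) :
    ∃ C : ℝ, 0 ≤ C ∧ ∀ (k : κ) (x : M) (v : TangentSpace I x),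
      |mvfderiv I (q k) x v| ≤ C * nm g x v := by
  choose G hG using fun k => exists_grad g (hq k)
  obtain ⟨C, hC0, hC⟩ := bdd_family (q := fun k => gi g (G k) (G k))
    (fun k => (gi_smooth (hG k).smooth (hG k).smooth).continuous)
  refine ⟨Real.sqrt C, Real.sqrt_nonneg _, fun k x v => ?_⟩
  rw [← (hG k).inner]
  refine (in_le g x _ _).trans (mul_le_mul_of_nonneg_right ?_ (nm_nonneg g x v))
  exact Real.sqrt_le_sqrt ((le_abs_self _).trans (hC k x))

/-- the trilinear form -/
def S3 (q : Fin N → Fin N → M → ℝ) (x : M) (v w z : TangentSpace I x) : ℝ :=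
  ∑ i, ∑ j, mvfderiv I (D.f i) x w * mvfderiv I (D.f j) x z * mvfderiv I (q i j) x v

theorem bound_S3 {q : Fin N → Fin N → M → ℝ} (hq : ∀ i j, Sm I (q i j)) :
    ∃ C : ℝ, 0 ≤ C ∧ ∀ (x : M) (v w z : TangentSpace I x),
      |S3 D q x v w z| ≤ C * (nm g x v * nm g x w * nm g x z) := by
  obtain ⟨K, hK, hF⟩ := bound_Fv' g D
  obtain ⟨C, hC, hc⟩ := bound_d g (q := fun (k : Fin N × Fin N) => q k.1 k.2)
    (fun k => hq k.1 k.2)
  refine ⟨∑ _i : Fin N, ∑ _j : Fin N, K * K * C, by positivity, fun x v w z => ?_⟩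
  unfold S3
  rw [Finset.sum_mul]
  refine (Finset.abs_sum_le_sum_abs _ _).trans (Finset.sum_le_sum fun i _ => ?_)
  rw [Finset.sum_mul]
  refine (Finset.abs_sum_le_sum_abs _ _).trans (Finset.sum_le_sum fun j _ => ?_)
  rw [abs_mul, abs_mul]
  have h1 : |mvfderiv I (D.f i) x w| ≤ K * nm g x w := hF x w i
  have h2 : |mvfderiv I (D.f j) x z| ≤ K * nm g x z := hF x z j
  have h3 := hc (i, j) x v
  have n1 := nm_nonneg g x v
  have n2 := nm_nonneg g x w
  have n3 := nm_nonneg g x z
  calc |mvfderiv I (D.f i) x w| * |mvfderiv I (D.f j) x z| * |mvfderiv I (q i j) x v|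
      ≤ (K * nm g x w) * (K * nm g x z) * (C * nm g x v) :=
        mul_le_mul (mul_le_mul h1 h2 (abs_nonneg _) (by positivity)) h3 (abs_nonneg _)
          (by positivity)
    _ = _ := by ring

variable {g} {cov : CovariantDerivative I E (TangentSpace I : M → Type _)}
  {h : Π x : M, TangentSpace I x →L[ℝ] TangentSpace I x →L[ℝ] ℝ}

/-- **Bound for the difference of the connections.** -/
theorem bound_A [Nontrivial E] (hh : SmG h) (hc : IsLeviCivita g cov) :
    ∃ C s₀ : ℝ, 0 ≤ C ∧ 0 < s₀ ∧ ∀ (s : ℝ), |s| ≤ s₀ →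
      ∀ (g' : ContMDiffRiemannianMetric I ∞ E (fun x : M => TangentSpace I x))
        (cov' : CovariantDerivative I E (TangentSpace I : M → Type _)),
      (∀ x (v w : TangentSpace I x), g'.inner x v w = g.inner x v w + s * h x v w) →
      IsLeviCivita g' cov' → ∀ (X Y : Π x : M, TangentSpace I x), SmV X → SmV Y → ∀ x : M,
        nm g' x (cov' Y x (X x) - cov Y x (X x)) ≤ C * |s| * (nm g x (X x) * nm g x (Y x)) := by
  obtain ⟨N, D, -⟩ := exists_frame I M
  choose Xg hXg using fun i => exists_grad g (D.hf i)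
  obtain ⟨Ch, hCh, hbh⟩ := bound_bil g hh
  obtain ⟨C1, hC1, hS1⟩ := bound_S3 g D (q := fun i j => bi h (D.e i) (D.e j))
    (fun i j => bi_smooth hh (D.he i) (D.he j))
  obtain ⟨C2, hC2, hS2⟩ := bound_S3 g D (q := fun i j => D.gc g i j) (D.gc_smooth g)
  -- the norm of the difference tensor of `g`
  have hdif : ∀ (x : M) (w v : TangentSpace I x),
      nm g x (D.dif g Xg x w v) ≤ 3 / 2 * C2 * (nm g x v * nm g x w) := by
    intro x w v
    obtain ⟨z, hz⟩ : ∃ z, z = D.dif g Xg x w v := ⟨_, rfl⟩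
    have h1 := D.dif_inner g (fun i x v => (hXg i).inner x v) x w v z
    rw [← hz] at h1 ⊢
    have b1 := (le_abs_self _).trans (hS2 x v w z)
    have b2 := (le_abs_self _).trans (hS2 x w v z)
    have b3 := (neg_le_abs _).trans (hS2 x z v w)
    have e1 : S3 D (fun i j => D.gc g i j) x v w z = D.S g x v w z := rfl
    have e2 : S3 D (fun i j => D.gc g i j) x w v z = D.S g x w v z := rfl
    have e3 : S3 D (fun i j => D.gc g i j) x z v w = D.S g x z v w := rfl
    rw [e1] at b1
    rw [e2] at b2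
    rw [e3] at b3
    have n1 := nm_nonneg g x v
    have n2 := nm_nonneg g x w
    have n3 := nm_nonneg g x z
    have h2 : nm g x z ^ 2 ≤ 3 / 2 * C2 * (nm g x v * nm g x w) * nm g x z := by
      rw [nm_sq, h1]
      nlinarith
    by_cases h0 : nm g x z = 0
    · rw [h0]; positivity
    · have h3 : 0 < nm g x z := lt_of_le_of_ne n3 (Ne.symm h0)
      rw [sq] at h2
      exact le_of_mul_le_mul_right h2 h3
  refine ⟨2 * (3 / 2 * C1 + Ch * (3 / 2 * C2)), 1 / (2 * (Ch + 1)), by positivity, by positivity,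
    ?_⟩
  intro s hs g' cov' hg' hc' X Y hX hY x
  choose Xg' hXg' using fun i => exists_grad g' (D.hf i)
  have l1 := lc_unique hc (D.isLeviCivita_lc g (fun i => (hXg i).smooth)
    (fun i x v => (hXg i).inner x v)) hX hY x
  have l2 := lc_unique hc' (D.isLeviCivita_lc g' (fun i => (hXg' i).smooth)
    (fun i x v => (hXg' i).inner x v)) hX hY x
  obtain ⟨A, hA⟩ : ∃ A, A = cov' Y x (X x) - cov Y x (X x) := ⟨_, rfl⟩
  have hA' : A = D.dif g' Xg' x (Y x) (X x) - D.dif g Xg x (Y x) (X x) := by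
    rw [hA, l1, l2, D.lc_apply, D.lc_apply]
    abel
  rw [← hA]
  -- inner product with a vector
  have key : g'.inner x A A = s * ((1 / 2) * (S3 D (fun i j => bi h (D.e i) (D.e j)) x (X x) (Y x) A
      + S3 D (fun i j => bi h (D.e i) (D.e j)) x (Y x) (X x) A -
      S3 D (fun i j => bi h (D.e i) (D.e j)) x A (X x) (Y x)) -
      h x (D.dif g Xg x (Y x) (X x)) A) := by
    have hSl : ∀ v w z : TangentSpace I x, D.S g' x v w z = D.S g x v w z +
        s * S3 D (fun i j => bi h (D.e i) (D.e j)) x v w z := by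
      intro v w z
      unfold FrameData.S S3
      rw [Finset.mul_sum, ← Finset.sum_add_distrib]
      refine Finset.sum_congr rfl fun i _ => ?_
      rw [Finset.mul_sum, ← Finset.sum_add_distrib]
      refine Finset.sum_congr rfl fun j _ => ?_
      have e1 : D.gc g' i j = fun y => D.gc g i j y + s * bi h (D.e i) (D.e j) y := by
        ext y
        exact hg' y _ _
      have e2 := congrFun (der_lin (X := xt x v) (D.gc_smooth g i j)
        (bi_smooth hh (D.he i) (D.he j)) s) x
      simp only [der_apply, xt_self] at e2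
      rw [e1, e2]
      ring
    have k1 : g'.inner x A A = g'.inner x (D.dif g' Xg' x (Y x) (X x)) A -
        g'.inner x (D.dif g Xg x (Y x) (X x)) A := by
      rw [← in_sub_left, ← hA']
    rw [k1, D.dif_inner g' (fun i x v => (hXg' i).inner x v), hg' x (D.dif g Xg x (Y x) (X x)) A,
      D.dif_inner g (fun i x v => (hXg i).inner x v), hSl, hSl, hSl]
    ring
  have n1 := nm_nonneg g x (X x)
  have n2 := nm_nonneg g x (Y x)
  have n3 := nm_nonneg g x A
  have n4 := nm_nonneg g' x A
  have b1 := hS1 x (X x) (Y x) A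
  have b2 := hS1 x (Y x) (X x) A
  have b3 := hS1 x A (X x) (Y x)
  have b4 := hbh x (D.dif g Xg x (Y x) (X x)) A
  have b5 := hdif x (Y x) (X x)
  have b6 : |h x (D.dif g Xg x (Y x) (X x)) A| ≤
      Ch * (3 / 2 * C2) * (nm g x (X x) * nm g x (Y x) * nm g x A) := by
    refine b4.trans ?_
    have := mul_le_mul_of_nonneg_left (mul_le_mul_of_nonneg_right b5 n3) hCh
    refine this.trans (le_of_eq ?_)
    ring
  have key2 : nm g' x A ^ 2 ≤ |s| * ((3 / 2 * C1 + Ch * (3 / 2 * C2)) *
      (nm g x (X x) * nm g x (Y x) * nm g x A)) := by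
    rw [nm_sq, key]
    refine (le_abs_self _).trans ?_
    rw [abs_mul]
    refine mul_le_mul_of_nonneg_left ?_ (abs_nonneg s)
    have c1 := abs_sub ((1 / 2) * (S3 D (fun i j => bi h (D.e i) (D.e j)) x (X x) (Y x) A
      + S3 D (fun i j => bi h (D.e i) (D.e j)) x (Y x) (X x) A -
      S3 D (fun i j => bi h (D.e i) (D.e j)) x A (X x) (Y x)))
      (h x (D.dif g Xg x (Y x) (X x)) A)
    refine c1.trans ?_
    have c2 : |(1 / 2) * (S3 D (fun i j => bi h (D.e i) (D.e j)) x (X x) (Y x) A
      + S3 D (fun i j => bi h (D.e i) (D.e j)) x (Y x) (X x) A -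
      S3 D (fun i j => bi h (D.e i) (D.e j)) x A (X x) (Y x))| ≤
      3 / 2 * C1 * (nm g x (X x) * nm g x (Y x) * nm g x A) := by
      rw [abs_mul, abs_of_pos (show (0 : ℝ) < 1 / 2 by norm_num)]
      have c3 := abs_sub (S3 D (fun i j => bi h (D.e i) (D.e j)) x (X x) (Y x) A
        + S3 D (fun i j => bi h (D.e i) (D.e j)) x (Y x) (X x) A)
        (S3 D (fun i j => bi h (D.e i) (D.e j)) x A (X x) (Y x))
      have c4 := abs_add_le (S3 D (fun i j => bi h (D.e i) (D.e j)) x (X x) (Y x) A)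
        (S3 D (fun i j => bi h (D.e i) (D.e j)) x (Y x) (X x) A)
      have c5 : nm g x (Y x) * nm g x (X x) * nm g x A =
        nm g x (X x) * nm g x (Y x) * nm g x A := by ring
      have c6 : nm g x A * nm g x (X x) * nm g x (Y x) =
        nm g x (X x) * nm g x (Y x) * nm g x A := by ring
      rw [c5] at b2
      rw [c6] at b3
      linarith
    linarith
  -- compare the norms
  have hcomp : nm g x A ≤ 2 * nm g' x A := by
    have h1 : nm g' x A ^ 2 = nm g x A ^ 2 + s * h x A A := by rw [nm_sq, nm_sq, hg']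
    have h2 := hbh x A A
    have h3 : |s * h x A A| ≤ 1 / 2 * nm g x A ^ 2 := by
      rw [abs_mul]
      calc |s| * |h x A A| ≤ 1 / (2 * (Ch + 1)) * (Ch * (nm g x A * nm g x A)) :=
            mul_le_mul hs h2 (abs_nonneg _) (by positivity)
        _ = (Ch / (Ch + 1)) * (1 / 2 * nm g x A ^ 2) := by
            field_simp
        _ ≤ 1 * (1 / 2 * nm g x A ^ 2) := by
            refine mul_le_mul_of_nonneg_right ?_ (by positivity)
            rw [div_le_one (by positivity)]
            linarith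
        _ = _ := one_mul _
    have h4 := (abs_le.1 h3).1
    have h5 : nm g x A ^ 2 ≤ (2 * nm g' x A) ^ 2 := by nlinarith
    exact (pow_le_pow_iff_left₀ n3 (by positivity) two_ne_zero).1 h5
  have hfin : nm g' x A * nm g' x A ≤ (2 * (3 / 2 * C1 + Ch * (3 / 2 * C2)) * |s| *
      (nm g x (X x) * nm g x (Y x))) * nm g' x A := by
    have h1 : (nm g x (X x) * nm g x (Y x) * nm g x A) ≤
        nm g x (X x) * nm g x (Y x) * (2 * nm g' x A) :=
      mul_le_mul_of_nonneg_left hcomp (by positivity)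
    have h2 : |s| * ((3 / 2 * C1 + Ch * (3 / 2 * C2)) *
      (nm g x (X x) * nm g x (Y x) * nm g x A)) ≤ |s| * ((3 / 2 * C1 + Ch * (3 / 2 * C2)) *
      (nm g x (X x) * nm g x (Y x) * (2 * nm g' x A))) :=
      mul_le_mul_of_nonneg_left (mul_le_mul_of_nonneg_left h1 (by positivity)) (abs_nonneg s)
    nlinarith
  by_cases h0 : nm g' x A = 0
  · rw [h0]; positivity
  · exact le_of_mul_le_mul_right hfin (lt_of_le_of_ne n4 (Ne.symm h0))

end Pool.Agent.Helper62.KP
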