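import Pool.Agent.Helper62.KP.Var
import Pool.Agent.Helper62.KP.Main

/-!
The first variation of the curvature: linearity, continuity, and deformation to positive curvature.
-/

open Bundle Manifold ContDiff ContinuousLinearMap Filter VectorField
open scoped Topology

set_option autoImplicit false
set_option synthInstance.maxHeartbeats 400000
set_option maxHeartbeats 4000000
set_option linter.unusedSectionVars false

noncomputable section

namespace Pool.Agent.Helper62.KP

open Pool.Agent.H821R2 Pool.Agent.H821R3 Pool.Agent.H893R5.HO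

section gen

variable {E : Type*} [NormedAddCommGroup E] [NormedSpace ℝ E] [FiniteDimensional ℝ E]
  {H : Type*} [TopologicalSpace H] {I : ModelWithCorners ℝ E H}
  {M : Type*} [TopologicalSpace M] [ChartedSpace H M] [IsManifold I ∞ M]

theorem ortho_li {g : ContMDiffRiemannianMetric I ∞ E (fun x : M => TangentSpace I x)}
    {x : M} {u v : TangentSpace I x} (huv : OrthoPair g x u v) : LinearIndependent ℝ ![u, v] := by
  obtain ⟨h1, h2, h3⟩ := huv
  rw [LinearIndependent.pair_iff]
  intro s t hst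
  have e1 : g.inner x u (s • u + t • v) = 0 := by rw [hst, map_zero]
  have e2 : g.inner x v (s • u + t • v) = 0 := by rw [hst, map_zero]
  rw [map_add, map_smul, map_smul, h1, h3] at e1
  rw [map_add, map_smul, map_smul, g.symm x v u, h2, h3] at e2
  simp at e1 e2
  exact ⟨e1, e2⟩

/-- The sign of the curvature numerator of `g'` may be tested on `g`-orthonormal pairs. -/
theorem num_pos [T2Space M] [CompactSpace M] [Nontrivial E]
    {g g' : ContMDiffRiemannianMetric I ∞ E (fun x : M => TangentSpace I x)}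
    {cov : CovariantDerivative I E (TangentSpace I : M → Type _)}
    (h : IsLeviCivita g' cov) {R : CurvField I M} (hR : IsRiemannTensor cov R)
    (x : M)
    (hpos : ∀ (u v : TangentSpace I x), OrthoPair g x u v → 0 < g'.inner x (R x u v v) u)
    (u v : TangentSpace I x) (huv : LinearIndependent ℝ ![u, v]) :
    0 < g'.inner x (R x u v v) u := by
  have hskew : ∀ a b c d : TangentSpace I x,
      g'.inner x (R x a b c) d = - g'.inner x c (R x a b d) := by
    let _ : RiemannianBundle (fun x : M => TangentSpace I x) := ⟨g'.toRiemannianMetric⟩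
    have h' : IsLeviCivitaB cov := ⟨h.smooth, h.metric, h.torsionFree⟩
    exact (isCurvatureTensor h' hR x).skew
  have hanti : ∀ a b c : TangentSpace I x, R x a b c = - R x b a c := by
    let _ : RiemannianBundle (fun x : M => TangentSpace I x) := ⟨g'.toRiemannianMetric⟩
    have h' : IsLeviCivitaB cov := ⟨h.smooth, h.metric, h.torsionFree⟩
    exact (isCurvatureTensor h' hR x).antisymm
  have h0 : ∀ a c : TangentSpace I x, R x a a c = 0 := fun a c => by
    have h2 : (2 : ℝ) • R x a a c = 0 := by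
      rw [two_smul]
      nth_rewrite 1 [hanti a a c]
      exact neg_add_cancel _
    rcases smul_eq_zero.1 h2 with h2 | h2
    · norm_num at h2
    · exact h2
  have h1 : ∀ a b c : TangentSpace I x, g'.inner x (R x a b c) c = 0 := fun a b c => by
    have := hskew a b c c
    rw [g'.symm x c] at this
    linarith
  have hu : u ≠ 0 := by
    have := huv.ne_zero 0
    simpa using this
  have huu : 0 < g.inner x u u := g.pos x u hu
  set s : ℝ := g.inner x u v / g.inner x u u with hs
  set w : TangentSpace I x := v - s • u with hw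
  have hw0 : w ≠ 0 := by
    intro hh
    rw [hw, sub_eq_zero] at hh
    rw [LinearIndependent.pair_iff] at huv
    have := huv s (-1) (by rw [hh]; simp)
    norm_num at this
  have hww : 0 < g.inner x w w := g.pos x w hw0
  have huw : g.inner x u w = 0 := by
    rw [hw, map_sub, map_smul, smul_eq_mul, hs]
    field_simp
    ring
  set p := Real.sqrt (g.inner x u u) with hp
  set q := Real.sqrt (g.inner x w w) with hq
  have hp0 : 0 < p := Real.sqrt_pos.2 huu
  have hq0 : 0 < q := Real.sqrt_pos.2 hww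
  have hpp : p * p = g.inner x u u := Real.mul_self_sqrt huu.le
  have hqq : q * q = g.inner x w w := Real.mul_self_sqrt hww.le
  have smul_l : ∀ (k : ContMDiffRiemannianMetric I ∞ E (fun x : M => TangentSpace I x))
      (c : ℝ) (a b : TangentSpace I x), k.inner x (c • a) b = c * k.inner x a b := by
    intro k c a b
    rw [map_smul]; rfl
  have smul_r : ∀ (k : ContMDiffRiemannianMetric I ∞ E (fun x : M => TangentSpace I x))
      (c : ℝ) (a b : TangentSpace I x), k.inner x a (c • b) = c * k.inner x a b := by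
    intro k c a b
    rw [map_smul]; rfl
  have hop : OrthoPair g x (p⁻¹ • u) (q⁻¹ • w) := by
    refine ⟨?_, ?_, ?_⟩
    · rw [smul_l, smul_r, ← hpp]; field_simp
    · rw [smul_l, smul_r, ← hqq]; field_simp
    · rw [smul_l, smul_r, huw]; simp
  have hk := hpos _ _ hop
  have hsec : g'.inner x (R x (p⁻¹ • u) (q⁻¹ • w) (q⁻¹ • w)) (p⁻¹ • u) =
      (p⁻¹ * q⁻¹) ^ 2 * g'.inner x (R x u v v) u := by
    have e1 : R x (p⁻¹ • u) (q⁻¹ • w) (q⁻¹ • w) = (p⁻¹ * q⁻¹ * q⁻¹) • R x u w w := by
      simp only [map_smul, LinearMap.smul_apply, smul_smul]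
      congr 1
      ring
    have e2 : R x u w w = R x u v v - s • R x u v u := by
      have : R x u w = R x u v := by
        rw [hw, map_sub, map_smul]
        have : R x u u = 0 := LinearMap.ext fun c => h0 u c
        rw [this, smul_zero, sub_zero]
      rw [this, hw, map_sub, map_smul]
    rw [e1, smul_l, smul_r, e2]
    have e3 : g'.inner x (R x u v v - s • R x u v u) u = g'.inner x (R x u v v) u := by
      have : g'.inner x (R x u v v - s • R x u v u) u =
        g'.inner x (R x u v v) u - s * g'.inner x (R x u v u) u := by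
        rw [map_sub, map_smul]; rfl
      rw [this, h1]; ring
    rw [e3]
    ring
  rw [hsec] at hk
  have hpq : 0 < (p⁻¹ * q⁻¹) ^ 2 := by positivity
  exact (pos_iff_pos_of_mul_pos hk).1 hpq

theorem der_lin2 {X : Π x : M, TangentSpace I x} {a c d : M → ℝ} {s : ℝ} (ha : Sm I a)
    (hc : Sm I c) (hd : d = fun y => a y + s * c y) (x : M) :
    der X d x = der X a x + s * der X c x := by
  rw [hd, der_lin ha hc]

section lin

variable {cov : CovariantDerivative I E (TangentSpace I : M → Type _)}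
  {g : ContMDiffRiemannianMetric I ∞ E (fun x : M => TangentSpace I x)}
  {b b' h : Π x : M, TangentSpace I x →L[ℝ] TangentSpace I x →L[ℝ] ℝ} {s : ℝ}

theorem tau_lin (hb : SmG b) (hh : SmG h)
    (hbb : ∀ x (v w : TangentSpace I x), b' x v w = b x v w + s * h x v w)
    {X Y Z : Π x : M, TangentSpace I x} (hX : SmV X) (hY : SmV Y) (hZ : SmV Z) (x : M) :
    tau b' cov X Y Z x = tau b cov X Y Z x + s * tau h cov X Y Z x := by
  unfold tau
  rw [Kz_lin hb hh hbb hX hY hZ, hbb]
  ring

theorem LF_lin (hc : IsLeviCivita g cov) (hb : SmG b) (hh : SmG h)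
    (hbb : ∀ x (v w : TangentSpace I x), b' x v w = b x v w + s * h x v w)
    {X Y : Π x : M, TangentSpace I x} (hX : SmV X) (hY : SmV Y) (x : M) :
    LF b' cov X Y x = LF b cov X Y x + s * LF h cov X Y x := by
  have hXX := nabla_smooth hc hX hX
  have hYY := nabla_smooth hc hY hY
  have hXY := nabla_smooth hc hX hY
  have hYX := nabla_smooth hc hY hX
  unfold LF
  rw [Kz_lin hb hh hbb hY hY hX, Kz_lin hb hh hbb hX hY hX,
    Kz_lin hb hh hbb (smooth_bracket hX hY) hY hX,
    der_lin (Kz_smooth hb hY hY hX) (Kz_smooth hh hY hY hX),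
    der_lin (Kz_smooth hb hX hY hX) (Kz_smooth hh hX hY hX), hbb, hbb,
    tau_lin hb hh hbb hY hY hXX, tau_lin hb hh hbb hX hX hYY, tau_lin hb hh hbb hX hY hYX,
    tau_lin hb hh hbb hY hX hXY]
  ring

end lin

variable [T2Space M] [CompactSpace M]

/-- the first variation of the curvature numerator -/
def LV (h : Π x : M, TangentSpace I x →L[ℝ] TangentSpace I x →L[ℝ] ℝ)
    (cov : CovariantDerivative I E (TangentSpace I : M → Type _)) (x : M)
    (u v : TangentSpace I x) : ℝ := LF h cov (xt x u) (xt x v) x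

variable {g : ContMDiffRiemannianMetric I ∞ E (fun x : M => TangentSpace I x)}
  {cov : CovariantDerivative I E (TangentSpace I : M → Type _)}
  {h : Π x : M, TangentSpace I x →L[ℝ] TangentSpace I x →L[ℝ] ℝ}

/-- **Uniform expansion.** -/
theorem expand_bound [Nontrivial E] (hh : SmG h) (hc : IsLeviCivita g cov) :
    ∃ C s₀ : ℝ, 0 ≤ C ∧ 0 < s₀ ∧ ∀ (s : ℝ), |s| ≤ s₀ →
      ∀ (g' : ContMDiffRiemannianMetric I ∞ E (fun x : M => TangentSpace I x))
        (cov' : CovariantDerivative I E (TangentSpace I : M → Type _)) (R R' : CurvField I M),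
      (∀ x (v w : TangentSpace I x), g'.inner x v w = g.inner x v w + s * h x v w) →
      IsLeviCivita g' cov' → IsRiemannTensor cov R → IsRiemannTensor cov' R' →
      ∀ (x : M) (u v : TangentSpace I x), OrthoPair g x u v →
        |g'.inner x (R' x u v v) u - (g.inner x (R x u v v) u + s * LV h cov x u v)| ≤
          C * s ^ 2 := by
  obtain ⟨C, s₀, hC, hs₀, hA⟩ := bound_A hh hc
  refine ⟨2 * C ^ 2, s₀, by positivity, hs₀, ?_⟩
  intro s hs g' cov' R R' hg' hc' hR hR' x u v huv
  have hX := xt_smooth (I := I) x u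
  have hY := xt_smooth (I := I) x v
  have e := curv_expand hh hg' hc hc' hR hR' hX hY x
  rw [xt_self, xt_self] at e
  have n1 : nm g x u = 1 := by unfold nm; rw [huv.1, Real.sqrt_one]
  have n2 : nm g x v = 1 := by unfold nm; rw [huv.2.1, Real.sqrt_one]
  have a1 := hA s hs g' cov' hg' hc' _ _ hY hY x
  have a2 := hA s hs g' cov' hg' hc' _ _ hX hX x
  have a3 := hA s hs g' cov' hg' hc' _ _ hX hY x
  have a4 := hA s hs g' cov' hg' hc' _ _ hY hX x
  rw [xt_self] at a1 a2
  rw [xt_self, xt_self] at a3 a4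
  rw [n1] at a2
  rw [n2] at a1
  rw [n1, n2] at a3 a4
  simp only [mul_one] at a1 a2 a3 a4
  rw [e]
  have p1 := (in_le g' x (cov' (xt x v) x v - cov (xt x v) x v)
    (cov' (xt x u) x u - cov (xt x u) x u)).trans
    (mul_le_mul a1 a2 (nm_nonneg g' x _) (by positivity))
  have p2 := (in_le g' x (cov' (xt x v) x u - cov (xt x v) x u)
    (cov' (xt x u) x v - cov (xt x u) x v)).trans
    (mul_le_mul a3 a4 (nm_nonneg g' x _) (by positivity))
  have hsq : C * |s| * (C * |s|) = C ^ 2 * s ^ 2 := by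
    have : |s| * |s| = s ^ 2 := by rw [← sq, sq_abs]
    calc C * |s| * (C * |s|) = C ^ 2 * (|s| * |s|) := by ring
      _ = _ := by rw [this]
  rw [hsq] at p1 p2
  have q1 := abs_le.1 p1
  have q2 := abs_le.1 p2
  unfold LV
  rw [abs_le]
  constructor <;> linarith [q1.1, q1.2, q2.1, q2.2]

/-- The metric `g + s h`. -/
def addMet (g : ContMDiffRiemannianMetric I ∞ E (fun x : M => TangentSpace I x))
    (h : Π x : M, TangentSpace I x →L[ℝ] TangentSpace I x →L[ℝ] ℝ) (hh : SymTensor h) (s : ℝ)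
    (hpos : ∀ (x : M) (v : TangentSpace I x), v ≠ 0 → 0 < g.inner x v v + s * h x v v) :
    ContMDiffRiemannianMetric I ∞ E (fun x : M => TangentSpace I x) where
  inner x := g.inner x + s • h x
  symm x v w := by
    rw [add_apply, add_apply, add_apply, add_apply, smul_apply, smul_apply, smul_apply,
      smul_apply, g.symm x v w, hh.symm x v w]
  pos x v hv := hpos x v hv
  isVonNBounded x := by
    apply vonN (E := E) (g.inner x + s • h x)
    intro v hv
    exact hpos x v hv
  contMDiff := g.contMDiff.add_section (ContMDiff.const_smul_section hh.smooth)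

variable (g) in
theorem exists_addMet (hh : SymTensor h) : ∃ s₀ : ℝ, 0 < s₀ ∧ ∀ s : ℝ, |s| ≤ s₀ →
    ∃ g' : ContMDiffRiemannianMetric I ∞ E (fun x : M => TangentSpace I x),
      ∀ x (v w : TangentSpace I x), g'.inner x v w = g.inner x v w + s * h x v w := by
  obtain ⟨C, hC, hb⟩ := bound_bil g hh.smooth
  refine ⟨1 / (2 * (C + 1)), by positivity, fun s hs => ?_⟩
  refine ⟨addMet g h hh s ?_, fun x v w => rfl⟩
  intro x v hv
  have h1 := hb x v v
  rw [← sq, nm_sq] at h1
  have h2 := g.pos x v hv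
  have h3 : |s * h x v v| ≤ 1 / 2 * g.inner x v v := by
    rw [abs_mul]
    calc |s| * |h x v v| ≤ 1 / (2 * (C + 1)) * (C * g.inner x v v) :=
          mul_le_mul hs h1 (abs_nonneg _) (by positivity)
      _ = (C / (C + 1)) * (1 / 2 * g.inner x v v) := by field_simp
      _ ≤ 1 * (1 / 2 * g.inner x v v) := by
          refine mul_le_mul_of_nonneg_right ?_ (by positivity)
          rw [div_le_one (by positivity)]
          linarith
      _ = _ := one_mul _
  have h4 := (abs_le.1 h3).1
  linarith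

end gen

variable {E : Type*} [NormedAddCommGroup E] [NormedSpace ℝ E] [FiniteDimensional ℝ E]
  {M : Type*} [TopologicalSpace M] [ChartedSpace E M] [IsManifold 𝓘(ℝ, E) ∞ M]
  [T2Space M] [CompactSpace M] [Nontrivial E]
  {g : ContMDiffRiemannianMetric 𝓘(ℝ, E) ∞ E (fun x : M => TangentSpace 𝓘(ℝ, E) x)}
  {cov : CovariantDerivative 𝓘(ℝ, E) E (TangentSpace 𝓘(ℝ, E) : M → Type _)}
  {h : Π x : M, TangentSpace 𝓘(ℝ, E) x →L[ℝ] TangentSpace 𝓘(ℝ, E) x →L[ℝ] ℝ}
  {N : ℕ} (D : FrameData 𝓘(ℝ, E) M (Fin N))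

/-- the first variation in frame coordinates -/
def ell (h : Π x : M, TangentSpace 𝓘(ℝ, E) x →L[ℝ] TangentSpace 𝓘(ℝ, E) x →L[ℝ] ℝ)
    (cov : CovariantDerivative 𝓘(ℝ, E) E (TangentSpace 𝓘(ℝ, E) : M → Type _))
    (z : M × (Fin N → ℝ) × (Fin N → ℝ)) : ℝ := LV h cov z.1 (Ev D z.1 z.2.1) (Ev D z.1 z.2.2)

theorem ell_eq (x : M) (u v : TangentSpace 𝓘(ℝ, E) x) :
    ell D h cov (x, Fv D x u, Fv D x v) = LV h cov x u v := by
  unfold ell
  rw [Ev_Fv, Ev_Fv]

/-- **Continuity of the first variation.** -/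
theorem continuousOn_ell (hh : SymTensor h) (hc : IsLeviCivita g cov) {R : CurvField 𝓘(ℝ, E) M}
    (hR : IsRiemannTensor cov R) : ContinuousOn (ell D h cov) (PL g D) := by
  obtain ⟨C, s₀, hC, hs₀, hexp⟩ := expand_bound hh.smooth hc
  obtain ⟨s₁, hs₁, hmet⟩ := exists_addMet g hh
  obtain ⟨k, hkc, hk⟩ := exists_cont_sec D hc hR
  obtain ⟨σ, hσ⟩ : ∃ σ, σ = min s₀ s₁ := ⟨_, rfl⟩
  have hσ0 : 0 < σ := by rw [hσ]; exact lt_min hs₀ hs₁
  have hseq : ∀ n : ℕ, ∃ K : M × (Fin N → ℝ) × (Fin N → ℝ) → ℝ, Continuous K ∧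
      ∀ z ∈ PL g D, |K z - ell D h cov z| ≤ C * (σ / (n + 1)) := by
    intro n
    obtain ⟨s, hs⟩ : ∃ s, s = σ / ((n : ℝ) + 1) := ⟨_, rfl⟩
    have hs0 : 0 < s := by rw [hs]; positivity
    have hsσ : s ≤ σ := by
      rw [hs]
      exact div_le_self hσ0.le (by have : (0 : ℝ) ≤ n := n.cast_nonneg; linarith)
    have hss0 : |s| ≤ s₀ := by rw [abs_of_pos hs0]; exact hsσ.trans (by rw [hσ]; exact min_le_left _ _)
    have hss1 : |s| ≤ s₁ := by
      rw [abs_of_pos hs0]; exact hsσ.trans (by rw [hσ]; exact min_le_right _ _)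
    obtain ⟨g', hg'⟩ := hmet s hss1
    obtain ⟨cov', hc'⟩ := exists_LC g'
    obtain ⟨R', hR'⟩ := exists_riemann_of_LC hc'
    obtain ⟨k', hkc', hk'⟩ := exists_cont_sec D hc' hR'
    refine ⟨fun z => (k' z - k z) / s, (hkc'.sub hkc).div_const s, ?_⟩
    rintro ⟨x, a, b⟩ ⟨u, v, huv, ha, hb⟩
    have ez : (x, a, b) = (x, Fv D x u, Fv D x v) := Prod.ext rfl (Prod.ext ha hb)
    rw [ez, ell_eq]
    show |(k' (x, Fv D x u, Fv D x v) - k (x, Fv D x u, Fv D x v)) / s - LV h cov x u v| ≤ _
    rw [hk, hk']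
    have h1 := hexp s hss0 g' cov' R R' hg' hc' hR hR' x u v huv
    have e1 : (sec g' R' x u v - sec g R x u v) / s - LV h cov x u v =
        (g'.inner x (R' x u v v) u - (g.inner x (R x u v v) u + s * LV h cov x u v)) / s := by
      unfold sec
      field_simp
      ring
    rw [e1, abs_div, abs_of_pos hs0, div_le_iff₀ hs0, ← hs]
    calc |g'.inner x (R' x u v v) u - (g.inner x (R x u v v) u + s * LV h cov x u v)|
        ≤ C * s ^ 2 := h1
      _ = C * s * s := by ring
  choose K hKc hK using hseq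
  have hunif : TendstoUniformlyOn K (ell D h cov) atTop (PL g D) := by
    rw [Metric.tendstoUniformlyOn_iff]
    intro ε hε
    have h1 : Tendsto (fun n : ℕ => C * (σ / ((n : ℝ) + 1))) atTop (𝓝 0) := by
      have h2 : Tendsto (fun n : ℕ => σ * (1 / ((n : ℝ) + 1))) atTop (𝓝 (σ * 0)) :=
        (tendsto_one_div_add_atTop_nhds_zero_nat (𝕜 := ℝ)).const_mul σ
      have h3 := h2.const_mul C
      rw [mul_zero, mul_zero] at h3
      refine h3.congr fun n => ?_
      rw [mul_one_div]
    filter_upwards [h1.eventually (gt_mem_nhds hε)] with n hn z hz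
    rw [dist_comm, Real.dist_eq]
    exact (hK n z hz).trans_lt hn
  exact hunif.continuousOn (Frequently.of_forall fun n => (hKc n).continuousOn)

/-- **First order deformation to positive curvature.** -/
theorem deform (hh : SymTensor h) (hc : IsLeviCivita g cov) {R : CurvField 𝓘(ℝ, E) M}
    (hR : IsRiemannTensor cov R)
    (hnn : ∀ (x : M) (u v : TangentSpace 𝓘(ℝ, E) x), OrthoPair g x u v → 0 ≤ sec g R x u v)
    (hpos : ∀ (x : M) (u v : TangentSpace 𝓘(ℝ, E) x), OrthoPair g x u v → sec g R x u v = 0 →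
      0 < LV h cov x u v) :
    ∃ s₀ : ℝ, 0 < s₀ ∧ ∀ s : ℝ, 0 < s → s < s₀ →
      ∃ g' : ContMDiffRiemannianMetric 𝓘(ℝ, E) ∞ E (fun x : M => TangentSpace 𝓘(ℝ, E) x),
        (∀ x (v w : TangentSpace 𝓘(ℝ, E) x), g'.inner x v w = g.inner x v w + s * h x v w) ∧
        HasPositiveSectionalCurvature g' := by
  obtain ⟨C, s₀, hC, hs₀, hexp⟩ := expand_bound hh.smooth hc
  obtain ⟨s₁, hs₁, hmet⟩ := exists_addMet g hh
  obtain ⟨N, D, hinj⟩ := exists_frame 𝓘(ℝ, E) M
  obtain ⟨k, hkc, hk⟩ := exists_cont_sec D hc hR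
  obtain ⟨s₂, hs₂, hs⟩ := compact_pos (isCompact_PL g D) hkc.continuousOn
    (continuousOn_ell D hh hc hR) (by
    rintro ⟨x, a, b⟩ ⟨u, v, huv, ha, hb⟩
    have ez : (x, a, b) = (x, Fv D x u, Fv D x v) := Prod.ext rfl (Prod.ext ha hb)
    rw [ez, hk]
    exact hnn x u v huv) (by
    rintro ⟨x, a, b⟩ ⟨u, v, huv, ha, hb⟩ h0
    have ez : (x, a, b) = (x, Fv D x u, Fv D x v) := Prod.ext rfl (Prod.ext ha hb)
    rw [ez, hk] at h0
    rw [ez, ell_eq]
    exact hpos x u v huv h0) hC
  refine ⟨min s₀ (min s₁ s₂), by positivity, ?_⟩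
  intro s hs0 hs1
  have t0 : |s| ≤ s₀ := by rw [abs_of_pos hs0]; exact (hs1.trans_le (min_le_left _ _)).le
  have t1 : |s| ≤ s₁ := by
    rw [abs_of_pos hs0]; exact (hs1.trans_le ((min_le_right _ _).trans (min_le_left _ _))).le
  have t2 : s < s₂ := hs1.trans_le ((min_le_right _ _).trans (min_le_right _ _))
  obtain ⟨g', hg'⟩ := hmet s t1
  obtain ⟨cov', hc'⟩ := exists_LC g'
  obtain ⟨R', hR'⟩ := exists_riemann_of_LC hc'
  refine ⟨g', hg', HasPositiveSectionalCurvature.of_exists hc' hR' ?_⟩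
  -- positivity on `g`-orthonormal pairs
  have hp : ∀ (x : M) (u v : TangentSpace 𝓘(ℝ, E) x), OrthoPair g x u v →
      0 < g'.inner x (R' x u v v) u := by
    intro x u v huv
    have h1 := hs s hs0 t2 (x, Fv D x u, Fv D x v) ⟨u, v, huv, rfl, rfl⟩
    rw [hk, ell_eq] at h1
    have h2 := (abs_le.1 (hexp s t0 g' cov' R R' hg' hc' hR hR' x u v huv)).1
    have h5 : sec g R x u v = g.inner x (R x u v v) u := rfl
    rw [h5] at h1
    linarith
  intro x u v huv
  exact num_pos hc' hR' x (hp x) u v (ortho_li huv)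

end Pool.Agent.Helper62.KP
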